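import Pool.Agent.U999.OD.Cnt

set_option autoImplicit false

namespace Pool.Agent.U999.OD

open Finset
open scoped Classical

theorem flat_count (v D : ℝ) (hD : 0 < D) (k : ℕ) :
    ((range k).filter (fun j : ℕ => |v + 2 * j * D| < D)).card ≤ 1 := by
  rw [Finset.card_le_one]
  intro i hi j hj
  have h1 := (Finset.mem_filter.1 hi).2
  have h2 := (Finset.mem_filter.1 hj).2
  rw [abs_lt] at h1 h2
  by_contra hne
  rcases lt_or_gt_of_ne hne with h | h
  · have h3 : (i : ℝ) + 1 ≤ j := by exact_mod_cast h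
    nlinarith
  · have h3 : (j : ℝ) + 1 ≤ i := by exact_mod_cast h
    nlinarith

theorem var_add (g : ℕ → ℝ) (c s : ℝ) (hs : |s| = 1) (n : ℕ) :
    Var (fun x => s * g x + c * x) n ≤ Var g n + |c| * n := by
  unfold Var
  have : |c| * (n : ℝ) = ∑ x ∈ range n, |c| := by simp [mul_comm]
  rw [this, ← Finset.sum_add_distrib]
  refine Finset.sum_le_sum fun x _ => ?_
  have e : s * g (x + 1) + c * ((x + 1 : ℕ) : ℝ) - (s * g x + c * (x : ℝ)) =
      s * (g (x + 1) - g x) + c := by push_cast; ring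
  rw [e]
  refine (abs_add_le _ _).trans ?_
  rw [abs_mul, hs, one_mul]

theorem bad_le (b : ℕ) (F : ℕ → ℝ) (t x : ℕ) :
    (if ¬ good b F t x then (1 : ℝ) else 0) ≤
      (if |inc F (b ^ t * b) (x / b ^ t / b)| < ((b ^ t * b : ℕ) : ℝ) then (1 : ℝ) else 0) +
      (if (b : ℝ) ^ t < S b F t x then (1 : ℝ) else 0) +
      (if (((b ^ t * b : ℕ) : ℝ) ≤ inc F (b ^ t * b) (x / b ^ t / b) ∧
        ¬ nonexc F (b ^ t) ((x / b ^ t / b + 1) * b) (x / b ^ t)) then (1 : ℝ) else 0) +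
      (if (((b ^ t * b : ℕ) : ℝ) ≤ inc (fun y => - F y) (b ^ t * b) (x / b ^ t / b) ∧
        ¬ nonexc (fun y => - F y) (b ^ t) ((x / b ^ t / b + 1) * b) (x / b ^ t))
        then (1 : ℝ) else 0) := by
  have i1 : ∀ (p : Prop) [Decidable p], (0 : ℝ) ≤ (if p then (1 : ℝ) else 0) := by
    intro p _; split_ifs <;> norm_num
  by_cases hg : good b F t x
  · rw [if_neg (not_not.2 hg)]
    have := i1
    positivity
  · rw [if_pos hg]
    by_cases h1 : (b : ℝ) ^ t < S b F t x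
    · rw [if_pos h1]
      have a1 := i1 (|inc F (b ^ t * b) (x / b ^ t / b)| < ((b ^ t * b : ℕ) : ℝ))
      have a2 := i1 (((b ^ t * b : ℕ) : ℝ) ≤ inc F (b ^ t * b) (x / b ^ t / b) ∧
        ¬ nonexc F (b ^ t) ((x / b ^ t / b + 1) * b) (x / b ^ t))
      have a3 := i1 (((b ^ t * b : ℕ) : ℝ) ≤ inc (fun y => - F y) (b ^ t * b) (x / b ^ t / b) ∧
        ¬ nonexc (fun y => - F y) (b ^ t) ((x / b ^ t / b + 1) * b) (x / b ^ t))
      linarith
    · by_cases h2 : |inc F (b ^ t * b) (x / b ^ t / b)| < ((b ^ t * b : ℕ) : ℝ)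
      · rw [if_pos h2]
        have a1 := i1 ((b : ℝ) ^ t < S b F t x)
        have a2 := i1 (((b ^ t * b : ℕ) : ℝ) ≤ inc F (b ^ t * b) (x / b ^ t / b) ∧
          ¬ nonexc F (b ^ t) ((x / b ^ t / b + 1) * b) (x / b ^ t))
        have a3 := i1 (((b ^ t * b : ℕ) : ℝ) ≤ inc (fun y => - F y) (b ^ t * b) (x / b ^ t / b) ∧
          ¬ nonexc (fun y => - F y) (b ^ t) ((x / b ^ t / b + 1) * b) (x / b ^ t))
        linarith
      · push Not at h1 h2
        by_cases h3 : 0 ≤ inc F (b ^ t * b) (x / b ^ t / b)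
        · rw [abs_of_nonneg h3] at h2
          have h4 : ¬ nonexc F (b ^ t) ((x / b ^ t / b + 1) * b) (x / b ^ t) := by
            intro h5
            apply hg
            unfold good
            rw [if_pos h3]
            exact ⟨h1, h5⟩
          rw [if_pos (⟨h2, h4⟩ : _ ∧ _)]
          have a1 := i1 ((b : ℝ) ^ t < S b F t x)
          have a2 := i1 (|inc F (b ^ t * b) (x / b ^ t / b)| < ((b ^ t * b : ℕ) : ℝ))
          have a3 := i1 (((b ^ t * b : ℕ) : ℝ) ≤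
            inc (fun y => - F y) (b ^ t * b) (x / b ^ t / b) ∧
            ¬ nonexc (fun y => - F y) (b ^ t) ((x / b ^ t / b + 1) * b) (x / b ^ t))
          linarith
        · have h3' := h3
          push Not at h3'
          rw [abs_of_neg h3'] at h2
          have h4 : ¬ nonexc (fun y => - F y) (b ^ t) ((x / b ^ t / b + 1) * b) (x / b ^ t) := by
            intro h5
            apply hg
            unfold good
            rw [if_neg h3]
            exact ⟨h1, h5⟩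
          rw [← inc_neg] at h2
          have a4 : (if (((b ^ t * b : ℕ) : ℝ) ≤ inc (fun y => - F y) (b ^ t * b)
              (x / b ^ t / b) ∧
              ¬ nonexc (fun y => - F y) (b ^ t) ((x / b ^ t / b + 1) * b) (x / b ^ t))
              then (1 : ℝ) else 0) = 1 := if_pos ⟨h2, h4⟩
          rw [a4]
          have a1 := i1 ((b : ℝ) ^ t < S b F t x)
          have a2 := i1 (|inc F (b ^ t * b) (x / b ^ t / b)| < ((b ^ t * b : ℕ) : ℝ))
          have a3 := i1 (((b ^ t * b : ℕ) : ℝ) ≤ inc F (b ^ t * b) (x / b ^ t / b) ∧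
            ¬ nonexc F (b ^ t) ((x / b ^ t / b + 1) * b) (x / b ^ t))
          linarith

theorem core1 (b : ℕ) (hb : 2 ≤ b) (T : ℕ) (g : ℕ → ℝ) (k : ℕ) (hk : 1 ≤ k) (L : Finset ℕ)
    (hL : L ⊆ range (b ^ T)) :
    ∃ j < k, ∑ x ∈ L, ∑ t ∈ range T,
      (if ¬ good b (fun x => 2 * g x + (2 * j : ℝ) * x) t x then (1 : ℝ) else 0) ≤
      L.card * T / k + 12 * (Var g (b ^ T) + k * (b : ℝ) ^ T) := by
  have hb0 : 0 < b := by omega
  have hkr : (0 : ℝ) < k := by exact_mod_cast hk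
  set fl : ℕ → ℕ → ℕ → ℝ := fun j x t =>
    (if |inc (fun x => 2 * g x + (2 * j : ℝ) * x) (b ^ t * b) (x / b ^ t / b)| <
      ((b ^ t * b : ℕ) : ℝ) then (1 : ℝ) else 0) with hfl
  have hsum : ∑ j ∈ range k, ∑ x ∈ L, ∑ t ∈ range T, fl j x t ≤
      ∑ j ∈ range k, (L.card * T / k : ℝ) := by
    have e1 : ∑ j ∈ range k, (L.card * T / k : ℝ) = ∑ x ∈ L, ∑ t ∈ range T, (1 : ℝ) := by
      simp only [Finset.sum_const, Finset.card_range, nsmul_eq_mul]
      field_simp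
    rw [e1, Finset.sum_comm]
    refine Finset.sum_le_sum fun x _ => ?_
    rw [Finset.sum_comm]
    refine Finset.sum_le_sum fun t _ => ?_
    have hD : (0 : ℝ) < ((b ^ t * b : ℕ) : ℝ) := by
      have : 0 < b ^ t * b := by positivity
      exact_mod_cast this
    have h1 := flat_count (2 * inc g (b ^ t * b) (x / b ^ t / b)) _ hD k
    have h2 : ∑ j ∈ range k, fl j x t = (((range k).filter (fun j : ℕ =>
        |2 * inc g (b ^ t * b) (x / b ^ t / b) + 2 * j * ((b ^ t * b : ℕ) : ℝ)| <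
          ((b ^ t * b : ℕ) : ℝ))).card : ℝ) := by
      rw [Finset.card_filter]
      push_cast
      refine Finset.sum_congr rfl fun j _ => ?_
      simp only [hfl]
      have : inc (fun x => 2 * g x + (2 * j : ℝ) * x) (b ^ t * b) (x / b ^ t / b) =
          2 * inc g (b ^ t * b) (x / b ^ t / b) + 2 * j * ((b ^ t * b : ℕ) : ℝ) := by
        simp only [inc]; push_cast; ring
      rw [this]
      push_cast
      rfl
    rw [h2]
    exact_mod_cast h1
  obtain ⟨j, hj, hj2⟩ := Finset.exists_le_of_sum_le ⟨0, Finset.mem_range.2 hk⟩ hsum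
  have hjk := Finset.mem_range.1 hj
  refine ⟨j, hjk, ?_⟩
  set F : ℕ → ℝ := fun x => 2 * g x + (2 * j : ℝ) * x with hF
  have hjr : (j : ℝ) + 1 ≤ k := by exact_mod_cast hjk
  have hj0 : (0 : ℝ) ≤ j := Nat.cast_nonneg j
  have hN : (0 : ℝ) ≤ (b : ℝ) ^ T := by positivity
  have hN2 : ((b ^ T : ℕ) : ℝ) = (b : ℝ) ^ T := by push_cast; ring
  have c1 := over_count b hb F T
  have c2 := steep_count b hb F T
  have c3 := steep_count b hb (fun y => - F y) T
  have v0 : Var (fun x => 2 * g x) (b ^ T) = 2 * Var g (b ^ T) := by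
    unfold Var
    rw [Finset.mul_sum]
    refine Finset.sum_congr rfl fun x _ => ?_
    rw [← mul_sub, abs_mul, abs_of_pos (by norm_num : (0 : ℝ) < 2)]
  have v1 : Var F (b ^ T) ≤ 2 * Var g (b ^ T) + 2 * k * (b : ℝ) ^ T := by
    have := var_add (fun x => 2 * g x) (2 * j) 1 (by norm_num) (b ^ T)
    rw [abs_of_nonneg (by positivity), hN2, v0] at this
    simp only [one_mul] at this
    have h2 : (2 * j : ℝ) * (b : ℝ) ^ T ≤ 2 * k * (b : ℝ) ^ T :=
      mul_le_mul_of_nonneg_right (by linarith) hN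
    exact this.trans (by linarith)
  have v2 : Var (fun x => F x - x) (b ^ T) ≤ 2 * Var g (b ^ T) + 2 * k * (b : ℝ) ^ T := by
    have := var_add (fun x => 2 * g x) (2 * j - 1) 1 (by norm_num) (b ^ T)
    rw [hN2, v0] at this
    have e : (fun x : ℕ => F x - (x : ℝ)) =
        fun x : ℕ => 1 * (2 * g x) + ((2 * j : ℝ) - 1) * x := by
      funext x; simp only [hF]; ring
    rw [e]
    have h3 : |(2 * j : ℝ) - 1| ≤ 2 * k := by rw [abs_le]; constructor <;> linarith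
    have h2 : |(2 * j : ℝ) - 1| * (b : ℝ) ^ T ≤ 2 * k * (b : ℝ) ^ T :=
      mul_le_mul_of_nonneg_right h3 hN
    exact this.trans (by linarith)
  have v3 : Var (fun x => (fun y => - F y) x - (x : ℝ)) (b ^ T) ≤
      2 * Var g (b ^ T) + 2 * k * (b : ℝ) ^ T := by
    have := var_add (fun x => 2 * g x) (-(2 * j + 1)) (-1) (by norm_num) (b ^ T)
    rw [hN2, v0] at this
    have e : (fun x : ℕ => (fun y => - F y) x - (x : ℝ)) =
        fun x : ℕ => (-1) * (2 * g x) + (-((2 * j : ℝ) + 1)) * x := by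
      funext x; simp only [hF]; ring
    rw [e]
    have h3 : |(-((2 * j : ℝ) + 1))| ≤ 2 * k := by rw [abs_le]; constructor <;> linarith
    have h2 : |(-((2 * j : ℝ) + 1))| * (b : ℝ) ^ T ≤ 2 * k * (b : ℝ) ^ T :=
      mul_le_mul_of_nonneg_right h3 hN
    exact this.trans (by linarith)
  have hmono : ∀ f : ℕ → ℕ → ℝ, (∀ x t, 0 ≤ f x t) →
      ∑ x ∈ L, ∑ t ∈ range T, f x t ≤ ∑ x ∈ range (b ^ T), ∑ t ∈ range T, f x t := by
    intro f hf
    exact Finset.sum_le_sum_of_subset_of_nonneg hL fun x _ _ =>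
      Finset.sum_nonneg fun t _ => hf x t
  have i1 : ∀ (p : Prop) [Decidable p], (0 : ℝ) ≤ (if p then (1 : ℝ) else 0) := by
    intro p _; split_ifs <;> norm_num
  have d1 := hmono (fun x t => (if (b : ℝ) ^ t < S b F t x then (1 : ℝ) else 0))
    (fun x t => i1 _)
  have d2 := hmono (fun x t => (if (((b ^ t * b : ℕ) : ℝ) ≤ inc F (b ^ t * b) (x / b ^ t / b) ∧
        ¬ nonexc F (b ^ t) ((x / b ^ t / b + 1) * b) (x / b ^ t)) then (1 : ℝ) else 0))
    (fun x t => i1 _)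
  have d3 := hmono (fun x t => (if (((b ^ t * b : ℕ) : ℝ) ≤
        inc (fun y => - F y) (b ^ t * b) (x / b ^ t / b) ∧
        ¬ nonexc (fun y => - F y) (b ^ t) ((x / b ^ t / b + 1) * b) (x / b ^ t))
        then (1 : ℝ) else 0)) (fun x t => i1 _)
  have hmain : ∑ x ∈ L, ∑ t ∈ range T, (if ¬ good b F t x then (1 : ℝ) else 0) ≤
      ∑ x ∈ L, ∑ t ∈ range T, (fl j x t +
      (if (b : ℝ) ^ t < S b F t x then (1 : ℝ) else 0) +
      (if (((b ^ t * b : ℕ) : ℝ) ≤ inc F (b ^ t * b) (x / b ^ t / b) ∧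
        ¬ nonexc F (b ^ t) ((x / b ^ t / b + 1) * b) (x / b ^ t)) then (1 : ℝ) else 0) +
      (if (((b ^ t * b : ℕ) : ℝ) ≤ inc (fun y => - F y) (b ^ t * b) (x / b ^ t / b) ∧
        ¬ nonexc (fun y => - F y) (b ^ t) ((x / b ^ t / b + 1) * b) (x / b ^ t))
        then (1 : ℝ) else 0)) :=
    Finset.sum_le_sum fun x _ => Finset.sum_le_sum fun t _ => bad_le b F t x
  simp only [Finset.sum_add_distrib] at hmain
  linarith

theorem image_two (F : ℕ → ℝ) (L : Finset ℕ) :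
    (L.image (fun x => ⌊2 * F x⌋)).card ≤ 2 * (L.image (fun x => ⌊F x⌋)).card := by
  have hsub : L.image (fun x => ⌊2 * F x⌋) ⊆
      (L.image (fun x => ⌊F x⌋)).biUnion fun z => {2 * z, 2 * z + 1} := by
    intro w hw
    rw [Finset.mem_image] at hw
    obtain ⟨x, hx, rfl⟩ := hw
    rw [Finset.mem_biUnion]
    refine ⟨⌊F x⌋, Finset.mem_image_of_mem _ hx, ?_⟩
    rw [Finset.mem_insert, Finset.mem_singleton]
    have h1 := Int.floor_le (F x)
    have h2 := Int.lt_floor_add_one (F x)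
    have h3 : 2 * ⌊F x⌋ ≤ ⌊2 * F x⌋ := by rw [Int.le_floor]; push_cast; linarith
    have h4 : ⌊2 * F x⌋ < 2 * ⌊F x⌋ + 2 := by rw [Int.floor_lt]; push_cast; linarith
    omega
  refine (Finset.card_le_card hsub).trans ?_
  refine (Finset.card_biUnion_le_card_mul _ _ 2 fun z _ => Finset.card_le_two).trans ?_
  rw [mul_comm]

theorem core2 (p : ℕ) (hp : 1 ≤ p) (k : ℕ) (hk1 : 1 ≤ k) (β ρ : ℝ) (hβ : 0 < β) (hβ1 : β ≤ 1)
    (hρ : 0 < ρ) : ∃ T₀ : ℕ, ∀ T, T₀ ≤ T → ∀ (g : ℕ → ℝ) (L : Finset ℕ),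
      L ⊆ range ((2 ^ p) ^ T) → ρ * (((2 ^ p) ^ T : ℕ) : ℝ) ≤ L.card →
      Var g ((2 ^ p) ^ T) ≤ ρ * β / 48 * T * (((2 ^ p) ^ T : ℕ) : ℝ) →
      ∃ j < k, β / 8 * ρ * (((2 ^ p) ^ T : ℕ) : ℝ) ≤
        ((L.image (fun x : ℕ => ⌊g x + (j : ℝ) * x⌋)).card : ℝ) *
          (2 ^ T * (8 ^ T * ((2 : ℝ) ^ p) ^ (⌊(1 / k + β) * T⌋₊))) := by
  have hk0 : (0 : ℝ) < k := by exact_mod_cast hk1
  obtain ⟨T₀, hT₀⟩ := exists_nat_ge (48 * k / (ρ * β) + 1)
  refine ⟨T₀, fun T hT g L hL hLc hV => ?_⟩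
  have hT1 : 48 * k / (ρ * β) + 1 ≤ (T : ℝ) := hT₀.trans (by exact_mod_cast hT)
  have hT0 : (0 : ℝ) < T := lt_of_lt_of_le (by positivity) hT1
  have hb : 2 ≤ 2 ^ p := by
    calc 2 = 2 ^ 1 := by norm_num
      _ ≤ 2 ^ p := Nat.pow_le_pow_right (by norm_num) hp
  obtain ⟨j, hj, h1⟩ := core1 (2 ^ p) hb T g k hk1 L hL
  refine ⟨j, hj, ?_⟩
  set F : ℕ → ℝ := fun x => 2 * g x + (2 * j : ℝ) * x with hF
  set N : ℝ := (((2 ^ p) ^ T : ℕ) : ℝ) with hN
  have hN0 : 0 < N := by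
    rw [hN]
    have : 0 < (2 ^ p) ^ T := by positivity
    exact_mod_cast this
  have hN2 : (((2 ^ p : ℕ) : ℝ)) ^ T = N := by rw [hN]; push_cast; ring
  rw [hN2] at h1
  set γ : ℝ := 1 / k + β with hγ
  have hγ0 : 0 < γ := by positivity
  have hγ2 : γ ≤ 2 := by
    have : 1 / (k : ℝ) ≤ 1 := by
      rw [div_le_one hk0]; exact_mod_cast hk1
    linarith
  set bad : ℕ → ℕ := fun x => ((range T).filter (fun t => ¬ good (2 ^ p) F t x)).card with hbad
  have h2 : ∑ x ∈ L, (bad x : ℝ) ≤ (1 / k + β / 2) * T * L.card := by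
    have e1 : ∀ x ∈ L, (bad x : ℝ) =
        ∑ t ∈ range T, (if ¬ good (2 ^ p) F t x then (1 : ℝ) else 0) := by
      intro x _
      simp only [hbad]
      rw [Finset.card_filter]
      push_cast
      rfl
    rw [Finset.sum_congr rfl e1]
    refine h1.trans ?_
    have hLc0 : (0 : ℝ) ≤ L.card := Nat.cast_nonneg _
    have a1 : (L.card : ℝ) * T / k = 1 / k * T * L.card := by ring
    have a2 : 12 * Var g ((2 ^ p) ^ T) ≤ β * T / 4 * L.card := by
      have h3 : ρ * β / 48 * T * N ≤ β / 48 * T * L.card := by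
        have : 0 ≤ β / 48 * T := by positivity
        nlinarith
      linarith
    have a3 : 12 * (k * N) ≤ β * T / 4 * L.card := by
      have h3 : 48 * k / (ρ * β) ≤ T := by linarith
      rw [div_le_iff₀ (by positivity)] at h3
      have h4 : 48 * k * N ≤ T * (ρ * β) * N := mul_le_mul_of_nonneg_right h3 hN0.le
      have h5 : T * (ρ * β) * N ≤ T * β * L.card := by
        have : 0 ≤ (T : ℝ) * β := by positivity
        nlinarith
      linarith
    rw [a1]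
    linarith
  set L' := L.filter (fun x => bad x ≤ ⌊γ * T⌋₊) with hL'
  have h3 : β / 4 * (L.card : ℝ) ≤ L'.card := by
    have h4 : L'.card + (L.filter (fun x => ¬ bad x ≤ ⌊γ * T⌋₊)).card = L.card :=
      Finset.card_filter_add_card_filter_not _
    set M := L.filter (fun x => ¬ bad x ≤ ⌊γ * T⌋₊) with hM
    have h5 : (M.card : ℝ) * (γ * T) ≤ ∑ x ∈ L, (bad x : ℝ) := by
      calc (M.card : ℝ) * (γ * T) = ∑ x ∈ M, (γ * T) := by
            rw [Finset.sum_const, nsmul_eq_mul]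
        _ ≤ ∑ x ∈ M, (bad x : ℝ) := by
            refine Finset.sum_le_sum fun x hx => ?_
            rw [hM, Finset.mem_filter] at hx
            have h6 := hx.2
            push Not at h6
            exact (Nat.lt_of_floor_lt h6).le
        _ ≤ ∑ x ∈ L, (bad x : ℝ) :=
            Finset.sum_le_sum_of_subset_of_nonneg (Finset.filter_subset _ _)
              fun x _ _ => Nat.cast_nonneg _
    have h6 : (M.card : ℝ) * (γ * T) ≤ (1 / k + β / 2) * T * L.card := h5.trans h2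
    have h7 : (M.card : ℝ) * γ ≤ (1 / k + β / 2) * L.card := by
      have h9 : ((M.card : ℝ) * γ) * T ≤ ((1 / k + β / 2) * L.card) * T := by linarith
      exact le_of_mul_le_mul_right h9 hT0
    have h8 : (L'.card : ℝ) + M.card = L.card := by exact_mod_cast h4
    have h10 : β / 2 * L.card ≤ γ * L'.card := by
      have : γ * L'.card = γ * L.card - M.card * γ := by rw [← h8]; ring
      rw [this]
      have : γ * (L.card : ℝ) = (1 / k + β / 2) * L.card + β / 2 * L.card := by rw [hγ]; ring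
      linarith
    have h11 : γ * (L'.card : ℝ) ≤ 2 * L'.card :=
      mul_le_mul_of_nonneg_right hγ2 (Nat.cast_nonneg _)
    linarith
  have h4 := cells_lower (2 ^ p) hb F T ⌊γ * T⌋₊ L' ((Finset.filter_subset _ _).trans hL)
    (fun x hx => (Finset.mem_filter.1 hx).2)
  have h5 : (L'.image (fun x => ⌊F x⌋)).card ≤ 2 * (L.image (fun x : ℕ =>
      ⌊g x + (j : ℝ) * x⌋)).card := by
    have e1 : (fun x : ℕ => ⌊F x⌋) = fun x : ℕ => ⌊2 * (g x + (j : ℝ) * x)⌋ := by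
      funext x
      simp only [hF]
      congr 1
      ring
    rw [e1]
    exact (Finset.card_le_card (Finset.image_subset_image (Finset.filter_subset _ _))).trans
      (image_two (fun x : ℕ => g x + (j : ℝ) * x) L)
  have h6 : (L'.card : ℝ) ≤ 2 * ((L.image (fun x : ℕ => ⌊g x + (j : ℝ) * x⌋)).card : ℝ) *
      (2 ^ T * (8 ^ T * ((2 : ℝ) ^ p) ^ (⌊γ * T⌋₊))) := by
    have h7 := h4.trans (Nat.mul_le_mul_right _ h5)
    have h8 := (Nat.cast_le (α := ℝ)).2 h7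
    rw [Nat.cast_mul, Nat.cast_mul] at h8
    push_cast at h8 ⊢
    exact h8
  have h7 : β / 4 * (ρ * N) ≤ β / 4 * L.card :=
    mul_le_mul_of_nonneg_left hLc (by positivity)
  have h8 := h7.trans (h3.trans h6)
  linarith

/-- **The discrete core**: if the variation of `g` is small compared with `T 2^(pT)`, one of the
`k` functions `g x + j x` takes about `2^(pT(1-1/k))` values. -/
theorem core (k : ℕ) (hk1 : 1 ≤ k) (ε : ℝ) (hε : 0 < ε) : ∃ p : ℕ, 1 ≤ p ∧ ∀ ρ : ℝ, 0 < ρ →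
    ∃ c κ : ℝ, 0 < c ∧ 0 < κ ∧ ∃ T₀ : ℕ, ∀ T, T₀ ≤ T → ∀ (g : ℕ → ℝ) (L : Finset ℕ),
      L ⊆ range ((2 ^ p) ^ T) → ρ * (((2 ^ p) ^ T : ℕ) : ℝ) ≤ L.card →
      Var g ((2 ^ p) ^ T) ≤ c * T * (((2 ^ p) ^ T : ℕ) : ℝ) →
      ∃ j < k, κ * (2 : ℝ) ^ ((p : ℝ) * T * (1 - 1 / k - ε / 2)) ≤
        ((L.image (fun x : ℕ => ⌊g x + (j : ℝ) * x⌋)).card : ℝ) := by
  obtain ⟨p, hp⟩ := exists_nat_ge (16 / ε + 1)
  have hp1 : (1 : ℝ) ≤ p := le_trans (by have : 0 < 16 / ε := by positivity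
                                         linarith) hp
  have hk0 : (0 : ℝ) < k := by exact_mod_cast hk1
  refine ⟨p, by exact_mod_cast hp1, fun ρ hρ => ?_⟩
  set β : ℝ := min (ε / 4) 1 with hβdef
  have hβ : 0 < β := lt_min (by positivity) one_pos
  have hβ1 : β ≤ 1 := min_le_right _ _
  have hβ2 : β ≤ ε / 4 := min_le_left _ _
  refine ⟨ρ * β / 48, β / 8 * ρ, by positivity, by positivity, ?_⟩
  obtain ⟨T₀, hT₀⟩ := core2 p (by exact_mod_cast hp1) k hk1 β ρ hβ hβ1 hρ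
  refine ⟨T₀, fun T hT g L hL hLc hV => ?_⟩
  obtain ⟨j, hj, h⟩ := hT₀ T hT g L hL hLc hV
  refine ⟨j, hj, ?_⟩
  set C : ℝ := ((L.image (fun x : ℕ => ⌊g x + (j : ℝ) * x⌋)).card : ℝ) with hC
  have hC0 : 0 ≤ C := Nat.cast_nonneg _
  have e1 : (((2 ^ p) ^ T : ℕ) : ℝ) = (2 : ℝ) ^ ((p : ℝ) * T) := by
    push_cast
    rw [← pow_mul, ← Real.rpow_natCast]
    push_cast
    rfl
  have e2 : (2 : ℝ) ^ T * (8 ^ T * ((2 : ℝ) ^ p) ^ (⌊(1 / k + β) * T⌋₊)) ≤
      (2 : ℝ) ^ (4 * (T : ℝ) + p * ((1 / k + ε / 4) * T)) := by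
    have a1 : (2 : ℝ) ^ T * 8 ^ T = (2 : ℝ) ^ (4 * (T : ℝ)) := by
      rw [← mul_pow, ← Real.rpow_natCast]
      rw [show (2 * 8 : ℝ) = (2 : ℝ) ^ (4 : ℝ) from by norm_num, ← Real.rpow_mul (by norm_num)]
    have a2 : ((2 : ℝ) ^ p) ^ (⌊(1 / k + β) * T⌋₊) ≤
        (2 : ℝ) ^ ((p : ℝ) * ((1 / k + ε / 4) * T)) := by
      rw [← pow_mul, ← Real.rpow_natCast]
      apply Real.rpow_le_rpow_of_exponent_le (by norm_num)
      push_cast
      refine mul_le_mul_of_nonneg_left ((Nat.floor_le (by positivity)).trans ?_) (by positivity)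
      exact mul_le_mul_of_nonneg_right (by linarith) (Nat.cast_nonneg T)
    rw [← mul_assoc, a1, Real.rpow_add (by norm_num)]
    exact mul_le_mul_of_nonneg_left a2 (by positivity)
  rw [e1] at h
  have h2 : β / 8 * ρ * (2 : ℝ) ^ ((p : ℝ) * T) ≤
      C * (2 : ℝ) ^ (4 * (T : ℝ) + p * ((1 / k + ε / 4) * T)) :=
    h.trans (mul_le_mul_of_nonneg_left e2 hC0)
  have h3 : (2 : ℝ) ^ ((p : ℝ) * T) =
      (2 : ℝ) ^ ((p : ℝ) * T - (4 * (T : ℝ) + p * ((1 / k + ε / 4) * T))) *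
      (2 : ℝ) ^ (4 * (T : ℝ) + p * ((1 / k + ε / 4) * T)) := by
    rw [← Real.rpow_add (by norm_num)]
    congr 1; ring
  rw [h3, ← mul_assoc] at h2
  have h4 : β / 8 * ρ * (2 : ℝ) ^ ((p : ℝ) * T - (4 * (T : ℝ) + p * ((1 / k + ε / 4) * T))) ≤ C :=
    le_of_mul_le_mul_right h2 (by positivity)
  refine le_trans ?_ h4
  refine mul_le_mul_of_nonneg_left ?_ (by positivity)
  apply Real.rpow_le_rpow_of_exponent_le (by norm_num)
  have h5 : 16 ≤ ε * p := by
    have : 16 / ε ≤ p := by linarith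
    rw [div_le_iff₀ hε] at this
    linarith
  have hT0 : (0 : ℝ) ≤ T := Nat.cast_nonneg T
  have e5 : (p : ℝ) * T - (4 * (T : ℝ) + p * ((1 / k + ε / 4) * T)) -
      (p : ℝ) * T * (1 - 1 / k - ε / 2) = T * (ε * p / 4 - 4) := by ring
  have h6 : 0 ≤ (T : ℝ) * (ε * p / 4 - 4) := mul_nonneg hT0 (by linarith)
  linarith

end Pool.Agent.U999.OD
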