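import Mathlib
import Pool.Agent.U999.OD.GCore

set_option autoImplicit false

namespace Pool.Agent.U999.OD

open Finset
open scoped Classical

/-- total excess of the variation over the increment -/
noncomputable def TE (F : ℕ → ℝ) (n : ℕ) : ℝ := Var F n - |F n - F 0|

theorem sumDelE (b : ℕ) (F : ℕ → ℝ) (T : ℕ) :
    ∑ t ∈ range T, ∑ q ∈ range (b ^ (T - 1 - t)), Del b F (b ^ t) q ≤ TE F (b ^ T) := by
  have h : ∀ t ∈ range T, ∑ q ∈ range (b ^ (T - 1 - t)), Del b F (b ^ t) q =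
      (fun t => ∑ q ∈ range (b ^ (T - t)), |inc F (b ^ t) q|) t -
        (fun t => ∑ q ∈ range (b ^ (T - t)), |inc F (b ^ t) q|) (t + 1) := by
    intro t ht
    exact sumDel_eq b F T t (Finset.mem_range.1 ht)
  rw [Finset.sum_congr rfl h, Finset.sum_range_sub']
  have h0 : ∑ q ∈ range (b ^ (T - T)), |inc F (b ^ T) q| = |F (b ^ T) - F 0| := by
    simp [inc]
  have h1 : ∑ q ∈ range (b ^ (T - 0)), |inc F (b ^ 0) q| = Var F (b ^ T) := by
    simp [Var, inc]
  unfold TE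
  simp only at *
  linarith

theorem inc_le_Var (G : ℕ → ℝ) (n : ℕ) : |G n - G 0| ≤ Var G n := by
  unfold Var
  rw [← Finset.sum_range_sub]
  exact Finset.abs_sum_le_sum_abs _ _

theorem TE_le (G H : ℕ → ℝ) (n : ℕ)
    (hH : (∀ i, 0 ≤ H (i + 1) - H i) ∨ (∀ i, H (i + 1) - H i ≤ 0)) :
    TE (fun x => G x + H x) n ≤ 2 * Var G n := by
  have h1 : ∑ i ∈ range n, |H (i + 1) - H i| = |H n - H 0| := by
    rcases hH with h | h
    · rw [Finset.sum_congr rfl (fun i _ => abs_of_nonneg (h i)), Finset.sum_range_sub,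
        abs_of_nonneg]
      rw [← Finset.sum_range_sub]
      exact Finset.sum_nonneg fun i _ => h i
    · rw [Finset.sum_congr rfl (fun i _ => abs_of_nonpos (h i)), Finset.sum_neg_distrib,
        Finset.sum_range_sub, abs_of_nonpos]
      rw [← Finset.sum_range_sub]
      exact Finset.sum_nonpos fun i _ => h i
  have h2 : Var (fun x => G x + H x) n ≤ Var G n + |H n - H 0| := by
    rw [← h1]
    unfold Var
    rw [← Finset.sum_add_distrib]
    refine Finset.sum_le_sum fun i _ => ?_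
    have e : G (i + 1) + H (i + 1) - (G i + H i) = (G (i + 1) - G i) + (H (i + 1) - H i) := by ring
    rw [e]
    exact abs_add_le _ _
  have h3 := inc_le_Var G n
  have h4 : |H n - H 0| ≤ |(G n + H n) - (G 0 + H 0)| + |G n - G 0| := by
    have e : H n - H 0 = ((G n + H n) - (G 0 + H 0)) - (G n - G 0) := by ring
    rw [e]
    exact abs_sub _ _
  unfold TE
  simp only
  linarith

theorem over_countE (b : ℕ) (hb : 2 ≤ b) (F : ℕ → ℝ) (T : ℕ) :
    ∑ x ∈ range (b ^ T), ∑ t ∈ range T,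
      (if (b : ℝ) ^ t < S b F t x then (1 : ℝ) else 0) ≤ 2 * TE F (b ^ T) := by
  have hb0 : 0 < b := by omega
  have hbr : (0 : ℝ) < b := by exact_mod_cast hb0
  have h1 : ∀ x t, (if (b : ℝ) ^ t < S b F t x then (1 : ℝ) else 0) ≤ S b F t x / (b : ℝ) ^ t := by
    intro x t
    have hp : (0 : ℝ) < (b : ℝ) ^ t := by positivity
    split_ifs with h
    · rw [le_div_iff₀ hp, one_mul]; exact h.le
    · exact div_nonneg (S_nonneg _ _ _ _) hp.le
  have h2 : ∑ x ∈ range (b ^ T), ∑ t ∈ range T,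
      (if (b : ℝ) ^ t < S b F t x then (1 : ℝ) else 0) ≤
      ∑ t ∈ range T, ∑ x ∈ range (b ^ T), S b F t x / (b : ℝ) ^ t := by
    rw [Finset.sum_comm]
    exact Finset.sum_le_sum fun t _ => Finset.sum_le_sum fun x _ => h1 x t
  refine h2.trans ?_
  set A : ℕ → ℝ := fun t => ∑ q ∈ range (b ^ (T - 1 - t)), Del b F (b ^ t) q with hA
  have h3 : ∀ t ∈ range T, ∑ x ∈ range (b ^ T), S b F t x / (b : ℝ) ^ t =
      (∑ s ∈ range t, A s * (b : ℝ) ^ (s + 1)) / (b : ℝ) ^ t := by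
    intro t ht
    rw [← Finset.sum_div]
    congr 1
    simp only [S]
    rw [Finset.sum_comm]
    refine Finset.sum_congr rfl fun s hs => ?_
    have hs' : s < T := (Finset.mem_range.1 hs).trans (Finset.mem_range.1 ht)
    have e : b ^ T = b ^ (T - 1 - s) * b ^ (s + 1) := by
      rw [← pow_add]; congr 1; omega
    have e2 : ∀ x, x / b ^ s / b = x / b ^ (s + 1) := fun x => by
      rw [pow_succ, Nat.div_div_eq_div_mul]
    simp only [e2]
    rw [e, leaf_sum (fun q => Del b F (b ^ s) q) _ _ (by positivity), hA]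
    push_cast
    ring
  rw [Finset.sum_congr rfl h3]
  have hA0 : ∀ t, 0 ≤ A t := fun t => Finset.sum_nonneg fun _ _ => Del_nonneg _ _ _ _
  have h4 := geo b hb A hA0 T
  have h5 : 0 ≤ 2 * (∑ s ∈ range T, A s * (b : ℝ) ^ (s + 1)) / (b : ℝ) ^ T := by
    have : 0 ≤ ∑ s ∈ range T, A s * (b : ℝ) ^ (s + 1) :=
      Finset.sum_nonneg fun s _ => mul_nonneg (hA0 s) (by positivity)
    positivity
  have h6 := sumDelE b F T
  have h7 : ∑ s ∈ range T, A s ≤ TE F (b ^ T) := h6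
  linarith

theorem steep_countE (b : ℕ) (hb : 2 ≤ b) (F : ℕ → ℝ) (T : ℕ) :
    ∑ x ∈ range (b ^ T), ∑ t ∈ range T,
      (if (((b ^ t * b : ℕ) : ℝ) ≤ inc F (b ^ t * b) (x / b ^ t / b) ∧
        ¬ nonexc F (b ^ t) ((x / b ^ t / b + 1) * b) (x / b ^ t)) then (1 : ℝ) else 0) ≤
      2 * TE (fun x => F x - x) (b ^ T) := by
  have hb0 : 0 < b := by omega
  rw [Finset.sum_comm]
  have h1 := sumDelE b (fun x => F x - x) T
  have h2 : ∀ t ∈ range T, ∑ x ∈ range (b ^ T),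
      (if (((b ^ t * b : ℕ) : ℝ) ≤ inc F (b ^ t * b) (x / b ^ t / b) ∧
        ¬ nonexc F (b ^ t) ((x / b ^ t / b + 1) * b) (x / b ^ t)) then (1 : ℝ) else 0) ≤
      2 * ∑ q ∈ range (b ^ (T - 1 - t)), Del b (fun x => F x - x) (b ^ t) q := by
    intro t ht
    have ht' := Finset.mem_range.1 ht
    set f : ℕ → ℝ := fun c => (if (((b ^ t * b : ℕ) : ℝ) ≤ inc F (b ^ t * b) (c / b) ∧
        ¬ nonexc F (b ^ t) ((c / b + 1) * b) c) then (1 : ℝ) else 0) with hf
    have e1 : b ^ T = b ^ (T - t) * b ^ t := by rw [← pow_add]; congr 1; omega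
    have e2 : b ^ (T - t) = b ^ (T - 1 - t) * b := by rw [← pow_succ]; congr 1; omega
    have hdt : 0 < b ^ t := by positivity
    have hdr : (0 : ℝ) < ((b ^ t : ℕ) : ℝ) := by exact_mod_cast hdt
    rw [e1]
    have h3 := leaf_sum f (b ^ (T - t)) (b ^ t) hdt
    simp only [hf] at h3
    rw [h3, e2, sum_blocks, Finset.mul_sum, Finset.mul_sum]
    refine Finset.sum_le_sum fun q _ => ?_
    have h4 : ∀ i ∈ range b, (if (((b ^ t * b : ℕ) : ℝ) ≤ inc F (b ^ t * b) ((q * b + i) / b) ∧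
        ¬ nonexc F (b ^ t) (((q * b + i) / b + 1) * b) (q * b + i)) then (1 : ℝ) else 0) =
        (if (((b ^ t * b : ℕ) : ℝ) ≤ inc F (b ^ t * b) q ∧
        ¬ nonexc F (b ^ t) ((q + 1) * b) (q * b + i)) then (1 : ℝ) else 0) := by
      intro i hi
      have hi' := Finset.mem_range.1 hi
      have : (q * b + i) / b = q := by
        rw [mul_comm, Nat.mul_add_div hb0, Nat.div_eq_of_lt hi', add_zero]
      rw [this]
    rw [Finset.sum_congr rfl h4]
    have hD0 := Del_nonneg b (fun x => F x - x) (b ^ t) q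
    by_cases hs : ((b ^ t * b : ℕ) : ℝ) ≤ inc F (b ^ t * b) q
    · have h5 := exc_children b (b ^ t) q hdt F hs
      have h6 : ∑ i ∈ range b, (if (((b ^ t * b : ℕ) : ℝ) ≤ inc F (b ^ t * b) q ∧
        ¬ nonexc F (b ^ t) ((q + 1) * b) (q * b + i)) then (1 : ℝ) else 0) =
        (((Finset.Ico (q * b) ((q + 1) * b)).filter
          (fun c => ¬ nonexc F (b ^ t) ((q + 1) * b) c)).card : ℝ) := by
        rw [Finset.card_filter, Finset.sum_Ico_eq_sum_range]
        have e0 : (q + 1) * b - q * b = b := by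
          rw [Nat.succ_mul]; omega
        rw [e0]
        push_cast
        refine Finset.sum_congr rfl fun i _ => ?_
        have hs2 : (b : ℝ) ^ t * b ≤ inc F (b ^ t * b) q := by
          have := hs; push_cast at this; exact this
        simp only [hs2, true_and]
      rw [h6]
      calc ((b ^ t : ℕ) : ℝ) * _ ≤ ((b ^ t : ℕ) : ℝ) *
          (2 * Del b (fun x => F x - x) (b ^ t) q / ((b ^ t : ℕ) : ℝ)) :=
            mul_le_mul_of_nonneg_left h5 hdr.le
        _ = 2 * Del b (fun x => F x - x) (b ^ t) q := by field_simp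
    · have h6 : ∀ i ∈ range b, (if (((b ^ t * b : ℕ) : ℝ) ≤ inc F (b ^ t * b) q ∧
        ¬ nonexc F (b ^ t) ((q + 1) * b) (q * b + i)) then (1 : ℝ) else 0) = 0 := by
        intro i _
        rw [if_neg]
        exact fun h => hs h.1
      rw [Finset.sum_congr rfl h6]
      simp only [Finset.sum_const_zero, mul_zero]
      positivity
  refine (Finset.sum_le_sum h2).trans ?_
  rw [← Finset.mul_sum]
  linarith
theorem flat_counth (v Δ D : ℝ) (hD : 0 < D) (hΔ : D ≤ Δ) (k : ℕ) (sl : ℕ → ℝ) (m : ℕ)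
    (hsep : ∀ i < k, ∀ j < k, i ≠ j → 2 ≤ (m : ℝ) * |sl i - sl j|) :
    ((range k).filter (fun j : ℕ => |v + m * sl j * Δ| < D)).card ≤ 1 := by
  rw [Finset.card_le_one]
  intro i hi j hj
  rw [Finset.mem_filter, Finset.mem_range] at hi hj
  have h1 := hi.2
  have h2 := hj.2
  by_contra hne
  have h3 := hsep i hi.1 j hj.1 hne
  have hΔ0 : 0 < Δ := lt_of_lt_of_le hD hΔ
  have h4 : |(m : ℝ) * (sl i - sl j) * Δ| < 2 * D := by
    have e : (m : ℝ) * (sl i - sl j) * Δ = (v + m * sl i * Δ) - (v + m * sl j * Δ) := by ring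
    rw [e]
    calc |(v + m * sl i * Δ) - (v + m * sl j * Δ)| ≤ |v + m * sl i * Δ| + |v + m * sl j * Δ| :=
          abs_sub _ _
      _ < 2 * D := by linarith
  rw [abs_mul, abs_mul, abs_of_nonneg (Nat.cast_nonneg m), abs_of_pos hΔ0] at h4
  have h5 := mul_le_mul_of_nonneg_right h3 hΔ0.le
  linarith

theorem X_grow (X : ℕ → ℝ) (hX : ∀ i, 1 ≤ X (i + 1) - X i) (s d : ℕ) : (d : ℝ) ≤ X (s + d) - X s := by
  induction d with
  | zero => simp
  | succ d ih =>
    have h := hX (s + d)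
    rw [← add_assoc]
    push_cast
    linarith

theorem core1h (b : ℕ) (hb : 2 ≤ b) (T : ℕ) (g X : ℕ → ℝ) (hX : ∀ i, 1 ≤ X (i + 1) - X i)
    (k : ℕ) (hk : 1 ≤ k) (sl : ℕ → ℝ)
    (m : ℕ) (hsep : ∀ i < k, ∀ j < k, i ≠ j → 2 ≤ (m : ℝ) * |sl i - sl j|)
    (h0 : ∀ j < k, sl j = 0 ∨ 2 ≤ (m : ℝ) * |sl j|) (L : Finset ℕ) (hL : L ⊆ range (b ^ T)) :
    ∃ j < k, ∑ x ∈ L, ∑ t ∈ range T,
      (if ¬ good b (fun x => m * g x + (m * sl j : ℝ) * X x) t x then (1 : ℝ) else 0) ≤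
      L.card * T / k + 12 * (m * Var g (b ^ T)) := by
  have hb0 : 0 < b := by omega
  have hkr : (0 : ℝ) < k := by exact_mod_cast hk
  set fl : ℕ → ℕ → ℕ → ℝ := fun j x t =>
    (if |inc (fun x => m * g x + (m * sl j : ℝ) * X x) (b ^ t * b) (x / b ^ t / b)| <
      ((b ^ t * b : ℕ) : ℝ) then (1 : ℝ) else 0) with hfl
  have hsum : ∑ j ∈ range k, ∑ x ∈ L, ∑ t ∈ range T, fl j x t ≤
      ∑ j ∈ range k, (L.card * T / k : ℝ) := by
    have e1 : ∑ j ∈ range k, (L.card * T / k : ℝ) = ∑ x ∈ L, ∑ t ∈ range T, (1 : ℝ) := by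
      simp only [Finset.sum_const, Finset.card_range, nsmul_eq_mul]
      field_simp
    rw [e1, Finset.sum_comm]
    refine Finset.sum_le_sum fun x _ => ?_
    rw [Finset.sum_comm]
    refine Finset.sum_le_sum fun t _ => ?_
    have hD : (0 : ℝ) < ((b ^ t * b : ℕ) : ℝ) := by
      have : 0 < b ^ t * b := by positivity
      exact_mod_cast this
    have hΔ : ((b ^ t * b : ℕ) : ℝ) ≤ inc X (b ^ t * b) (x / b ^ t / b) := by
      have := X_grow X hX (x / b ^ t / b * (b ^ t * b)) (b ^ t * b)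
      unfold inc
      rw [Nat.succ_mul]
      exact this
    have h1 := flat_counth (m * inc g (b ^ t * b) (x / b ^ t / b))
      (inc X (b ^ t * b) (x / b ^ t / b)) _ hD hΔ k sl m hsep
    have h2 : ∑ j ∈ range k, fl j x t = (((range k).filter (fun j : ℕ =>
        |m * inc g (b ^ t * b) (x / b ^ t / b) + m * sl j * inc X (b ^ t * b) (x / b ^ t / b)| <
          ((b ^ t * b : ℕ) : ℝ))).card : ℝ) := by
      rw [Finset.card_filter]
      push_cast
      refine Finset.sum_congr rfl fun j _ => ?_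
      simp only [hfl]
      have : inc (fun x => m * g x + (m * sl j : ℝ) * X x) (b ^ t * b) (x / b ^ t / b) =
          m * inc g (b ^ t * b) (x / b ^ t / b) + m * sl j * inc X (b ^ t * b) (x / b ^ t / b) := by
        simp only [inc]; push_cast; ring
      rw [this]
      push_cast
      rfl
    rw [h2]
    exact_mod_cast h1
  obtain ⟨j, hj, hj2⟩ := Finset.exists_le_of_sum_le ⟨0, Finset.mem_range.2 hk⟩ hsum
  have hjk := Finset.mem_range.1 hj
  refine ⟨j, hjk, ?_⟩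
  set F : ℕ → ℝ := fun x => m * g x + (m * sl j : ℝ) * X x with hF
  have hmr : (0 : ℝ) ≤ m := Nat.cast_nonneg m
  have c1 := over_countE b hb F T
  have c2 := steep_countE b hb F T
  have c3 := steep_countE b hb (fun y => - F y) T
  have v0 : Var (fun x => m * g x) (b ^ T) = m * Var g (b ^ T) := by
    unfold Var
    rw [Finset.mul_sum]
    refine Finset.sum_congr rfl fun x _ => ?_
    rw [← mul_sub, abs_mul, abs_of_nonneg hmr]
  have v0' : Var (fun x => -(m * g x)) (b ^ T) = m * Var g (b ^ T) := by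
    rw [← v0]
    unfold Var
    refine Finset.sum_congr rfl fun x _ => ?_
    rw [← abs_neg]
    congr 1
    ring
  have hsg : ∀ i, (m : ℝ) * sl j * (X (i + 1) - X i) = 0 ∨ True := fun i => Or.inr trivial
  have hcase : (m * sl j : ℝ) ≤ 0 ∨ 2 ≤ (m * sl j : ℝ) := by
    rcases h0 j hjk with h | h
    · left; rw [h, mul_zero]
    · rcases le_total 0 (sl j) with h2 | h2
      · right; rwa [abs_of_nonneg h2] at h
      · left; exact mul_nonpos_of_nonneg_of_nonpos hmr h2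
  have hcase' : 0 ≤ (m * sl j : ℝ) ∨ (m * sl j : ℝ) ≤ -2 := by
    rcases h0 j hjk with h | h
    · left; rw [h, mul_zero]
    · rcases le_total 0 (sl j) with h2 | h2
      · left; positivity
      · right; rw [abs_of_nonpos h2] at h; linarith
  have v1 : TE F (b ^ T) ≤ 2 * (m * Var g (b ^ T)) := by
    have := TE_le (fun x => m * g x) (fun x => (m * sl j : ℝ) * X x) (b ^ T) (by
      rcases hcase with h | h
      · right; intro i; have := hX i; nlinarith
      · left; intro i; have := hX i; nlinarith)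
    rw [v0] at this
    exact this
  have v2 : TE (fun x => F x - x) (b ^ T) ≤ 2 * (m * Var g (b ^ T)) := by
    have := TE_le (fun x => m * g x) (fun x => (m * sl j : ℝ) * X x - x) (b ^ T) (by
      rcases hcase with h | h
      · right; intro i; have := hX i; push_cast; nlinarith
      · left; intro i; have := hX i; push_cast; nlinarith)
    rw [v0] at this
    have e : (fun x : ℕ => F x - (x : ℝ)) =
        fun x : ℕ => m * g x + ((m * sl j : ℝ) * X x - x) := by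
      funext x; simp only [hF]; ring
    rw [e]
    exact this
  have v3 : TE (fun x => (fun y => - F y) x - (x : ℝ)) (b ^ T) ≤ 2 * (m * Var g (b ^ T)) := by
    have := TE_le (fun x => -(m * g x)) (fun x => -((m * sl j : ℝ) * X x) - x) (b ^ T) (by
      rcases hcase' with h | h
      · right; intro i; have := hX i; push_cast; nlinarith
      · left; intro i; have := hX i; push_cast; nlinarith)
    rw [v0'] at this
    have e : (fun x : ℕ => (fun y => - F y) x - (x : ℝ)) =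
        fun x : ℕ => -(m * g x) + (-((m * sl j : ℝ) * X x) - x) := by
      funext x; simp only [hF]; ring
    rw [e]
    exact this
  have hmono : ∀ f : ℕ → ℕ → ℝ, (∀ x t, 0 ≤ f x t) →
      ∑ x ∈ L, ∑ t ∈ range T, f x t ≤ ∑ x ∈ range (b ^ T), ∑ t ∈ range T, f x t := by
    intro f hf
    exact Finset.sum_le_sum_of_subset_of_nonneg hL fun x _ _ =>
      Finset.sum_nonneg fun t _ => hf x t
  have i1 : ∀ (p : Prop) [Decidable p], (0 : ℝ) ≤ (if p then (1 : ℝ) else 0) := by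
    intro p _; split_ifs <;> norm_num
  have d1 := hmono (fun x t => (if (b : ℝ) ^ t < S b F t x then (1 : ℝ) else 0))
    (fun x t => i1 _)
  have d2 := hmono (fun x t => (if (((b ^ t * b : ℕ) : ℝ) ≤ inc F (b ^ t * b) (x / b ^ t / b) ∧
        ¬ nonexc F (b ^ t) ((x / b ^ t / b + 1) * b) (x / b ^ t)) then (1 : ℝ) else 0))
    (fun x t => i1 _)
  have d3 := hmono (fun x t => (if (((b ^ t * b : ℕ) : ℝ) ≤
        inc (fun y => - F y) (b ^ t * b) (x / b ^ t / b) ∧
        ¬ nonexc (fun y => - F y) (b ^ t) ((x / b ^ t / b + 1) * b) (x / b ^ t))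
        then (1 : ℝ) else 0)) (fun x t => i1 _)
  have hmain : ∑ x ∈ L, ∑ t ∈ range T, (if ¬ good b F t x then (1 : ℝ) else 0) ≤
      ∑ x ∈ L, ∑ t ∈ range T, (fl j x t +
      (if (b : ℝ) ^ t < S b F t x then (1 : ℝ) else 0) +
      (if (((b ^ t * b : ℕ) : ℝ) ≤ inc F (b ^ t * b) (x / b ^ t / b) ∧
        ¬ nonexc F (b ^ t) ((x / b ^ t / b + 1) * b) (x / b ^ t)) then (1 : ℝ) else 0) +
      (if (((b ^ t * b : ℕ) : ℝ) ≤ inc (fun y => - F y) (b ^ t * b) (x / b ^ t / b) ∧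
        ¬ nonexc (fun y => - F y) (b ^ t) ((x / b ^ t / b + 1) * b) (x / b ^ t))
        then (1 : ℝ) else 0)) :=
    Finset.sum_le_sum fun x _ => Finset.sum_le_sum fun t _ => bad_le b F t x
  simp only [Finset.sum_add_distrib] at hmain
  linarith

theorem core2h (p : ℕ) (hp : 1 ≤ p) (k : ℕ) (hk1 : 1 ≤ k) (sl : ℕ → ℝ)
    (m : ℕ) (hm : 1 ≤ m) (hsep : ∀ i < k, ∀ j < k, i ≠ j → 2 ≤ (m : ℝ) * |sl i - sl j|) 
    (h0 : ∀ j < k, sl j = 0 ∨ 2 ≤ (m : ℝ) * |sl j|)
    (β ρ : ℝ) (hβ : 0 < β) (hβ1 : β ≤ 1) (hρ : 0 < ρ) : ∀ T : ℕ, 1 ≤ T → ∀ (g X : ℕ → ℝ) (L : Finset ℕ), (∀ i, 1 ≤ X (i + 1) - X i) →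
      L ⊆ range ((2 ^ p) ^ T) → ρ * (((2 ^ p) ^ T : ℕ) : ℝ) ≤ L.card →
      Var g ((2 ^ p) ^ T) ≤ ρ * β / (24 * m) * T * (((2 ^ p) ^ T : ℕ) : ℝ) →
      ∃ j < k, β / (4 * m) * ρ * (((2 ^ p) ^ T : ℕ) : ℝ) ≤
        ((L.image (fun x : ℕ => ⌊g x + sl j * X x⌋)).card : ℝ) *
          (2 ^ T * (8 ^ T * ((2 : ℝ) ^ p) ^ (⌊(1 / k + β) * T⌋₊))) := by
  have hk0 : (0 : ℝ) < k := by exact_mod_cast hk1
  intro T hT g X L hX hL hLc hV
  have hT0 : (0 : ℝ) < T := by exact_mod_cast (show 0 < T by omega)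
  have hb : 2 ≤ 2 ^ p := by
    calc 2 = 2 ^ 1 := by norm_num
      _ ≤ 2 ^ p := Nat.pow_le_pow_right (by norm_num) hp
  obtain ⟨j, hj, h1⟩ := core1h (2 ^ p) hb T g X hX k hk1 sl m hsep h0 L hL
  refine ⟨j, hj, ?_⟩
  set F : ℕ → ℝ := fun x => m * g x + (m * sl j : ℝ) * X x with hF
  have hmr : (0 : ℝ) < m := by exact_mod_cast hm
  set N : ℝ := (((2 ^ p) ^ T : ℕ) : ℝ) with hN
  have hN0 : 0 < N := by
    rw [hN]
    have : 0 < (2 ^ p) ^ T := by positivity
    exact_mod_cast this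
  have hN2 : (((2 ^ p : ℕ) : ℝ)) ^ T = N := by rw [hN]; push_cast; ring
  set γ : ℝ := 1 / k + β with hγ
  have hγ0 : 0 < γ := by positivity
  have hγ2 : γ ≤ 2 := by
    have : 1 / (k : ℝ) ≤ 1 := by
      rw [div_le_one hk0]; exact_mod_cast hk1
    linarith
  set bad : ℕ → ℕ := fun x => ((range T).filter (fun t => ¬ good (2 ^ p) F t x)).card with hbad
  have h2 : ∑ x ∈ L, (bad x : ℝ) ≤ (1 / k + β / 2) * T * L.card := by
    have e1 : ∀ x ∈ L, (bad x : ℝ) =
        ∑ t ∈ range T, (if ¬ good (2 ^ p) F t x then (1 : ℝ) else 0) := by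
      intro x _
      simp only [hbad]
      rw [Finset.card_filter]
      push_cast
      rfl
    rw [Finset.sum_congr rfl e1]
    refine h1.trans ?_
    have hLc0 : (0 : ℝ) ≤ L.card := Nat.cast_nonneg _
    have a1 : (L.card : ℝ) * T / k = 1 / k * T * L.card := by ring
    have a2 : 12 * (m * Var g ((2 ^ p) ^ T)) ≤ β * T / 2 * L.card := by
      have h3 : 12 * (m * (ρ * β / (24 * m) * T * N)) = β * T / 2 * (ρ * N) := by
        field_simp
        ring
      have h4 : 12 * (m * Var g ((2 ^ p) ^ T)) ≤ 12 * (m * (ρ * β / (24 * m) * T * N)) := by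
        gcongr
      rw [h3] at h4
      refine h4.trans (mul_le_mul_of_nonneg_left hLc (by positivity))
    rw [a1]
    linarith
  set L' := L.filter (fun x => bad x ≤ ⌊γ * T⌋₊) with hL'
  have h3 : β / 4 * (L.card : ℝ) ≤ L'.card := by
    have h4 : L'.card + (L.filter (fun x => ¬ bad x ≤ ⌊γ * T⌋₊)).card = L.card :=
      Finset.card_filter_add_card_filter_not _
    set M := L.filter (fun x => ¬ bad x ≤ ⌊γ * T⌋₊) with hM
    have h5 : (M.card : ℝ) * (γ * T) ≤ ∑ x ∈ L, (bad x : ℝ) := by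
      calc (M.card : ℝ) * (γ * T) = ∑ x ∈ M, (γ * T) := by
            rw [Finset.sum_const, nsmul_eq_mul]
        _ ≤ ∑ x ∈ M, (bad x : ℝ) := by
            refine Finset.sum_le_sum fun x hx => ?_
            rw [hM, Finset.mem_filter] at hx
            have h6 := hx.2
            push Not at h6
            exact (Nat.lt_of_floor_lt h6).le
        _ ≤ ∑ x ∈ L, (bad x : ℝ) :=
            Finset.sum_le_sum_of_subset_of_nonneg (Finset.filter_subset _ _)
              fun x _ _ => Nat.cast_nonneg _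
    have h6 : (M.card : ℝ) * (γ * T) ≤ (1 / k + β / 2) * T * L.card := h5.trans h2
    have h7 : (M.card : ℝ) * γ ≤ (1 / k + β / 2) * L.card := by
      have h9 : ((M.card : ℝ) * γ) * T ≤ ((1 / k + β / 2) * L.card) * T := by linarith
      exact le_of_mul_le_mul_right h9 hT0
    have h8 : (L'.card : ℝ) + M.card = L.card := by exact_mod_cast h4
    have h10 : β / 2 * L.card ≤ γ * L'.card := by
      have : γ * L'.card = γ * L.card - M.card * γ := by rw [← h8]; ring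
      rw [this]
      have : γ * (L.card : ℝ) = (1 / k + β / 2) * L.card + β / 2 * L.card := by rw [hγ]; ring
      linarith
    have h11 : γ * (L'.card : ℝ) ≤ 2 * L'.card :=
      mul_le_mul_of_nonneg_right hγ2 (Nat.cast_nonneg _)
    linarith
  have h4 := cells_lower (2 ^ p) hb F T ⌊γ * T⌋₊ L' ((Finset.filter_subset _ _).trans hL)
    (fun x hx => (Finset.mem_filter.1 hx).2)
  have h5 : (L'.image (fun x => ⌊F x⌋)).card ≤ m * (L.image (fun x : ℕ =>
      ⌊g x + sl j * X x⌋)).card := by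
    have e1 : (fun x : ℕ => ⌊F x⌋) = fun x : ℕ => ⌊(m : ℝ) * (g x + sl j * X x)⌋ := by
      funext x
      simp only [hF]
      congr 1
      ring
    rw [e1]
    exact (Finset.card_le_card (Finset.image_subset_image (Finset.filter_subset _ _))).trans
      (image_mulg m hm (fun x : ℕ => g x + sl j * X x) L)
  have h6 : (L'.card : ℝ) ≤ m * ((L.image (fun x : ℕ => ⌊g x + sl j * X x⌋)).card : ℝ) *
      (2 ^ T * (8 ^ T * ((2 : ℝ) ^ p) ^ (⌊γ * T⌋₊))) := by
    have h7 := h4.trans (Nat.mul_le_mul_right _ h5)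
    have h8 := (Nat.cast_le (α := ℝ)).2 h7
    rw [Nat.cast_mul, Nat.cast_mul] at h8
    push_cast at h8 ⊢
    exact h8
  have h7 : β / 4 * (ρ * N) ≤ β / 4 * L.card :=
    mul_le_mul_of_nonneg_left hLc (by positivity)
  have h8 := h7.trans (h3.trans h6)
  have e9 : β / (4 * m) * ρ * N = β / 4 * (ρ * N) / m := by field_simp
  rw [e9, div_le_iff₀ hmr]
  linarith

/-- **The discrete core** for arbitrary slopes and sequences. -/
theorem coreh (k : ℕ) (hk1 : 1 ≤ k) (sl : ℕ → ℝ)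
    (m : ℕ) (hm : 1 ≤ m) (hsep : ∀ i < k, ∀ j < k, i ≠ j → 2 ≤ (m : ℝ) * |sl i - sl j|) 
    (h0 : ∀ j < k, sl j = 0 ∨ 2 ≤ (m : ℝ) * |sl j|) (ε : ℝ) (hε : 0 < ε) : ∃ p : ℕ, 1 ≤ p ∧ ∀ ρ : ℝ, 0 < ρ →
    ∃ c κ : ℝ, 0 < c ∧ 0 < κ ∧ ∀ T : ℕ, 1 ≤ T → ∀ (g X : ℕ → ℝ) (L : Finset ℕ), (∀ i, 1 ≤ X (i + 1) - X i) →
      L ⊆ range ((2 ^ p) ^ T) → ρ * (((2 ^ p) ^ T : ℕ) : ℝ) ≤ L.card →
      Var g ((2 ^ p) ^ T) ≤ c * T * (((2 ^ p) ^ T : ℕ) : ℝ) →
      ∃ j < k, κ * (2 : ℝ) ^ ((p : ℝ) * T * (1 - 1 / k - ε / 2)) ≤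
        ((L.image (fun x : ℕ => ⌊g x + sl j * X x⌋)).card : ℝ) := by
  obtain ⟨p, hp⟩ := exists_nat_ge (16 / ε + 1)
  have hp1 : (1 : ℝ) ≤ p := le_trans (by have : 0 < 16 / ε := by positivity
                                         linarith) hp
  have hk0 : (0 : ℝ) < k := by exact_mod_cast hk1
  refine ⟨p, by exact_mod_cast hp1, fun ρ hρ => ?_⟩
  set β : ℝ := min (ε / 4) 1 with hβdef
  have hβ : 0 < β := lt_min (by positivity) one_pos
  have hβ1 : β ≤ 1 := min_le_right _ _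
  have hβ2 : β ≤ ε / 4 := min_le_left _ _
  have hmr : (0 : ℝ) < m := by exact_mod_cast hm
  refine ⟨ρ * β / (24 * m), β / (4 * m) * ρ, by positivity, by positivity, ?_⟩
  have hT₀ := core2h p (by exact_mod_cast hp1) k hk1 sl m hm hsep h0 β ρ hβ hβ1 hρ
  intro T hT g X L hX hL hLc hV
  obtain ⟨j, hj, h⟩ := hT₀ T hT g X L hX hL hLc hV
  refine ⟨j, hj, ?_⟩
  set C : ℝ := ((L.image (fun x : ℕ => ⌊g x + sl j * X x⌋)).card : ℝ) with hC
  have hC0 : 0 ≤ C := Nat.cast_nonneg _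
  have e1 : (((2 ^ p) ^ T : ℕ) : ℝ) = (2 : ℝ) ^ ((p : ℝ) * T) := by
    push_cast
    rw [← pow_mul, ← Real.rpow_natCast]
    push_cast
    rfl
  have e2 : (2 : ℝ) ^ T * (8 ^ T * ((2 : ℝ) ^ p) ^ (⌊(1 / k + β) * T⌋₊)) ≤
      (2 : ℝ) ^ (4 * (T : ℝ) + p * ((1 / k + ε / 4) * T)) := by
    have a1 : (2 : ℝ) ^ T * 8 ^ T = (2 : ℝ) ^ (4 * (T : ℝ)) := by
      rw [← mul_pow, ← Real.rpow_natCast]
      rw [show (2 * 8 : ℝ) = (2 : ℝ) ^ (4 : ℝ) from by norm_num, ← Real.rpow_mul (by norm_num)]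
    have a2 : ((2 : ℝ) ^ p) ^ (⌊(1 / k + β) * T⌋₊) ≤
        (2 : ℝ) ^ ((p : ℝ) * ((1 / k + ε / 4) * T)) := by
      rw [← pow_mul, ← Real.rpow_natCast]
      apply Real.rpow_le_rpow_of_exponent_le (by norm_num)
      push_cast
      refine mul_le_mul_of_nonneg_left ((Nat.floor_le (by positivity)).trans ?_) (by positivity)
      exact mul_le_mul_of_nonneg_right (by linarith) (Nat.cast_nonneg T)
    rw [← mul_assoc, a1, Real.rpow_add (by norm_num)]
    exact mul_le_mul_of_nonneg_left a2 (by positivity)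
  rw [e1] at h
  have h2 : β / (4 * m) * ρ * (2 : ℝ) ^ ((p : ℝ) * T) ≤
      C * (2 : ℝ) ^ (4 * (T : ℝ) + p * ((1 / k + ε / 4) * T)) :=
    h.trans (mul_le_mul_of_nonneg_left e2 hC0)
  have h3 : (2 : ℝ) ^ ((p : ℝ) * T) =
      (2 : ℝ) ^ ((p : ℝ) * T - (4 * (T : ℝ) + p * ((1 / k + ε / 4) * T))) *
      (2 : ℝ) ^ (4 * (T : ℝ) + p * ((1 / k + ε / 4) * T)) := by
    rw [← Real.rpow_add (by norm_num)]
    congr 1; ring
  rw [h3, ← mul_assoc] at h2
  have h4 : β / (4 * m) * ρ * (2 : ℝ) ^ ((p : ℝ) * T - (4 * (T : ℝ) + p * ((1 / k + ε / 4) * T))) ≤ C :=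
    le_of_mul_le_mul_right h2 (by positivity)
  refine le_trans ?_ h4
  refine mul_le_mul_of_nonneg_left ?_ (by positivity)
  apply Real.rpow_le_rpow_of_exponent_le (by norm_num)
  have h5 : 16 ≤ ε * p := by
    have : 16 / ε ≤ p := by linarith
    rw [div_le_iff₀ hε] at this
    linarith
  have hT0 : (0 : ℝ) ≤ T := Nat.cast_nonneg T
  have e5 : (p : ℝ) * T - (4 * (T : ℝ) + p * ((1 / k + ε / 4) * T)) -
      (p : ℝ) * T * (1 - 1 / k - ε / 2) = T * (ε * p / 4 - 4) := by ring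
  have h6 : 0 ≤ (T : ℝ) * (ε * p / 4 - 4) := mul_nonneg hT0 (by linarith)
  linarith

end Pool.Agent.U999.OD
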