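import Mathlib
import Pool.Agent.U999.OD.GCore

set_option autoImplicit false

namespace Pool.Agent.U999.OD.TV

open Finset Filter

/-- the projection `π_r(A) = {x + r y : (x, y) ∈ A}` -/
def proj (r : ℚ) (A : Finset (ℤ × ℤ)) : Finset ℚ :=
  A.image (fun p : ℤ × ℤ => (p.1 : ℚ) + r * (p.2 : ℚ))

/-- the projection `π_∞(A) = {y : (x, y) ∈ A}` -/
def projInf (A : Finset (ℤ × ℤ)) : Finset ℚ := A.image (fun p : ℤ × ℤ => (p.2 : ℚ))

/-- the largest size of a projection of `A` with slope `∞` or in `S` -/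
def big (S : Finset ℚ) (A : Finset (ℤ × ℤ)) : ℕ :=
  max (projInf A).card (S.sup fun r => (proj r A).card)

/-- the set of the points `(x + g(x), g(x))`, `x ∈ L` -/
def graph (g : ℕ → ℤ) (L : Finset ℕ) : Finset (ℤ × ℤ) :=
  L.image (fun x : ℕ => ((x : ℤ) + g x, g x))

/-- the total variation of `g` on `{0, …, N - 1}` -/
def tv (g : ℕ → ℤ) (N : ℕ) : ℤ := ∑ x ∈ range (N - 1), |g (x + 1) - g x|

/-- the slopes in the form `g + s x` -/
def slopes (S : Finset ℚ) : Finset ℚ := insert 0 (S.image fun r => 1 / (1 + r))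

theorem slopes_card (S : Finset ℚ) (hS : (-1 : ℚ) ∉ S) : (slopes S).card = S.card + 1 := by
  have hne : ∀ r ∈ S, (1 : ℚ) + r ≠ 0 := by
    intro r hr h
    apply hS
    have : r = -1 := by linarith
    rwa [← this]
  unfold slopes
  rw [Finset.card_insert_of_notMem, Finset.card_image_of_injOn]
  · intro r hr r' hr' h
    have h1 := hne r hr
    have h2 := hne r' hr'
    simp only at h
    rw [div_eq_div_iff h1 h2] at h
    linarith
  · rw [Finset.mem_image]
    rintro ⟨r, hr, h⟩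
    have h1 := hne r hr
    rw [div_eq_zero_iff] at h
    rcases h with h | h
    · norm_num at h
    · exact h1 h

theorem le_big (S : Finset ℚ) (hS : (-1 : ℚ) ∉ S) (g : ℕ → ℤ) (L : Finset ℕ) (s : ℚ)
    (hs : s ∈ slopes S) :
    (L.image (fun x : ℕ => (g x : ℚ) + s * x)).card ≤ big S (graph g L) := by
  unfold slopes at hs
  rw [Finset.mem_insert, Finset.mem_image] at hs
  rcases hs with hs | ⟨r, hr, hs⟩
  · refine le_trans ?_ (le_max_left _ _)
    refine Finset.card_le_card ?_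
    intro y hy
    rw [Finset.mem_image] at hy
    obtain ⟨x, hx, rfl⟩ := hy
    unfold projInf graph
    rw [Finset.mem_image]
    refine ⟨_, Finset.mem_image_of_mem _ hx, ?_⟩
    rw [hs]
    simp
  · refine le_trans ?_ (le_max_right _ _)
    refine le_trans ?_ (Finset.le_sup (f := fun r => (proj r (graph g L)).card) hr)
    have h1 : (1 : ℚ) + r ≠ 0 := by
      intro h
      apply hS
      have : r = -1 := by linarith
      rwa [← this]
    have hsub : L.image (fun x : ℕ => (g x : ℚ) + s * x) ⊆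
        (proj r (graph g L)).image (fun y => y / (1 + r)) := by
      intro y hy
      rw [Finset.mem_image] at hy
      obtain ⟨x, hx, rfl⟩ := hy
      rw [Finset.mem_image]
      refine ⟨((x : ℤ) + g x : ℤ) + r * (g x : ℚ), ?_, ?_⟩
      · unfold proj graph
        rw [Finset.mem_image]
        exact ⟨_, Finset.mem_image_of_mem _ hx, rfl⟩
      · rw [← hs]
        push_cast
        field_simp
        ring
    exact (Finset.card_le_card hsub).trans Finset.card_image_le

/-- upper bound for `big` -/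
theorem big_le (S : Finset ℚ) (hS : (-1 : ℚ) ∉ S) (g : ℕ → ℤ) (L : Finset ℕ) (K : ℕ)
    (h : ∀ s ∈ slopes S, (L.image (fun x : ℕ => (g x : ℚ) + s * x)).card ≤ K) :
    big S (graph g L) ≤ K := by
  unfold big
  refine max_le ?_ (Finset.sup_le fun r hr => ?_)
  · refine le_trans (Finset.card_le_card ?_) (h 0 (Finset.mem_insert_self _ _))
    intro y hy
    unfold projInf graph at hy
    rw [Finset.mem_image] at hy
    obtain ⟨p, hp, rfl⟩ := hy
    rw [Finset.mem_image] at hp
    obtain ⟨x, hx, rfl⟩ := hp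
    rw [Finset.mem_image]
    exact ⟨x, hx, by simp⟩
  · have h1 : (1 : ℚ) + r ≠ 0 := by
      intro h
      apply hS
      have : r = -1 := by linarith
      rwa [← this]
    refine le_trans ?_ (h (1 / (1 + r)) (Finset.mem_insert_of_mem (Finset.mem_image_of_mem _ hr)))
    have hsub : proj r (graph g L) ⊆
        (L.image (fun x : ℕ => (g x : ℚ) + 1 / (1 + r) * x)).image (fun y => (1 + r) * y) := by
      intro y hy
      unfold proj graph at hy
      rw [Finset.mem_image] at hy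
      obtain ⟨p, hp, rfl⟩ := hy
      rw [Finset.mem_image] at hp
      obtain ⟨x, hx, rfl⟩ := hp
      rw [Finset.mem_image]
      refine ⟨_, Finset.mem_image_of_mem _ hx, ?_⟩
      push_cast
      field_simp
      ring
    exact (Finset.card_le_card hsub).trans Finset.card_image_le

theorem enum_slopes (T : Finset ℚ) : ∃ sl : ℕ → ℚ, (∀ j < T.card, sl j ∈ T) ∧
    ∀ i < T.card, ∀ j < T.card, sl i = sl j → i = j := by
  classical
  refine ⟨fun j => if h : j < T.card then ((T.equivFin.symm ⟨j, h⟩ : T) : ℚ) else 0, ?_, ?_⟩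
  · intro j hj
    simp only [dif_pos hj]
    exact (T.equivFin.symm ⟨j, hj⟩).2
  · intro i hi j hj h
    simp only [dif_pos hi, dif_pos hj] at h
    have h2 := T.equivFin.symm.injective (Subtype.ext h)
    exact Fin.mk.inj_iff.1 h2

theorem exists_m (k : ℕ) (sl : ℕ → ℝ) (hinj : ∀ i < k, ∀ j < k, sl i = sl j → i = j) :
    ∃ m : ℕ, 1 ≤ m ∧ ∀ i < k, ∀ j < k, i ≠ j → 2 ≤ (m : ℝ) * |sl i - sl j| := by
  have h : ∀ i j, ∃ m : ℕ, 2 / |sl i - sl j| ≤ m := fun i j => exists_nat_ge _
  choose m hm using h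
  refine ⟨1 + ∑ i ∈ range k, ∑ j ∈ range k, m i j, by omega, fun i hi j hj hne => ?_⟩
  have h1 : m i j ≤ ∑ i ∈ range k, ∑ j ∈ range k, m i j := by
    calc m i j ≤ ∑ j ∈ range k, m i j :=
          Finset.single_le_sum (f := fun j => m i j) (fun _ _ => Nat.zero_le _)
            (Finset.mem_range.2 hj)
      _ ≤ _ := Finset.single_le_sum (f := fun i => ∑ j ∈ range k, m i j)
            (fun _ _ => Nat.zero_le _) (Finset.mem_range.2 hi)
  have hpos : 0 < |sl i - sl j| := by
    rw [abs_pos, sub_ne_zero]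
    exact fun h => hne (hinj i hi j hj h)
  have h2 := hm i j
  rw [div_le_iff₀ hpos] at h2
  refine h2.trans (mul_le_mul_of_nonneg_right ?_ hpos.le)
  have : m i j ≤ 1 + ∑ i ∈ range k, ∑ j ∈ range k, m i j := by omega
  exact_mod_cast this

theorem one_le_big (S : Finset ℚ) (g : ℕ → ℤ) (L : Finset ℕ) (hL : L.Nonempty) :
    1 ≤ big S (graph g L) := by
  refine le_trans ?_ (le_max_left _ _)
  unfold projInf graph
  exact Finset.card_pos.2 ((hL.image _).image _)

/-- the variation of the extended function -/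
theorem ext_var (g : ℕ → ℤ) (N M : ℕ) (hN : 1 ≤ N) (hM : N ≤ M) :
    Var (fun x => (g (min x (N - 1)) : ℝ)) M ≤ (tv g N : ℝ) := by
  unfold Var tv
  rw [Finset.range_eq_Ico, ← Finset.sum_Ico_consecutive _ (Nat.zero_le (N - 1))
    (show N - 1 ≤ M by omega)]
  have h1 : ∑ x ∈ Finset.Ico (N - 1) M,
      |((g (min (x + 1) (N - 1)) : ℤ) : ℝ) - ((g (min x (N - 1)) : ℤ) : ℝ)| = 0 := by
    refine Finset.sum_eq_zero fun x hx => ?_
    rw [Finset.mem_Ico] at hx
    rw [min_eq_right (by omega), min_eq_right hx.1, sub_self, abs_zero]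
  rw [h1, add_zero]
  push_cast
  rw [Finset.range_eq_Ico]
  refine le_of_eq (Finset.sum_congr rfl fun x hx => ?_)
  rw [Finset.mem_Ico] at hx
  rw [min_eq_left (by omega), min_eq_left (by omega)]

theorem low (S : Finset ℚ) (hS : (-1 : ℚ) ∉ S) (ρ : ℝ) (hρ : 0 < ρ) (ε : ℝ) (hε : 0 < ε) :
    ∃ c : ℝ, 0 < c ∧ ∃ N₀ : ℕ, ∀ N, N₀ ≤ N → ∀ (L : Finset ℕ) (g : ℕ → ℤ), L ⊆ range N →
      ρ * N ≤ L.card → (tv g N : ℝ) ≤ c * N * Real.log N →
      (N : ℝ) ^ (1 - 1 / ((S.card : ℝ) + 1) - ε) ≤ big S (graph g L) := by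
  classical
  obtain ⟨sl, hsl1, hsl2⟩ := enum_slopes (slopes S)
  rw [slopes_card S hS] at hsl1 hsl2
  set k := S.card + 1 with hk
  obtain ⟨m, hm, hsep⟩ := exists_m k (fun j => (sl j : ℝ))
    (fun i hi j hj h => hsl2 i hi j hj (by exact_mod_cast h))
  set Sg : ℝ := ∑ j ∈ range k, ((m : ℝ) * |(sl j : ℝ)| + 1) + 1 with hSg
  have hSg0 : 0 < Sg := by
    have : 0 ≤ ∑ j ∈ range k, ((m : ℝ) * |(sl j : ℝ)| + 1) :=
      Finset.sum_nonneg fun j _ => by positivity
    linarith
  have hSg1 : ∀ j < k, (m : ℝ) * |(sl j : ℝ)| + 1 ≤ Sg := by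
    intro j hj
    have := Finset.single_le_sum (f := fun j => (m : ℝ) * |(sl j : ℝ)| + 1)
      (fun j _ => by positivity) (Finset.mem_range.2 hj)
    linarith
  obtain ⟨p, hp, hcore⟩ := coreg k (by omega) (fun j => (sl j : ℝ)) m hm hsep Sg hSg0 hSg1 ε hε
  set b : ℕ := 2 ^ p with hb
  have hb2 : 2 ≤ b := by
    rw [hb]
    calc 2 = 2 ^ 1 := by norm_num
      _ ≤ 2 ^ p := Nat.pow_le_pow_right (by norm_num) hp
  have hbr : (0 : ℝ) < b := by exact_mod_cast (show 0 < b by omega)
  have hpr : (0 : ℝ) < p := by exact_mod_cast hp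
  obtain ⟨c1, κ, hc1, hκ, T₀, hT₀⟩ := hcore (ρ / b) (by positivity)
  have htend : Tendsto (fun N : ℕ => (N : ℝ) ^ (ε / 2)) atTop atTop :=
    (tendsto_rpow_atTop (by positivity)).comp tendsto_natCast_atTop_atTop
  obtain ⟨N1, hN1⟩ := (htend.eventually_ge_atTop (1 / κ)).exists_forall_of_atTop
  refine ⟨c1 / p, by positivity, max (b ^ T₀ + 2) N1, fun N hN L g hL hLc htv => ?_⟩
  have hNa : b ^ T₀ + 2 ≤ N := (le_max_left _ _).trans hN
  have hNb : N1 ≤ N := (le_max_right _ _).trans hN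
  have hNr : (0 : ℝ) < N := by exact_mod_cast (show 0 < N by omega)
  have hN1r : (1 : ℝ) ≤ N := by exact_mod_cast (show 1 ≤ N by omega)
  have hLne : L.Nonempty := by
    rw [← Finset.card_pos]
    have : (0 : ℝ) < L.card := lt_of_lt_of_le (by positivity) hLc
    exact_mod_cast this
  have hbig1 : (1 : ℝ) ≤ big S (graph g L) := by exact_mod_cast one_le_big S g L hLne
  set u : ℝ := 1 - 1 / ((S.card : ℝ) + 1) - ε with hu
  by_cases hu0 : u ≤ 0
  · exact (Real.rpow_le_one_of_one_le_of_nonpos hN1r hu0).trans hbig1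
  push Not at hu0
  set T := Nat.clog b N with hT
  have hT1 : N ≤ b ^ T := Nat.le_pow_clog (by omega) N
  have hTpos : 0 < T := Nat.clog_pos (by omega) (by omega)
  have hT2 : b ^ (T - 1) < N := by
    have := Nat.pow_pred_clog_lt_self (b := b) (x := N) (by omega) (by omega)
    exact this
  have hT3 : b ^ T < b * N := by
    have e : b ^ T = b * b ^ (T - 1) := by rw [← pow_succ']; congr 1; omega
    rw [e]
    exact Nat.mul_lt_mul_of_pos_left hT2 (by omega)
  have hTT : T₀ ≤ T := by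
    by_contra hcon
    push Not at hcon
    have : b ^ T ≤ b ^ T₀ := Nat.pow_le_pow_right (by omega) hcon.le
    omega
  have hT1r : (N : ℝ) ≤ ((b ^ T : ℕ) : ℝ) := by exact_mod_cast hT1
  have hT3r : ((b ^ T : ℕ) : ℝ) ≤ b * N := by exact_mod_cast hT3.le
  have hlog : Real.log N ≤ T * p := by
    have e1 : Real.log N ≤ Real.log ((b ^ T : ℕ) : ℝ) := Real.log_le_log hNr hT1r
    have e2 : Real.log ((b ^ T : ℕ) : ℝ) = T * (p * Real.log 2) := by
      rw [hb]; push_cast
      rw [Real.log_pow, Real.log_pow]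
    have e3 : Real.log 2 ≤ 1 := by
      have := Real.log_two_lt_d9
      linarith
    rw [e2] at e1
    refine e1.trans ?_
    have : (0 : ℝ) ≤ T := Nat.cast_nonneg T
    have h5 : (p : ℝ) * Real.log 2 ≤ p * 1 := mul_le_mul_of_nonneg_left e3 hpr.le
    nlinarith
  obtain ⟨j, hj, hcard⟩ := hT₀ T hTT (fun x => (g (min x (N - 1)) : ℝ)) L
    (hL.trans (Finset.range_subset_range.2 hT1))
    (by
      calc ρ / b * (((2 ^ p) ^ T : ℕ) : ℝ) ≤ ρ / b * (b * N) :=
            mul_le_mul_of_nonneg_left hT3r (by positivity)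
        _ = ρ * N := by field_simp
        _ ≤ L.card := hLc)
    (by
      refine (ext_var g N _ (by omega) hT1).trans (htv.trans ?_)
      have h0 : 0 ≤ Real.log N := Real.log_nonneg hN1r
      calc c1 / p * N * Real.log N ≤ c1 / p * ((b ^ T : ℕ) : ℝ) * (T * p) := by gcongr
        _ = c1 * T * ((b ^ T : ℕ) : ℝ) := by field_simp)
  have hcard2 : ((L.image (fun x : ℕ => ⌊((g (min x (N - 1)) : ℤ) : ℝ) + (sl j : ℝ) * x⌋)).card) ≤
      big S (graph g L) := by
    refine le_trans ?_ (le_big S hS g L (sl j) (hsl1 j hj))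
    have hsub : L.image (fun x : ℕ => ⌊((g (min x (N - 1)) : ℤ) : ℝ) + (sl j : ℝ) * x⌋) ⊆
        (L.image (fun x : ℕ => (g x : ℚ) + sl j * x)).image (fun y : ℚ => ⌊(y : ℝ)⌋) := by
      intro z hz
      rw [Finset.mem_image] at hz
      obtain ⟨x, hx, rfl⟩ := hz
      rw [Finset.mem_image]
      refine ⟨_, Finset.mem_image_of_mem _ hx, ?_⟩
      have hxN := Finset.mem_range.1 (hL hx)
      rw [min_eq_left (by omega)]
      push_cast
      rfl
    exact (Finset.card_le_card hsub).trans Finset.card_image_le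
  have hcard3 : κ * (2 : ℝ) ^ ((p : ℝ) * T * (1 - 1 / (k : ℝ) - ε / 2)) ≤
      big S (graph g L) := hcard.trans (by exact_mod_cast hcard2)
  have hkr : (k : ℝ) = (S.card : ℝ) + 1 := by rw [hk]; push_cast; ring
  have e3 : 1 - 1 / (k : ℝ) - ε / 2 = u + ε / 2 := by rw [hkr, hu]; ring
  have e4 : (2 : ℝ) ^ ((p : ℝ) * T * (1 - 1 / (k : ℝ) - ε / 2)) =
      (((b ^ T : ℕ) : ℝ)) ^ (u + ε / 2) := by
    rw [e3, hb]
    push_cast
    rw [← pow_mul, ← Real.rpow_natCast, ← Real.rpow_mul (by norm_num)]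
    push_cast
    rfl
  rw [e4] at hcard3
  have h7 : (N : ℝ) ^ (u + ε / 2) ≤ (((b ^ T : ℕ) : ℝ)) ^ (u + ε / 2) :=
    Real.rpow_le_rpow hNr.le hT1r (by linarith)
  have h8 := hN1 N hNb
  rw [div_le_iff₀ hκ] at h8
  calc (N : ℝ) ^ u = (N : ℝ) ^ u * 1 := (mul_one _).symm
    _ ≤ (N : ℝ) ^ u * ((N : ℝ) ^ (ε / 2) * κ) := mul_le_mul_of_nonneg_left h8 (by positivity)
    _ = κ * (N : ℝ) ^ (u + ε / 2) := by rw [Real.rpow_add hNr]; ring
    _ ≤ κ * (((b ^ T : ℕ) : ℝ)) ^ (u + ε / 2) := mul_le_mul_of_nonneg_left h7 hκ.le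
    _ ≤ _ := hcard3

/-- small variation: a positive proportion of values -/
theorem low3 (S : Finset ℚ) (hS : (-1 : ℚ) ∉ S) (hne : S.Nonempty) (ρ : ℝ) (hρ : 0 < ρ) :
    ∃ c : ℝ, 0 < c ∧ ∀ N : ℕ, ∀ (L : Finset ℕ) (g : ℕ → ℤ), L ⊆ range N →
      ρ * N ≤ L.card → (tv g N : ℝ) ≤ c * N → c * N ≤ big S (graph g L) := by
  classical
  obtain ⟨r, hr⟩ := hne
  have h1r : (1 : ℚ) + r ≠ 0 := by
    intro h
    apply hS
    have : r = -1 := by linarith
    rwa [← this]
  set s : ℚ := 1 / (1 + r) with hs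
  have hs0 : s ≠ 0 := one_div_ne_zero h1r
  have hsr0 : (s : ℝ) ≠ 0 := by exact_mod_cast hs0
  have hsabs : 0 < |(s : ℝ)| := abs_pos.2 hsr0
  refine ⟨min (ρ * |(s : ℝ)| / 8) (ρ / 4), lt_min (by positivity) (by positivity),
    fun N L g hL hLc htv => ?_⟩
  set c : ℝ := min (ρ * |(s : ℝ)| / 8) (ρ / 4) with hc
  have hc1 : c ≤ ρ * |(s : ℝ)| / 8 := min_le_left _ _
  have hc2 : c ≤ ρ / 4 := min_le_right _ _
  rcases Nat.eq_zero_or_pos N with hN | hN
  · rw [hN]; push_cast; rw [mul_zero]; positivity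
  have hNr : (0 : ℝ) < N := by exact_mod_cast hN
  have hLne : L.Nonempty := by
    rw [← Finset.card_pos]
    have : (0 : ℝ) < L.card := lt_of_lt_of_le (by positivity) hLc
    exact_mod_cast this
  have hbig1 : (1 : ℝ) ≤ big S (graph g L) := by exact_mod_cast one_le_big S g L hLne
  set G : ℕ → ℝ := fun x => x + (g x : ℝ) / s with hG
  have hsun := sun G (N - 1) (N - 1) 0 (by omega)
  set Exc := (Finset.Ico 0 (N - 1)).filter (fun i : ℕ => ∃ e' : ℕ, i < e' ∧ e' ≤ N - 1 ∧
    G e' - G i < ((e' : ℝ) - i) / 2) with hExc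
  have hExcle : (Exc.card : ℝ) ≤ 2 * (c * N / |(s : ℝ)|) := by
    refine hsun.trans (mul_le_mul_of_nonneg_left ?_ (by norm_num))
    have h1 : ∀ i ∈ Finset.Ico 0 (N - 1), max 0 (1 - (G (i + 1) - G i)) ≤
        |((g (i + 1) : ℤ) : ℝ) - g i| / |(s : ℝ)| := by
      intro i _
      apply max_le (by positivity)
      have e : 1 - (G (i + 1) - G i) = -((((g (i + 1) : ℤ) : ℝ) - g i) / s) := by
        simp only [hG]; push_cast; ring
      rw [e, ← abs_div]
      exact neg_le_abs _
    refine (Finset.sum_le_sum h1).trans ?_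
    rw [← Finset.sum_div]
    refine div_le_div_of_nonneg_right ?_ hsabs.le
    refine le_trans (le_of_eq ?_) htv
    unfold tv
    rw [← Finset.range_eq_Ico]
    push_cast
    rfl
  set S' := L.filter (fun i => i ≠ N - 1 ∧ i ∉ Exc) with hS'
  have h1 : L.card ≤ S'.card + (Exc.card + 1) := by
    have hsub : L ⊆ S' ∪ (Exc ∪ {N - 1}) := by
      intro i hi
      rw [Finset.mem_union, Finset.mem_union, Finset.mem_singleton, hS', Finset.mem_filter]
      by_cases h2 : i = N - 1
      · exact Or.inr (Or.inr h2)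
      · by_cases h3 : i ∈ Exc
        · exact Or.inr (Or.inl h3)
        · exact Or.inl ⟨hi, h2, h3⟩
    refine (Finset.card_le_card hsub).trans ((Finset.card_union_le _ _).trans ?_)
    refine Nat.add_le_add_left ((Finset.card_union_le _ _).trans ?_) _
    simp
  have hinj : Set.InjOn (fun x : ℕ => (g x : ℚ) + s * x) (S' : Set ℕ) := by
    have key : ∀ x ∈ S', ∀ y ∈ S', x < y → (g x : ℚ) + s * x ≠ (g y : ℚ) + s * y := by
      intro x hx y hy hxy h
      rw [hS', Finset.mem_filter] at hx hy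
      have hyN := Finset.mem_range.1 (hL hy.1)
      have hnot : ¬ (G y - G x < ((y : ℝ) - x) / 2) := by
        intro h3
        apply hx.2.2
        rw [hExc, Finset.mem_filter, Finset.mem_Ico]
        exact ⟨⟨Nat.zero_le _, by omega⟩, y, hxy, by omega, h3⟩
      push Not at hnot
      have h4 : G y = G x := by
        have h5 : ((g x : ℤ) : ℝ) + (s : ℝ) * x = (g y : ℝ) + (s : ℝ) * y := by exact_mod_cast h
        simp only [hG]
        field_simp
        linarith
      have h6 : (x : ℝ) + 1 ≤ y := by exact_mod_cast hxy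
      linarith
    intro x hx y hy h
    rcases lt_trichotomy x y with hlt | heq | hlt
    · exact (key x hx y hy hlt h).elim
    · exact heq
    · exact (key y hy x hx hlt h.symm).elim
  have h2 : S'.card ≤ big S (graph g L) := by
    refine le_trans ?_ (le_big S hS g L s
      (Finset.mem_insert_of_mem (Finset.mem_image_of_mem _ hr)))
    rw [← Finset.card_image_of_injOn hinj]
    exact Finset.card_le_card (Finset.image_subset_image (Finset.filter_subset _ _))
  have h3 : (L.card : ℝ) ≤ big S (graph g L) + (Exc.card + 1) := by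
    have : L.card ≤ big S (graph g L) + (Exc.card + 1) := h1.trans (Nat.add_le_add_right h2 _)
    exact_mod_cast this
  have h4 : 2 * (c * N / |(s : ℝ)|) ≤ ρ * N / 4 := by
    have : c * N / |(s : ℝ)| ≤ ρ * N / 8 := by
      rw [div_le_iff₀ hsabs]
      have := mul_le_mul_of_nonneg_right hc1 hNr.le
      calc c * N ≤ ρ * |(s : ℝ)| / 8 * N := this
        _ = ρ * N / 8 * |(s : ℝ)| := by ring
    linarith
  by_cases hcase : ρ * N ≤ 4
  · calc c * N ≤ ρ / 4 * N := mul_le_mul_of_nonneg_right hc2 hNr.le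
      _ ≤ 1 := by linarith
      _ ≤ _ := hbig1
  · push Not at hcase
    have h5 : c * N ≤ ρ / 4 * N := mul_le_mul_of_nonneg_right hc2 hNr.le
    linarith

end Pool.Agent.U999.OD.TV
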