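import Mathlib
import Pool.Agent.U999.OD.TV1

set_option autoImplicit false

namespace Pool.Agent.U999.OD.TV

open Finset Filter

/-- the function with digit maps `α i` in base `b`, constant on blocks of length `q` -/
def val (b T q : ℕ) (α : ℕ → ℕ → ℤ) (x : ℕ) : ℤ :=
  ∑ i ∈ range T, α i (x / q / b ^ i % b) * (b : ℤ) ^ i

theorem dig_sum (b T x : ℕ) : ∑ i ∈ range T, x / b ^ i % b * b ^ i = x % b ^ T := by
  induction T with
  | zero => simp [Nat.mod_one]
  | succ T ih => rw [Finset.sum_range_succ, ih, Nat.mod_pow_succ, mul_comm (b ^ T)]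

theorem count0 (b : ℕ) (hb : 1 ≤ b) (α : ℕ → ℕ → ℤ) (s : ℚ) (X : Finset ℕ) (T : ℕ) :
    (X.image (fun x : ℕ => ∑ i ∈ range T,
      ((α i (x / b ^ i % b) : ℚ) + s * ((x / b ^ i % b : ℕ) : ℚ)) * (b : ℚ) ^ i)).card ≤
      ∏ i ∈ range T, ((range b).image (fun v : ℕ => (α i v : ℚ) + s * v)).card := by
  classical
  induction T with
  | zero =>
    simp only [Finset.range_zero, Finset.sum_empty, Finset.prod_empty]
    rw [Finset.card_le_one]
    intro u hu v hv
    rw [Finset.mem_image] at hu hv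
    obtain ⟨_, _, rfl⟩ := hu
    obtain ⟨_, _, rfl⟩ := hv
    rfl
  | succ T ih =>
    rw [Finset.prod_range_succ]
    have hsub : X.image (fun x : ℕ => ∑ i ∈ range (T + 1),
      ((α i (x / b ^ i % b) : ℚ) + s * ((x / b ^ i % b : ℕ) : ℚ)) * (b : ℚ) ^ i) ⊆
      ((X.image (fun x : ℕ => ∑ i ∈ range T,
      ((α i (x / b ^ i % b) : ℚ) + s * ((x / b ^ i % b : ℕ) : ℚ)) * (b : ℚ) ^ i)) ×ˢ
      ((range b).image (fun v : ℕ => (α T v : ℚ) + s * v))).image
        (fun u => u.1 + u.2 * (b : ℚ) ^ T) := by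
      intro y hy
      rw [Finset.mem_image] at hy
      obtain ⟨x, hx, rfl⟩ := hy
      rw [Finset.mem_image]
      refine ⟨(∑ i ∈ range T,
        ((α i (x / b ^ i % b) : ℚ) + s * ((x / b ^ i % b : ℕ) : ℚ)) * (b : ℚ) ^ i,
        (α T (x / b ^ T % b) : ℚ) + s * ((x / b ^ T % b : ℕ) : ℚ)), ?_, ?_⟩
      · rw [Finset.mem_product]
        refine ⟨Finset.mem_image_of_mem _ hx, ?_⟩
        rw [Finset.mem_image]
        exact ⟨x / b ^ T % b, Finset.mem_range.2 (Nat.mod_lt _ (by omega)), rfl⟩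
      · rw [Finset.sum_range_succ]
    refine (Finset.card_le_card hsub).trans (Finset.card_image_le.trans ?_)
    rw [Finset.card_product]
    exact Nat.mul_le_mul_right _ ih

theorem count1 (b T q : ℕ) (hb : 1 ≤ b) (hq : 1 ≤ q) (α : ℕ → ℕ → ℤ) (s : ℚ) (X : Finset ℕ)
    (hX : ∀ x ∈ X, x / q < b ^ T) :
    (X.image (fun x : ℕ => (val b T q α x : ℚ) + s * x)).card ≤
      q * ∏ i ∈ range T, ((range b).image (fun v : ℕ => (α i v : ℚ) + (s * q) * v)).card := by
  classical
  have hsub : X.image (fun x : ℕ => (val b T q α x : ℚ) + s * x) ⊆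
      ((range q) ×ˢ ((X.image (fun x => x / q)).image (fun x : ℕ => ∑ i ∈ range T,
      ((α i (x / b ^ i % b) : ℚ) + (s * q) * ((x / b ^ i % b : ℕ) : ℚ)) * (b : ℚ) ^ i))).image
        (fun u => s * (u.1 : ℚ) + u.2) := by
    intro y hy
    rw [Finset.mem_image] at hy
    obtain ⟨x, hx, rfl⟩ := hy
    rw [Finset.mem_image]
    refine ⟨(x % q, ∑ i ∈ range T, ((α i (x / q / b ^ i % b) : ℚ) +
      (s * q) * ((x / q / b ^ i % b : ℕ) : ℚ)) * (b : ℚ) ^ i), ?_, ?_⟩
    · rw [Finset.mem_product]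
      exact ⟨Finset.mem_range.2 (Nat.mod_lt _ (by omega)),
        Finset.mem_image_of_mem _ (Finset.mem_image_of_mem _ hx)⟩
    · have h1 := dig_sum b T (x / q)
      rw [Nat.mod_eq_of_lt (hX x hx)] at h1
      have h2 : (∑ i ∈ range T, ((x / q / b ^ i % b : ℕ) : ℚ) * (b : ℚ) ^ i) =
          ((x / q : ℕ) : ℚ) := by exact_mod_cast h1
      have h3 : (x : ℚ) = q * ((x / q : ℕ) : ℚ) + ((x % q : ℕ) : ℚ) := by
        exact_mod_cast (Nat.div_add_mod x q).symm
      have h4 : ∑ i ∈ range T, ((α i (x / q / b ^ i % b) : ℚ) +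
          (s * q) * ((x / q / b ^ i % b : ℕ) : ℚ)) * (b : ℚ) ^ i =
          (val b T q α x : ℚ) + (s * q) * ((x / q : ℕ) : ℚ) := by
        rw [← h2, Finset.mul_sum]
        unfold val
        push_cast
        rw [← Finset.sum_add_distrib]
        refine Finset.sum_congr rfl fun i _ => ?_
        ring
      simp only
      rw [h4]
      conv_rhs => rw [h3]
      ring
  refine (Finset.card_le_card hsub).trans (Finset.card_image_le.trans ?_)
  rw [Finset.card_product, Finset.card_range]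
  exact Nat.mul_le_mul_left _ (count0 b hb α (s * q) _ T)

theorem floor_tele (D n : ℕ) :
    ∑ x ∈ range n, (((x + 1) / D : ℕ) - (x / D : ℕ) : ℤ) = ((n / D : ℕ) : ℤ) := by
  have h := Finset.sum_range_sub (fun x : ℕ => ((x / D : ℕ) : ℤ)) n
  simp only [Nat.zero_div, Nat.cast_zero, sub_zero] at h
  exact h

theorem mul_floor_le (b i q n : ℕ) (hq : 1 ≤ q) : (b : ℤ) ^ i * ((n / (q * b ^ i) : ℕ) : ℤ) ≤ n := by
  have h1 : q * b ^ i * (n / (q * b ^ i)) ≤ n := Nat.mul_div_le n _
  have h2 : b ^ i * (n / (q * b ^ i)) ≤ q * b ^ i * (n / (q * b ^ i)) := by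
    rw [mul_assoc]
    exact Nat.le_mul_of_pos_left _ hq
  exact_mod_cast h2.trans h1

theorem tv_sum (T N : ℕ) (F : ℕ → ℕ → ℤ) :
    tv (fun x => ∑ i ∈ range T, F i x) N ≤ ∑ i ∈ range T, tv (F i) N := by
  unfold tv
  rw [Finset.sum_comm]
  refine Finset.sum_le_sum fun x _ => ?_
  rw [← Finset.sum_sub_distrib]
  exact Finset.abs_sum_le_sum_abs _ _

/-- variation with bounded digit maps -/
theorem tv_bdd (b T q N : ℕ) (hq : 1 ≤ q) (hb : 1 ≤ b) (α : ℕ → ℕ → ℤ) (W : ℤ) (hW : 0 ≤ W)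
    (hα : ∀ i v, v < b → |α i v| ≤ W) : tv (val b T q α) N ≤ 2 * W * T * N := by
  have h1 : ∀ i ∈ range T, tv (fun x => α i (x / q / b ^ i % b) * (b : ℤ) ^ i) N ≤ 2 * W * N := by
    intro i _
    have h2 : ∀ x ∈ range (N - 1), |α i ((x + 1) / q / b ^ i % b) * (b : ℤ) ^ i -
        α i (x / q / b ^ i % b) * (b : ℤ) ^ i| ≤
        2 * W * (b : ℤ) ^ i * (((x + 1) / (q * b ^ i) : ℕ) - (x / (q * b ^ i) : ℕ) : ℤ) := by
      intro x _
      rw [Nat.div_div_eq_div_mul, Nat.div_div_eq_div_mul, ← sub_mul, abs_mul,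
        abs_of_nonneg (show (0 : ℤ) ≤ (b : ℤ) ^ i by positivity)]
      have hle : x / (q * b ^ i) ≤ (x + 1) / (q * b ^ i) := Nat.div_le_div_right (by omega)
      rcases hle.eq_or_lt with he | hlt
      · rw [he, sub_self, abs_zero, zero_mul, sub_self, mul_zero]
      · have e1 := hα i ((x + 1) / (q * b ^ i) % b) (Nat.mod_lt _ (by omega))
        have e2 := hα i (x / (q * b ^ i) % b) (Nat.mod_lt _ (by omega))
        have e3 : |α i ((x + 1) / (q * b ^ i) % b) - α i (x / (q * b ^ i) % b)| ≤ 2 * W := by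
          refine (abs_sub _ _).trans ?_
          linarith
        have e4 : (1 : ℤ) ≤ (((x + 1) / (q * b ^ i) : ℕ) - (x / (q * b ^ i) : ℕ) : ℤ) := by
          have : ((x / (q * b ^ i) : ℕ) : ℤ) < (((x + 1) / (q * b ^ i) : ℕ) : ℤ) := by
            exact_mod_cast hlt
          linarith
        calc _ ≤ 2 * W * (b : ℤ) ^ i := mul_le_mul_of_nonneg_right e3 (by positivity)
          _ = 2 * W * (b : ℤ) ^ i * 1 := (mul_one _).symm
          _ ≤ _ := mul_le_mul_of_nonneg_left e4 (by positivity)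
    unfold tv
    refine (Finset.sum_le_sum h2).trans ?_
    rw [← Finset.mul_sum, floor_tele, mul_assoc]
    have h3 := mul_floor_le b i q (N - 1) hq
    have h4 : ((N - 1 : ℕ) : ℤ) ≤ N := by exact_mod_cast Nat.sub_le _ _
    exact mul_le_mul_of_nonneg_left (h3.trans h4) (by positivity)
  have h5 := (tv_sum T N (fun i x => α i (x / q / b ^ i % b) * (b : ℤ) ^ i)).trans
    (Finset.sum_le_sum h1)
  rw [Finset.sum_const, Finset.card_range, nsmul_eq_mul] at h5
  calc tv (val b T q α) N ≤ T * (2 * W * N) := h5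
    _ = 2 * W * T * N := by ring

/-- variation with linear digit maps -/
theorem tv_lin (b T q N : ℕ) (hq : 1 ≤ q) (p : ℕ → ℤ) :
    tv (val b T q (fun i v => p i * v)) N ≤ 2 * (∑ i ∈ range T, |p i|) * N := by
  have h1 : ∀ i ∈ range T, tv (fun x => p i * ((x / q / b ^ i % b : ℕ) : ℤ) * (b : ℤ) ^ i) N ≤
      |p i| * (2 * N) := by
    intro i _
    have h2 : ∀ x ∈ range (N - 1), |p i * (((x + 1) / q / b ^ i % b : ℕ) : ℤ) * (b : ℤ) ^ i -
        p i * ((x / q / b ^ i % b : ℕ) : ℤ) * (b : ℤ) ^ i| ≤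
        |p i| * ((b : ℤ) ^ i * (((x + 1) / (q * b ^ i) : ℕ) - (x / (q * b ^ i) : ℕ) : ℤ) +
          (b : ℤ) ^ (i + 1) *
            (((x + 1) / (q * b ^ (i + 1)) : ℕ) - (x / (q * b ^ (i + 1)) : ℕ) : ℤ)) := by
      intro x _
      have key : ∀ y : ℕ, ((y / q / b ^ i % b : ℕ) : ℤ) * (b : ℤ) ^ i =
          (b : ℤ) ^ i * ((y / (q * b ^ i) : ℕ) : ℤ) -
            (b : ℤ) ^ (i + 1) * ((y / (q * b ^ (i + 1)) : ℕ) : ℤ) := by
        intro y
        have e1 : y / (q * b ^ (i + 1)) = y / (q * b ^ i) / b := by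
          rw [Nat.div_div_eq_div_mul, pow_succ, mul_assoc]
        have e2 : y / q / b ^ i = y / (q * b ^ i) := Nat.div_div_eq_div_mul _ _ _
        have e3 := Nat.div_add_mod (y / (q * b ^ i)) b
        have e4 : ((y / (q * b ^ i) : ℕ) : ℤ) =
            b * ((y / (q * b ^ i) / b : ℕ) : ℤ) + ((y / (q * b ^ i) % b : ℕ) : ℤ) := by
          exact_mod_cast e3.symm
        rw [e1, e2, pow_succ]
        have e5 : ((y / (q * b ^ i) % b : ℕ) : ℤ) =
            ((y / (q * b ^ i) : ℕ) : ℤ) - b * ((y / (q * b ^ i) / b : ℕ) : ℤ) := by linarith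
        rw [e5]
        ring
      have e6 : p i * (((x + 1) / q / b ^ i % b : ℕ) : ℤ) * (b : ℤ) ^ i -
          p i * ((x / q / b ^ i % b : ℕ) : ℤ) * (b : ℤ) ^ i =
          p i * ((b : ℤ) ^ i * (((x + 1) / (q * b ^ i) : ℕ) - (x / (q * b ^ i) : ℕ) : ℤ) -
          (b : ℤ) ^ (i + 1) *
            (((x + 1) / (q * b ^ (i + 1)) : ℕ) - (x / (q * b ^ (i + 1)) : ℕ) : ℤ)) := by
        rw [mul_assoc, mul_assoc, key, key]
        ring
      rw [e6, abs_mul]
      refine mul_le_mul_of_nonneg_left ?_ (abs_nonneg _)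
      refine (abs_sub _ _).trans (le_of_eq ?_)
      have m1 : (0 : ℤ) ≤ (((x + 1) / (q * b ^ i) : ℕ) - (x / (q * b ^ i) : ℕ) : ℤ) := by
        have : x / (q * b ^ i) ≤ (x + 1) / (q * b ^ i) := Nat.div_le_div_right (by omega)
        have : ((x / (q * b ^ i) : ℕ) : ℤ) ≤ (((x + 1) / (q * b ^ i) : ℕ) : ℤ) := by
          exact_mod_cast this
        linarith
      have m2 : (0 : ℤ) ≤
          (((x + 1) / (q * b ^ (i + 1)) : ℕ) - (x / (q * b ^ (i + 1)) : ℕ) : ℤ) := by
        have : x / (q * b ^ (i + 1)) ≤ (x + 1) / (q * b ^ (i + 1)) :=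
          Nat.div_le_div_right (by omega)
        have : ((x / (q * b ^ (i + 1)) : ℕ) : ℤ) ≤ (((x + 1) / (q * b ^ (i + 1)) : ℕ) : ℤ) := by
          exact_mod_cast this
        linarith
      rw [abs_of_nonneg (by positivity), abs_of_nonneg (by positivity)]
    unfold tv
    refine (Finset.sum_le_sum h2).trans ?_
    rw [← Finset.mul_sum, Finset.sum_add_distrib, ← Finset.mul_sum, ← Finset.mul_sum, floor_tele,
      floor_tele]
    refine mul_le_mul_of_nonneg_left ?_ (abs_nonneg _)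
    have h3 := mul_floor_le b i q (N - 1) hq
    have h3' := mul_floor_le b (i + 1) q (N - 1) hq
    have h4 : ((N - 1 : ℕ) : ℤ) ≤ N := by exact_mod_cast Nat.sub_le _ _
    linarith
  have h5 := (tv_sum T N (fun i x => p i * ((x / q / b ^ i % b : ℕ) : ℤ) * (b : ℤ) ^ i)).trans
    (Finset.sum_le_sum h1)
  rw [← Finset.sum_mul] at h5
  calc tv (val b T q (fun i v => p i * v)) N ≤ (∑ i ∈ range T, |p i|) * (2 * N) := h5
    _ = _ := by ring

theorem exists_den (T : Finset ℚ) : ∃ q : ℕ, 1 ≤ q ∧ ∀ s ∈ T, ∃ p : ℤ, s * q = p := by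
  classical
  have hpos : 0 < ∏ s ∈ T, s.den := Finset.prod_pos fun s _ => Rat.den_pos s
  refine ⟨∏ s ∈ T, s.den, hpos, fun s hs => ?_⟩
  obtain ⟨d, hd⟩ := Finset.dvd_prod_of_mem (fun s : ℚ => s.den) hs
  refine ⟨s.num * d, ?_⟩
  rw [hd]
  push_cast
  rw [← mul_assoc, Rat.mul_den_eq_num]

/-- the sets with variation `O(N)` -/
theorem up1 (S : Finset ℚ) (hS : (-1 : ℚ) ∉ S) :
    ∃ C : ℝ, ∀ N : ℕ, 1 ≤ N → ∃ g : ℕ → ℤ, (tv g N : ℝ) ≤ C * N ∧
      (big S (graph g (range N)) : ℝ) ≤ C * (N : ℝ) ^ (1 - 1 / ((S.card : ℝ) + 1)) := by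
  classical
  obtain ⟨sl, hsl1, hsl2⟩ := enum_slopes (slopes S)
  obtain ⟨q, hq, hqp⟩ := exists_den (slopes S)
  rw [slopes_card S hS] at hsl1 hsl2
  set k := S.card + 1 with hk
  have hkr : (k : ℝ) = (S.card : ℝ) + 1 := by rw [hk]; push_cast; ring
  have hp : ∃ p : ℕ → ℤ, ∀ j < k, sl j * q = p j := by
    have : ∀ j, ∃ p : ℤ, j < k → sl j * q = p := by
      intro j
      by_cases hj : j < k
      · obtain ⟨p, hp⟩ := hqp _ (hsl1 j hj)
        exact ⟨p, fun _ => hp⟩
      · exact ⟨0, fun h => (hj h).elim⟩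
    choose p hp using this
    exact ⟨p, hp⟩
  obtain ⟨p, hp⟩ := hp
  set P : ℤ := ∑ i ∈ range k, |-(p i)| with hP
  have hP0 : 0 ≤ P := Finset.sum_nonneg fun _ _ => abs_nonneg _
  refine ⟨max (2 * (P : ℝ)) (q * 2 ^ (k - 1)), fun N hN => ?_⟩
  have hNr : (1 : ℝ) ≤ N := by exact_mod_cast hN
  set M : ℕ := ⌈(N : ℝ) ^ (1 / (k : ℝ))⌉₊ with hM
  have hk0 : (0 : ℝ) < k := by rw [hkr]; positivity
  have hroot1 : (1 : ℝ) ≤ (N : ℝ) ^ (1 / (k : ℝ)) := Real.one_le_rpow hNr (by positivity)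
  have hM1 : (N : ℝ) ^ (1 / (k : ℝ)) ≤ M := Nat.le_ceil _
  have hM2 : (M : ℝ) ≤ 2 * (N : ℝ) ^ (1 / (k : ℝ)) := by
    have := (Nat.ceil_lt_add_one (show 0 ≤ (N : ℝ) ^ (1 / (k : ℝ)) by positivity)).le
    rw [← hM] at this
    linarith
  have hMpos : 1 ≤ M := by
    have : (1 : ℝ) ≤ M := hroot1.trans hM1
    exact_mod_cast this
  have hMk : N ≤ M ^ k := by
    have h1 : ((N : ℝ) ^ (1 / (k : ℝ))) ^ k ≤ (M : ℝ) ^ k := pow_le_pow_left₀ (by positivity) hM1 k
    rw [← Real.rpow_natCast, ← Real.rpow_mul (by linarith), one_div_mul_cancel hk0.ne',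
      Real.rpow_one] at h1
    exact_mod_cast h1
  refine ⟨val M k q (fun i v => -(p i) * v), ?_, ?_⟩
  · have h1 := tv_lin M k q N hq (fun i => -(p i))
    have h2 : (tv (val M k q (fun i v => -(p i) * v)) N : ℝ) ≤ ((2 * P * N : ℤ) : ℝ) := by
      exact_mod_cast h1
    push_cast at h2
    refine h2.trans ?_
    exact mul_le_mul_of_nonneg_right (le_max_left _ _) (by linarith)
  · have h1 : big S (graph (val M k q (fun i v => -(p i) * v)) (range N)) ≤ q * M ^ (k - 1) := by
      refine big_le S hS _ _ _ fun s hs => ?_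
      have hsj : ∃ j < k, sl j = s := by
        have hinj : Set.InjOn sl (range k : Set ℕ) := by
          intro i hi j hj h
          exact hsl2 i (Finset.mem_range.1 hi) j (Finset.mem_range.1 hj) h
        have hsub : (range k).image sl ⊆ slopes S := by
          intro y hy
          rw [Finset.mem_image] at hy
          obtain ⟨j, hj, rfl⟩ := hy
          exact hsl1 j (Finset.mem_range.1 hj)
        have heq : (range k).image sl = slopes S := by
          refine Finset.eq_of_subset_of_card_le hsub ?_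
          rw [Finset.card_image_of_injOn hinj, slopes_card S hS, Finset.card_range]
        rw [← heq, Finset.mem_image] at hs
        obtain ⟨j, hj, hjs⟩ := hs
        exact ⟨j, Finset.mem_range.1 hj, hjs⟩
      obtain ⟨j, hj, rfl⟩ := hsj
      refine (count1 M k q hMpos hq _ (sl j) (range N) (fun x hx => ?_)).trans ?_
      · have := Finset.mem_range.1 hx
        calc x / q ≤ x := Nat.div_le_self _ _
          _ < N := this
          _ ≤ M ^ k := hMk
      · refine Nat.mul_le_mul_left _ ?_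
        calc ∏ i ∈ range k, ((range M).image (fun v : ℕ =>
              (((-(p i) * v : ℤ)) : ℚ) + (sl j * q) * v)).card
            ≤ ∏ i ∈ range k, (if i = j then 1 else M) := by
              refine Finset.prod_le_prod' fun i _ => ?_
              by_cases hij : i = j
              · rw [if_pos hij, hij, hp j hj]
                rw [Finset.card_le_one]
                intro u hu w hw
                rw [Finset.mem_image] at hu hw
                obtain ⟨v, _, rfl⟩ := hu
                obtain ⟨v', _, rfl⟩ := hw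
                push_cast
                ring
              · rw [if_neg hij]
                exact Finset.card_image_le.trans (by rw [Finset.card_range])
          _ = M ^ (k - 1) := by
              rw [Finset.prod_ite, Finset.prod_const_one, one_mul, Finset.prod_const]
              congr 1
              rw [Finset.filter_ne' , Finset.card_erase_of_mem (Finset.mem_range.2 hj),
                Finset.card_range]
    have h2 : (big S (graph (val M k q (fun i v => -(p i) * v)) (range N)) : ℝ) ≤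
        q * (M : ℝ) ^ (k - 1) := by exact_mod_cast h1
    refine h2.trans ?_
    have h3 : (M : ℝ) ^ (k - 1) ≤ (2 * (N : ℝ) ^ (1 / (k : ℝ))) ^ (k - 1) :=
      pow_le_pow_left₀ (by positivity) hM2 _
    have h4 : (2 * (N : ℝ) ^ (1 / (k : ℝ))) ^ (k - 1) =
        2 ^ (k - 1) * (N : ℝ) ^ (1 - 1 / ((S.card : ℝ) + 1)) := by
      rw [mul_pow]
      congr 1
      rw [← Real.rpow_natCast, ← Real.rpow_mul (by linarith)]
      congr 1
      rw [Nat.cast_sub (by omega), ← hkr]
      push_cast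
      field_simp
    calc (q : ℝ) * (M : ℝ) ^ (k - 1) ≤ q * ((2 * (N : ℝ) ^ (1 / (k : ℝ))) ^ (k - 1)) :=
          mul_le_mul_of_nonneg_left h3 (by positivity)
      _ = q * 2 ^ (k - 1) * (N : ℝ) ^ (1 - 1 / ((S.card : ℝ) + 1)) := by rw [h4]; ring
      _ ≤ _ := mul_le_mul_of_nonneg_right (le_max_right _ _) (by positivity)

/-- the sets with variation `O(N log N)` -/
theorem up2 (S : Finset ℚ) (hS : (-1 : ℚ) ∉ S) (b : ℕ) (hb : 2 ≤ b) (g₀ : ℕ → ℤ) (κ : ℝ)
    (h0 : (big S (graph g₀ (range b)) : ℝ) ≤ (b : ℝ) ^ κ) :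
    ∃ C : ℝ, ∀ N : ℕ, 1 ≤ N → ∃ g : ℕ → ℤ, (tv g N : ℝ) ≤ C * N * (1 + Real.log N) ∧
      (big S (graph g (range N)) : ℝ) ≤ C * (N : ℝ) ^ κ := by
  classical
  have hbr : (2 : ℝ) ≤ b := by exact_mod_cast hb
  have hb0 : (0 : ℝ) < b := by linarith
  have hκ : 0 ≤ κ := by
    by_contra hneg
    push Not at hneg
    have h1 : (1 : ℝ) ≤ big S (graph g₀ (range b)) := by
      exact_mod_cast one_le_big S g₀ (range b) ⟨0, Finset.mem_range.2 (by omega)⟩
    have h3 : (b : ℝ) ^ κ < 1 := Real.rpow_lt_one_of_one_lt_of_neg (by linarith) hneg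
    linarith
  set W : ℤ := ∑ v ∈ range b, |g₀ v| with hW
  have hW0 : 0 ≤ W := Finset.sum_nonneg fun _ _ => abs_nonneg _
  have hWb : ∀ v, v < b → |g₀ v| ≤ W := fun v hv =>
    Finset.single_le_sum (f := fun v => |g₀ v|) (fun _ _ => abs_nonneg _) (Finset.mem_range.2 hv)
  refine ⟨max (4 * (W : ℝ)) ((b : ℝ) ^ κ), fun N hN => ?_⟩
  have hNr : (1 : ℝ) ≤ N := by exact_mod_cast hN
  have hlog0 : 0 ≤ Real.log N := Real.log_nonneg hNr
  set T := Nat.clog b N with hT
  have hT1 : N ≤ b ^ T := Nat.le_pow_clog (by omega) N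
  have hT2 : (((b ^ T : ℕ)) : ℝ) ≤ b * N := by
    rcases hN.eq_or_lt with h1 | h1
    · rw [hT, ← h1, Nat.clog_one_right, pow_zero]
      push_cast
      linarith
    · have h2 : b ^ (T - 1) < N := by
        exact Nat.pow_pred_clog_lt_self (b := b) (x := N) (by omega) (by omega)
      have hTpos : 0 < T := Nat.clog_pos (by omega) (by omega)
      have e : b ^ T = b * b ^ (T - 1) := by rw [← pow_succ']; congr 1; omega
      have h3 : b ^ T ≤ b * N := by rw [e]; exact Nat.mul_le_mul_left _ h2.le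
      exact_mod_cast h3
  have hT3 : (T : ℝ) ≤ 2 * (1 + Real.log N) := by
    have h1 : Real.log (((b ^ T : ℕ)) : ℝ) ≤ Real.log (b * N) :=
      Real.log_le_log (by positivity) hT2
    rw [Real.log_mul hb0.ne' (by linarith)] at h1
    push_cast at h1
    rw [Real.log_pow] at h1
    have h2 : Real.log 2 ≤ Real.log b := Real.log_le_log (by norm_num) hbr
    have h3 := Real.log_two_gt_d9
    have hlb : 0 < Real.log b := by linarith
    have h4 : (T : ℝ) ≤ 1 + Real.log N / Real.log b := by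
      have : (T : ℝ) = (T * Real.log b) / Real.log b := by field_simp
      rw [this, div_le_iff₀ hlb, add_mul, one_mul, div_mul_cancel₀ _ hlb.ne']
      exact h1
    have h5 : Real.log N / Real.log b ≤ 2 * Real.log N := by
      rw [div_le_iff₀ hlb]
      nlinarith
    linarith
  refine ⟨val b T 1 (fun _ v => g₀ v), ?_, ?_⟩
  · have h1 := tv_bdd b T 1 N le_rfl (by omega) (fun _ v => g₀ v) W hW0 (fun _ v hv => hWb v hv)
    have h2 : (tv (val b T 1 (fun _ v => g₀ v)) N : ℝ) ≤ ((2 * W * T * N : ℤ) : ℝ) := by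
      exact_mod_cast h1
    push_cast at h2
    refine h2.trans ?_
    have hWr : (0 : ℝ) ≤ W := by exact_mod_cast hW0
    calc 2 * (W : ℝ) * T * N ≤ 2 * W * (2 * (1 + Real.log N)) * N := by gcongr
      _ = 4 * W * N * (1 + Real.log N) := by ring
      _ ≤ _ := by
        have : 0 ≤ 1 + Real.log N := by linarith
        gcongr
        exact le_max_left _ _
  · have h1 : ∀ s ∈ slopes S, ((range N).image (fun x : ℕ =>
        (val b T 1 (fun _ v => g₀ v) x : ℚ) + s * x)).card ≤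
        (big S (graph g₀ (range b))) ^ T := by
      intro s hs
      refine (count1 b T 1 (by omega) le_rfl (fun _ v => g₀ v) s (range N) (fun x hx => ?_)).trans ?_
      · have := Finset.mem_range.1 hx
        rw [Nat.div_one]
        omega
      · rw [one_mul]
        calc ∏ i ∈ range T, ((range b).image (fun v : ℕ =>
              (g₀ v : ℚ) + (s * ((1 : ℕ) : ℚ)) * v)).card
            ≤ ∏ i ∈ range T, big S (graph g₀ (range b)) := by
              refine Finset.prod_le_prod' fun i _ => ?_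
              rw [Nat.cast_one, mul_one]
              exact le_big S hS g₀ (range b) s hs
          _ = _ := by rw [Finset.prod_const, Finset.card_range]
    have h2 := big_le S hS _ (range N) _ h1
    have h3 : (big S (graph (val b T 1 (fun _ v => g₀ v)) (range N)) : ℝ) ≤
        ((big S (graph g₀ (range b)) : ℕ) : ℝ) ^ T := by exact_mod_cast h2
    calc _ ≤ ((big S (graph g₀ (range b)) : ℕ) : ℝ) ^ T := h3
      _ ≤ ((b : ℝ) ^ κ) ^ T := pow_le_pow_left₀ (Nat.cast_nonneg _) h0 T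
      _ = (((b ^ T : ℕ)) : ℝ) ^ κ := by
        push_cast
        rw [← Real.rpow_natCast, ← Real.rpow_natCast, ← Real.rpow_mul hb0.le,
          ← Real.rpow_mul hb0.le, mul_comm]
      _ ≤ (b * N : ℝ) ^ κ := Real.rpow_le_rpow (by positivity) hT2 hκ
      _ = (b : ℝ) ^ κ * (N : ℝ) ^ κ := Real.mul_rpow hb0.le (by linarith)
      _ ≤ _ := mul_le_mul_of_nonneg_right (le_max_right _ _) (by positivity)

theorem big_mono (S : Finset ℚ) (A B : Finset (ℤ × ℤ)) (h : A ⊆ B) : big S A ≤ big S B := by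
  unfold big
  refine max_le_max (Finset.card_le_card (Finset.image_subset_image h)) ?_
  exact Finset.sup_mono_fun fun r _ => Finset.card_le_card (Finset.image_subset_image h)

end Pool.Agent.U999.OD.TV
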