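import Mathlib
import Pool.Agent.U999.OD.TV2

set_option autoImplicit false

namespace Pool.Agent.U999.OD.TV

open Finset Filter

/-- A dense set covers a finite group by few translates. -/
theorem translates {G : Type} [AddCommGroup G] [Fintype G] [DecidableEq G] (E : Finset G) (c : ℝ)
    (hc1 : c ≤ 1) (hE : c * Fintype.card G ≤ E.card) : ∀ j : ℕ, ∃ T : Finset G, T.card ≤ j ∧
      (((Finset.univ.filter fun x : G => ∀ t ∈ T, x - t ∉ E).card : ℕ) : ℝ) ≤
        (1 - c) ^ j * Fintype.card G := by
  intro j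
  induction j with
  | zero =>
    refine ⟨∅, by simp, ?_⟩
    rw [pow_zero, one_mul]
    exact_mod_cast (Finset.card_filter_le _ _)
  | succ j ih =>
    obtain ⟨T, hT, hU⟩ := ih
    set U := Finset.univ.filter fun x : G => ∀ t ∈ T, x - t ∉ E with hUdef
    have hG : (0 : ℝ) < Fintype.card G := by exact_mod_cast Fintype.card_pos
    have hsum : ∑ t : G, ((U.filter fun x => x - t ∈ E).card : ℝ) = U.card * E.card := by
      have h1 : ∀ t : G, ((U.filter fun x => x - t ∈ E).card : ℝ) =
          ∑ x ∈ U, if x - t ∈ E then (1 : ℝ) else 0 := by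
        intro t
        rw [Finset.card_filter]
        push_cast
        rfl
      simp only [h1]
      rw [Finset.sum_comm]
      have h2 : ∀ x ∈ U, ∑ t : G, (if x - t ∈ E then (1 : ℝ) else 0) = E.card := by
        intro x _
        rw [← Finset.sum_filter, Finset.sum_const, nsmul_eq_mul, mul_one]
        congr 1
        refine Finset.card_bij (fun t _ => x - t) ?_ ?_ ?_
        · intro t ht
          exact (Finset.mem_filter.1 ht).2
        · intro t _ t' _ h
          exact sub_right_injective h
        · intro e he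
          exact ⟨x - e, by
            rw [Finset.mem_filter]
            refine ⟨Finset.mem_univ _, ?_⟩
            rw [sub_sub_cancel]
            exact he, sub_sub_cancel _ _⟩
      rw [Finset.sum_congr rfl h2, Finset.sum_const, nsmul_eq_mul]
    obtain ⟨t, ht⟩ : ∃ t : G, (U.card : ℝ) * c ≤ ((U.filter fun x => x - t ∈ E).card : ℝ) := by
      by_contra hcon
      push Not at hcon
      have h1 : ∑ t : G, ((U.filter fun x => x - t ∈ E).card : ℝ) < ∑ t : G, (U.card : ℝ) * c :=
        Finset.sum_lt_sum_of_nonempty Finset.univ_nonempty fun t _ => hcon t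
      rw [hsum, Finset.sum_const, Finset.card_univ, nsmul_eq_mul] at h1
      have h2 : (U.card : ℝ) * (c * Fintype.card G) ≤ U.card * E.card :=
        mul_le_mul_of_nonneg_left hE (Nat.cast_nonneg _)
      nlinarith
    refine ⟨insert t T, (Finset.card_insert_le _ _).trans (by omega), ?_⟩
    have h3 : (Finset.univ.filter fun x : G => ∀ t' ∈ insert t T, x - t' ∉ E) =
        U.filter fun x => ¬ (x - t ∈ E) := by
      ext x
      rw [Finset.mem_filter, Finset.mem_filter, hUdef, Finset.mem_filter]
      constructor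
      · rintro ⟨_, h⟩
        exact ⟨⟨Finset.mem_univ _, fun t' ht' => h t' (Finset.mem_insert_of_mem ht')⟩,
          h t (Finset.mem_insert_self _ _)⟩
      · rintro ⟨⟨_, h⟩, h'⟩
        refine ⟨Finset.mem_univ _, fun t' ht' => ?_⟩
        rw [Finset.mem_insert] at ht'
        rcases ht' with rfl | ht'
        · exact h'
        · exact h t' ht'
    rw [h3]
    have h4 : (U.filter fun x => x - t ∈ E).card + (U.filter fun x => ¬ (x - t ∈ E)).card =
        U.card := Finset.card_filter_add_card_filter_not _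
    have h5 : ((U.filter fun x => x - t ∈ E).card : ℝ) +
        ((U.filter fun x => ¬ (x - t ∈ E)).card : ℝ) = U.card := by exact_mod_cast h4
    have h6 : (1 - c) * (U.card : ℝ) ≤ (1 - c) * ((1 - c) ^ j * Fintype.card G) :=
      mul_le_mul_of_nonneg_left hU (by linarith)
    rw [pow_succ]
    nlinarith

/-- linear forms modulo `p` -/
def lin (p m : ℕ) (lam : Fin m → ZMod p) (f : Fin m → ℤ) : ZMod p := ∑ i, lam i * (f i : ZMod p)

theorem lin_kernel (p m : ℕ) [Fact p.Prime] (f : Fin m → ℤ) (i₀ : Fin m)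
    (hf : (f i₀ : ZMod p) ≠ 0) :
    (Finset.univ.filter fun lam : Fin m → ZMod p => lin p m lam f = 0).card * p ≤ p ^ m := by
  classical
  have h1 : (Finset.univ.filter fun lam : Fin m → ZMod p => lin p m lam f = 0).card ≤
      Fintype.card ({i : Fin m // i ≠ i₀} → ZMod p) := by
    rw [← Finset.card_univ]
    refine Finset.card_le_card_of_injOn (fun lam i => lam i.1) (fun _ _ => Finset.mem_univ _) ?_
    intro lam hl lam' hl' h
    rw [Finset.mem_coe, Finset.mem_filter] at hl hl'
    have hne : ∀ i, i ≠ i₀ → lam i = lam' i := fun i hi => congrFun h ⟨i, hi⟩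
    funext i
    by_cases hi : i = i₀
    · subst hi
      have e1 := hl.2
      have e2 := hl'.2
      unfold lin at e1 e2
      rw [← Finset.add_sum_erase _ _ (Finset.mem_univ i)] at e1 e2
      have e3 : ∑ x ∈ Finset.univ.erase i, lam x * (f x : ZMod p) =
          ∑ x ∈ Finset.univ.erase i, lam' x * (f x : ZMod p) := by
        refine Finset.sum_congr rfl fun x hx => ?_
        rw [hne x (Finset.ne_of_mem_erase hx)]
      rw [e3] at e1
      have e4 : lam i * (f i : ZMod p) = lam' i * (f i : ZMod p) :=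
        add_right_cancel (e1.trans e2.symm)
      exact mul_right_cancel₀ hf e4
    · exact hne i hi
  have h2 : Fintype.card ({i : Fin m // i ≠ i₀} → ZMod p) = p ^ (m - 1) := by
    rw [Fintype.card_fun, ZMod.card, Fintype.card_subtype_compl, Fintype.card_fin,
      Fintype.card_subtype_eq]
  rw [h2] at h1
  have hm : 0 < m := Fin.pos i₀
  calc _ ≤ p ^ (m - 1) * p := Nat.mul_le_mul_right _ h1
    _ = p ^ m := by rw [← pow_succ]; congr 1; omega

/-- the number of values of a function that depends on the coordinates only through `π` -/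
theorem card_factor {β : Type} [DecidableEq β] {γ : Type} [DecidableEq γ] (m : ℕ)
    (A : Finset (ℤ × ℤ)) (π : ℤ × ℤ → γ) (F : (Fin m → ℤ × ℤ) → β)
    (hF : ∀ w w' : Fin m → ℤ × ℤ, (∀ i, π (w i) = π (w' i)) → F w = F w') :
    ((Fintype.piFinset fun _ : Fin m => A).image F).card ≤ (A.image π).card ^ m := by
  classical
  have h1 : (Fintype.piFinset fun _ : Fin m => A.image π).card = (A.image π).card ^ m := by
    rw [Fintype.card_piFinset]; simp
  rw [← h1]
  have hrep : ∃ rep : γ → ℤ × ℤ, ∀ v ∈ A.image π, π (rep v) = v := by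
    have : ∀ v : γ, ∃ a : ℤ × ℤ, v ∈ A.image π → π a = v := by
      intro v
      by_cases hv : v ∈ A.image π
      · obtain ⟨a, _, ha⟩ := Finset.mem_image.1 hv
        exact ⟨a, fun _ => ha⟩
      · exact ⟨0, fun h => (hv h).elim⟩
    choose rep hrep using this
    exact ⟨rep, hrep⟩
  obtain ⟨rep, hrep⟩ := hrep
  have hsub : ((Fintype.piFinset fun _ : Fin m => A).image F) ⊆
      (Fintype.piFinset fun _ : Fin m => A.image π).image (fun τ => F fun i => rep (τ i)) := by
    intro y hy
    rw [Finset.mem_image] at hy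
    obtain ⟨w, hw, rfl⟩ := hy
    rw [Fintype.mem_piFinset] at hw
    rw [Finset.mem_image]
    refine ⟨fun i => π (w i), ?_, ?_⟩
    · rw [Fintype.mem_piFinset]
      exact fun i => Finset.mem_image_of_mem _ (hw i)
    · refine hF _ _ fun i => ?_
      exact hrep _ (Finset.mem_image_of_mem _ (hw i))
  exact (Finset.card_le_card hsub).trans Finset.card_image_le

/-- integers in an interval of length `K p`, counted modulo `p` -/
theorem card_mod {ι : Type} [DecidableEq ι] (X : Finset ι) (f : ι → ℤ) (p K : ℕ) [NeZero p]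
    (lo : ℤ) (h1 : ∀ w ∈ X, lo ≤ f w) (h2 : ∀ w ∈ X, f w < lo + K * p) :
    (X.image f).card ≤ K * (X.image (fun w => (f w : ZMod p))).card := by
  classical
  have hp : (0 : ℤ) < p := by exact_mod_cast Nat.pos_of_ne_zero (NeZero.ne p)
  have h3 : (X.image f).card ≤
      ((range K) ×ˢ (X.image (fun w => (f w : ZMod p)))).card := by
    refine Finset.card_le_card_of_injOn (fun v => (((v - lo) / p).toNat, (v : ZMod p))) ?_ ?_
    · intro v hv
      rw [Finset.mem_coe, Finset.mem_image] at hv
      obtain ⟨w, hw, rfl⟩ := hv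
      rw [Finset.mem_coe, Finset.mem_product]
      refine ⟨?_, Finset.mem_image_of_mem _ hw⟩
      rw [Finset.mem_range]
      have e1 : 0 ≤ (f w - lo) / p := Int.ediv_nonneg (by linarith [h1 w hw]) hp.le
      have e2 : (f w - lo) / p < K := Int.ediv_lt_of_lt_mul hp (by linarith [h2 w hw])
      show ((f w - lo) / p).toNat < K
      omega
    · intro v hv v' hv' h
      rw [Finset.mem_coe, Finset.mem_image] at hv hv'
      obtain ⟨w, hw, rfl⟩ := hv
      obtain ⟨w', hw', rfl⟩ := hv'
      rw [Prod.mk.injEq] at h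
      have e1 : 0 ≤ (f w - lo) / p := Int.ediv_nonneg (by linarith [h1 w hw]) hp.le
      have e2 : 0 ≤ (f w' - lo) / p := Int.ediv_nonneg (by linarith [h1 w' hw']) hp.le
      have e3 : (f w - lo) / p = (f w' - lo) / p := by
        have := h.1
        omega
      have e4 : (f w - lo) % p = (f w' - lo) % p := by
        have h5 := (ZMod.intCast_eq_intCast_iff_dvd_sub _ _ _).1 h.2
        refine Int.emod_emod_of_dvd _ (dvd_refl _) ▸ ?_
        refine (Int.emod_emod_of_dvd _ (dvd_refl (p : ℤ))).trans ?_
        refine (Int.emod_eq_emod_iff_emod_sub_eq_zero).2 ?_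
        have : f w - lo - (f w' - lo) = - (f w' - f w) := by ring
        rw [this]
        exact Int.emod_eq_zero_of_dvd ((dvd_neg).2 h5)
      have e5 := Int.mul_ediv_add_emod (f w - lo) p
      have e6 := Int.mul_ediv_add_emod (f w' - lo) p
      rw [e3, e4] at e5
      linarith
  rw [Finset.card_product, Finset.card_range] at h3
  exact h3

theorem lin_sub (p m : ℕ) (lam : Fin m → ZMod p) (f g : Fin m → ℤ) :
    lin p m lam (fun i => f i - g i) = lin p m lam f - lin p m lam g := by
  unfold lin
  rw [← Finset.sum_sub_distrib]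
  refine Finset.sum_congr rfl fun i _ => ?_
  push_cast
  ring

theorem count_r (p m : ℕ) [NeZero p] (lam : Fin m → ZMod p) (A : Finset (ℤ × ℤ)) (r : ℚ) :
    ((Fintype.piFinset fun _ : Fin m => A).image (fun w =>
      ((ZMod.val (lin p m lam fun i => (w i).1) : ℕ) : ℚ) +
        r * ((ZMod.val (lin p m lam fun i => (w i).2) : ℕ) : ℚ))).card ≤
      (2 * r.num.natAbs + r.den) * (proj r A).card ^ m := by
  classical
  set X : (Fin m → ℤ × ℤ) → ℤ := fun w => ((ZMod.val (lin p m lam fun i => (w i).1) : ℕ) : ℤ)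
    with hX
  set Y : (Fin m → ℤ × ℤ) → ℤ := fun w => ((ZMod.val (lin p m lam fun i => (w i).2) : ℕ) : ℤ)
    with hY
  have hp : (0 : ℤ) < p := by exact_mod_cast Nat.pos_of_ne_zero (NeZero.ne p)
  have hX0 : ∀ w, 0 ≤ X w := fun w => Int.natCast_nonneg _
  have hY0 : ∀ w, 0 ≤ Y w := fun w => Int.natCast_nonneg _
  have hX1 : ∀ w, X w < p := fun w => by
    have := ZMod.val_lt (lin p m lam fun i => (w i).1)
    simp only [hX]
    exact_mod_cast this
  have hY1 : ∀ w, Y w < p := fun w => by
    have := ZMod.val_lt (lin p m lam fun i => (w i).2)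
    simp only [hY]
    exact_mod_cast this
  have hden : (0 : ℚ) < r.den := by exact_mod_cast r.den_pos
  have hdenz : (0 : ℤ) < r.den := by exact_mod_cast r.den_pos
  have hrr : r * r.den = r.num := Rat.mul_den_eq_num r
  have h1 : ((Fintype.piFinset fun _ : Fin m => A).image (fun w =>
      ((ZMod.val (lin p m lam fun i => (w i).1) : ℕ) : ℚ) +
        r * ((ZMod.val (lin p m lam fun i => (w i).2) : ℕ) : ℚ))) ⊆
      ((Fintype.piFinset fun _ : Fin m => A).image (fun w =>
        (r.den : ℤ) * X w + r.num * Y w)).image (fun v : ℤ => (v : ℚ) / r.den) := by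
    intro y hy
    rw [Finset.mem_image] at hy
    obtain ⟨w, hw, rfl⟩ := hy
    rw [Finset.mem_image]
    refine ⟨(r.den : ℤ) * X w + r.num * Y w, Finset.mem_image_of_mem _ hw, ?_⟩
    rw [div_eq_iff hden.ne']
    simp only [hX, hY]
    push_cast
    rw [← hrr]
    ring
  refine (Finset.card_le_card h1).trans (Finset.card_image_le.trans ?_)
  have hab : -(r.num.natAbs : ℤ) ≤ r.num ∧ r.num ≤ r.num.natAbs := by omega
  refine (card_mod _ _ p (2 * r.num.natAbs + r.den) (-(r.num.natAbs : ℤ) * p) ?_ ?_).trans ?_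
  · intro w _
    have e1 : 0 ≤ (r.den : ℤ) * X w := mul_nonneg hdenz.le (hX0 w)
    have e2 : -(r.num.natAbs : ℤ) * p ≤ -(r.num.natAbs : ℤ) * Y w := by
      have := hY1 w
      have h0 : (0 : ℤ) ≤ (r.num.natAbs : ℤ) := Int.natCast_nonneg _
      nlinarith
    have e3 : -(r.num.natAbs : ℤ) * Y w ≤ r.num * Y w :=
      mul_le_mul_of_nonneg_right hab.1 (hY0 w)
    linarith
  · intro w _
    have e1 : (r.den : ℤ) * X w < r.den * p := mul_lt_mul_of_pos_left (hX1 w) hdenz
    have e2 : r.num * Y w ≤ (r.num.natAbs : ℤ) * Y w := mul_le_mul_of_nonneg_right hab.2 (hY0 w)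
    have e3 : (r.num.natAbs : ℤ) * Y w ≤ (r.num.natAbs : ℤ) * p :=
      mul_le_mul_of_nonneg_left (hY1 w).le (Int.natCast_nonneg _)
    rw [Nat.cast_add, Nat.cast_mul, Nat.cast_ofNat]
    linarith
  · refine Nat.mul_le_mul_left _ ?_
    unfold proj
    refine card_factor m A (fun q : ℤ × ℤ => (q.1 : ℚ) + r * (q.2 : ℚ)) _ fun w w' h => ?_
    have key : ∀ w : Fin m → ℤ × ℤ, (((r.den : ℤ) * X w + r.num * Y w : ℤ) : ZMod p) =
        lin p m lam fun i => (r.den : ℤ) * (w i).1 + r.num * (w i).2 := by
      intro w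
      simp only [hX, hY]
      push_cast
      rw [ZMod.natCast_zmod_val, ZMod.natCast_zmod_val]
      unfold lin
      rw [Finset.mul_sum, Finset.mul_sum, ← Finset.sum_add_distrib]
      refine Finset.sum_congr rfl fun i _ => ?_
      push_cast
      ring
    rw [key, key]
    congr 1
    funext i
    have h2 := h i
    have h3 : (r.den : ℚ) * ((w i).1 : ℚ) + (r.num : ℚ) * ((w i).2 : ℚ) =
        (r.den : ℚ) * ((w' i).1 : ℚ) + (r.num : ℚ) * ((w' i).2 : ℚ) := by
      rw [← hrr]
      linear_combination (r.den : ℚ) * h2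
    exact_mod_cast h3

end Pool.Agent.U999.OD.TV
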