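import Mathlib
import Pool.Agent.U999.OD.TV3

set_option autoImplicit false

namespace Pool.Agent.U999.OD.TV

open Finset Filter

/-- a linear form with a large image -/
theorem exists_lam (p m n : ℕ) [Fact p.Prime] (D : Finset ℤ) (hn : D.card = n)
    (hD : ∀ d ∈ D, ∀ d' ∈ D, d ≠ d' → ((d - d' : ℤ) : ZMod p) ≠ 0) (hp : 2 * n ^ m ≤ p) :
    ∃ lam : Fin m → ZMod p,
      n ^ m ≤ 2 * ((Fintype.piFinset fun _ : Fin m => D).image (lin p m lam)).card := by
  classical
  have hp0 : 0 < p := (Fact.out : p.Prime).pos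
  set W : Finset (Fin m → ℤ) := Fintype.piFinset fun _ : Fin m => D with hW
  have hWc : W.card = n ^ m := by
    rw [hW, Fintype.card_piFinset]; simp [hn]
  set P : Finset ((Fin m → ℤ) × (Fin m → ℤ)) := (W ×ˢ W).filter fun u => u.1 ≠ u.2 with hP
  have hPc : P.card ≤ n ^ m * n ^ m := by
    refine (Finset.card_filter_le _ _).trans ?_
    rw [Finset.card_product, hWc]
  have hlamc : (Finset.univ : Finset (Fin m → ZMod p)).card = p ^ m := by
    rw [Finset.card_univ, Fintype.card_fun, ZMod.card, Fintype.card_fin]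
  -- the bad pairs of a linear form
  have hker : ∀ u ∈ P, (Finset.univ.filter fun lam : Fin m → ZMod p =>
      lin p m lam u.1 = lin p m lam u.2).card * p ≤ p ^ m := by
    intro u hu
    rw [hP, Finset.mem_filter, Finset.mem_product, hW, Fintype.mem_piFinset,
      Fintype.mem_piFinset] at hu
    obtain ⟨⟨h1, h2⟩, h3⟩ := hu
    obtain ⟨i, hi⟩ : ∃ i, u.1 i ≠ u.2 i := by
      by_contra hcon
      push Not at hcon
      exact h3 (funext hcon)
    have h4 := lin_kernel p m (fun i => u.1 i - u.2 i) i (hD _ (h1 i) _ (h2 i) hi)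
    refine le_trans (Nat.mul_le_mul_right _ (Finset.card_le_card ?_)) h4
    intro lam hl
    rw [Finset.mem_filter] at hl ⊢
    refine ⟨hl.1, ?_⟩
    rw [lin_sub, hl.2, sub_self]
  have hex : ∃ lam : Fin m → ZMod p,
      (P.filter fun u => lin p m lam u.1 = lin p m lam u.2).card * p ≤ P.card := by
    by_contra hcon
    push Not at hcon
    have h1 : ∑ lam : Fin m → ZMod p, P.card <
        ∑ lam : Fin m → ZMod p, (P.filter fun u => lin p m lam u.1 = lin p m lam u.2).card * p := by
      refine Finset.sum_lt_sum_of_nonempty ?_ fun lam _ => hcon lam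
      exact ⟨fun _ => 0, Finset.mem_univ _⟩
    rw [Finset.sum_const, hlamc, smul_eq_mul, ← Finset.sum_mul] at h1
    have h2 : ∑ lam : Fin m → ZMod p, (P.filter fun u => lin p m lam u.1 = lin p m lam u.2).card =
        ∑ u ∈ P, (Finset.univ.filter fun lam : Fin m → ZMod p =>
          lin p m lam u.1 = lin p m lam u.2).card := by
      simp only [Finset.card_filter]
      rw [Finset.sum_comm]
    rw [h2, Finset.sum_mul] at h1
    have h3 : ∑ u ∈ P, (Finset.univ.filter fun lam : Fin m → ZMod p =>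
          lin p m lam u.1 = lin p m lam u.2).card * p ≤ ∑ u ∈ P, p ^ m :=
      Finset.sum_le_sum hker
    rw [Finset.sum_const, smul_eq_mul] at h3
    have := h1.trans_le h3
    rw [mul_comm] at this
    exact lt_irrefl _ this
  obtain ⟨lam, hlam⟩ := hex
  refine ⟨lam, ?_⟩
  set Q := P.filter fun u => lin p m lam u.1 = lin p m lam u.2 with hQ
  have hQc : 2 * Q.card ≤ n ^ m := by
    rcases Nat.eq_zero_or_pos (n ^ m) with h0 | h0
    · have : P.card = 0 := by
        have := hPc
        rw [h0] at this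
        omega
      have : Q.card = 0 := by
        have := Finset.card_filter_le P (fun u => lin p m lam u.1 = lin p m lam u.2)
        rw [← hQ] at this
        omega
      rw [this, h0]
    · have h1 : Q.card * (2 * n ^ m) ≤ n ^ m * n ^ m :=
        (Nat.mul_le_mul_left _ hp).trans (hlam.trans hPc)
      have h2 : (2 * Q.card) * n ^ m ≤ n ^ m * n ^ m := by
        calc (2 * Q.card) * n ^ m = Q.card * (2 * n ^ m) := by ring
          _ ≤ _ := h1
      exact Nat.le_of_mul_le_mul_right h2 h0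
  set bad := Q.image Prod.fst with hbad
  have hbadc : bad.card ≤ Q.card := Finset.card_image_le
  have hgood : (W \ bad).card ≤ (W.image (lin p m lam)).card := by
    refine Finset.card_le_card_of_injOn (lin p m lam) ?_ ?_
    · intro w hw
      rw [Finset.mem_coe, Finset.mem_sdiff] at hw
      exact Finset.mem_coe.2 (Finset.mem_image_of_mem _ hw.1)
    · intro w hw w' hw' h
      rw [Finset.mem_coe, Finset.mem_sdiff] at hw hw'
      by_contra hne
      apply hw.2
      rw [hbad, Finset.mem_image]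
      refine ⟨(w, w'), ?_, rfl⟩
      rw [hQ, Finset.mem_filter, hP, Finset.mem_filter, Finset.mem_product]
      exact ⟨⟨⟨hw.1, hw'.1⟩, hne⟩, h⟩
  have hsd : W.card - bad.card ≤ (W \ bad).card := Finset.le_card_sdiff _ _
  rw [hWc] at hsd
  omega

/-- a set with a large image covers by few translates -/
theorem cover (p : ℕ) [Fact p.Prime] (E : Finset (ZMod p)) (hE : p ≤ 8 * E.card) :
    ∃ T : Finset (ZMod p), (T.card : ℝ) ≤ 8 * Real.log p + 2 ∧ ∀ x : ZMod p, ∃ t ∈ T, x - t ∈ E := by
  classical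
  have hp0 : 0 < p := (Fact.out : p.Prime).pos
  have hp1 : (1 : ℝ) < p := by exact_mod_cast (Fact.out : p.Prime).one_lt
  have hlog : 0 < Real.log p := Real.log_pos hp1
  set j : ℕ := ⌈8 * Real.log p⌉₊ + 1 with hj
  obtain ⟨T, hT, hU⟩ := translates E (1 / 8 : ℝ) (by norm_num) (by
    rw [ZMod.card]
    have : (p : ℝ) ≤ 8 * E.card := by exact_mod_cast hE
    linarith) j
  rw [ZMod.card] at hU
  have hj1 : 8 * Real.log p < j := by
    have := Nat.le_ceil (8 * Real.log p)
    rw [hj]
    push_cast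
    linarith
  have hj2 : (j : ℝ) ≤ 8 * Real.log p + 2 := by
    have := (Nat.ceil_lt_add_one (show 0 ≤ 8 * Real.log p by positivity)).le
    rw [hj]
    push_cast
    linarith
  have h1 : (1 - 1 / 8 : ℝ) ^ j * p < 1 := by
    have h2 : (1 - 1 / 8 : ℝ) ≤ Real.exp (-(1 / 8)) := Real.one_sub_le_exp_neg _
    have h3 : (1 - 1 / 8 : ℝ) ^ j ≤ Real.exp (-(1 / 8)) ^ j :=
      pow_le_pow_left₀ (by norm_num) h2 j
    rw [← Real.exp_nat_mul] at h3
    have h4 : Real.exp (j * -(1 / 8 : ℝ)) < Real.exp (-Real.log p) := by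
      apply Real.exp_lt_exp.2
      linarith
    rw [Real.exp_neg, Real.exp_log (by linarith)] at h4
    have h5 : (1 - 1 / 8 : ℝ) ^ j < (p : ℝ)⁻¹ := h3.trans_lt h4
    calc (1 - 1 / 8 : ℝ) ^ j * p < (p : ℝ)⁻¹ * p := mul_lt_mul_of_pos_right h5 (by linarith)
      _ = 1 := inv_mul_cancel₀ (by linarith)
  refine ⟨T, ?_, ?_⟩
  · have : (T.card : ℝ) ≤ j := by exact_mod_cast hT
    linarith
  · have h2 : (Finset.univ.filter fun x : ZMod p => ∀ t ∈ T, x - t ∉ E).card = 0 := by
      have h3 := hU.trans_lt h1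
      have h4 : (Finset.univ.filter fun x : ZMod p => ∀ t ∈ T, x - t ∉ E).card < 1 := by
        exact_mod_cast h3
      omega
    rw [Finset.card_eq_zero] at h2
    intro x
    by_contra hcon
    push Not at hcon
    have : x ∈ (Finset.univ.filter fun x : ZMod p => ∀ t ∈ T, x - t ∉ E) :=
      Finset.mem_filter.2 ⟨Finset.mem_univ _, hcon⟩
    rw [h2] at this
    exact absurd this (Finset.notMem_empty _)

theorem cast_diff (A : Finset (ℤ × ℤ)) :
    (A.image fun q : ℤ × ℤ => q.1 - q.2).card = (proj (-1) A).card := by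
  classical
  have h : proj (-1) A = (A.image fun q : ℤ × ℤ => q.1 - q.2).image (fun d : ℤ => (d : ℚ)) := by
    unfold proj
    rw [Finset.image_image]
    refine Finset.image_congr fun q _ => ?_
    simp only [Function.comp]
    push_cast
    ring
  rw [h, Finset.card_image_of_injective _ Int.cast_injective]

/-- from a finite set in the plane to an interval modulo a prime -/
theorem one_prime (p m n : ℕ) [Fact p.Prime] (A : Finset (ℤ × ℤ))
    (hn : (A.image fun q : ℤ × ℤ => q.1 - q.2).card = n)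
    (hD : ∀ d ∈ (A.image fun q : ℤ × ℤ => q.1 - q.2), ∀ d' ∈ (A.image fun q : ℤ × ℤ => q.1 - q.2),
      d ≠ d' → ((d - d' : ℤ) : ZMod p) ≠ 0) (hp : 2 * n ^ m ≤ p) (hp2 : p ≤ 4 * n ^ m) :
    ∃ (T : ℕ) (g : ℕ → ℤ), 1 ≤ T ∧ (T : ℝ) ≤ 8 * Real.log p + 2 ∧
      (projInf (graph g (range p))).card ≤ (projInf A).card ^ m ∧
      ∀ r : ℚ, (proj r (graph g (range p))).card ≤
        T * (3 * ((2 * r.num.natAbs + r.den) * (proj r A).card ^ m)) := by
  classical
  set D := A.image fun q : ℤ × ℤ => q.1 - q.2 with hDdef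
  obtain ⟨lam, hlam⟩ := exists_lam p m n D hn hD hp
  set E := (Fintype.piFinset fun _ : Fin m => D).image (lin p m lam) with hE
  obtain ⟨T, hT, hcov⟩ := cover p E (by omega)
  have hp0 : (0 : ℤ) < p := by exact_mod_cast (Fact.out : p.Prime).pos
  -- representatives
  have hch : ∀ x : ℕ, ∃ t : ZMod p, ∃ w : Fin m → ℤ × ℤ, t ∈ T ∧
      w ∈ (Fintype.piFinset fun _ : Fin m => A) ∧
      (x : ZMod p) = t + (lin p m lam fun i => (w i).1) - (lin p m lam fun i => (w i).2) := by
    intro x
    obtain ⟨t, ht, hx⟩ := hcov (x : ZMod p)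
    rw [hE, Finset.mem_image] at hx
    obtain ⟨v, hv, hvx⟩ := hx
    rw [Fintype.mem_piFinset] at hv
    have hrep : ∀ i, ∃ a ∈ A, a.1 - a.2 = v i := fun i => by
      obtain ⟨a, ha, hav⟩ := Finset.mem_image.1 (hv i)
      exact ⟨a, ha, hav⟩
    choose w hw hwv using hrep
    refine ⟨t, w, ht, Fintype.mem_piFinset.2 hw, ?_⟩
    have h1 : v = fun i => (w i).1 - (w i).2 := funext fun i => (hwv i).symm
    rw [h1, lin_sub] at hvx
    linear_combination -hvx
  choose t w ht hw hx using hch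
  refine ⟨T.card, fun x => ((ZMod.val (lin p m lam fun i => (w x i).2) : ℕ) : ℤ), ?_, hT, ?_, ?_⟩
  · exact Finset.card_pos.2 ⟨t 0, ht 0⟩
  · refine le_trans (Finset.card_le_card ?_) (card_factor m A (fun q : ℤ × ℤ => (q.2 : ℚ))
      (fun w => ((ZMod.val (lin p m lam fun i => (w i).2) : ℕ) : ℚ)) ?_)
    · intro y hy
      unfold projInf graph at hy
      rw [Finset.image_image, Finset.mem_image] at hy
      obtain ⟨x, _, rfl⟩ := hy
      rw [Finset.mem_image]
      refine ⟨w x, hw x, ?_⟩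
      simp only [Function.comp]
      push_cast
      rfl
    · intro w w' h
      have h1 : (fun i => (w i).2) = fun i => (w' i).2 := by
        funext i
        exact_mod_cast h i
      simp only [h1]
  · intro r
    set V : Finset ℚ := (Fintype.piFinset fun _ : Fin m => A).image (fun w =>
      ((ZMod.val (lin p m lam fun i => (w i).1) : ℕ) : ℚ) +
        r * ((ZMod.val (lin p m lam fun i => (w i).2) : ℕ) : ℚ)) with hV
    have hsub : proj r (graph (fun x => ((ZMod.val (lin p m lam fun i => (w x i).2) : ℕ) : ℤ))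
        (range p)) ⊆ (T ×ˢ (({-1, 0, 1} : Finset ℤ) ×ˢ V)).image
          (fun u => u.2.2 + ((ZMod.val u.1 : ℕ) : ℚ) - (p : ℚ) * (u.2.1 : ℚ)) := by
      intro y hy
      unfold proj graph at hy
      rw [Finset.image_image, Finset.mem_image] at hy
      obtain ⟨x, hxr, rfl⟩ := hy
      have hxp : (x : ℤ) < p := by exact_mod_cast Finset.mem_range.1 hxr
      set X : ℤ := ((ZMod.val (lin p m lam fun i => (w x i).1) : ℕ) : ℤ) with hXd
      set Y : ℤ := ((ZMod.val (lin p m lam fun i => (w x i).2) : ℕ) : ℤ) with hYd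
      set Z : ℤ := ((ZMod.val (t x) : ℕ) : ℤ) with hZd
      have hX0 : 0 ≤ X := Int.natCast_nonneg _
      have hY0 : 0 ≤ Y := Int.natCast_nonneg _
      have hZ0 : 0 ≤ Z := Int.natCast_nonneg _
      have hX1 : X < p := by
        have := ZMod.val_lt (lin p m lam fun i => (w x i).1)
        rw [hXd]
        exact_mod_cast this
      have hY1 : Y < p := by
        have := ZMod.val_lt (lin p m lam fun i => (w x i).2)
        rw [hYd]
        exact_mod_cast this
      have hZ1 : Z < p := by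
        have := ZMod.val_lt (t x)
        rw [hZd]
        exact_mod_cast this
      have hdvd : (p : ℤ) ∣ (Z + X - Y) - x := by
        rw [← ZMod.intCast_zmod_eq_zero_iff_dvd]
        rw [hXd, hYd, hZd]
        push_cast
        rw [ZMod.natCast_zmod_val, ZMod.natCast_zmod_val, ZMod.natCast_zmod_val, hx x]
        ring
      obtain ⟨z, hz⟩ := hdvd
      have hz1 : z < 2 := by
        by_contra hcon
        push Not at hcon
        nlinarith
      have hz2 : -2 < z := by
        by_contra hcon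
        push Not at hcon
        nlinarith
      rw [Finset.mem_image]
      refine ⟨(t x, z, (X : ℚ) + r * (Y : ℚ)), ?_, ?_⟩
      · rw [Finset.mem_product, Finset.mem_product]
        refine ⟨ht x, ?_, ?_⟩
        · have : z = -1 ∨ z = 0 ∨ z = 1 := by omega
          rcases this with h | h | h <;> simp [h]
        · show (X : ℚ) + r * (Y : ℚ) ∈ V
          rw [hV, Finset.mem_image]
          refine ⟨w x, hw x, ?_⟩
          rw [hXd, hYd]
          push_cast
          rfl
      · simp only [Function.comp]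
        have h2 : ((Z + X - Y - x : ℤ) : ℚ) = ((p * z : ℤ) : ℚ) := by exact_mod_cast hz
        push_cast at h2
        have h3 : ((ZMod.val (t x) : ℕ) : ℚ) = (Z : ℚ) := by rw [hZd]; push_cast; rfl
        rw [h3]
        push_cast
        linear_combination h2
    refine (Finset.card_le_card hsub).trans (Finset.card_image_le.trans ?_)
    rw [Finset.card_product, Finset.card_product]
    refine Nat.mul_le_mul_left _ ?_
    have h3 : ({-1, 0, 1} : Finset ℤ).card = 3 := by decide
    rw [h3]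
    exact Nat.mul_le_mul_left _ (count_r p m lam A r)

theorem log_ev (K δ : ℝ) (hδ : 0 < δ) :
    ∀ᶠ x : ℝ in atTop, K * (8 * Real.log x + 2) ≤ x ^ δ := by
  have h1 := (isLittleO_log_rpow_atTop hδ).tendsto_div_nhds_zero
  have h2 : Tendsto (fun x : ℝ => 2 / x ^ δ) atTop (nhds 0) :=
    Tendsto.div_atTop tendsto_const_nhds (tendsto_rpow_atTop hδ)
  have h3 : Tendsto (fun x : ℝ => K * (8 * (Real.log x / x ^ δ) + 2 / x ^ δ)) atTop
      (nhds (K * (8 * 0 + 0))) := ((h1.const_mul 8).add h2).const_mul K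
  rw [mul_zero, zero_add, mul_zero] at h3
  filter_upwards [h3.eventually (gt_mem_nhds (show (0 : ℝ) < 1 by norm_num)), eventually_gt_atTop 0]
    with x hx hx0
  have hxd : 0 < x ^ δ := Real.rpow_pos_of_pos hx0 _
  have h4 : K * (8 * (Real.log x / x ^ δ) + 2 / x ^ δ) = (K * (8 * Real.log x + 2)) / x ^ δ := by
    field_simp
  rw [h4, div_lt_one hxd] at hx
  exact hx.le

/-- arbitrary finite sets: the exponent of any finite set is reached up to an arbitrarily small
`δ` by graphs over full intervals of variation `O(N log N)` -/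
theorem up3 (S : Finset ℚ) (hS : (-1 : ℚ) ∉ S) (A : Finset (ℤ × ℤ)) (κ δ : ℝ) (hδ : 0 < δ)
    (hn : 2 ≤ (proj (-1) A).card) (hκ : (big S A : ℝ) ≤ ((proj (-1) A).card : ℝ) ^ κ) :
    ∃ C : ℝ, ∀ N : ℕ, 1 ≤ N → ∃ g : ℕ → ℤ, (tv g N : ℝ) ≤ C * N * (1 + Real.log N) ∧
      (big S (graph g (range N)) : ℝ) ≤ C * (N : ℝ) ^ (κ + δ) := by
  classical
  set n := (proj (-1) A).card with hndef
  have hnr : (2 : ℝ) ≤ n := by exact_mod_cast hn
  have hAne : A.Nonempty := by
    rw [Finset.nonempty_iff_ne_empty]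
    rintro rfl
    rw [hndef] at hn
    simp [proj] at hn
  have hbig1 : 1 ≤ big S A := by
    refine le_trans ?_ (le_max_left _ _)
    exact Finset.card_pos.2 (hAne.image _)
  have hκ0 : 0 ≤ κ := by
    by_contra hneg
    push Not at hneg
    have h1 : (1 : ℝ) ≤ big S A := by exact_mod_cast hbig1
    have h3 : (n : ℝ) ^ κ < 1 := Real.rpow_lt_one_of_one_lt_of_neg (by linarith) hneg
    linarith
  set K : ℕ := 1 + ∑ r ∈ S, (2 * r.num.natAbs + r.den) with hK
  have hKr : ∀ r ∈ S, 2 * r.num.natAbs + r.den ≤ K := by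
    intro r hr
    have := Finset.single_le_sum (f := fun r : ℚ => 2 * r.num.natAbs + r.den)
      (fun _ _ => Nat.zero_le _) hr
    omega
  set D := A.image fun q : ℤ × ℤ => q.1 - q.2 with hD
  have hDn : D.card = n := cast_diff A
  set B : ℕ := ∑ d ∈ D, d.natAbs with hB
  have hBd : ∀ d ∈ D, d.natAbs ≤ B := fun d hd =>
    Finset.single_le_sum (f := fun d : ℤ => d.natAbs) (fun _ _ => Nat.zero_le _) hd
  obtain ⟨x₀, hx₀⟩ := (eventually_atTop.1 (log_ev (3 * K) δ hδ))
  obtain ⟨m, hm1, hm2⟩ : ∃ m : ℕ, x₀ ≤ (2 : ℝ) ^ m ∧ 2 * B < 2 ^ m := by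
    obtain ⟨m1, hm1⟩ := pow_unbounded_of_one_lt x₀ (show (1 : ℝ) < 2 by norm_num)
    refine ⟨max m1 (2 * B), ?_, ?_⟩
    · exact hm1.le.trans (pow_le_pow_right₀ (by norm_num) (le_max_left _ _))
    · exact (Nat.lt_two_pow_self).trans_le (Nat.pow_le_pow_right (by norm_num) (le_max_right _ _))
  have hnm : 2 ^ m ≤ n ^ m := Nat.pow_le_pow_left hn m
  have hnm1 : 1 ≤ n ^ m := Nat.one_le_pow _ _ (by omega)
  obtain ⟨p, hpp, hp1, hp2⟩ := Nat.exists_prime_lt_and_le_two_mul (2 * n ^ m) (by omega)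
  have : Fact p.Prime := ⟨hpp⟩
  have hDp : ∀ d ∈ D, ∀ d' ∈ D, d ≠ d' → ((d - d' : ℤ) : ZMod p) ≠ 0 := by
    intro d hd d' hd' hne h0
    rw [ZMod.intCast_zmod_eq_zero_iff_dvd] at h0
    have h1 := Int.natAbs_dvd_natAbs.2 h0
    rw [Int.natAbs_natCast] at h1
    have h2 := Nat.le_of_dvd (Int.natAbs_pos.2 (sub_ne_zero.2 hne)) h1
    have h3 := hBd d hd
    have h4 := hBd d' hd'
    have h5 : (d - d').natAbs ≤ d.natAbs + d'.natAbs := by omega
    omega
  obtain ⟨T, g, hT1, hT, hinf, hr⟩ := one_prime p m n A hDn hDp hp1.le (by omega)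
  have hpr : (1 : ℝ) < p := by exact_mod_cast hpp.one_lt
  have hlogp : 0 < Real.log p := Real.log_pos hpr
  have hbound : big S (graph g (range p)) ≤ T * (3 * (K * big S A ^ m)) := by
    unfold big
    refine max_le ?_ (Finset.sup_le fun r hrS => ?_)
    · refine hinf.trans ?_
      have h1 : (projInf A).card ^ m ≤ big S A ^ m := Nat.pow_le_pow_left (le_max_left _ _) m
      have h2 : 1 * (1 * (1 * big S A ^ m)) ≤ T * (3 * (K * big S A ^ m)) := by
        refine Nat.mul_le_mul hT1 (Nat.mul_le_mul (by norm_num) (Nat.mul_le_mul ?_ le_rfl))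
        omega
      unfold big at h1 h2
      omega
    · refine (hr r).trans ?_
      refine Nat.mul_le_mul_left _ (Nat.mul_le_mul_left _ (Nat.mul_le_mul (hKr r hrS) ?_))
      refine Nat.pow_le_pow_left ?_ m
      exact (Finset.le_sup (f := fun r => (proj r A).card) hrS).trans (le_max_right _ _)
  have hfin : (big S (graph g (range p)) : ℝ) ≤ (p : ℝ) ^ (κ + δ) := by
    have h1 : (big S (graph g (range p)) : ℝ) ≤ (T : ℝ) * (3 * (K * (big S A : ℝ) ^ m)) := by
      exact_mod_cast hbound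
    have h2 : (big S A : ℝ) ^ m ≤ (p : ℝ) ^ κ := by
      calc (big S A : ℝ) ^ m ≤ ((n : ℝ) ^ κ) ^ m := pow_le_pow_left₀ (Nat.cast_nonneg _) hκ m
        _ = ((n : ℝ) ^ m) ^ κ := by
          rw [← Real.rpow_natCast, ← Real.rpow_natCast, ← Real.rpow_mul (by linarith),
            ← Real.rpow_mul (by linarith), mul_comm]
        _ ≤ (p : ℝ) ^ κ := by
          refine Real.rpow_le_rpow (by positivity) ?_ hκ0
          have : n ^ m ≤ p := by omega
          exact_mod_cast this
    have h3 : (3 * K : ℝ) * (8 * Real.log p + 2) ≤ (p : ℝ) ^ δ := by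
      refine hx₀ p (hm1.trans ?_)
      have : 2 ^ m ≤ p := by omega
      exact_mod_cast this
    have hK0 : (0 : ℝ) ≤ K := Nat.cast_nonneg _
    calc (big S (graph g (range p)) : ℝ) ≤ (T : ℝ) * (3 * (K * (big S A : ℝ) ^ m)) := h1
      _ ≤ (8 * Real.log p + 2) * (3 * (K * (p : ℝ) ^ κ)) := by gcongr
      _ = ((3 * K : ℝ) * (8 * Real.log p + 2)) * (p : ℝ) ^ κ := by ring
      _ ≤ (p : ℝ) ^ δ * (p : ℝ) ^ κ := mul_le_mul_of_nonneg_right h3 (by positivity)
      _ = (p : ℝ) ^ (κ + δ) := by rw [← Real.rpow_add (by linarith), add_comm]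
  exact up2 S hS p hpp.two_le g (κ + δ) hfin

/-- the same with a strict inequality and without loss in the exponent -/
theorem up4 (S : Finset ℚ) (hS : (-1 : ℚ) ∉ S) (A : Finset (ℤ × ℤ)) (κ : ℝ)
    (hn : 2 ≤ (proj (-1) A).card) (hκ : (big S A : ℝ) < ((proj (-1) A).card : ℝ) ^ κ) :
    ∃ C : ℝ, ∀ N : ℕ, 1 ≤ N → ∃ g : ℕ → ℤ, (tv g N : ℝ) ≤ C * N * (1 + Real.log N) ∧
      (big S (graph g (range N)) : ℝ) ≤ C * (N : ℝ) ^ κ := by
  have hnr : (2 : ℝ) ≤ (proj (-1) A).card := by exact_mod_cast hn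
  have hAne : A.Nonempty := by
    rw [Finset.nonempty_iff_ne_empty]
    rintro rfl
    simp [proj] at hn
  have hbig1 : 1 ≤ big S A := by
    refine le_trans ?_ (le_max_left _ _)
    exact Finset.card_pos.2 (hAne.image _)
  have hbigr : (1 : ℝ) ≤ big S A := by exact_mod_cast hbig1
  set n : ℝ := ((proj (-1) A).card : ℝ) with hndef
  have hlogn : 0 < Real.log n := Real.log_pos (by linarith)
  have h1 : Real.log (big S A) < κ * Real.log n := by
    have := Real.log_lt_log (by linarith) hκ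
    rwa [Real.log_rpow (by linarith)] at this
  have h2 : Real.log (big S A) / Real.log n < κ := by
    rw [div_lt_iff₀ hlogn]
    exact h1
  have h3 : (big S A : ℝ) ≤ n ^ (Real.log (big S A) / Real.log n) := by
    rw [Real.rpow_def_of_pos (by linarith), mul_div_cancel₀ _ hlogn.ne', Real.exp_log (by linarith)]
  obtain ⟨C, hC⟩ := up3 S hS A (Real.log (big S A) / Real.log n)
    (κ - Real.log (big S A) / Real.log n) (by linarith) hn h3
  refine ⟨C, fun N hN => ?_⟩
  obtain ⟨g, hg1, hg2⟩ := hC N hN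
  refine ⟨g, hg1, ?_⟩
  rw [add_sub_cancel] at hg2
  exact hg2

end Pool.Agent.U999.OD.TV
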