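import Mathlib
import Pool.Agent.U999.OD.TV4
import Pool.Agent.U999.OD.TG1

set_option autoImplicit false

namespace Pool.Agent.U999.OD.TV

open Finset Filter

/-- `n` points of `A` with increasing differences and variation of the second coordinates `≤ V` -/
def HasSection (A : Finset (ℤ × ℤ)) (n : ℕ) (V : ℝ) : Prop :=
  ∃ P : ℕ → ℤ × ℤ, (∀ i, i < n → P i ∈ A) ∧
    (∀ i, i + 1 < n → (P i).1 - (P i).2 < (P (i + 1)).1 - (P (i + 1)).2) ∧
    ((∑ i ∈ range (n - 1), |(P (i + 1)).2 - (P i).2| : ℤ) : ℝ) ≤ V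

theorem le_bigA (S : Finset ℚ) (hS : (-1 : ℚ) ∉ S) (A : Finset (ℤ × ℤ)) (s : ℚ)
    (hs : s ∈ slopes S) :
    (A.image (fun q : ℤ × ℤ => (q.2 : ℚ) + s * ((q.1 : ℚ) - q.2))).card ≤ big S A := by
  unfold slopes at hs
  rw [Finset.mem_insert, Finset.mem_image] at hs
  rcases hs with hs | ⟨r, hr, hs⟩
  · refine le_trans ?_ (le_max_left _ _)
    refine Finset.card_le_card ?_
    intro y hy
    rw [Finset.mem_image] at hy
    obtain ⟨x, hx, rfl⟩ := hy
    unfold projInf
    rw [Finset.mem_image]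
    refine ⟨x, hx, ?_⟩
    rw [hs]
    simp
  · refine le_trans ?_ (le_max_right _ _)
    refine le_trans ?_ (Finset.le_sup (f := fun r => (proj r A).card) hr)
    have h1 : (1 : ℚ) + r ≠ 0 := by
      intro h
      apply hS
      have : r = -1 := by linarith
      rwa [← this]
    have hsub : A.image (fun q : ℤ × ℤ => (q.2 : ℚ) + s * ((q.1 : ℚ) - q.2)) ⊆
        (proj r A).image (fun y => y / (1 + r)) := by
      intro y hy
      rw [Finset.mem_image] at hy
      obtain ⟨q, hq, rfl⟩ := hy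
      rw [Finset.mem_image]
      refine ⟨(q.1 : ℚ) + r * (q.2 : ℚ), ?_, ?_⟩
      · unfold proj
        rw [Finset.mem_image]
        exact ⟨_, hq, rfl⟩
      · rw [← hs]
        field_simp
        ring
    exact (Finset.card_le_card hsub).trans Finset.card_image_le

theorem lowS (S : Finset ℚ) (hS : (-1 : ℚ) ∉ S) (ε : ℝ) (hε : 0 < ε) :
    ∃ c : ℝ, 0 < c ∧ ∃ N₀ : ℕ, ∀ n : ℕ, N₀ ≤ n → ∀ A : Finset (ℤ × ℤ),
      HasSection A n (c * n * Real.log n) →
      (n : ℝ) ^ (1 - 1 / ((S.card : ℝ) + 1) - ε) ≤ big S A := by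
  classical
  obtain ⟨sl, hsl1, hsl2⟩ := enum_slopes (slopes S)
  rw [slopes_card S hS] at hsl1 hsl2
  set k := S.card + 1 with hk
  obtain ⟨m1, hm1, hsep1⟩ := exists_m k (fun j => (sl j : ℝ))
    (fun i hi j hj h => hsl2 i hi j hj (by exact_mod_cast h))
  obtain ⟨m, hm, hsep, h0⟩ : ∃ m : ℕ, 1 ≤ m ∧
      (∀ i < k, ∀ j < k, i ≠ j → 2 ≤ (m : ℝ) * |(sl i : ℝ) - sl j|) ∧
      (∀ j < k, (sl j : ℝ) = 0 ∨ 2 ≤ (m : ℝ) * |(sl j : ℝ)|) := by
    have h : ∀ j : ℕ, ∃ m : ℕ, 2 / |(sl j : ℝ)| ≤ m := fun j => exists_nat_ge _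
    choose q hq using h
    refine ⟨m1 + ∑ j ∈ range k, q j, by omega, fun i hi j hj hne => ?_, fun j hj => ?_⟩
    · refine (hsep1 i hi j hj hne).trans (mul_le_mul_of_nonneg_right ?_ (abs_nonneg _))
      exact_mod_cast Nat.le_add_right m1 _
    · by_cases hz : (sl j : ℝ) = 0
      · exact Or.inl hz
      · right
        have hpos : 0 < |(sl j : ℝ)| := abs_pos.2 hz
        have h2 := hq j
        rw [div_le_iff₀ hpos] at h2
        refine h2.trans (mul_le_mul_of_nonneg_right ?_ hpos.le)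
        have h3 : q j ≤ ∑ j ∈ range k, q j :=
          Finset.single_le_sum (f := q) (fun _ _ => Nat.zero_le _) (Finset.mem_range.2 hj)
        have h4 : q j ≤ m1 + ∑ j ∈ range k, q j := h3.trans (Nat.le_add_left _ _)
        exact_mod_cast h4
  obtain ⟨p, hp, hcore⟩ := coreh k (by omega) (fun j => (sl j : ℝ)) m hm hsep h0 ε hε
  set b : ℕ := 2 ^ p with hb
  have hb2 : 2 ≤ b := by
    rw [hb]
    calc 2 = 2 ^ 1 := by norm_num
      _ ≤ 2 ^ p := Nat.pow_le_pow_right (by norm_num) hp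
  have hbr : (0 : ℝ) < b := by exact_mod_cast (show 0 < b by omega)
  have hpr : (0 : ℝ) < p := by exact_mod_cast hp
  obtain ⟨c1, κ, hc1, hκ, hT₀⟩ := hcore (1 / b) (by positivity)
  have htend : Tendsto (fun N : ℕ => (N : ℝ) ^ (ε / 2)) atTop atTop :=
    (tendsto_rpow_atTop (by positivity)).comp tendsto_natCast_atTop_atTop
  obtain ⟨N1, hN1⟩ := (htend.eventually_ge_atTop (1 / κ)).exists_forall_of_atTop
  refine ⟨c1 / p, by positivity, max 2 N1, fun N hN A hsec => ?_⟩
  obtain ⟨P, hPA, hPd, hPv⟩ := hsec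
  have hNa : 2 ≤ N := (le_max_left _ _).trans hN
  have hNb : N1 ≤ N := (le_max_right _ _).trans hN
  have hNr : (0 : ℝ) < N := by exact_mod_cast (show 0 < N by omega)
  have hN1r : (1 : ℝ) ≤ N := by exact_mod_cast (show 1 ≤ N by omega)
  have hbig1 : (1 : ℝ) ≤ big S A := by
    have : 1 ≤ big S A := by
      refine le_trans ?_ (le_max_left _ _)
      have hA : A.Nonempty := ⟨P 0, hPA 0 (by omega)⟩
      exact Finset.card_pos.2 (hA.image _)
    exact_mod_cast this
  set u : ℝ := 1 - 1 / ((S.card : ℝ) + 1) - ε with hu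
  by_cases hu0 : u ≤ 0
  · exact (Real.rpow_le_one_of_one_le_of_nonpos hN1r hu0).trans hbig1
  push Not at hu0
  set T := Nat.clog b N with hT
  have hT1 : N ≤ b ^ T := Nat.le_pow_clog (by omega) N
  have hTpos : 0 < T := Nat.clog_pos (by omega) (by omega)
  have hT2 : b ^ (T - 1) < N := by
    have := Nat.pow_pred_clog_lt_self (b := b) (x := N) (by omega) (by omega)
    exact this
  have hT3 : b ^ T < b * N := by
    have e : b ^ T = b * b ^ (T - 1) := by rw [← pow_succ']; congr 1; omega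
    rw [e]
    exact Nat.mul_lt_mul_of_pos_left hT2 (by omega)
  have hT1r : (N : ℝ) ≤ ((b ^ T : ℕ) : ℝ) := by exact_mod_cast hT1
  have hT3r : ((b ^ T : ℕ) : ℝ) ≤ b * N := by exact_mod_cast hT3.le
  have hlog : Real.log N ≤ T * p := by
    have e1 : Real.log N ≤ Real.log ((b ^ T : ℕ) : ℝ) := Real.log_le_log hNr hT1r
    have e2 : Real.log ((b ^ T : ℕ) : ℝ) = T * (p * Real.log 2) := by
      rw [hb]; push_cast
      rw [Real.log_pow, Real.log_pow]
    have e3 : Real.log 2 ≤ 1 := by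
      have := Real.log_two_lt_d9
      linarith
    rw [e2] at e1
    refine e1.trans ?_
    have : (0 : ℝ) ≤ T := Nat.cast_nonneg T
    have h5 : (p : ℝ) * Real.log 2 ≤ p * 1 := mul_le_mul_of_nonneg_left e3 hpr.le
    nlinarith
  set gg : ℕ → ℤ := fun i => (P i).2 with hgg
  set X : ℕ → ℝ := fun i => (((P (min i (N - 1))).1 - (P (min i (N - 1))).2 : ℤ) : ℝ) +
    ((i : ℝ) - (min i (N - 1) : ℕ)) with hX
  have hXinc : ∀ i, 1 ≤ X (i + 1) - X i := by
    intro i
    by_cases hi : i + 1 ≤ N - 1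
    · have h1 := hPd i (by omega)
      simp only [hX]
      rw [min_eq_left hi, min_eq_left (show i ≤ N - 1 by omega)]
      have h2 : (((P i).1 - (P i).2 : ℤ) : ℝ) + 1 ≤ (((P (i + 1)).1 - (P (i + 1)).2 : ℤ) : ℝ) := by
        exact_mod_cast h1
      linarith
    · simp only [hX]
      rw [min_eq_right (show N - 1 ≤ i + 1 by omega), min_eq_right (show N - 1 ≤ i by omega)]
      push_cast
      linarith
  obtain ⟨j, hj, hcard⟩ := hT₀ T hTpos (fun x => (gg (min x (N - 1)) : ℝ)) X (range N) hXinc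
    (Finset.range_subset_range.2 hT1)
    (by
      rw [Finset.card_range]
      calc 1 / (b : ℝ) * (((2 ^ p) ^ T : ℕ) : ℝ) ≤ 1 / b * (b * N) :=
            mul_le_mul_of_nonneg_left hT3r (by positivity)
        _ = N := by field_simp)
    (by
      refine (ext_var gg N _ (by omega) hT1).trans (le_trans hPv ?_)
      have h0 : 0 ≤ Real.log N := Real.log_nonneg hN1r
      calc c1 / p * N * Real.log N ≤ c1 / p * ((b ^ T : ℕ) : ℝ) * (T * p) := by gcongr
        _ = c1 * T * ((b ^ T : ℕ) : ℝ) := by field_simp)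
  have hcard2 : (((range N).image (fun x : ℕ => ⌊((gg (min x (N - 1)) : ℤ) : ℝ) +
      (sl j : ℝ) * X x⌋)).card) ≤ big S A := by
    refine le_trans ?_ (le_bigA S hS A (sl j) (hsl1 j hj))
    have hsub : (range N).image (fun x : ℕ => ⌊((gg (min x (N - 1)) : ℤ) : ℝ) +
        (sl j : ℝ) * X x⌋) ⊆
        (A.image (fun q : ℤ × ℤ => (q.2 : ℚ) + sl j * ((q.1 : ℚ) - q.2))).image
          (fun y : ℚ => ⌊(y : ℝ)⌋) := by
      intro z hz
      rw [Finset.mem_image] at hz
      obtain ⟨x, hx, rfl⟩ := hz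
      rw [Finset.mem_image]
      have hxN := Finset.mem_range.1 hx
      refine ⟨_, Finset.mem_image_of_mem _ (hPA x hxN), ?_⟩
      simp only [hX, hgg]
      rw [min_eq_left (show x ≤ N - 1 by omega)]
      push_cast
      congr 1
      ring
    exact (Finset.card_le_card hsub).trans Finset.card_image_le
  have hcard3 : κ * (2 : ℝ) ^ ((p : ℝ) * T * (1 - 1 / (k : ℝ) - ε / 2)) ≤
      big S A := hcard.trans (by exact_mod_cast hcard2)
  have hkr : (k : ℝ) = (S.card : ℝ) + 1 := by rw [hk]; push_cast; ring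
  have e3 : 1 - 1 / (k : ℝ) - ε / 2 = u + ε / 2 := by rw [hkr, hu]; ring
  have e4 : (2 : ℝ) ^ ((p : ℝ) * T * (1 - 1 / (k : ℝ) - ε / 2)) =
      (((b ^ T : ℕ) : ℝ)) ^ (u + ε / 2) := by
    rw [e3, hb]
    push_cast
    rw [← pow_mul, ← Real.rpow_natCast, ← Real.rpow_mul (by norm_num)]
    push_cast
    rfl
  rw [e4] at hcard3
  have h7 : (N : ℝ) ^ (u + ε / 2) ≤ (((b ^ T : ℕ) : ℝ)) ^ (u + ε / 2) :=
    Real.rpow_le_rpow hNr.le hT1r (by linarith)
  have h8 := hN1 N hNb
  rw [div_le_iff₀ hκ] at h8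
  calc (N : ℝ) ^ u = (N : ℝ) ^ u * 1 := (mul_one _).symm
    _ ≤ (N : ℝ) ^ u * ((N : ℝ) ^ (ε / 2) * κ) := mul_le_mul_of_nonneg_left h8 (by positivity)
    _ = κ * (N : ℝ) ^ (u + ε / 2) := by rw [Real.rpow_add hNr]; ring
    _ ≤ κ * (((b ^ T : ℕ) : ℝ)) ^ (u + ε / 2) := mul_le_mul_of_nonneg_left h7 hκ.le
    _ ≤ _ := hcard3

/-- small variation: a positive proportion of values -/
theorem lowS3 (S : Finset ℚ) (hS : (-1 : ℚ) ∉ S) (hne : S.Nonempty) :
    ∃ c : ℝ, 0 < c ∧ ∀ (n : ℕ) (A : Finset (ℤ × ℤ)), HasSection A n (c * n) →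
      c * n ≤ big S A := by
  classical
  obtain ⟨r, hr⟩ := hne
  have h1r : (1 : ℚ) + r ≠ 0 := by
    intro h
    apply hS
    have : r = -1 := by linarith
    rwa [← this]
  set s : ℚ := 1 / (1 + r) with hs
  have hs0 : s ≠ 0 := one_div_ne_zero h1r
  have hsr0 : (s : ℝ) ≠ 0 := by exact_mod_cast hs0
  have hsabs : 0 < |(s : ℝ)| := abs_pos.2 hsr0
  refine ⟨min (|(s : ℝ)| / 8) (1 / 4), lt_min (by positivity) (by positivity),
    fun N A hsec => ?_⟩
  set c : ℝ := min (|(s : ℝ)| / 8) (1 / 4) with hc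
  have hc1 : c ≤ |(s : ℝ)| / 8 := min_le_left _ _
  have hc2 : c ≤ 1 / 4 := min_le_right _ _
  obtain ⟨P, hPA, hPd, htv⟩ := hsec
  rcases Nat.eq_zero_or_pos N with hN | hN
  · rw [hN]; push_cast; rw [mul_zero]; positivity
  have hNr : (1 : ℝ) ≤ N := by exact_mod_cast hN
  have hbig1 : (1 : ℝ) ≤ big S A := by
    have : 1 ≤ big S A := by
      refine le_trans ?_ (le_max_left _ _)
      have hA : A.Nonempty := ⟨P 0, hPA 0 hN⟩
      exact Finset.card_pos.2 (hA.image _)
    exact_mod_cast this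
  set d : ℕ → ℤ := fun i => (P i).1 - (P i).2 with hd
  set G : ℕ → ℝ := fun x => (d x : ℝ) + ((P x).2 : ℝ) / s with hG
  have hsun := sun G (N - 1) (N - 1) 0 (by omega)
  set Exc := (Finset.Ico 0 (N - 1)).filter (fun i : ℕ => ∃ e' : ℕ, i < e' ∧ e' ≤ N - 1 ∧
    G e' - G i < ((e' : ℝ) - i) / 2) with hExc
  have hExcle : (Exc.card : ℝ) ≤ 2 * (c * N / |(s : ℝ)|) := by
    refine hsun.trans (mul_le_mul_of_nonneg_left ?_ (by norm_num))
    have h1 : ∀ i ∈ Finset.Ico 0 (N - 1), max 0 (1 - (G (i + 1) - G i)) ≤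
        |(((P (i + 1)).2 : ℤ) : ℝ) - (P i).2| / |(s : ℝ)| := by
      intro i hi
      rw [Finset.mem_Ico] at hi
      apply max_le (by positivity)
      have h2 : ((d i : ℤ) : ℝ) + 1 ≤ (d (i + 1) : ℝ) := by
        have := hPd i (by omega)
        exact_mod_cast this
      have e : 1 - (G (i + 1) - G i) = (1 - ((d (i + 1) : ℝ) - d i)) +
          -(((((P (i + 1)).2 : ℤ) : ℝ) - (P i).2) / s) := by
        simp only [hG]; ring
      rw [e, ← abs_div]
      have h3 := neg_le_abs (((((P (i + 1)).2 : ℤ) : ℝ) - (P i).2) / s)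
      linarith
    refine (Finset.sum_le_sum h1).trans ?_
    rw [← Finset.sum_div]
    refine div_le_div_of_nonneg_right ?_ hsabs.le
    refine le_trans (le_of_eq ?_) htv
    rw [← Finset.range_eq_Ico]
    push_cast
    rfl
  set S' := (range (N - 1)).filter (fun i => i ∉ Exc) with hS'
  have h1 : N ≤ S'.card + (Exc.card + 1) := by
    have hsub : range (N - 1) ⊆ S' ∪ Exc := by
      intro i hi
      rw [Finset.mem_union, hS', Finset.mem_filter]
      by_cases h3 : i ∈ Exc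
      · exact Or.inr h3
      · exact Or.inl ⟨hi, h3⟩
    have h2 := (Finset.card_le_card hsub).trans (Finset.card_union_le _ _)
    rw [Finset.card_range] at h2
    omega
  have hinj : Set.InjOn (fun i : ℕ => ((P i).2 : ℚ) + s * (((P i).1 : ℚ) - (P i).2))
      (S' : Set ℕ) := by
    have key : ∀ x ∈ S', ∀ y ∈ S', x < y → ((P x).2 : ℚ) + s * (((P x).1 : ℚ) - (P x).2) ≠
        ((P y).2 : ℚ) + s * (((P y).1 : ℚ) - (P y).2) := by
      intro x hx y hy hxy h
      rw [hS', Finset.mem_filter, Finset.mem_range] at hx hy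
      have hnot : ¬ (G y - G x < ((y : ℝ) - x) / 2) := by
        intro h3
        apply hx.2
        rw [hExc, Finset.mem_filter, Finset.mem_Ico]
        exact ⟨⟨Nat.zero_le _, by omega⟩, y, hxy, by omega, h3⟩
      push Not at hnot
      have h4 : G y = G x := by
        have h5 : ((P x).2 : ℝ) + (s : ℝ) * (((P x).1 : ℝ) - (P x).2) =
            ((P y).2 : ℝ) + (s : ℝ) * (((P y).1 : ℝ) - (P y).2) := by exact_mod_cast h
        simp only [hG, hd]
        push_cast
        field_simp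
        linarith
      have h6 : (x : ℝ) + 1 ≤ y := by exact_mod_cast hxy
      linarith
    intro x hx y hy h
    rcases lt_trichotomy x y with hlt | heq | hlt
    · exact (key x hx y hy hlt h).elim
    · exact heq
    · exact (key y hy x hx hlt h.symm).elim
  have h2 : S'.card ≤ big S A := by
    refine le_trans ?_ (le_bigA S hS A s
      (Finset.mem_insert_of_mem (Finset.mem_image_of_mem _ hr)))
    rw [← Finset.card_image_of_injOn hinj]
    refine Finset.card_le_card ?_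
    intro z hz
    rw [Finset.mem_image] at hz
    obtain ⟨i, hi, rfl⟩ := hz
    rw [hS', Finset.mem_filter, Finset.mem_range] at hi
    exact Finset.mem_image_of_mem (fun q : ℤ × ℤ => (q.2 : ℚ) + s * ((q.1 : ℚ) - q.2))
      (hPA i (by omega))
  have h3 : (N : ℝ) ≤ big S A + (Exc.card + 1) := by
    have : N ≤ big S A + (Exc.card + 1) := h1.trans (Nat.add_le_add_right h2 _)
    exact_mod_cast this
  have h4 : 2 * (c * N / |(s : ℝ)|) ≤ N / 4 := by
    have : c * N / |(s : ℝ)| ≤ N / 8 := by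
      rw [div_le_iff₀ hsabs]
      have := mul_le_mul_of_nonneg_right hc1 (show (0 : ℝ) ≤ N by linarith)
      calc c * N ≤ |(s : ℝ)| / 8 * N := this
        _ = N / 8 * |(s : ℝ)| := by ring
    linarith
  have h5 : c * N ≤ 1 / 4 * N := mul_le_mul_of_nonneg_right hc2 (by linarith)
  by_cases hcase : (N : ℝ) ≤ 4
  · linarith
  · push Not at hcase
    linarith

/-- the full interval as a section -/
theorem section_graph (g : ℕ → ℤ) (n : ℕ) (V : ℝ) (h : (tv g n : ℝ) ≤ V) :
    HasSection (graph g (range n)) n V := by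
  refine ⟨fun i => ((i : ℤ) + g i, g i), fun i hi => ?_, fun i _ => ?_, ?_⟩
  · unfold graph
    exact Finset.mem_image_of_mem _ (Finset.mem_range.2 hi)
  · simp
  · exact h

theorem diff_graph (g : ℕ → ℤ) (n : ℕ) :
    proj (-1) (graph g (range n)) = (range n).image (fun i : ℕ => (i : ℚ)) := by
  unfold proj graph
  rw [Finset.image_image]
  refine Finset.image_congr fun i _ => ?_
  simp only [Function.comp]
  push_cast
  ring

end Pool.Agent.U999.OD.TV
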