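import Mathlib
import Pool.Agent.U999.OD.Core

set_option autoImplicit false

namespace Pool.Agent.U999.OD

open Finset

/-- A sequence of integers that passes over `z` jumps over it. -/
theorem cross (E : ℕ → ℤ) (z : ℤ) (u : ℕ) (hu : E u < z) : ∀ v, u ≤ v →
    (∀ l, u ≤ l → l ≤ v → E l ≠ z) → z < E v → ∃ l, u ≤ l ∧ l < v ∧ E l < z ∧ z < E (l + 1) := by
  intro v huv
  induction v, huv using Nat.le_induction with
  | base => intro _ h; omega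
  | succ v huv ih =>
    intro hne hv
    by_cases h : z < E v
    · obtain ⟨l, h1, h2, h3, h4⟩ := ih (fun l h1 h2 => hne l h1 (by omega)) h
      exact ⟨l, h1, by omega, h3, h4⟩
    · have := hne v huv (by omega)
      exact ⟨v, huv, by omega, by omega, hv⟩

/-- the integers strictly between two integers -/
noncomputable def btw (x y : ℤ) : Finset ℤ := Finset.Ioo (min x y) (max x y)

theorem btw_card (x y : ℝ) (h : (btw ⌊x⌋ ⌊y⌋).Nonempty) :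
    1 ≤ |y - x| ∧ ((btw ⌊x⌋ ⌊y⌋).card : ℝ) ≤ |y - x| := by
  obtain ⟨z, hz⟩ := h
  unfold btw at *
  rw [Finset.mem_Ioo] at hz
  rw [Int.card_Ioo]
  rcases le_total ⌊x⌋ ⌊y⌋ with h1 | h1
  · rw [min_eq_left h1, max_eq_right h1] at *
    have e1 := Int.lt_floor_add_one x
    have e2 := Int.floor_le y
    have e3 : ((⌊x⌋ : ℤ) : ℝ) + 1 ≤ z := by exact_mod_cast hz.1
    have e4 : (z : ℝ) + 1 ≤ ((⌊y⌋ : ℤ) : ℝ) := by exact_mod_cast hz.2
    have e5 : 1 ≤ y - x := by linarith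
    rw [abs_of_nonneg (by linarith)]
    refine ⟨e5, ?_⟩
    have e6 : (((⌊y⌋ - ⌊x⌋ - 1).toNat : ℤ) : ℝ) = ⌊y⌋ - ⌊x⌋ - 1 := by
      rw [Int.toNat_of_nonneg (by omega)]; push_cast; ring
    have e7 : (((⌊y⌋ - ⌊x⌋ - 1).toNat : ℕ) : ℝ) = ⌊y⌋ - ⌊x⌋ - 1 := by
      rw [← e6]; push_cast; rfl
    rw [e7]
    linarith
  · rw [min_eq_right h1, max_eq_left h1] at *
    have e1 := Int.lt_floor_add_one y
    have e2 := Int.floor_le x
    have e3 : ((⌊y⌋ : ℤ) : ℝ) + 1 ≤ z := by exact_mod_cast hz.1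
    have e4 : (z : ℝ) + 1 ≤ ((⌊x⌋ : ℤ) : ℝ) := by exact_mod_cast hz.2
    have e5 : 1 ≤ x - y := by linarith
    rw [abs_sub_comm, abs_of_nonneg (by linarith)]
    refine ⟨e5, ?_⟩
    have e6 : (((⌊x⌋ - ⌊y⌋ - 1).toNat : ℤ) : ℝ) = ⌊x⌋ - ⌊y⌋ - 1 := by
      rw [Int.toNat_of_nonneg (by omega)]; push_cast; ring
    have e7 : (((⌊x⌋ - ⌊y⌋ - 1).toNat : ℕ) : ℝ) = ⌊x⌋ - ⌊y⌋ - 1 := by
      rw [← e6]; push_cast; rfl
    rw [e7]
    linarith

/-- The increment of `G` is at most the number of visited unit cells plus the large steps. -/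
theorem claim1 (G : ℕ → ℝ) (u v : ℕ) (huv : u ≤ v) (W : Finset ℤ)
    (hW : ∀ l, u ≤ l → l ≤ v → ⌊G l⌋ ∈ W) :
    |G v - G u| ≤ W.card +
      ∑ l ∈ Finset.Ico u v, if 1 ≤ |G (l + 1) - G l| then |G (l + 1) - G l| else 0 := by
  classical
  set Z : Finset ℤ := Finset.Icc (min ⌊G u⌋ ⌊G v⌋) (max ⌊G u⌋ ⌊G v⌋) with hZ
  have hsub : Z ⊆ W ∪ (Finset.Ico u v).biUnion fun l => btw ⌊G l⌋ ⌊G (l + 1)⌋ := by
    intro z hz
    rw [Finset.mem_union, Finset.mem_biUnion]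
    by_cases hzW : z ∈ W
    · exact Or.inl hzW
    right
    have hne : ∀ l, u ≤ l → l ≤ v → ⌊G l⌋ ≠ z := by
      intro l h1 h2 h3
      exact hzW (h3 ▸ hW l h1 h2)
    have hu := hne u le_rfl huv
    have hv := hne v huv le_rfl
    rw [hZ, Finset.mem_Icc] at hz
    rcases le_total ⌊G u⌋ ⌊G v⌋ with h1 | h1
    · rw [min_eq_left h1, max_eq_right h1] at hz
      obtain ⟨l, h2, h3, h4, h5⟩ := cross (fun l => ⌊G l⌋) z u (by omega) v huv hne (by omega)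
      refine ⟨l, Finset.mem_Ico.2 ⟨h2, h3⟩, ?_⟩
      unfold btw
      rw [Finset.mem_Ioo]
      exact ⟨lt_of_le_of_lt (min_le_left _ _) h4, lt_of_lt_of_le h5 (le_max_right _ _)⟩
    · rw [min_eq_right h1, max_eq_left h1] at hz
      obtain ⟨l, h2, h3, h4, h5⟩ := cross (fun l => -⌊G l⌋) (-z) u (by omega) v huv
        (fun l h1 h2 h3 => hne l h1 h2 (by omega)) (by omega)
      refine ⟨l, Finset.mem_Ico.2 ⟨h2, h3⟩, ?_⟩
      unfold btw
      rw [Finset.mem_Ioo]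
      have h4' : z < ⌊G l⌋ := by omega
      have h5' : ⌊G (l + 1)⌋ < z := by omega
      exact ⟨lt_of_le_of_lt (min_le_right _ _) h5', lt_of_lt_of_le h4' (le_max_left _ _)⟩
  have hZc : |G v - G u| ≤ Z.card := by
    rw [hZ, Int.card_Icc]
    have a1 := Int.lt_floor_add_one (G u)
    have a2 := Int.floor_le (G u)
    have a3 := Int.lt_floor_add_one (G v)
    have a4 := Int.floor_le (G v)
    rcases le_total ⌊G u⌋ ⌊G v⌋ with h1 | h1
    · rw [min_eq_left h1, max_eq_right h1]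
      have e7 : (((⌊G v⌋ + 1 - ⌊G u⌋).toNat : ℕ) : ℝ) = ⌊G v⌋ + 1 - ⌊G u⌋ := by
        have e6 : (((⌊G v⌋ + 1 - ⌊G u⌋).toNat : ℤ) : ℝ) = ⌊G v⌋ + 1 - ⌊G u⌋ := by
          rw [Int.toNat_of_nonneg (by omega)]; push_cast; ring
        rw [← e6]; push_cast; rfl
      rw [e7]
      have h1' : ((⌊G u⌋ : ℤ) : ℝ) ≤ ⌊G v⌋ := by exact_mod_cast h1
      rw [abs_le]
      constructor <;> linarith
    · rw [min_eq_right h1, max_eq_left h1]
      have e7 : (((⌊G u⌋ + 1 - ⌊G v⌋).toNat : ℕ) : ℝ) = ⌊G u⌋ + 1 - ⌊G v⌋ := by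
        have e6 : (((⌊G u⌋ + 1 - ⌊G v⌋).toNat : ℤ) : ℝ) = ⌊G u⌋ + 1 - ⌊G v⌋ := by
          rw [Int.toNat_of_nonneg (by omega)]; push_cast; ring
        rw [← e6]; push_cast; rfl
      rw [e7]
      have h1' : ((⌊G v⌋ : ℤ) : ℝ) ≤ ⌊G u⌋ := by exact_mod_cast h1
      rw [abs_le]
      constructor <;> linarith
  have hcard : Z.card ≤ W.card + ∑ l ∈ Finset.Ico u v, (btw ⌊G l⌋ ⌊G (l + 1)⌋).card :=
    (Finset.card_le_card hsub).trans ((Finset.card_union_le _ _).trans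
      (Nat.add_le_add_left Finset.card_biUnion_le _))
  have hcard' : (Z.card : ℝ) ≤ W.card +
      ∑ l ∈ Finset.Ico u v, ((btw ⌊G l⌋ ⌊G (l + 1)⌋).card : ℝ) := by exact_mod_cast hcard
  refine hZc.trans (hcard'.trans (add_le_add_right (Finset.sum_le_sum fun l _ => ?_) _))
  by_cases hn : (btw ⌊G l⌋ ⌊G (l + 1)⌋).Nonempty
  · obtain ⟨h1, h2⟩ := btw_card _ _ hn
    rw [if_pos h1]
    exact h2
  · rw [Finset.not_nonempty_iff_eq_empty] at hn
    rw [hn]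
    simp only [Finset.card_empty, Nat.cast_zero]
    split_ifs <;> positivity

/-- the weight of one step -/
theorem wt (J Λ : ℝ) (H : ℕ → ℝ) (m0 : ℕ) (hΛ : 0 ≤ Λ)
    (hJ : ∀ m, ((2 : ℝ) ^ m)⁻¹ ≤ J → J * H m ≤ Λ) : ∀ m1, m0 ≤ m1 →
    (J < ((2 : ℝ) ^ m1)⁻¹ →
      (∑ m ∈ Finset.Ico m0 m1, (if ((2 : ℝ) ^ m)⁻¹ ≤ J then J else 0) * (H m - H (m + 1))) = 0) ∧
    (∑ m ∈ Finset.Ico m0 m1, (if ((2 : ℝ) ^ m)⁻¹ ≤ J then J else 0) * (H m - H (m + 1))) +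
      (if ((2 : ℝ) ^ m1)⁻¹ ≤ J then J else 0) * H m1 ≤ Λ := by
  intro m1 h01
  induction m1, h01 using Nat.le_induction with
  | base =>
    simp only [Finset.Ico_self, Finset.sum_empty, implies_true, true_and, zero_add]
    split_ifs with h
    · exact hJ _ h
    · rw [zero_mul]; exact hΛ
  | succ m1 h01 ih =>
    obtain ⟨ih1, ih2⟩ := ih
    rw [Finset.sum_Ico_succ_top h01]
    have hlt : ((2 : ℝ) ^ (m1 + 1))⁻¹ ≤ ((2 : ℝ) ^ m1)⁻¹ := by
      apply inv_anti₀ (by positivity)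
      exact pow_le_pow_right₀ (by norm_num) (Nat.le_succ _)
    constructor
    · intro h
      have h' : J < ((2 : ℝ) ^ m1)⁻¹ := lt_of_lt_of_le h hlt
      rw [ih1 h', if_neg (not_le.2 h')]
      ring
    · by_cases h : ((2 : ℝ) ^ m1)⁻¹ ≤ J
      · rw [if_pos h] at ih2 ⊢
        rw [if_pos (hlt.trans h)]
        linarith
      · rw [if_neg h, ih1 (not_le.1 h)]
        split_ifs with h2
        · have := hJ _ h2
          linarith
        · simpa using hΛ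

/-- Abel summation -/
theorem abel (H : ℕ → ℝ) (hH : ∀ m, 0 ≤ H m) (m0 : ℕ) (h0 : 1 ≤ m0) : ∀ m1, m0 ≤ m1 →
    ∑ m ∈ Finset.Ico m0 (m1 + 1), H m ≤
      ∑ m ∈ Finset.Ico m0 m1, (m : ℝ) * (H m - H (m + 1)) + m1 * H m1 := by
  intro m1 h01
  induction m1, h01 using Nat.le_induction with
  | base =>
    rw [Finset.sum_Ico_succ_top le_rfl]
    simp only [Finset.Ico_self, Finset.sum_empty, zero_add]
    have h1 : (1 : ℝ) ≤ m0 := by exact_mod_cast h0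
    nlinarith [hH m0]
  | succ m1 h01 ih =>
    rw [Finset.sum_Ico_succ_top (show m0 ≤ m1 + 1 by omega) H,
      Finset.sum_Ico_succ_top h01 (fun m => (m : ℝ) * (H m - H (m + 1)))]
    push_cast
    linarith

/-- the jump sums are controlled by the total length -/
theorem claim3 (N : ℕ) (J lam : ℕ → ℝ) (hlam : ∀ l, 0 ≤ lam l) (C : ℝ) (hC : 0 ≤ C)
    (H : ℕ → ℝ) (hH : ∀ m, 0 ≤ H m) (hHa : Antitone H)
    (hJ : ∀ l m, ((2 : ℝ) ^ m)⁻¹ ≤ J l → J l * H m ≤ C * lam l)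
    (c : ℝ) (hc : 0 < c) (m0 m1 : ℕ) (h0 : 1 ≤ m0) (h01 : m0 ≤ m1)
    (hD : ∀ m, m0 ≤ m → m ≤ m1 → c * m ≤
      ∑ l ∈ range N, if ((2 : ℝ) ^ m)⁻¹ ≤ J l then J l else 0) :
    c * ∑ m ∈ Finset.Ico m0 (m1 + 1), H m ≤ C * ∑ l ∈ range N, lam l := by
  set D : ℕ → ℝ := fun m => ∑ l ∈ range N, if ((2 : ℝ) ^ m)⁻¹ ≤ J l then J l else 0 with hDdef
  have h1 : ∑ m ∈ Finset.Ico m0 m1, D m * (H m - H (m + 1)) + D m1 * H m1 ≤
      C * ∑ l ∈ range N, lam l := by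
    have e1 : ∑ m ∈ Finset.Ico m0 m1, D m * (H m - H (m + 1)) + D m1 * H m1 =
        ∑ l ∈ range N, (∑ m ∈ Finset.Ico m0 m1,
          (if ((2 : ℝ) ^ m)⁻¹ ≤ J l then J l else 0) * (H m - H (m + 1)) +
          (if ((2 : ℝ) ^ m1)⁻¹ ≤ J l then J l else 0) * H m1) := by
      rw [Finset.sum_add_distrib, Finset.sum_comm]
      simp only [hDdef, Finset.sum_mul]
    rw [e1, Finset.mul_sum]
    refine Finset.sum_le_sum fun l _ => ?_
    exact (wt (J l) (C * lam l) H m0 (mul_nonneg hC (hlam l)) (hJ l) m1 h01).2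
  have h2 : c * (∑ m ∈ Finset.Ico m0 m1, (m : ℝ) * (H m - H (m + 1)) + m1 * H m1) ≤
      ∑ m ∈ Finset.Ico m0 m1, D m * (H m - H (m + 1)) + D m1 * H m1 := by
    rw [mul_add, Finset.mul_sum]
    refine add_le_add (Finset.sum_le_sum fun m hm => ?_) ?_
    · rw [Finset.mem_Ico] at hm
      rw [← mul_assoc]
      exact mul_le_mul_of_nonneg_right (hD m hm.1 (by omega))
        (sub_nonneg.2 (hHa (Nat.le_succ m)))
    · rw [← mul_assoc]
      exact mul_le_mul_of_nonneg_right (hD m1 h01 le_rfl) (hH m1)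
  exact (mul_le_mul_of_nonneg_left (abel H hH m0 h0 m1 h01) hc.le).trans (h2.trans h1)

end Pool.Agent.U999.OD
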