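import Mathlib
import Pool.Agent.U999.OD.Core

set_option autoImplicit false

namespace Pool.Agent.U999.OD

open Finset Filter Topology MeasureTheory

/-- The least number of sets of diameter at most `δ` covering `B` (for bounded `B`). -/
noncomputable def coverNum (B : Set ℝ) (δ : ℝ) : ℕ :=
  sInf {N | ∃ U : Fin N → Set ℝ, (∀ i, ∀ x ∈ U i, ∀ y ∈ U i, dist x y ≤ δ) ∧ B ⊆ ⋃ i, U i}

/-- Upper Minkowski dimension (upper box-counting dimension). -/
noncomputable def upperMinkowski (B : Set ℝ) : EReal :=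
  limsup (fun δ : ℝ => ((Real.log (coverNum B δ) / Real.log (1 / δ) : ℝ) : EReal)) (𝓝[>] 0)

/-- the dyadic cells of level `n` met by `B` -/
def cells (B : Set ℝ) (n : ℕ) : Set ℤ := (fun y : ℝ => ⌊(2 : ℝ) ^ n * y⌋) '' B

theorem cells_finite {B : Set ℝ} (hB : Bornology.IsBounded B) (n : ℕ) : (cells B n).Finite := by
  obtain ⟨r, hr⟩ := hB.subset_closedBall 0
  refine (Set.finite_Icc ⌊-((2 : ℝ) ^ n * r)⌋ ⌊(2 : ℝ) ^ n * r⌋).subset ?_
  rintro _ ⟨y, hy, rfl⟩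
  have h1 := hr hy
  rw [Metric.mem_closedBall, Real.dist_eq, sub_zero, abs_le] at h1
  have hp : (0 : ℝ) < 2 ^ n := by positivity
  refine ⟨Int.floor_le_floor ?_, Int.floor_le_floor ?_⟩
  · have := mul_le_mul_of_nonneg_left h1.1 hp.le
    linarith
  · exact mul_le_mul_of_nonneg_left h1.2 hp.le

theorem cells_le {B : Set ℝ} (n N : ℕ) (U : Fin N → Set ℝ)
    (hU : ∀ i, ∀ x ∈ U i, ∀ y ∈ U i, dist x y ≤ ((2 : ℝ) ^ n)⁻¹) (hB : B ⊆ ⋃ i, U i) :
    (cells B n).ncard ≤ 3 * N := by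
  classical
  have hz : ∀ i : Fin N, ∃ z : ℤ, ∀ y ∈ U i, ⌊(2 : ℝ) ^ n * y⌋ ∈ Finset.Icc (z - 1) (z + 1) := by
    intro i
    by_cases h : (U i).Nonempty
    · obtain ⟨y0, hy0⟩ := h
      refine ⟨⌊(2 : ℝ) ^ n * y0⌋, fun y hy => ?_⟩
      have h1 := hU i y hy y0 hy0
      rw [Real.dist_eq] at h1
      have hp : (0 : ℝ) < 2 ^ n := by positivity
      have h2 : |(2 : ℝ) ^ n * y - 2 ^ n * y0| ≤ 1 := by
        rw [← mul_sub, abs_mul, abs_of_pos hp]
        calc (2 : ℝ) ^ n * |y - y0| ≤ 2 ^ n * (2 ^ n)⁻¹ := by gcongr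
          _ = 1 := by field_simp
      rw [abs_le] at h2
      rw [Finset.mem_Icc]
      constructor
      · rw [Int.le_floor]
        push_cast
        have := Int.floor_le ((2 : ℝ) ^ n * y0)
        linarith
      · rw [← Int.lt_add_one_iff, Int.floor_lt]
        push_cast
        have := Int.lt_floor_add_one ((2 : ℝ) ^ n * y0)
        linarith
    · exact ⟨0, fun y hy => (h ⟨y, hy⟩).elim⟩
  choose z hz using hz
  have hsub : cells B n ⊆ ↑(Finset.univ.biUnion fun i => Finset.Icc (z i - 1) (z i + 1)) := by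
    rintro _ ⟨y, hy, rfl⟩
    obtain ⟨i, hi⟩ := Set.mem_iUnion.1 (hB hy)
    rw [Finset.mem_coe, Finset.mem_biUnion]
    exact ⟨i, Finset.mem_univ _, hz i y hi⟩
  calc (cells B n).ncard
      ≤ (↑(Finset.univ.biUnion fun i => Finset.Icc (z i - 1) (z i + 1)) : Set ℤ).ncard :=
        Set.ncard_le_ncard hsub (Finset.finite_toSet _)
    _ = (Finset.univ.biUnion fun i => Finset.Icc (z i - 1) (z i + 1)).card :=
        Set.ncard_coe_finset _
    _ ≤ ∑ i, (Finset.Icc (z i - 1) (z i + 1)).card := Finset.card_biUnion_le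
    _ = 3 * N := by
        rw [Finset.sum_congr rfl (fun i _ => show (Finset.Icc (z i - 1) (z i + 1)).card = 3 by
          rw [Int.card_Icc]; omega)]
        simp [mul_comm]

theorem cover_exists {B : Set ℝ} (hB : Bornology.IsBounded B) (n : ℕ) :
    ∃ U : Fin (cells B n).ncard → Set ℝ,
      (∀ i, ∀ x ∈ U i, ∀ y ∈ U i, dist x y ≤ ((2 : ℝ) ^ n)⁻¹) ∧ B ⊆ ⋃ i, U i := by
  have hf := cells_finite hB n
  have hcard : (cells B n).ncard = hf.toFinset.card := Set.ncard_eq_toFinset_card _ hf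
  rw [hcard]
  let e := hf.toFinset.equivFin
  refine ⟨fun i => {y | ⌊(2 : ℝ) ^ n * y⌋ = ((e.symm i : hf.toFinset) : ℤ)}, ?_, ?_⟩
  · intro i x hx y hy
    have hx' : ⌊(2 : ℝ) ^ n * x⌋ = ⌊(2 : ℝ) ^ n * y⌋ := hx.trans hy.symm
    have h1 := Int.abs_sub_lt_one_of_floor_eq_floor hx'
    have hp : (0 : ℝ) < 2 ^ n := by positivity
    rw [← mul_sub, abs_mul, abs_of_pos hp] at h1
    rw [Real.dist_eq, ← one_div, le_div_iff₀ hp]
    linarith
  · intro y hy
    have h1 : ⌊(2 : ℝ) ^ n * y⌋ ∈ hf.toFinset := by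
      rw [Set.Finite.mem_toFinset]
      exact ⟨y, hy, rfl⟩
    refine Set.mem_iUnion.2 ⟨e ⟨_, h1⟩, ?_⟩
    simp

theorem cells_le_coverNum {B : Set ℝ} (hB : Bornology.IsBounded B) (n : ℕ) :
    (cells B n).ncard ≤ 3 * coverNum B ((2 : ℝ) ^ n)⁻¹ := by
  have hne : {N | ∃ U : Fin N → Set ℝ, (∀ i, ∀ x ∈ U i, ∀ y ∈ U i, dist x y ≤ ((2 : ℝ) ^ n)⁻¹) ∧
      B ⊆ ⋃ i, U i}.Nonempty := ⟨_, cover_exists hB n⟩
  obtain ⟨U, hU, hBU⟩ := Nat.sInf_mem hne
  exact cells_le n _ U hU hBU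

theorem small_cover {B : Set ℝ} {c : ℝ} (h : upperMinkowski B < (c : EReal)) :
    ∃ n0 : ℕ, ∀ n, n0 ≤ n → (coverNum B ((2 : ℝ) ^ n)⁻¹ : ℝ) ≤ (2 : ℝ) ^ (c * n) := by
  have h1 := Filter.eventually_lt_of_limsup_lt h
  have h2 : Tendsto (fun n : ℕ => ((2 : ℝ) ^ n)⁻¹) atTop (𝓝[>] 0) := by
    rw [tendsto_nhdsWithin_iff]
    constructor
    · exact tendsto_inv_atTop_zero.comp (tendsto_pow_atTop_atTop_of_one_lt (by norm_num))
    · exact Filter.Eventually.of_forall fun n => by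
        rw [Set.mem_Ioi]; positivity
  have h3 := h2.eventually h1
  obtain ⟨n0, hn0⟩ := (h3.and (eventually_ge_atTop 1)).exists_forall_of_atTop
  refine ⟨n0, fun n hn => ?_⟩
  obtain ⟨h4, h5⟩ := hn0 n hn
  rw [EReal.coe_lt_coe_iff, one_div, inv_inv, Real.log_pow] at h4
  have hl2 : 0 < Real.log 2 := Real.log_pos (by norm_num)
  have hn : (0 : ℝ) < n := by exact_mod_cast h5
  rw [div_lt_iff₀ (by positivity)] at h4
  by_cases h0 : coverNum B ((2 : ℝ) ^ n)⁻¹ = 0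
  · rw [h0]; push_cast; positivity
  · have hpos : (0 : ℝ) < coverNum B ((2 : ℝ) ^ n)⁻¹ := by
      exact_mod_cast Nat.pos_of_ne_zero h0
    rw [← Real.log_le_log_iff hpos (by positivity), Real.log_rpow (by norm_num)]
    nlinarith

end Pool.Agent.U999.OD
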