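import Mathlib
import Pool.Agent.U999.OD.Cells

set_option autoImplicit false

namespace Pool.Agent.U999.OD

open Finset Filter Topology MeasureTheory

theorem floor_scale (M n : ℕ) (hn : n ≤ M) (x : ℝ) :
    ⌊(2 : ℝ) ^ n * x⌋₊ = ⌊(2 : ℝ) ^ M * x⌋₊ / 2 ^ (M - n) := by
  rw [← Nat.floor_div_natCast]
  congr 1
  push_cast
  rw [eq_div_iff (by positivity)]
  have : (2 : ℝ) ^ M = 2 ^ n * 2 ^ (M - n) := by rw [← pow_add]; congr 1; omega
  rw [this]; ring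

/-- A monotone choice of points of `R`, one for every dyadic interval of level `M`, adapted to all
coarser dyadic levels. -/
theorem select (R : Set ℝ) (hR : R.Nonempty) (h01 : ∀ r ∈ R, 0 ≤ r ∧ r < 1) (M : ℕ) :
    ∃ c : ℕ → ℝ, (∀ i, c i ∈ R) ∧ Monotone c ∧
      ∀ n, n ≤ M → ∀ r ∈ R,
        ⌊(2 : ℝ) ^ n * c (⌊(2 : ℝ) ^ n * r⌋₊ * 2 ^ (M - n))⌋₊ = ⌊(2 : ℝ) ^ n * r⌋₊ := by
  classical
  set D : Set ℕ := (fun r : ℝ => ⌊(2 : ℝ) ^ M * r⌋₊) '' R with hD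
  have hDne : D.Nonempty := hR.image _
  have hDb : BddAbove D := by
    refine ⟨2 ^ M, ?_⟩
    rintro _ ⟨r, hr, rfl⟩
    have h1 : (2 : ℝ) ^ M * r ≤ ((2 ^ M : ℕ) : ℝ) := by
      push_cast
      have := (h01 r hr).2.le
      have hp : (0 : ℝ) < 2 ^ M := by positivity
      nlinarith
    calc ⌊(2 : ℝ) ^ M * r⌋₊ ≤ ⌊((2 ^ M : ℕ) : ℝ)⌋₊ := Nat.floor_le_floor h1
      _ = 2 ^ M := Nat.floor_natCast _
  have hx : ∀ d, ∃ x : ℝ, d ∈ D → x ∈ R ∧ ⌊(2 : ℝ) ^ M * x⌋₊ = d := by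
    intro d
    by_cases hd : d ∈ D
    · obtain ⟨x, hx, hxd⟩ := hd
      exact ⟨x, fun _ => ⟨hx, hxd⟩⟩
    · exact ⟨0, fun h => (hd h).elim⟩
  choose x hx using hx
  set nxt : ℕ → ℕ := fun i => if h : ∃ d, i ≤ d ∧ d ∈ D then Nat.find h else sSup D with hnxt
  have n1 : ∀ i, nxt i ∈ D := by
    intro i
    simp only [hnxt]
    split_ifs with h
    · exact (Nat.find_spec h).2
    · exact Nat.sSup_mem hDne hDb
  have n2 : Monotone nxt := by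
    intro i j hij
    by_cases h : ∃ d, j ≤ d ∧ d ∈ D
    · have h' : ∃ d, i ≤ d ∧ d ∈ D := by
        obtain ⟨d, h1, h2⟩ := h
        exact ⟨d, hij.trans h1, h2⟩
      simp only [hnxt, dif_pos h, dif_pos h']
      exact Nat.find_min' h' ⟨hij.trans (Nat.find_spec h).1, (Nat.find_spec h).2⟩
    · have e : nxt j = sSup D := by simp only [hnxt, dif_neg h]
      rw [e]
      exact le_csSup hDb (n1 i)
  have n3 : ∀ i, ∀ r ∈ R, i ≤ ⌊(2 : ℝ) ^ M * r⌋₊ → i ≤ nxt i ∧ nxt i ≤ ⌊(2 : ℝ) ^ M * r⌋₊ := by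
    intro i r hr hi
    have h : ∃ d, i ≤ d ∧ d ∈ D := ⟨_, hi, ⟨r, hr, rfl⟩⟩
    simp only [hnxt, dif_pos h]
    exact ⟨(Nat.find_spec h).1, Nat.find_min' h ⟨hi, ⟨r, hr, rfl⟩⟩⟩
  refine ⟨fun i => x (nxt i), fun i => (hx _ (n1 i)).1, ?_, ?_⟩
  · intro i j hij
    rcases (n2 hij).eq_or_lt with h | h
    · simp only [h, le_refl]
    · by_contra hlt
      push Not at hlt
      have h1 : (2 : ℝ) ^ M * x (nxt j) ≤ 2 ^ M * x (nxt i) := by gcongr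
      have h2 := Nat.floor_le_floor h1
      rw [(hx _ (n1 i)).2, (hx _ (n1 j)).2] at h2
      omega
  · intro n hn r hr
    have hi : ⌊(2 : ℝ) ^ n * r⌋₊ * 2 ^ (M - n) ≤ ⌊(2 : ℝ) ^ M * r⌋₊ := by
      rw [floor_scale M n hn r]
      exact Nat.div_mul_le_self _ _
    obtain ⟨h1, h2⟩ := n3 _ r hr hi
    show ⌊(2 : ℝ) ^ n * x (nxt (⌊(2 : ℝ) ^ n * r⌋₊ * 2 ^ (M - n)))⌋₊ = ⌊(2 : ℝ) ^ n * r⌋₊
    apply le_antisymm
    · rw [floor_scale M n hn (x _), (hx _ (n1 _)).2]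
      calc nxt (⌊(2 : ℝ) ^ n * r⌋₊ * 2 ^ (M - n)) / 2 ^ (M - n)
          ≤ ⌊(2 : ℝ) ^ M * r⌋₊ / 2 ^ (M - n) := Nat.div_le_div_right h2
        _ = ⌊(2 : ℝ) ^ n * r⌋₊ := (floor_scale M n hn r).symm
    · rw [floor_scale M n hn (x _), (hx _ (n1 _)).2]
      exact (Nat.le_div_iff_mul_le (by positivity)).2 h1

/-- A set of positive outer measure meets many dyadic intervals. -/
theorem many (R : Set ℝ) (h01 : ∀ r ∈ R, 0 ≤ r ∧ r < 1) (n : ℕ) (L : Finset ℕ)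
    (hL : ∀ r ∈ R, ⌊(2 : ℝ) ^ n * r⌋₊ ∈ L) : (volume R).toReal * (2 : ℝ) ^ n ≤ L.card := by
  have hp : (0 : ℝ) < 2 ^ n := by positivity
  have hsub : R ⊆ ⋃ i ∈ L, Set.Ico ((i : ℝ) / 2 ^ n) (((i : ℝ) + 1) / 2 ^ n) := by
    intro r hr
    rw [Set.mem_iUnion₂]
    refine ⟨_, hL r hr, ?_⟩
    rw [Set.mem_Ico, div_le_iff₀ hp, lt_div_iff₀ hp]
    have h0 : 0 ≤ (2 : ℝ) ^ n * r := mul_nonneg hp.le (h01 r hr).1
    constructor
    · have := Nat.floor_le h0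
      linarith
    · have := Nat.lt_floor_add_one ((2 : ℝ) ^ n * r)
      linarith
  have h1 : volume R ≤ ∑ i ∈ L, volume (Set.Ico ((i : ℝ) / 2 ^ n) (((i : ℝ) + 1) / 2 ^ n)) :=
    (measure_mono hsub).trans (measure_biUnion_finset_le _ _)
  have h2 : ∀ i ∈ L, volume (Set.Ico ((i : ℝ) / 2 ^ n) (((i : ℝ) + 1) / 2 ^ n)) =
      ENNReal.ofReal ((2 ^ n)⁻¹) := by
    intro i _
    rw [Real.volume_Ico]
    congr 1
    field_simp
    ring
  rw [Finset.sum_congr rfl h2, Finset.sum_const, nsmul_eq_mul] at h1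
  have h3 : (volume R).toReal ≤ (L.card : ℝ) * (2 ^ n)⁻¹ := by
    have h4 := ENNReal.toReal_mono (by
      exact ENNReal.mul_ne_top (ENNReal.natCast_ne_top _) ENNReal.ofReal_ne_top) h1
    rw [ENNReal.toReal_mul, ENNReal.toReal_natCast, ENNReal.toReal_ofReal (by positivity)] at h4
    exact h4
  calc (volume R).toReal * (2 : ℝ) ^ n ≤ ((L.card : ℝ) * (2 ^ n)⁻¹) * 2 ^ n := by gcongr
    _ = L.card := by field_simp

theorem image_le {B : Set ℝ} (hBb : Bornology.IsBounded B) (n k j : ℕ) (hj : j < k) (L : Finset ℕ)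
    (A r : ℕ → ℝ) (hr : ∀ i ∈ L, 0 ≤ r i ∧ ⌊(2 : ℝ) ^ n * r i⌋₊ = i)
    (hB : ∀ i ∈ L, A i + j * r i ∈ B) :
    (L.image (fun x : ℕ => ⌊(2 : ℝ) ^ n * A x + (j : ℝ) * x⌋)).card ≤
      (k + 1) * (cells B n).ncard := by
  classical
  have hf := cells_finite hBb n
  rw [Set.ncard_eq_toFinset_card _ hf]
  have hsub : L.image (fun x : ℕ => ⌊(2 : ℝ) ^ n * A x + (j : ℝ) * x⌋) ⊆
      (range (k + 1)).biUnion fun s => hf.toFinset.image fun z => z - (s : ℤ) := by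
    intro w hw
    rw [Finset.mem_image] at hw
    obtain ⟨i, hi, rfl⟩ := hw
    obtain ⟨h0, h1⟩ := hr i hi
    have hp : (0 : ℝ) < 2 ^ n := by positivity
    have h2 := Nat.floor_le (mul_nonneg hp.le h0)
    have h3 := Nat.lt_floor_add_one ((2 : ℝ) ^ n * r i)
    rw [h1] at h2 h3
    set y : ℝ := A i + j * r i with hy
    have hj0 : (0 : ℝ) ≤ j := Nat.cast_nonneg j
    have e1 : (2 : ℝ) ^ n * y = 2 ^ n * A i + j * (2 ^ n * r i) := by rw [hy]; ring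
    have e2 : (2 : ℝ) ^ n * A i + j * i ≤ 2 ^ n * y := by
      rw [e1]; nlinarith
    have e3 : (2 : ℝ) ^ n * y ≤ (2 : ℝ) ^ n * A i + j * i + ((j : ℤ) : ℝ) := by
      rw [e1]; push_cast; nlinarith
    have f1 := Int.floor_le_floor e2
    have f2 := Int.floor_le_floor e3
    rw [Int.floor_add_intCast] at f2
    rw [Finset.mem_biUnion]
    refine ⟨(⌊(2 : ℝ) ^ n * y⌋ - ⌊(2 : ℝ) ^ n * A i + j * i⌋).toNat, ?_, ?_⟩
    · rw [Finset.mem_range]; omega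
    · rw [Finset.mem_image]
      refine ⟨⌊(2 : ℝ) ^ n * y⌋, ?_, ?_⟩
      · rw [Set.Finite.mem_toFinset]
        exact ⟨y, hB i hi, rfl⟩
      · omega
  refine (Finset.card_le_card hsub).trans ?_
  refine (Finset.card_biUnion_le_card_mul _ _ hf.toFinset.card fun s _ =>
    Finset.card_image_le).trans ?_
  rw [Finset.card_range]

end Pool.Agent.U999.OD
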