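import Mathlib
import Pool.Agent.U999.OD.Sel
import Pool.Agent.U999.OD.Cross

set_option autoImplicit false

namespace Pool.Agent.U999.OD

open Finset Filter Topology MeasureTheory

/-- regularity of the first terms -/
def Reg (h : ℕ → ℝ) (R : Set ℝ) (a : ℝ → ℝ) : Prop :=
  ∃ C : ℝ, ∀ n : ℕ, ∀ x ∈ R, ∀ y ∈ R, ((2 : ℝ) ^ n)⁻¹ ≤ |a x - a y| →
    |a x - a y| ≤ C * h n * |x - y|

theorem crossing_sum {B : Set ℝ} (hBb : Bornology.IsBounded B) (A : ℕ → ℝ) (hA : ∀ l, A l ∈ B)
    (m Q N : ℕ) :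
    ∑ i ∈ range N, |A ((i + 1) * Q) - A (i * Q)| ≤ N * ((cells B m).ncard / (2 : ℝ) ^ m) +
      ∑ l ∈ range (N * Q),
        if ((2 : ℝ) ^ m)⁻¹ ≤ |A (l + 1) - A l| then |A (l + 1) - A l| else 0 := by
  classical
  have hf := cells_finite hBb m
  rw [Set.ncard_eq_toFinset_card _ hf, sum_blocks]
  have hp : (0 : ℝ) < 2 ^ m := by positivity
  have h1 : ∀ i ∈ range N, |A ((i + 1) * Q) - A (i * Q)| ≤ (hf.toFinset.card / (2 : ℝ) ^ m) +
      ∑ l ∈ range Q, if ((2 : ℝ) ^ m)⁻¹ ≤ |A (i * Q + l + 1) - A (i * Q + l)| then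
        |A (i * Q + l + 1) - A (i * Q + l)| else 0 := by
    intro i _
    have h2 := claim1 (fun l => (2 : ℝ) ^ m * A l) (i * Q) ((i + 1) * Q)
      (Nat.mul_le_mul_right _ (Nat.le_succ i)) hf.toFinset (by
        intro l _ _
        rw [Set.Finite.mem_toFinset]
        exact ⟨A l, hA l, rfl⟩)
    rw [Finset.sum_Ico_eq_sum_range] at h2
    have e0 : (i + 1) * Q - i * Q = Q := by rw [Nat.succ_mul]; omega
    rw [e0] at h2
    have e1 : ∀ x y : ℝ, |(2 : ℝ) ^ m * x - 2 ^ m * y| = 2 ^ m * |x - y| := by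
      intro x y
      rw [← mul_sub, abs_mul, abs_of_pos hp]
    simp only [e1] at h2
    have e2 : ∀ t : ℝ, (1 ≤ (2 : ℝ) ^ m * t) ↔ ((2 : ℝ) ^ m)⁻¹ ≤ t := by
      intro t
      rw [inv_le_iff_one_le_mul₀' hp]
    simp only [e2] at h2
    have e3 : ∑ l ∈ range Q, (if ((2 : ℝ) ^ m)⁻¹ ≤ |A (i * Q + l + 1) - A (i * Q + l)| then
        (2 : ℝ) ^ m * |A (i * Q + l + 1) - A (i * Q + l)| else 0) =
        2 ^ m * ∑ l ∈ range Q, (if ((2 : ℝ) ^ m)⁻¹ ≤ |A (i * Q + l + 1) - A (i * Q + l)| then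
          |A (i * Q + l + 1) - A (i * Q + l)| else 0) := by
      rw [Finset.mul_sum]
      exact Finset.sum_congr rfl fun l _ => by split_ifs <;> simp
    rw [e3] at h2
    have h3 : (2 : ℝ) ^ m * |A ((i + 1) * Q) - A (i * Q)| ≤ 2 ^ m *
        ((hf.toFinset.card / (2 : ℝ) ^ m) +
          ∑ l ∈ range Q, (if ((2 : ℝ) ^ m)⁻¹ ≤ |A (i * Q + l + 1) - A (i * Q + l)| then
            |A (i * Q + l + 1) - A (i * Q + l)| else 0)) := by
      rw [mul_add, mul_div_cancel₀ _ hp.ne']
      exact h2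
    exact le_of_mul_le_mul_left h3 hp
  refine (Finset.sum_le_sum h1).trans ?_
  rw [Finset.sum_add_distrib, Finset.sum_const, Finset.card_range, nsmul_eq_mul]

theorem large_T (p k : ℕ) (hp : 1 ≤ p) (u ε κ : ℝ) (hε : 0 < ε) (hκ : 0 < κ) :
    ∃ T1 : ℕ, ∀ T, T1 ≤ T → 3 * ((k : ℝ) + 1) * (2 : ℝ) ^ ((u - ε) * ((p * T : ℕ) : ℝ)) <
      κ * (2 : ℝ) ^ ((p : ℝ) * T * (u - ε / 2)) := by
  have hb : (1 : ℝ) < (2 : ℝ) ^ (ε / 2 * p) := by
    apply Real.one_lt_rpow (by norm_num)
    have : (0 : ℝ) < p := by exact_mod_cast hp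
    positivity
  have h1 := (tendsto_pow_atTop_atTop_of_one_lt hb).eventually_gt_atTop (3 * ((k : ℝ) + 1) / κ)
  obtain ⟨T1, hT1⟩ := h1.exists_forall_of_atTop
  refine ⟨T1, fun T hT => ?_⟩
  have h2 := hT1 T hT
  have e1 : (2 : ℝ) ^ ((p : ℝ) * T * (u - ε / 2)) =
      (2 : ℝ) ^ ((u - ε) * ((p * T : ℕ) : ℝ)) * ((2 : ℝ) ^ (ε / 2 * p)) ^ T := by
    rw [← Real.rpow_natCast ((2 : ℝ) ^ (ε / 2 * p)), ← Real.rpow_mul (by norm_num),
      ← Real.rpow_add (by norm_num)]
    congr 1
    push_cast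
    ring
  rw [e1]
  have h3 : 0 < (2 : ℝ) ^ ((u - ε) * ((p * T : ℕ) : ℝ)) := by positivity
  rw [div_lt_iff₀ hκ] at h2
  nlinarith

theorem partA (k : ℕ) (hk : 1 ≤ k) (h : ℕ → ℝ) (hmono : Monotone h) (hpos : ∀ n, 0 < h n)
    (hdiv : ¬ Summable (fun n => 1 / h n)) (R : Set ℝ) (hR : R ⊆ Set.Icc 0 1) (hvol : volume R ≠ 0)
    (a : ℝ → ℝ) (hreg : Reg h R a) (B : Set ℝ) (hBb : Bornology.IsBounded B)
    (hB : ∀ r ∈ R, ∀ j : ℕ, j < k → a r + j * r ∈ B) :
    ((1 - 1 / (k : ℝ) : ℝ) : EReal) ≤ upperMinkowski B := by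
  classical
  by_contra hlt
  rw [not_le] at hlt
  obtain ⟨v, hv1, hv2⟩ := EReal.lt_iff_exists_real_btwn.1 hlt
  rw [EReal.coe_lt_coe_iff] at hv2
  set u : ℝ := 1 - 1 / (k : ℝ) with hu
  set ε : ℝ := u - v with hεdef
  have hε : 0 < ε := by rw [hεdef]; linarith
  have hv : v = u - ε := by rw [hεdef]; ring
  rw [hv] at hv1
  have hu1 : u ≤ 1 := by
    rw [hu]
    have : 0 ≤ 1 / (k : ℝ) := by positivity
    linarith
  obtain ⟨p, hp, hcore⟩ := core k hk ε hε
  obtain ⟨n0, hn0⟩ := small_cover hv1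
  have hK : ∀ n, n0 ≤ n → ((cells B n).ncard : ℝ) ≤ 3 * (2 : ℝ) ^ ((u - ε) * n) := by
    intro n hn
    have h1 : ((cells B n).ncard : ℝ) ≤ ((3 * coverNum B ((2 : ℝ) ^ n)⁻¹ : ℕ) : ℝ) := by
      exact_mod_cast cells_le_coverNum hBb n
    push_cast at h1
    have := hn0 n hn
    linarith
  set R' : Set ℝ := R ∩ Set.Ico 0 1 with hR'
  have h01 : ∀ r ∈ R', 0 ≤ r ∧ r < 1 := fun r hr => hr.2
  have hvol' : volume R' ≠ 0 := by
    intro h0
    apply hvol
    have hsub : R ⊆ R' ∪ {1} := by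
      intro r hr
      rcases (hR hr).2.lt_or_eq with h1 | h1
      · exact Or.inl ⟨hr, (hR hr).1, h1⟩
      · exact Or.inr h1
    refine measure_mono_null hsub (measure_union_null h0 Real.volume_singleton)
  have hfin : volume R' ≠ ⊤ := by
    have : volume R' ≤ volume (Set.Ico (0 : ℝ) 1) := measure_mono Set.inter_subset_right
    refine ne_top_of_le_ne_top ?_ this
    rw [Real.volume_Ico]
    exact ENNReal.ofReal_ne_top
  have hne : R'.Nonempty := by
    by_contra h0
    rw [Set.not_nonempty_iff_eq_empty] at h0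
    rw [h0] at hvol'
    simp at hvol'
  set ρ : ℝ := (volume R').toReal with hρdef
  have hρ : 0 < ρ := ENNReal.toReal_pos hvol' hfin
  obtain ⟨c, κ, hc, hκ, T₀, hT₀⟩ := hcore ρ hρ
  obtain ⟨T1, hT1⟩ := large_T p k hp u ε κ hε hκ
  obtain ⟨q, hq⟩ := exists_nat_ge ((p : ℝ) / ε + 1)
  have hq1 : (1 : ℝ) ≤ q := le_trans (by have : 0 ≤ (p : ℝ) / ε := by positivity
                                         linarith) hq
  have hq1' : 1 ≤ q := by exact_mod_cast hq1
  have hpq : (p : ℝ) ≤ ε * q := by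
    have : (p : ℝ) / ε ≤ q := by linarith
    rw [div_le_iff₀ hε] at this
    linarith
  -- the variation at level `p T` is large
  have key : ∀ T, T₀ ≤ T → T1 ≤ T → n0 ≤ T → ∀ M, p * T ≤ M → ∀ s : ℕ → ℝ, (∀ i, s i ∈ R') →
      (∀ n, n ≤ M → ∀ r ∈ R',
        ⌊(2 : ℝ) ^ n * s (⌊(2 : ℝ) ^ n * r⌋₊ * 2 ^ (M - n))⌋₊ = ⌊(2 : ℝ) ^ n * r⌋₊) →
      c * T < ∑ i ∈ range (2 ^ (p * T)),
        |a (s ((i + 1) * 2 ^ (M - p * T))) - a (s (i * 2 ^ (M - p * T)))| := by
    intro T hTa hTb hTc M hM s hs hsel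
    by_contra hle
    rw [not_lt] at hle
    set n := p * T with hn
    set g : ℕ → ℝ := fun i => (2 : ℝ) ^ n * a (s (i * 2 ^ (M - n))) with hg
    set L : Finset ℕ := (range (2 ^ n)).filter (fun i => ∃ r ∈ R', ⌊(2 : ℝ) ^ n * r⌋₊ = i) with hL
    have hpow : (2 ^ p) ^ T = 2 ^ n := by rw [hn, pow_mul]
    have hLmem : ∀ r ∈ R', ⌊(2 : ℝ) ^ n * r⌋₊ ∈ L := by
      intro r hr
      rw [hL, Finset.mem_filter, Finset.mem_range]
      refine ⟨?_, r, hr, rfl⟩
      have h1 : (2 : ℝ) ^ n * r < ((2 ^ n : ℕ) : ℝ) := by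
        push_cast
        have := (h01 r hr).2
        have hp : (0 : ℝ) < 2 ^ n := by positivity
        nlinarith
      exact (Nat.floor_lt (mul_nonneg (by positivity) (h01 r hr).1)).2 h1
    have hLc := many R' h01 n L hLmem
    have hVar : Var g (2 ^ n) ≤ c * T * ((2 ^ n : ℕ) : ℝ) := by
      have e1 : Var g (2 ^ n) = 2 ^ n * ∑ i ∈ range (2 ^ n),
          |a (s ((i + 1) * 2 ^ (M - n))) - a (s (i * 2 ^ (M - n)))| := by
        unfold Var
        rw [Finset.mul_sum]
        refine Finset.sum_congr rfl fun i _ => ?_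
        simp only [hg]
        rw [← mul_sub, abs_mul, abs_of_pos (show (0 : ℝ) < 2 ^ n by positivity)]
      rw [e1]
      push_cast
      have hp : (0 : ℝ) < 2 ^ n := by positivity
      nlinarith
    have hcr := hT₀ T hTa g L (by rw [hpow]; exact Finset.filter_subset _ _)
      (by rw [hpow]; push_cast; exact hLc) (by rw [hpow]; exact hVar)
    obtain ⟨j, hj, hcard⟩ := hcr
    have hr : ∀ i ∈ L, 0 ≤ s (i * 2 ^ (M - n)) ∧ ⌊(2 : ℝ) ^ n * s (i * 2 ^ (M - n))⌋₊ = i := by
      intro i hi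
      rw [hL, Finset.mem_filter] at hi
      obtain ⟨_, r, hrR, hri⟩ := hi
      refine ⟨(h01 _ (hs _)).1, ?_⟩
      have := hsel n hM r hrR
      rw [hri] at this
      exact this
    have him := image_le hBb n k j hj L (fun i => a (s (i * 2 ^ (M - n))))
      (fun i => s (i * 2 ^ (M - n))) hr (fun i _ => hB _ (hs _).1 j hj)
    have him' : ((L.image (fun x : ℕ => ⌊g x + (j : ℝ) * x⌋)).card : ℝ) ≤
        ((k : ℝ) + 1) * (cells B n).ncard := by
      have h8 : ((L.image (fun x : ℕ => ⌊g x + (j : ℝ) * x⌋)).card : ℝ) ≤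
          (((k + 1) * (cells B n).ncard : ℕ) : ℝ) := Nat.cast_le.2 him
      rwa [Nat.cast_mul, Nat.cast_add, Nat.cast_one] at h8
    have hn0' : n0 ≤ n := hTc.trans (by rw [hn]; exact Nat.le_mul_of_pos_left _ hp)
    have h5 := hK n hn0'
    have h6 := hT1 T hTb
    have h7 : ((k : ℝ) + 1) * (cells B n).ncard ≤ 3 * ((k : ℝ) + 1) *
        (2 : ℝ) ^ ((u - ε) * (n : ℝ)) := by
      have : (0 : ℝ) ≤ (k : ℝ) + 1 := by positivity
      nlinarith
    linarith
  -- summability
  apply hdiv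
  obtain ⟨C, hC⟩ := hreg
  obtain ⟨m0, hm0⟩ := exists_nat_ge (2 * q * (c + 3) / c + q * (T₀ + T1 + n0 + 1) + 1)
  have hqp : (0 : ℝ) < q := by linarith
  have hm0a : 2 * q * (c + 3) / c ≤ (m0 : ℝ) := by
    have : (0 : ℝ) ≤ (q : ℝ) * (T₀ + T1 + n0 + 1) := by positivity
    linarith
  have hm0b : q * (T₀ + T1 + n0 + 1) ≤ m0 := by
    have h1 : (0 : ℝ) ≤ 2 * q * (c + 3) / c := by positivity
    have : ((q * (T₀ + T1 + n0 + 1) : ℕ) : ℝ) ≤ m0 := by push_cast; linarith
    exact_mod_cast this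
  have hm0c : 1 ≤ m0 := by
    have h1 : (0 : ℝ) ≤ 2 * q * (c + 3) / c := by positivity
    have h2 : (0 : ℝ) ≤ (q : ℝ) * (T₀ + T1 + n0 + 1) := by positivity
    have : (1 : ℝ) ≤ m0 := by linarith
    exact_mod_cast this
  have hmain : ∀ m1, m0 ≤ m1 → c / (2 * q) * ∑ m ∈ Finset.Ico m0 (m1 + 1), 1 / h m ≤ |C| := by
    intro m1 hm1
    obtain ⟨s, hsR, hsm, hsel⟩ := select R' hne h01 (p * m1)
    have hlam : ∀ l, 0 ≤ s (l + 1) - s l := fun l => sub_nonneg.2 (hsm (Nat.le_succ l))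
    have h3 := claim3 (2 ^ (p * m1)) (fun l => |a (s (l + 1)) - a (s l)|)
      (fun l => s (l + 1) - s l) hlam |C| (abs_nonneg C) (fun m => 1 / h m)
      (fun m => by have := hpos m; positivity)
      (fun m m' hmm => one_div_le_one_div_of_le (hpos m) (hmono hmm))
      (by
        intro l m hJ
        have h4 := hC m _ (hsR (l + 1)).1 _ (hsR l).1 hJ
        rw [abs_of_nonneg (hlam l)] at h4
        have h5 : C * h m * (s (l + 1) - s l) ≤ |C| * h m * (s (l + 1) - s l) := by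
          have := le_abs_self C
          have := hpos m
          have := hlam l
          gcongr
        show |a (s (l + 1)) - a (s l)| * (1 / h m) ≤ |C| * (s (l + 1) - s l)
        rw [mul_one_div, div_le_iff₀ (hpos m)]
        linarith)
      (c / (2 * q)) (by positivity) m0 m1 hm0c hm1
      (by
        intro m hma hmb
        set T := m / q with hT
        have hTm : q * T ≤ m := Nat.mul_div_le m q
        have hTm2 : m < q * (T + 1) := by
          have := Nat.lt_mul_div_succ m (show 0 < q by omega)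
          exact this
        have hTbig : T₀ + T1 + n0 + 1 ≤ T := by
          rw [hT, Nat.le_div_iff_mul_le (by omega)]
          calc (T₀ + T1 + n0 + 1) * q = q * (T₀ + T1 + n0 + 1) := by ring
            _ ≤ m0 := hm0b
            _ ≤ m := hma
        have hTm1 : T ≤ m1 := by
          have : T ≤ m := Nat.div_le_self m q
          omega
        have hpT : p * T ≤ p * m1 := Nat.mul_le_mul_left _ hTm1
        have k1 := key T (by omega) (by omega) (by omega) (p * m1) hpT s hsR hsel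
        have k2 := crossing_sum hBb (fun l => a (s l))
          (fun l => by simpa using hB _ (hsR l).1 0 (by omega)) (q * T) (2 ^ (p * m1 - p * T))
          (2 ^ (p * T))
        have e1 : 2 ^ (p * T) * 2 ^ (p * m1 - p * T) = 2 ^ (p * m1) := by
          rw [← pow_add]; congr 1; omega
        rw [e1] at k2
        have k3 : ((2 ^ (p * T) : ℕ) : ℝ) * ((cells B (q * T)).ncard / (2 : ℝ) ^ (q * T)) ≤ 3 := by
          have k4 := hK (q * T) (by
            calc n0 ≤ T := by omega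
              _ ≤ q * T := Nat.le_mul_of_pos_left _ hq1')
          have e2 : (2 : ℝ) ^ ((u - ε) * ((q * T : ℕ) : ℝ)) ≤
              (2 : ℝ) ^ (q * T) * (2 : ℝ) ^ (-(ε * q * T)) := by
            rw [← Real.rpow_natCast 2 (q * T), ← Real.rpow_add (by norm_num)]
            apply Real.rpow_le_rpow_of_exponent_le (by norm_num)
            push_cast
            have : (0 : ℝ) ≤ (q : ℝ) * T := by positivity
            nlinarith
          replace k4 := k4.trans (mul_le_mul_of_nonneg_left e2 (by norm_num))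
          have hp2 : (0 : ℝ) < 2 ^ (q * T) := by positivity
          have k5 : (cells B (q * T)).ncard / (2 : ℝ) ^ (q * T) ≤
              3 * (2 : ℝ) ^ (-(ε * q * T)) := by
            rw [div_le_iff₀ hp2]
            calc _ ≤ _ := k4
              _ = _ := by ring
          have k6 : ((2 ^ (p * T) : ℕ) : ℝ) * (2 : ℝ) ^ (-(ε * q * T)) ≤ 1 := by
            push_cast
            rw [← Real.rpow_natCast 2 (p * T), ← Real.rpow_add (by norm_num)]
            apply Real.rpow_le_one_of_one_le_of_nonpos (by norm_num)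
            push_cast
            have : (0 : ℝ) ≤ T := Nat.cast_nonneg T
            nlinarith
          calc ((2 ^ (p * T) : ℕ) : ℝ) * ((cells B (q * T)).ncard / (2 : ℝ) ^ (q * T))
              ≤ ((2 ^ (p * T) : ℕ) : ℝ) * (3 * (2 : ℝ) ^ (-(ε * q * T))) := by gcongr
            _ = 3 * (((2 ^ (p * T) : ℕ) : ℝ) * (2 : ℝ) ^ (-(ε * q * T))) := by ring
            _ ≤ 3 := by linarith
        have k7 : ∑ l ∈ range (2 ^ (p * m1)),
            (if ((2 : ℝ) ^ (q * T))⁻¹ ≤ |a (s (l + 1)) - a (s l)| then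
              |a (s (l + 1)) - a (s l)| else 0) ≤
            ∑ l ∈ range (2 ^ (p * m1)),
            (if ((2 : ℝ) ^ m)⁻¹ ≤ |a (s (l + 1)) - a (s l)| then
              |a (s (l + 1)) - a (s l)| else 0) := by
          refine Finset.sum_le_sum fun l _ => ?_
          have hinv : ((2 : ℝ) ^ m)⁻¹ ≤ ((2 : ℝ) ^ (q * T))⁻¹ := by
            apply inv_anti₀ (by positivity)
            exact pow_le_pow_right₀ (by norm_num) hTm
          split_ifs with h1 h2 h2
          · exact le_rfl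
          · exact (h2 (hinv.trans h1)).elim
          · exact abs_nonneg _
          · exact le_rfl
        have k8 : c / (2 * q) * m ≤ c * T - 3 := by
          have hm' : (m : ℝ) ≤ q * (T + 1) := by exact_mod_cast hTm2.le
          have hm'' : (2 * q * (c + 3)) / c ≤ m := hm0a.trans (by exact_mod_cast hma)
          rw [div_le_iff₀ hc] at hm''
          have h9 : c * T - 3 - c / (2 * q) * m ≥ 0 := by
            have h10 : c / (2 * q) * m = c * m / (2 * q) := by ring
            rw [h10, ge_iff_le, sub_nonneg, div_le_iff₀ (by positivity)]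
            have h11 := mul_le_mul_of_nonneg_left hm' hc.le
            have h12 : c * ((q : ℝ) * (T + 1)) = c * q * T + c * q := by ring
            have h13 : (c * T - 3) * (2 * q) = 2 * (c * q * T) - 6 * q := by ring
            have h14 : 2 * q * (c + 3) = 2 * (c * q) + 6 * q := by ring
            have h15 : (m : ℝ) * c = c * m := by ring
            rw [h12] at h11
            rw [h14, h15] at hm''
            rw [h13]
            linarith
          linarith
        linarith)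
    refine h3.trans ?_
    rw [Finset.sum_range_sub]
    have h4 := (h01 _ (hsR (2 ^ (p * m1)))).2
    have h5 := (h01 _ (hsR 0)).1
    have h6 := abs_nonneg C
    nlinarith
  have hs : Summable (fun i => 1 / h (m0 + i)) := by
    refine summable_of_sum_range_le (c := |C| / (c / (2 * q))) (fun i => by
      have := hpos (m0 + i); positivity) fun n => ?_
    rw [le_div_iff₀ (by positivity)]
    rcases Nat.eq_zero_or_pos n with hn | hn
    · rw [hn]; simp
    · have h1 := hmain (m0 + n - 1) (by omega)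
      have e1 : m0 + n - 1 + 1 = m0 + n := by omega
      rw [e1, Finset.sum_Ico_eq_sum_range] at h1
      have e2 : m0 + n - m0 = n := by omega
      rw [e2] at h1
      linarith
  have hs' : Summable (fun i => 1 / h (i + m0)) := by
    simpa only [add_comm] using hs
  exact (summable_nat_add_iff (f := fun i => 1 / h i) m0).1 hs'

end Pool.Agent.U999.OD
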