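import Mathlib
import Pool.Agent.U999.OD.Cells

set_option autoImplicit false

namespace Pool.Agent.U999.OD

open Finset Filter Topology MeasureTheory

theorem geo_sum (b : ℕ) (hb : 2 ≤ b) (W : ℝ) (m : ℕ) :
    HasSum (fun i : ℕ => W / (b : ℝ) ^ (i + m + 1)) (W / (b : ℝ) ^ (m + 1) * (1 - 1 / (b : ℝ))⁻¹) := by
  have hb' : (2 : ℝ) ≤ b := by exact_mod_cast hb
  have hb0 : (0 : ℝ) < b := by linarith
  have h3 : HasSum (fun i : ℕ => W / (b : ℝ) ^ (m + 1) * (1 / (b : ℝ)) ^ i)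
      (W / (b : ℝ) ^ (m + 1) * (1 - 1 / (b : ℝ))⁻¹) := by
    refine (hasSum_geometric_of_lt_one (by positivity) ?_).mul_left _
    rw [div_lt_one hb0]; linarith
  convert h3 using 2 with i
  rw [one_div, inv_pow, ← div_eq_mul_inv, div_div, ← pow_add]
  congr 2
  ring

theorem ser_bound (b : ℕ) (hb : 2 ≤ b) (f : ℕ → ℝ) (W y : ℝ) (m : ℕ) (hW : 0 ≤ W)
    (hf : ∀ i, m ≤ i → |f i| ≤ W)
    (h0 : ∀ i < m, f i = 0) (hy : HasSum (fun i => f i / (b : ℝ) ^ (i + 1)) y) :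
    |y| ≤ W / (b : ℝ) ^ m := by
  have hb' : (2 : ℝ) ≤ b := by exact_mod_cast hb
  have hb0 : (0 : ℝ) < b := by linarith
  have h1 := (hasSum_nat_add_iff' m).2 hy
  have h2 : ∑ i ∈ range m, f i / (b : ℝ) ^ (i + 1) = 0 :=
    Finset.sum_eq_zero fun i hi => by rw [h0 i (Finset.mem_range.1 hi), zero_div]
  rw [h2, sub_zero] at h1
  have h4 := h1.norm_le_of_bounded (geo_sum b hb W m) (fun i => by
    rw [Real.norm_eq_abs, abs_div, abs_of_pos (show (0 : ℝ) < (b : ℝ) ^ (i + m + 1) by positivity)]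
    exact div_le_div_of_nonneg_right (hf _ (by omega)) (by positivity))
  rw [Real.norm_eq_abs] at h4
  refine h4.trans ?_
  have h5 : (1 - 1 / (b : ℝ))⁻¹ ≤ b := by
    rw [inv_le_comm₀ (by rw [sub_pos, div_lt_one hb0]; linarith) hb0]
    have h6 : (b : ℝ)⁻¹ = 1 / b := by rw [one_div]
    rw [h6]
    have : 1 / (b : ℝ) ≤ 1 / 2 := one_div_le_one_div_of_le (by norm_num) hb'
    linarith
  calc W / (b : ℝ) ^ (m + 1) * (1 - 1 / (b : ℝ))⁻¹ ≤ W / (b : ℝ) ^ (m + 1) * b := by gcongr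
    _ = W / (b : ℝ) ^ m := by rw [pow_succ]; field_simp

theorem ser_summable (b : ℕ) (hb : 2 ≤ b) (f : ℕ → ℝ) (W : ℝ) (hf : ∀ i, |f i| ≤ W) :
    Summable (fun i => f i / (b : ℝ) ^ (i + 1)) := by
  have hb' : (2 : ℝ) ≤ b := by exact_mod_cast hb
  have hb0 : (0 : ℝ) < b := by linarith
  refine Summable.of_norm_bounded (geo_sum b hb W 0).summable fun i => ?_
  rw [Real.norm_eq_abs, abs_div, abs_of_pos (show (0 : ℝ) < (b : ℝ) ^ (i + 1) by positivity)]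
  exact div_le_div_of_nonneg_right (hf i) (by positivity)

/-- the `i`-th digit of `r` in base `b` -/
noncomputable def dg (b : ℕ) (r : ℝ) (i : ℕ) : ℕ :=
  if r < 1 then ⌊(b : ℝ) ^ (i + 1) * r⌋₊ % b else b - 1

theorem dg_lt (b : ℕ) (hb : 2 ≤ b) (r : ℝ) (i : ℕ) : dg b r i < b := by
  unfold dg
  split_ifs
  · exact Nat.mod_lt _ (by omega)
  · omega

theorem floor_div (b : ℕ) (hb : 2 ≤ b) (r : ℝ) (n : ℕ) :
    ⌊(b : ℝ) ^ (n + 1) * r⌋₊ / b = ⌊(b : ℝ) ^ n * r⌋₊ := by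
  have hb0 : (0 : ℝ) < b := by exact_mod_cast (show 0 < b by omega)
  rw [← Nat.floor_div_natCast]
  congr 1
  rw [pow_succ]
  field_simp

theorem dg_psum (b : ℕ) (hb : 2 ≤ b) (r : ℝ) (h1 : r < 1) (n : ℕ) :
    ∑ i ∈ range n, (dg b r i : ℝ) / (b : ℝ) ^ (i + 1) = (⌊(b : ℝ) ^ n * r⌋₊ : ℝ) / (b : ℝ) ^ n := by
  have hb0 : (0 : ℝ) < b := by exact_mod_cast (show 0 < b by omega)
  induction n with
  | zero =>
    rw [Finset.range_zero, Finset.sum_empty, pow_zero, one_mul, Nat.floor_eq_zero.2 h1]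
    simp
  | succ n ih =>
    rw [Finset.sum_range_succ, ih]
    have e1 : dg b r n = ⌊(b : ℝ) ^ (n + 1) * r⌋₊ % b := by unfold dg; rw [if_pos h1]
    have e2 := floor_div b hb r n
    have e3 := Nat.div_add_mod ⌊(b : ℝ) ^ (n + 1) * r⌋₊ b
    rw [e2] at e3
    have e4 : (⌊(b : ℝ) ^ (n + 1) * r⌋₊ : ℝ) =
        b * ⌊(b : ℝ) ^ n * r⌋₊ + ((⌊(b : ℝ) ^ (n + 1) * r⌋₊ % b : ℕ) : ℝ) := by
      exact_mod_cast e3.symm
    rw [e1, e4, pow_succ]
    field_simp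

theorem dg_sum (b : ℕ) (hb : 2 ≤ b) (r : ℝ) (h0 : 0 ≤ r) (h1 : r ≤ 1) :
    HasSum (fun i => (dg b r i : ℝ) / (b : ℝ) ^ (i + 1)) r := by
  have hb' : (2 : ℝ) ≤ b := by exact_mod_cast hb
  have hb0 : (0 : ℝ) < b := by linarith
  rcases h1.lt_or_eq with h | h
  · rw [hasSum_iff_tendsto_nat_of_nonneg (fun i => by positivity)]
    simp only [dg_psum b hb r h]
    have h2 := (tendsto_nat_floor_mul_div_atTop (R := ℝ) h0).comp
      (tendsto_pow_atTop_atTop_of_one_lt (show (1 : ℝ) < b by linarith))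
    refine h2.congr fun n => ?_
    simp only [Function.comp_apply]
    rw [mul_comm]
  · have h2 := geo_sum b hb ((b : ℝ) - 1) 0
    have e1 : ((b : ℝ) - 1) / (b : ℝ) ^ (0 + 1) * (1 - 1 / (b : ℝ))⁻¹ = r := by
      rw [h, zero_add, pow_one]
      have : (b : ℝ) - 1 ≠ 0 := by linarith
      field_simp
    rw [e1] at h2
    convert h2 using 2 with i
    unfold dg
    rw [if_neg (by rw [h]; exact lt_irrefl _), add_zero]
    rw [Nat.cast_sub (by omega)]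
    simp

/-- floors determine the first digits -/
theorem floor_of_le (b : ℕ) (hb : 2 ≤ b) (x y : ℝ) (n m : ℕ) (hn : n ≤ m)
    (h : ⌊(b : ℝ) ^ m * x⌋₊ = ⌊(b : ℝ) ^ m * y⌋₊) : ⌊(b : ℝ) ^ n * x⌋₊ = ⌊(b : ℝ) ^ n * y⌋₊ := by
  induction m, hn using Nat.le_induction with
  | base => exact h
  | succ m _ ih =>
    apply ih
    rw [← floor_div b hb x m, ← floor_div b hb y m, h]

theorem dg_eq (b : ℕ) (hb : 2 ≤ b) (x y : ℝ) (hx : x < 1) (hy : y < 1) (m : ℕ)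
    (h : ⌊(b : ℝ) ^ m * x⌋₊ = ⌊(b : ℝ) ^ m * y⌋₊) (i : ℕ) (hi : i < m) : dg b x i = dg b y i := by
  unfold dg
  rw [if_pos hx, if_pos hy, floor_of_le b hb x y (i + 1) m hi h]

/-- the common differences that stay away from the `b`-adic points -/
def away (b : ℕ) (c : ℕ → ℝ) : Set ℝ :=
  {r | r ∈ Set.Icc (0 : ℝ) 1 ∧ ∀ m z : ℕ, 1 ≤ m → z ≤ b ^ m → c m ≤ |(b : ℝ) ^ m * r - z|}

theorem away_lt_one (b : ℕ) (c : ℕ → ℝ) (m : ℕ) (hm : 1 ≤ m) (hc : 0 < c m) (r : ℝ)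
    (hr : r ∈ away b c) : r < 1 := by
  rcases hr.1.2.lt_or_eq with h | h
  · exact h
  · exfalso
    have h2 := hr.2 m (b ^ m) hm le_rfl
    rw [h] at h2
    push_cast at h2
    rw [mul_one, sub_self, abs_zero] at h2
    linarith

theorem sep_away (b : ℕ) (c : ℕ → ℝ) (x y : ℝ) (hx : x ∈ away b c)
    (hxy : x ≤ y) (hy1 : y < 1) (m : ℕ) (hm : 1 ≤ m)
    (h : ⌊(b : ℝ) ^ m * x⌋₊ ≠ ⌊(b : ℝ) ^ m * y⌋₊) : c m ≤ (b : ℝ) ^ m * |x - y| := by
  have hb0 : (0 : ℝ) ≤ (b : ℝ) ^ m := by positivity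
  have h1 : (b : ℝ) ^ m * x ≤ (b : ℝ) ^ m * y := mul_le_mul_of_nonneg_left hxy hb0
  have h2 := Nat.floor_le_floor h1
  set z := ⌊(b : ℝ) ^ m * y⌋₊ with hz
  have h3 : ⌊(b : ℝ) ^ m * x⌋₊ < z := lt_of_le_of_ne h2 h
  have hx0 : 0 ≤ (b : ℝ) ^ m * x := mul_nonneg hb0 hx.1.1
  have h4 : (b : ℝ) ^ m * x < z := (Nat.floor_lt hx0).1 h3
  have h5 : (z : ℝ) ≤ (b : ℝ) ^ m * y := Nat.floor_le (hx0.trans h1)
  have h6 : z ≤ b ^ m := by
    have : (z : ℝ) ≤ ((b ^ m : ℕ) : ℝ) := by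
      push_cast
      calc (z : ℝ) ≤ (b : ℝ) ^ m * y := h5
        _ ≤ (b : ℝ) ^ m * 1 := mul_le_mul_of_nonneg_left hy1.le hb0
        _ = (b : ℝ) ^ m := mul_one _
    exact_mod_cast this
  have h7 := hx.2 m z hm h6
  rw [abs_of_nonpos (by linarith)] at h7
  rw [abs_of_nonpos (by linarith)]
  linarith

theorem away_measure (b : ℕ) (hb : 2 ≤ b) (c : ℕ → ℝ) (hc : ∀ m, 0 ≤ c m) (hs : Summable c)
    (η : ℝ) (hη : 4 * ∑' m, c m < η) :
    volume (Set.Icc (0 : ℝ) 1 \ away b c) < ENNReal.ofReal η := by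
  have hb0 : (0 : ℝ) < b := by exact_mod_cast (show 0 < b by omega)
  have hsub : Set.Icc (0 : ℝ) 1 \ away b c ⊆
      ⋃ m : ℕ, ⋃ z ∈ range (b ^ m + 1), Metric.ball ((z : ℝ) / (b : ℝ) ^ m) (c m / (b : ℝ) ^ m) := by
    rintro r ⟨hr, hr2⟩
    unfold away at hr2
    rw [Set.mem_ofPred_eq, not_and] at hr2
    have h3 := hr2 hr
    push Not at h3
    obtain ⟨m, z, _, hz, h4⟩ := h3
    rw [Set.mem_iUnion]
    refine ⟨m, ?_⟩
    rw [Set.mem_iUnion₂]
    refine ⟨z, Finset.mem_range.2 (by omega), ?_⟩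
    rw [Metric.mem_ball, Real.dist_eq]
    have hp : (0 : ℝ) < (b : ℝ) ^ m := by positivity
    have e : r - (z : ℝ) / (b : ℝ) ^ m = ((b : ℝ) ^ m * r - z) / (b : ℝ) ^ m := by
      field_simp
    rw [e, abs_div, abs_of_pos hp]
    exact div_lt_div_of_pos_right h4 hp
  have h1 : ∀ m : ℕ, volume (⋃ z ∈ range (b ^ m + 1),
      Metric.ball ((z : ℝ) / (b : ℝ) ^ m) (c m / (b : ℝ) ^ m)) ≤ ENNReal.ofReal (4 * c m) := by
    intro m
    refine (measure_biUnion_finset_le _ _).trans ?_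
    simp only [Real.volume_ball]
    rw [Finset.sum_const, Finset.card_range, nsmul_eq_mul]
    have hp : (1 : ℝ) ≤ (b : ℝ) ^ m := one_le_pow₀ (by exact_mod_cast (show 1 ≤ b by omega))
    have e1 : (((b ^ m + 1 : ℕ)) : ENNReal) = ENNReal.ofReal ((b : ℝ) ^ m + 1) := by
      rw [← ENNReal.ofReal_natCast]; push_cast; rfl
    rw [e1, ← ENNReal.ofReal_mul (by positivity)]
    apply ENNReal.ofReal_le_ofReal
    have e2 : ((b : ℝ) ^ m + 1) * (2 * (c m / (b : ℝ) ^ m)) =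
        2 * c m * (((b : ℝ) ^ m + 1) / (b : ℝ) ^ m) := by ring
    rw [e2]
    have h2 : ((b : ℝ) ^ m + 1) / (b : ℝ) ^ m ≤ 2 := by
      rw [div_le_iff₀ (by positivity)]; linarith
    have := hc m
    nlinarith
  calc volume (Set.Icc (0 : ℝ) 1 \ away b c)
      ≤ ∑' m, volume (⋃ z ∈ range (b ^ m + 1),
          Metric.ball ((z : ℝ) / (b : ℝ) ^ m) (c m / (b : ℝ) ^ m)) :=
        (measure_mono hsub).trans (measure_iUnion_le _)
    _ ≤ ∑' m, ENNReal.ofReal (4 * c m) := ENNReal.tsum_le_tsum h1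
    _ = ENNReal.ofReal (∑' m, 4 * c m) :=
        (ENNReal.ofReal_tsum_of_nonneg (fun m => by have := hc m; positivity)
          (hs.mul_left 4)).symm
    _ < ENNReal.ofReal η := by
        rw [tsum_mul_left]
        have h0 : 0 ≤ 4 * ∑' m, c m := mul_nonneg (by norm_num) (tsum_nonneg hc)
        exact (ENNReal.ofReal_lt_ofReal_iff (by linarith)).2 hη

theorem cover_le (B : Set ℝ) (δ : ℝ) {ι : Type*} [Fintype ι] (V : ι → Set ℝ)
    (hV : ∀ i, ∀ x ∈ V i, ∀ y ∈ V i, dist x y ≤ δ) (hB : B ⊆ ⋃ i, V i) :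
    coverNum B δ ≤ Fintype.card ι := by
  let e := Fintype.equivFin ι
  apply Nat.sInf_le
  refine ⟨fun i => V (e.symm i), fun i => hV _, ?_⟩
  intro y hy
  obtain ⟨i, hi⟩ := Set.mem_iUnion.1 (hB hy)
  exact Set.mem_iUnion.2 ⟨e i, by simpa using hi⟩

theorem dim_le (B : Set ℝ) (b : ℕ) (hb : 2 ≤ b) (W C s : ℝ) (hs : 0 ≤ s) (hW : 0 < W) (hC : 0 < C)
    (h : ∀ (m : ℕ) (δ : ℝ), W / (b : ℝ) ^ m ≤ δ → (coverNum B δ : ℝ) ≤ C * (b : ℝ) ^ (s * m)) :
    upperMinkowski B ≤ (s : EReal) := by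
  have hb' : (2 : ℝ) ≤ b := by exact_mod_cast hb
  have hb0 : (0 : ℝ) < b := by linarith
  rw [← EReal.le_of_forall_lt_iff_le]
  intro s' hs'
  rw [EReal.coe_lt_coe_iff] at hs'
  unfold upperMinkowski
  refine limsup_le_of_le (by isBoundedDefault) ?_
  set K : ℝ := Real.log C + s * Real.log (b * W) with hK
  have h1 : ∀ᶠ δ : ℝ in 𝓝[>] 0, Real.log δ < -(|K| / (s' - s)) :=
    Real.tendsto_log_nhdsGT_zero.eventually_lt_atBot _
  have h2 : ∀ᶠ δ : ℝ in 𝓝[>] 0, Real.log δ < 0 :=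
    Real.tendsto_log_nhdsGT_zero.eventually_lt_atBot _
  have h3 : ∀ᶠ δ : ℝ in 𝓝[>] 0, 0 < δ := eventually_mem_nhdsWithin
  have h4 : ∀ᶠ δ : ℝ in 𝓝[>] 0, δ < W := by
    have := (eventually_lt_nhds hW)
    exact nhdsWithin_le_nhds this
  filter_upwards [h1, h2, h3, h4] with δ hδ1 hδ2 hδ3 hδ4
  rw [EReal.coe_le_coe_iff]
  have hlog : Real.log (1 / δ) = -Real.log δ := by rw [one_div, Real.log_inv]
  have hlp : 0 < Real.log (1 / δ) := by rw [hlog]; linarith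
  rw [div_le_iff₀ hlp]
  have hex : ∃ m : ℕ, W / (b : ℝ) ^ m ≤ δ := by
    obtain ⟨m, hm⟩ := pow_unbounded_of_one_lt (W / δ) (show (1 : ℝ) < b by linarith)
    refine ⟨m, ?_⟩
    rw [div_le_iff₀ (by positivity)]
    rw [div_lt_iff₀ hδ3] at hm
    linarith
  classical
  set m := Nat.find hex with hm
  have hm1 : W / (b : ℝ) ^ m ≤ δ := Nat.find_spec hex
  have hm0 : m ≠ 0 := by
    intro h0
    rw [h0, pow_zero, div_one] at hm1
    linarith
  have hm2 : ¬ W / (b : ℝ) ^ (m - 1) ≤ δ := Nat.find_min hex (by omega)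
  push Not at hm2
  have hm3 : (b : ℝ) ^ m ≤ b * W / δ := by
    rw [lt_div_iff₀ (by positivity)] at hm2
    rw [le_div_iff₀ hδ3]
    have : (b : ℝ) ^ m = b * b ^ (m - 1) := by
      rw [← pow_succ']; congr 1; omega
    rw [this]
    nlinarith
  have h5 := h m δ hm1
  by_cases h0 : coverNum B δ = 0
  · rw [h0, Nat.cast_zero, Real.log_zero]
    exact mul_nonneg (by linarith) hlp.le
  · have hpos : (0 : ℝ) < coverNum B δ := by exact_mod_cast Nat.pos_of_ne_zero h0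
    have h6 : (b : ℝ) ^ (s * m) ≤ (b * W / δ) ^ s := by
      have e1 : (b : ℝ) ^ (s * (m : ℝ)) = ((b : ℝ) ^ m) ^ s := by
        rw [← Real.rpow_natCast, ← Real.rpow_mul hb0.le]
        congr 1; ring
      rw [e1]
      exact Real.rpow_le_rpow (by positivity) hm3 hs
    have h7 : (coverNum B δ : ℝ) ≤ C * (b * W / δ) ^ s :=
      h5.trans (mul_le_mul_of_nonneg_left h6 hC.le)
    have h8 := Real.log_le_log hpos h7
    have hbW : 0 < b * W / δ := by positivity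
    rw [Real.log_mul hC.ne' (by positivity), Real.log_rpow hbW, Real.log_div (by positivity)
      hδ3.ne'] at h8
    have h9 : |K| < (s' - s) * Real.log (1 / δ) := by
      rw [hlog]
      have : |K| / (s' - s) < -Real.log δ := by linarith
      rw [div_lt_iff₀ (by linarith)] at this
      linarith
    have h10 := le_abs_self K
    rw [hlog] at h9 ⊢
    have h11 : s * (Real.log (b * W) - Real.log δ) = s * Real.log (b * W) + s * (-Real.log δ) := by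
      ring
    rw [h11] at h8
    have h12 : (s' - s) * -Real.log δ = s' * -Real.log δ - s * -Real.log δ := by ring
    rw [h12] at h9
    linarith

end Pool.Agent.U999.OD
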