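import Mathlib
import Pool.Agent.U999.OD.Dig
import Pool.Agent.U999.OD.Cont

set_option autoImplicit false

namespace Pool.Agent.U999.OD

open Finset Filter Topology MeasureTheory

theorem reg_aux (h : ℕ → ℝ) (hmono : Monotone h) (hpos : ∀ n, 0 < h n) (L m n : ℕ)
    (h2 : 2 * m ≤ L + n) : h (m + 1) ≤ h (L + 1) / h 0 * h n := by
  have e1 : 1 ≤ h (L + 1) / h 0 := by
    rw [le_div_iff₀ (hpos 0), one_mul]; exact hmono (Nat.zero_le _)
  by_cases hm : m + 1 ≤ n
  · calc h (m + 1) ≤ h n := hmono hm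
      _ = 1 * h n := (one_mul _).symm
      _ ≤ h (L + 1) / h 0 * h n := mul_le_mul_of_nonneg_right e1 (hpos n).le
  · have h3 : m + 1 ≤ L + 1 := by omega
    calc h (m + 1) ≤ h (L + 1) := hmono h3
      _ = h (L + 1) / h 0 * h 0 := by rw [div_mul_cancel₀ _ (hpos 0).ne']
      _ ≤ h (L + 1) / h 0 * h n :=
        mul_le_mul_of_nonneg_left (hmono (Nat.zero_le n)) (by linarith)

theorem partB (h : ℕ → ℝ) (hmono : Monotone h) (hpos : ∀ n, 0 < h n)
    (hsum : Summable (fun n => 1 / h n)) (k : ℕ) (hk : 1 ≤ k) (B0 : Set ℝ)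
    (hB0b : Bornology.IsBounded B0) (a0 : ℝ → ℝ)
    (hB0 : ∀ r ∈ Set.Icc (0 : ℝ) 1, ∀ j : ℕ, j < k → a0 r + j * r ∈ B0) (s : ℝ)
    (hs0 : upperMinkowski B0 < (s : EReal)) (η : ℝ) (hη : 0 < η) :
    ∃ (B : Set ℝ) (a : ℝ → ℝ) (R : Set ℝ), Bornology.IsBounded B ∧
      (∀ r ∈ Set.Icc (0 : ℝ) 1, ∀ j : ℕ, j < k → a r + j * r ∈ B) ∧ R ⊆ Set.Icc 0 1 ∧
      volume (Set.Icc (0 : ℝ) 1 \ R) < ENNReal.ofReal η ∧ Reg h R a ∧
      upperMinkowski B ≤ (s : EReal) := by
  classical
  obtain ⟨s', h1, h2⟩ := EReal.lt_iff_exists_real_btwn.1 hs0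
  rw [EReal.coe_lt_coe_iff] at h2
  obtain ⟨n0, hn0⟩ := small_cover h1
  obtain ⟨n1, hn1⟩ := exists_nat_ge (2 / (s - s'))
  set N : ℕ := max (max n0 n1) 2 with hN
  have hN2 : 2 ≤ N := le_max_right _ _
  have hNn0 : n0 ≤ N := (le_max_left _ _).trans (le_max_left _ _)
  have hNn1 : n1 ≤ N := (le_max_right _ _).trans (le_max_left _ _)
  set b : ℕ := 2 ^ N with hb
  have hb2 : 2 ≤ b := by
    rw [hb]
    calc 2 = 2 ^ 1 := by norm_num
      _ ≤ 2 ^ N := Nat.pow_le_pow_right (by norm_num) (by omega)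
  have hbr : (b : ℝ) = 2 ^ N := by rw [hb]; push_cast; rfl
  have hb0 : (0 : ℝ) < b := by rw [hbr]; positivity
  have hf := cells_finite hB0b N
  set A : Finset ℤ := hf.toFinset with hA
  have hAmem : ∀ y ∈ B0, ⌊(2 : ℝ) ^ N * y⌋ ∈ A := by
    intro y hy
    rw [hA, Set.Finite.mem_toFinset]
    exact ⟨y, hy, rfl⟩
  have hAc : (A.card : ℝ) ≤ (b : ℝ) ^ s := by
    have e1 : (A.card : ℝ) ≤ ((3 * coverNum B0 ((2 : ℝ) ^ N)⁻¹ : ℕ) : ℝ) := by
      have := cells_le_coverNum hB0b N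
      rw [Set.ncard_eq_toFinset_card _ hf] at this
      exact_mod_cast this
    push_cast at e1
    have e2 := hn0 N hNn0
    have e3 : (3 : ℝ) ≤ (2 : ℝ) ^ ((s - s') * N) := by
      calc (3 : ℝ) ≤ (2 : ℝ) ^ (2 : ℝ) := by norm_num
        _ ≤ (2 : ℝ) ^ ((s - s') * N) := by
          apply Real.rpow_le_rpow_of_exponent_le (by norm_num)
          have : 2 / (s - s') ≤ N := hn1.trans (by exact_mod_cast hNn1)
          rw [div_le_iff₀ (by linarith)] at this
          linarith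
    have e4 : (b : ℝ) ^ s = (2 : ℝ) ^ ((s - s') * N) * (2 : ℝ) ^ (s' * N) := by
      rw [← Real.rpow_add (by norm_num), hbr, ← Real.rpow_natCast, ← Real.rpow_mul (by norm_num)]
      congr 1; ring
    rw [e4]
    have : (0 : ℝ) < (2 : ℝ) ^ (s' * N) := by positivity
    nlinarith
  set α : ℕ → ℤ := fun v => ⌊(2 : ℝ) ^ N * a0 ((v : ℝ) / b)⌋ with hα
  have hαA : ∀ v, v < b → ∀ j : ℕ, j < k → α v + (j : ℤ) * v ∈ A := by
    intro v hv j hj
    have hv1 : ((v : ℝ) / b) ∈ Set.Icc (0 : ℝ) 1 := by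
      refine ⟨by positivity, ?_⟩
      rw [div_le_one hb0]
      exact_mod_cast hv.le
    have e1 := hAmem _ (hB0 _ hv1 j hj)
    have e2 : (2 : ℝ) ^ N * (a0 ((v : ℝ) / b) + j * ((v : ℝ) / b)) =
        (2 : ℝ) ^ N * a0 ((v : ℝ) / b) + (((j : ℤ) * (v : ℤ) : ℤ) : ℝ) := by
      rw [hbr]
      push_cast
      field_simp
    rw [e2, Int.floor_add_intCast] at e1
    exact e1
  have hαA0 : ∀ v, v < b → α v ∈ A := by
    intro v hv
    have := hαA v hv 0 (by omega)
    simpa using this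
  have hs : 0 ≤ s := by
    by_contra hneg
    push Not at hneg
    have h1 : (1 : ℝ) ≤ A.card := by
      have : 0 < A.card := Finset.card_pos.2 ⟨_, hαA0 0 (by omega)⟩
      exact_mod_cast this
    have h3 : (b : ℝ) ^ s < 1 :=
      Real.rpow_lt_one_of_one_lt_of_neg (by exact_mod_cast (show 1 < b by omega)) hneg
    linarith
  obtain ⟨W, hW1, hW⟩ : ∃ W : ℝ, 1 ≤ W ∧ ∀ e ∈ A, |(e : ℝ)| ≤ W := by
    refine ⟨1 + ∑ e ∈ A, |(e : ℝ)|, ?_, ?_⟩
    · have : 0 ≤ ∑ e ∈ A, |(e : ℝ)| := Finset.sum_nonneg fun _ _ => abs_nonneg _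
      linarith
    · intro e he
      have := Finset.single_le_sum (f := fun e : ℤ => |(e : ℝ)|) (fun _ _ => abs_nonneg _) he
      linarith
  set a : ℝ → ℝ := fun r => ∑' i, (α (dg b r i) : ℝ) / (b : ℝ) ^ (i + 1) with ha
  have haS : ∀ r, HasSum (fun i => (α (dg b r i) : ℝ) / (b : ℝ) ^ (i + 1)) (a r) := by
    intro r
    exact (ser_summable b hb2 (fun i => (α (dg b r i) : ℝ)) W
      (fun i => hW _ (hαA0 _ (dg_lt b hb2 r i)))).hasSum
  set B : Set ℝ := {y | ∃ e : ℕ → ℤ, (∀ i, e i ∈ A) ∧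
    HasSum (fun i => (e i : ℝ) / (b : ℝ) ^ (i + 1)) y} with hB
  obtain ⟨L, hL⟩ := pow_unbounded_of_one_lt (2 * W) (show (1 : ℝ) < 2 by norm_num)
  set S : ℝ := ∑' n, 1 / h n with hS
  have hS0 : 0 ≤ S := tsum_nonneg fun n => by have := hpos n; positivity
  set c0 : ℝ := η / (4 * (S + 1)) with hc0
  have hc0p : 0 < c0 := by positivity
  set c : ℕ → ℝ := fun m => c0 * (1 / h m) with hc
  have hcp : ∀ m, 0 < c m := fun m => by have := hpos m; positivity
  refine ⟨B, a, away b c, ?_, ?_, fun r hr => hr.1, ?_, ?_, ?_⟩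
  · rw [Metric.isBounded_iff_subset_closedBall 0]
    refine ⟨W, ?_⟩
    rintro y ⟨e, he, hy⟩
    have := ser_bound b hb2 (fun i => (e i : ℝ)) W y 0 (by linarith) (fun i _ => hW _ (he i))
      (fun i hi => absurd hi (Nat.not_lt_zero i)) hy
    rw [pow_zero, div_one] at this
    rw [Metric.mem_closedBall, Real.dist_eq, sub_zero]
    exact this
  · intro r hr j hj
    refine ⟨fun i => α (dg b r i) + (j : ℤ) * (dg b r i : ℕ), fun i =>
      hαA _ (dg_lt b hb2 r i) j hj, ?_⟩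
    have := (haS r).add ((dg_sum b hb2 r hr.1 hr.2).mul_left (j : ℝ))
    convert this using 2 with i
    push_cast
    ring
  · refine away_measure b hb2 c (fun m => (hcp m).le) (hsum.mul_left c0) η ?_
    rw [tsum_mul_left, ← hS, hc0]
    have : 4 * (η / (4 * (S + 1)) * S) = η * (S / (S + 1)) := by field_simp
    rw [this]
    have h3 : S / (S + 1) < 1 := by rw [div_lt_one (by linarith)]; linarith
    nlinarith
  · refine ⟨2 * W * b / c0 * (h (L + 1) / h 0), ?_⟩
    have key : ∀ n : ℕ, ∀ x ∈ away b c, ∀ y ∈ away b c, x ≤ y →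
        ((2 : ℝ) ^ n)⁻¹ ≤ |a x - a y| →
        |a x - a y| ≤ 2 * W * b / c0 * (h (L + 1) / h 0) * h n * |x - y| := by
      intro n x hx y hy hxy hn
      have hx1 := away_lt_one b c 1 le_rfl (hcp 1) x hx
      have hy1 := away_lt_one b c 1 le_rfl (hcp 1) y hy
      have hex : ∃ m, dg b x m ≠ dg b y m := by
        by_contra hno
        push Not at hno
        have : a x = a y := by
          simp only [ha, hno]
        rw [this, sub_self, abs_zero] at hn
        have : (0 : ℝ) < ((2 : ℝ) ^ n)⁻¹ := by positivity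
        linarith
      set m := Nat.find hex with hm
      have hm1 : dg b x m ≠ dg b y m := Nat.find_spec hex
      have hm2 : ∀ i < m, dg b x i = dg b y i := fun i hi => by
        have := Nat.find_min hex hi
        push Not at this
        exact this
      have hd : HasSum (fun i => ((α (dg b x i) : ℝ) - α (dg b y i)) / (b : ℝ) ^ (i + 1))
          (a x - a y) := by
        have := (haS x).sub (haS y)
        have e : (fun i => ((α (dg b x i) : ℝ) - α (dg b y i)) / (b : ℝ) ^ (i + 1)) =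
            fun i => (α (dg b x i) : ℝ) / (b : ℝ) ^ (i + 1) -
              (α (dg b y i) : ℝ) / (b : ℝ) ^ (i + 1) := by
          funext i; rw [sub_div]
        rw [e]
        exact this
      have hbd := ser_bound b hb2 (fun i => (α (dg b x i) : ℝ) - α (dg b y i)) (2 * W)
        (a x - a y) m (by linarith) (fun i _ => by
          have e1 := hW _ (hαA0 _ (dg_lt b hb2 x i))
          have e2 := hW _ (hαA0 _ (dg_lt b hb2 y i))
          calc |(α (dg b x i) : ℝ) - α (dg b y i)| ≤ |(α (dg b x i) : ℝ)| + |(α (dg b y i) : ℝ)| :=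
                abs_sub _ _
            _ ≤ 2 * W := by linarith) (fun i hi => by rw [hm2 i hi, sub_self]) hd
      have hfl : ⌊(b : ℝ) ^ (m + 1) * x⌋₊ ≠ ⌊(b : ℝ) ^ (m + 1) * y⌋₊ := by
        intro h3
        apply hm1
        unfold dg
        rw [if_pos hx1, if_pos hy1, h3]
      have hsep := sep_away b c x y hx hxy hy1 (m + 1) (by omega) hfl
      have hbm : (0 : ℝ) < (b : ℝ) ^ m := by positivity
      have h2m : 2 * m ≤ L + n := by
        have e1 : (b : ℝ) ^ m ≤ 2 * W * 2 ^ n := by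
          have e2 := hn.trans hbd
          rw [le_div_iff₀ hbm] at e2
          have e3 : (0 : ℝ) < 2 ^ n := by positivity
          have e4 : (2 : ℝ) ^ n * (((2 : ℝ) ^ n)⁻¹ * (b : ℝ) ^ m) = (b : ℝ) ^ m := by
            field_simp
          calc (b : ℝ) ^ m = (2 : ℝ) ^ n * (((2 : ℝ) ^ n)⁻¹ * (b : ℝ) ^ m) := e4.symm
            _ ≤ 2 ^ n * (2 * W) := mul_le_mul_of_nonneg_left e2 e3.le
            _ = 2 * W * 2 ^ n := by ring
        have e5 : (2 : ℝ) ^ (N * m) < 2 ^ (L + n) := by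
          calc (2 : ℝ) ^ (N * m) = (b : ℝ) ^ m := by rw [hbr, pow_mul]
            _ ≤ 2 * W * 2 ^ n := e1
            _ < 2 ^ L * 2 ^ n := mul_lt_mul_of_pos_right hL (by positivity)
            _ = 2 ^ (L + n) := by rw [pow_add]
        have e6 : N * m < L + n := (pow_lt_pow_iff_right₀ (by norm_num)).1 e5
        have e7 : 2 * m ≤ N * m := Nat.mul_le_mul_right _ hN2
        omega
      have hreg := reg_aux h hmono hpos L m n h2m
      have hm1p := hpos (m + 1)
      have hsep2 : 1 ≤ (b : ℝ) ^ (m + 1) * |x - y| * (h (m + 1) / c0) := by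
        have e1 : c (m + 1) * (h (m + 1) / c0) = 1 := by
          simp only [hc]; field_simp
        calc (1 : ℝ) = c (m + 1) * (h (m + 1) / c0) := e1.symm
          _ ≤ (b : ℝ) ^ (m + 1) * |x - y| * (h (m + 1) / c0) :=
            mul_le_mul_of_nonneg_right hsep (by positivity)
      calc |a x - a y| ≤ 2 * W / (b : ℝ) ^ m := hbd
        _ = 2 * W / (b : ℝ) ^ m * 1 := (mul_one _).symm
        _ ≤ 2 * W / (b : ℝ) ^ m * ((b : ℝ) ^ (m + 1) * |x - y| * (h (m + 1) / c0)) :=
            mul_le_mul_of_nonneg_left hsep2 (by positivity)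
        _ = 2 * W * b / c0 * h (m + 1) * |x - y| := by
            rw [pow_succ]; field_simp
        _ ≤ 2 * W * b / c0 * (h (L + 1) / h 0 * h n) * |x - y| := by
            have : 0 ≤ 2 * W * b / c0 := by positivity
            gcongr
        _ = 2 * W * b / c0 * (h (L + 1) / h 0) * h n * |x - y| := by ring
    intro n x hx y hy hn
    rcases le_total x y with hxy | hxy
    · exact key n x hx y hy hxy hn
    · rw [abs_sub_comm (a x), abs_sub_comm x]
      rw [abs_sub_comm (a x)] at hn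
      exact key n y hy x hx hxy hn
  · refine dim_le B b hb2 (2 * W) 1 s hs (by linarith) one_pos ?_
    intro m δ hδ
    have h3 : coverNum B δ ≤ Fintype.card (Fin m → A) := by
      refine cover_le B δ (fun φ : Fin m → A => {y | ∃ e : ℕ → ℤ, (∀ i, e i ∈ A) ∧
        HasSum (fun i => (e i : ℝ) / (b : ℝ) ^ (i + 1)) y ∧ ∀ i : Fin m, e i = φ i}) ?_ ?_
      · rintro φ x ⟨e, he, hx, hφ⟩ y ⟨e', he', hy, hφ'⟩
        have hd : HasSum (fun i => ((e i : ℝ) - e' i) / (b : ℝ) ^ (i + 1)) (x - y) := by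
          have := hx.sub hy
          have e : (fun i => ((e i : ℝ) - e' i) / (b : ℝ) ^ (i + 1)) =
              fun i => (e i : ℝ) / (b : ℝ) ^ (i + 1) - (e' i : ℝ) / (b : ℝ) ^ (i + 1) := by
            funext i; rw [sub_div]
          rw [e]
          exact this
        rw [Real.dist_eq]
        refine (ser_bound b hb2 (fun i => (e i : ℝ) - e' i) (2 * W) (x - y) m (by linarith)
          (fun i _ => ?_) (fun i hi => ?_) hd).trans hδ
        · calc |(e i : ℝ) - e' i| ≤ |(e i : ℝ)| + |(e' i : ℝ)| := abs_sub _ _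
            _ ≤ 2 * W := by have := hW _ (he i); have := hW _ (he' i); linarith
        · have e1 := hφ ⟨i, hi⟩
          have e2 := hφ' ⟨i, hi⟩
          simp only at e1 e2
          rw [e1, e2, sub_self]
      · rintro y ⟨e, he, hy⟩
        exact Set.mem_iUnion.2 ⟨fun i => ⟨e i, he i⟩, e, he, hy, fun i => rfl⟩
    have h4 : Fintype.card (Fin m → A) = A.card ^ m := by simp
    rw [h4] at h3
    have h5 : (coverNum B δ : ℝ) ≤ (A.card : ℝ) ^ m := by exact_mod_cast h3
    rw [one_mul, Real.rpow_mul hb0.le, Real.rpow_natCast]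
    exact h5.trans (pow_le_pow_left₀ (Nat.cast_nonneg _) hAc m)

end Pool.Agent.U999.OD
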