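import Mathlib

set_option autoImplicit false

namespace Pool.Agent.U999.OD

open Finset Filter Topology

/-- the beginnings of the cycles -/
def P (k s : ℕ) : ℕ → ℕ
  | 0 => 0
  | c + 1 => P k s c + k * (P k s c / s + 1)

theorem P_step (k s : ℕ) (hk : 1 ≤ k) (c : ℕ) : P k s c + 1 ≤ P k s (c + 1) := by
  have : 1 ≤ k * (P k s c / s + 1) := Nat.mul_pos (by omega) (Nat.succ_pos _)
  simp only [P]
  omega

theorem P_add (k s : ℕ) (hk : 1 ≤ k) (c d : ℕ) : P k s c + d ≤ P k s (c + d) := by
  induction d with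
  | zero => simp
  | succ d ih =>
    have := P_step k s hk (c + d)
    rw [← add_assoc]
    rw [← add_assoc]
    omega

theorem P_mono (k s : ℕ) (hk : 1 ≤ k) : StrictMono (P k s) :=
  strictMono_nat_of_lt_succ fun c => by have := P_step k s hk c; omega

theorem le_P (k s : ℕ) (hk : 1 ≤ k) (c : ℕ) : c ≤ P k s c := (P_mono k s hk).id_le c

/-- the cycle of `i` -/
def cyc (k s i : ℕ) : ℕ := Nat.findGreatest (fun c => P k s c ≤ i) i

theorem cyc_spec (k s : ℕ) (hk : 1 ≤ k) (i : ℕ) :
    P k s (cyc k s i) ≤ i ∧ i < P k s (cyc k s i + 1) := by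
  constructor
  · exact Nat.findGreatest_spec (P := fun c => P k s c ≤ i) (Nat.zero_le i) (Nat.zero_le _)
  · by_contra h
    push Not at h
    have h1 : cyc k s i + 1 ≤ i := (le_P k s hk _).trans h
    exact Nat.findGreatest_is_greatest (P := fun c => P k s c ≤ i) (Nat.lt_succ_self _) h1 h

theorem cyc_eq (k s : ℕ) (hk : 1 ≤ k) (i c : ℕ) (h1 : P k s c ≤ i) (h2 : i < P k s (c + 1)) :
    cyc k s i = c := by
  obtain ⟨h3, h4⟩ := cyc_spec k s hk i
  have h5 : c < cyc k s i + 1 := (P_mono k s hk).lt_iff_lt.1 (lt_of_le_of_lt h1 h4)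
  have h6 : cyc k s i < c + 1 := (P_mono k s hk).lt_iff_lt.1 (lt_of_le_of_lt h3 h2)
  omega

/-- the slope of the `i`-th digit -/
def sg (k s i : ℕ) : ℕ := (i - P k s (cyc k s i)) / (P k s (cyc k s i) / s + 1)

theorem sg_lt (k s : ℕ) (hk : 1 ≤ k) (i : ℕ) : sg k s i < k := by
  obtain ⟨h3, h4⟩ := cyc_spec k s hk i
  unfold sg
  rw [Nat.div_lt_iff_lt_mul (show 0 < P k s (cyc k s i) / s + 1 from Nat.succ_pos _)]
  simp only [P] at h4
  omega

theorem sg_eq (k s : ℕ) (hk : 1 ≤ k) (i c j : ℕ) (hj : j < k)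
    (h1 : P k s c + j * (P k s c / s + 1) ≤ i) (h2 : i < P k s c + (j + 1) * (P k s c / s + 1)) :
    sg k s i = j := by
  have h3 : (j + 1) * (P k s c / s + 1) ≤ k * (P k s c / s + 1) := Nat.mul_le_mul_right _ hj
  have hc : cyc k s i = c := by
    apply cyc_eq k s hk i c (by omega)
    simp only [P]
    omega
  unfold sg
  rw [hc]
  have h4 : j * (P k s c / s + 1) ≤ i - P k s c := by omega
  have h5 : i - P k s c < (j + 1) * (P k s c / s + 1) := by omega
  exact Nat.div_eq_of_lt_le h4 h5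

theorem block_end (k s : ℕ) (hk : 1 ≤ k) (i : ℕ) : ∃ c j : ℕ, j < k ∧ sg k s i = j ∧
    i < P k s c + (j + 1) * (P k s c / s + 1) ∧
    ∀ i', i ≤ i' → i' < P k s c + (j + 1) * (P k s c / s + 1) → sg k s i' = j := by
  refine ⟨cyc k s i, sg k s i, sg_lt k s hk i, rfl, ?_, ?_⟩
  · obtain ⟨h3, h4⟩ := cyc_spec k s hk i
    have := Nat.lt_mul_div_succ (i - P k s (cyc k s i))
      (show 0 < P k s (cyc k s i) / s + 1 from Nat.succ_pos _)
    have e : (P k s (cyc k s i) / s + 1) * (sg k s i + 1) =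
        (sg k s i + 1) * (P k s (cyc k s i) / s + 1) := mul_comm _ _
    have h5 : i - P k s (cyc k s i) < (sg k s i + 1) * (P k s (cyc k s i) / s + 1) := by
      rw [← e]
      exact this
    omega
  · intro i' h1 h2
    refine sg_eq k s hk i' (cyc k s i) _ (sg_lt k s hk i) ?_ h2
    refine le_trans ?_ h1
    obtain ⟨h3, _⟩ := cyc_spec k s hk i
    have := Nat.div_mul_le_self (i - P k s (cyc k s i)) (P k s (cyc k s i) / s + 1)
    have h5 : sg k s i * (P k s (cyc k s i) / s + 1) ≤ i - P k s (cyc k s i) := this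
    omega

theorem freq0 (k s : ℕ) (hk : 1 ≤ k) (j : ℕ) (hj : j < k) (c : ℕ) :
    P k s c ≤ k * ((range (P k s c)).filter (fun i => sg k s i = j)).card := by
  induction c with
  | zero => simp [P]
  | succ c ih =>
    set w := P k s c / s + 1 with hw
    have h3 : (j + 1) * w ≤ k * w := Nat.mul_le_mul_right _ hj
    have hP : P k s (c + 1) = P k s c + k * w := by simp only [P, hw]
    have hsub : (range (P k s c)).filter (fun i => sg k s i = j) ∪
        Finset.Ico (P k s c + j * w) (P k s c + (j + 1) * w) ⊆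
        (range (P k s (c + 1))).filter (fun i => sg k s i = j) := by
      intro i hi
      rw [Finset.mem_union, Finset.mem_filter, Finset.mem_range, Finset.mem_Ico] at hi
      rw [Finset.mem_filter, Finset.mem_range, hP]
      rcases hi with hi | hi
      · exact ⟨by omega, hi.2⟩
      · exact ⟨by omega, sg_eq k s hk i c j hj hi.1 hi.2⟩
    have hdisj : Disjoint ((range (P k s c)).filter (fun i => sg k s i = j))
        (Finset.Ico (P k s c + j * w) (P k s c + (j + 1) * w)) := by
      rw [Finset.disjoint_left]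
      intro i hi hi2
      rw [Finset.mem_filter, Finset.mem_range] at hi
      rw [Finset.mem_Ico] at hi2
      omega
    have h4 := Finset.card_le_card hsub
    rw [Finset.card_union_of_disjoint hdisj, Nat.card_Ico] at h4
    have h5 : P k s c + (j + 1) * w - (P k s c + j * w) = w := by
      have e : (j + 1) * w = j * w + w := by ring
      rw [e]
      clear_value w
      omega
    rw [h5] at h4
    calc P k s (c + 1) = P k s c + k * w := hP
      _ ≤ k * ((range (P k s c)).filter (fun i => sg k s i = j)).card + k * w :=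
        Nat.add_le_add_right ih _
      _ = k * (((range (P k s c)).filter (fun i => sg k s i = j)).card + w) := by ring
      _ ≤ _ := Nat.mul_le_mul_left _ h4

theorem freq (k s : ℕ) (hk : 1 ≤ k) (hs : 1 ≤ s) (j : ℕ) (hj : j < k) (m : ℕ) :
    (m : ℝ) / k - m / s - 1 ≤ (((range m).filter (fun i => sg k s i = j)).card : ℝ) := by
  obtain ⟨h3, h4⟩ := cyc_spec k s hk m
  set c := cyc k s m
  have h5 := freq0 k s hk j hj c
  have h6 : ((range (P k s c)).filter (fun i => sg k s i = j)).card ≤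
      ((range m).filter (fun i => sg k s i = j)).card := by
    refine Finset.card_le_card (Finset.filter_subset_filter _ ?_)
    intro i hi
    rw [Finset.mem_range] at hi ⊢
    omega
  have h7 : P k s c ≤ k * ((range m).filter (fun i => sg k s i = j)).card :=
    h5.trans (Nat.mul_le_mul_left _ h6)
  have hkr : (0 : ℝ) < k := by exact_mod_cast (show 0 < k by omega)
  have hsr : (0 : ℝ) < s := by exact_mod_cast (show 0 < s by omega)
  have h8 : (P k s c : ℝ) ≤ k * (((range m).filter (fun i => sg k s i = j)).card : ℝ) := by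
    exact_mod_cast h7
  have h9 : (m : ℝ) ≤ P k s c + k * ((m : ℝ) / s + 1) := by
    have e1 : m ≤ P k s c + k * (P k s c / s + 1) := by
      simp only [P] at h4; omega
    have e2 : (m : ℝ) ≤ P k s c + k * (((P k s c / s : ℕ) : ℝ) + 1) := by exact_mod_cast e1
    have e3 : ((P k s c / s : ℕ) : ℝ) ≤ (m : ℝ) / s := by
      refine (Nat.cast_div_le).trans ?_
      exact div_le_div_of_nonneg_right (by exact_mod_cast h3) hsr.le
    have e4 : (k : ℝ) * (((P k s c / s : ℕ) : ℝ) + 1) ≤ k * ((m : ℝ) / s + 1) :=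
      mul_le_mul_of_nonneg_left (by linarith) hkr.le
    linarith
  have h10 : (m : ℝ) / k ≤ (((range m).filter (fun i => sg k s i = j)).card : ℝ) +
      ((m : ℝ) / s + 1) := by
    rw [div_le_iff₀ hkr]
    linarith
  linarith

theorem cyc_sum (f : ℕ → ℝ) (k s : ℕ) (hk : 1 ≤ k) (n : ℕ) :
    ∑ c ∈ range n, ∑ m ∈ Finset.Ico (P k s c) (P k s (c + 1)), f m =
      ∑ m ∈ range (P k s n), f m := by
  induction n with
  | zero => simp [P]
  | succ n ih =>
    rw [Finset.sum_range_succ, ih, Finset.range_eq_Ico, Finset.sum_Ico_consecutive _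
      (Nat.zero_le _) ((P_mono k s hk).monotone (Nat.le_succ n)), Finset.range_eq_Ico]

theorem cyc_summable (h : ℕ → ℝ) (hmono : Monotone h) (hpos : ∀ n, 0 < h n)
    (hsum : Summable (fun n : ℕ => 1 / (((n : ℝ) + 1) * h n))) (k s : ℕ) (hk : 1 ≤ k) (hs : 1 ≤ s)
    (K : ℕ) : Summable (fun c => 1 / h (P k s c - K)) := by
  have hsr : (0 : ℝ) < s := by exact_mod_cast (show 0 < s by omega)
  have hf0 : ∀ n : ℕ, 0 ≤ 1 / (((n : ℝ) + 1) * h n) := fun n => by
    have := hpos n; positivity
  have h1 : ∀ c, 1 / h (P k s (c + 1)) ≤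
      ((s : ℝ) + 1) * ∑ m ∈ Finset.Ico (P k s c) (P k s (c + 1)), 1 / (((m : ℝ) + 1) * h m) := by
    intro c
    set p := P k s c with hp
    set p' := P k s (c + 1) with hp'
    have hstep : p + 1 ≤ p' := P_step k s hk c
    have hp'0 : (0 : ℝ) < p' := by exact_mod_cast (show 0 < p' by omega)
    have hh := hpos p'
    have e1 : ∑ m ∈ Finset.Ico p p', 1 / ((p' : ℝ) * h p') ≤
        ∑ m ∈ Finset.Ico p p', 1 / (((m : ℝ) + 1) * h m) := by
      refine Finset.sum_le_sum fun m hm => ?_
      rw [Finset.mem_Ico] at hm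
      have hm1 := hpos m
      apply one_div_le_one_div_of_le (by positivity)
      have e2 : (m : ℝ) + 1 ≤ p' := by exact_mod_cast hm.2
      have e3 := hmono hm.2.le
      calc ((m : ℝ) + 1) * h m ≤ p' * h m := mul_le_mul_of_nonneg_right e2 hm1.le
        _ ≤ p' * h p' := mul_le_mul_of_nonneg_left e3 hp'0.le
    rw [Finset.sum_const, Nat.card_Ico, nsmul_eq_mul] at e1
    have e4 : (p' : ℝ) ≤ (s + 1) * ((p' - p : ℕ) : ℝ) := by
      have e5 : p' = p + k * (p / s + 1) := by rw [hp', hp]; simp only [P]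
      have e6 : p' - p = k * (p / s + 1) := by omega
      have e7 : p < s * (p / s + 1) := Nat.lt_mul_div_succ p (by omega)
      have e8 : p ≤ s * (p' - p) := by
        rw [e6]
        calc p ≤ s * (p / s + 1) := e7.le
          _ ≤ s * (k * (p / s + 1)) := Nat.mul_le_mul_left _ (Nat.le_mul_of_pos_left _ (by omega))
      have e9 : p' ≤ (s + 1) * (p' - p) := by
        rw [Nat.succ_mul]
        omega
      exact_mod_cast e9
    calc 1 / h p' = (p' : ℝ) * (1 / ((p' : ℝ) * h p')) := by field_simp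
      _ ≤ ((s + 1) * ((p' - p : ℕ) : ℝ)) * (1 / ((p' : ℝ) * h p')) :=
        mul_le_mul_of_nonneg_right e4 (by positivity)
      _ = (s + 1) * (((p' - p : ℕ) : ℝ) * (1 / ((p' : ℝ) * h p'))) := by ring
      _ ≤ _ := mul_le_mul_of_nonneg_left e1 (by positivity)
  have h2 : Summable (fun c => 1 / h (P k s (c + 1))) := by
    refine summable_of_sum_range_le (c := ((s : ℝ) + 1) * ∑' n : ℕ, 1 / (((n : ℝ) + 1) * h n))
      (fun c => by have := hpos (P k s (c + 1)); positivity) fun n => ?_
    calc ∑ c ∈ range n, 1 / h (P k s (c + 1))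
        ≤ ∑ c ∈ range n, ((s : ℝ) + 1) *
          ∑ m ∈ Finset.Ico (P k s c) (P k s (c + 1)), 1 / (((m : ℝ) + 1) * h m) :=
          Finset.sum_le_sum fun c _ => h1 c
      _ = ((s : ℝ) + 1) * ∑ m ∈ range (P k s n), 1 / (((m : ℝ) + 1) * h m) := by
          rw [← Finset.mul_sum, cyc_sum (fun m : ℕ => 1 / (((m : ℝ) + 1) * h m)) k s hk]
      _ ≤ _ := mul_le_mul_of_nonneg_left (hsum.sum_le_tsum _ fun n _ => hf0 n) (by positivity)
  rw [← summable_nat_add_iff (K + 1)]
  refine Summable.of_nonneg_of_le (fun c => by have := hpos (P k s (c + (K + 1)) - K); positivity)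
    (fun c => ?_) h2
  apply one_div_le_one_div_of_le (hpos _)
  apply hmono
  have := P_add k s hk (c + 1) K
  have e : c + (K + 1) = c + 1 + K := by ring
  rw [e]
  omega

end Pool.Agent.U999.OD
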