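import Mathlib
import Pool.Agent.U999.OD.Dig
import Pool.Agent.U999.OD.Cont
import Pool.Agent.U999.OD.Lev

set_option autoImplicit false

namespace Pool.Agent.U999.OD

open Finset Filter Topology MeasureTheory

theorem level_measure (b : ℕ) (hb : 2 ≤ b) (m : ℕ) (t : ℝ) (ht : 0 ≤ t) :
    volume {r : ℝ | ∃ z : ℕ, z ≤ b ^ m ∧ |(b : ℝ) ^ m * r - z| < t} ≤ ENNReal.ofReal (4 * t) := by
  have hb0 : (0 : ℝ) < b := by exact_mod_cast (show 0 < b by omega)
  have hsub : {r : ℝ | ∃ z : ℕ, z ≤ b ^ m ∧ |(b : ℝ) ^ m * r - z| < t} ⊆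
      ⋃ z ∈ range (b ^ m + 1), Metric.ball ((z : ℝ) / (b : ℝ) ^ m) (t / (b : ℝ) ^ m) := by
    rintro r ⟨z, hz, h4⟩
    rw [Set.mem_iUnion₂]
    refine ⟨z, Finset.mem_range.2 (by omega), ?_⟩
    rw [Metric.mem_ball, Real.dist_eq]
    have hp : (0 : ℝ) < (b : ℝ) ^ m := by positivity
    have e : r - (z : ℝ) / (b : ℝ) ^ m = ((b : ℝ) ^ m * r - z) / (b : ℝ) ^ m := by
      field_simp
    rw [e, abs_div, abs_of_pos hp]
    exact div_lt_div_of_pos_right h4 hp
  refine (measure_mono hsub).trans ?_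
  refine (measure_biUnion_finset_le _ _).trans ?_
  simp only [Real.volume_ball]
  rw [Finset.sum_const, Finset.card_range, nsmul_eq_mul]
  have hp : (1 : ℝ) ≤ (b : ℝ) ^ m := one_le_pow₀ (by exact_mod_cast (show 1 ≤ b by omega))
  have e1 : (((b ^ m + 1 : ℕ)) : ENNReal) = ENNReal.ofReal ((b : ℝ) ^ m + 1) := by
    rw [← ENNReal.ofReal_natCast]; push_cast; rfl
  rw [e1, ← ENNReal.ofReal_mul (by positivity)]
  apply ENNReal.ofReal_le_ofReal
  have e2 : ((b : ℝ) ^ m + 1) * (2 * (t / (b : ℝ) ^ m)) =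
      2 * t * (((b : ℝ) ^ m + 1) / (b : ℝ) ^ m) := by ring
  rw [e2]
  have h2 : ((b : ℝ) ^ m + 1) / (b : ℝ) ^ m ≤ 2 := by
    rw [div_le_iff₀ (by positivity)]; linarith
  nlinarith

/-- the common differences that stay away from the `b`-adic points of some levels -/
def awayM (b k : ℕ) (M : ℕ → ℕ → ℕ) (t : ℕ → ℝ) : Set ℝ :=
  {r | r ∈ Set.Icc (0 : ℝ) 1 ∧ ∀ l j z : ℕ, j < k → z ≤ b ^ (M l j) →
    t l ≤ |(b : ℝ) ^ (M l j) * r - z|}

theorem awayM_measure (b : ℕ) (hb : 2 ≤ b) (k : ℕ) (M : ℕ → ℕ → ℕ) (t : ℕ → ℝ) (ht : ∀ l, 0 ≤ t l)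
    (hs : Summable t) (η : ℝ) (hη : 4 * k * ∑' l, t l < η) :
    volume (Set.Icc (0 : ℝ) 1 \ awayM b k M t) < ENNReal.ofReal η := by
  have hsub : Set.Icc (0 : ℝ) 1 \ awayM b k M t ⊆
      ⋃ l : ℕ, ⋃ j ∈ range k,
        {r : ℝ | ∃ z : ℕ, z ≤ b ^ (M l j) ∧ |(b : ℝ) ^ (M l j) * r - z| < t l} := by
    rintro r ⟨hr, hr2⟩
    unfold awayM at hr2
    rw [Set.mem_ofPred_eq, not_and] at hr2
    have h3 := hr2 hr
    push Not at h3
    obtain ⟨l, j, z, hj, hz, h4⟩ := h3
    rw [Set.mem_iUnion]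
    refine ⟨l, ?_⟩
    rw [Set.mem_iUnion₂]
    exact ⟨j, Finset.mem_range.2 hj, z, hz, h4⟩
  have h1 : ∀ l : ℕ, volume (⋃ j ∈ range k,
        {r : ℝ | ∃ z : ℕ, z ≤ b ^ (M l j) ∧ |(b : ℝ) ^ (M l j) * r - z| < t l}) ≤
      ENNReal.ofReal (4 * k * t l) := by
    intro l
    refine (measure_biUnion_finset_le _ _).trans ?_
    refine (Finset.sum_le_sum fun j _ => level_measure b hb (M l j) (t l) (ht l)).trans ?_
    rw [Finset.sum_const, Finset.card_range, nsmul_eq_mul, ← ENNReal.ofReal_natCast,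
      ← ENNReal.ofReal_mul (by positivity)]
    apply ENNReal.ofReal_le_ofReal
    linarith
  calc volume (Set.Icc (0 : ℝ) 1 \ awayM b k M t)
      ≤ ∑' l, volume (⋃ j ∈ range k,
        {r : ℝ | ∃ z : ℕ, z ≤ b ^ (M l j) ∧ |(b : ℝ) ^ (M l j) * r - z| < t l}) :=
        (measure_mono hsub).trans (measure_iUnion_le _)
    _ ≤ ∑' l, ENNReal.ofReal (4 * k * t l) := ENNReal.tsum_le_tsum h1
    _ = ENNReal.ofReal (∑' l, 4 * k * t l) :=
        (ENNReal.ofReal_tsum_of_nonneg (fun m => by have := ht m; positivity)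
          (hs.mul_left (4 * (k : ℝ)))).symm
    _ < ENNReal.ofReal η := by
        rw [tsum_mul_left]
        have h0 : 0 ≤ 4 * k * ∑' l, t l := mul_nonneg (by positivity) (tsum_nonneg ht)
        exact (ENNReal.ofReal_lt_ofReal_iff (by linarith)).2 hη

theorem sep_level (b : ℕ) (x y t : ℝ) (m : ℕ) (hx : ∀ z : ℕ, z ≤ b ^ m → t ≤ |(b : ℝ) ^ m * x - z|)
    (hx0 : 0 ≤ x) (hxy : x ≤ y) (hy1 : y < 1)
    (h : ⌊(b : ℝ) ^ m * x⌋₊ ≠ ⌊(b : ℝ) ^ m * y⌋₊) : t ≤ (b : ℝ) ^ m * |x - y| := by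
  have hb0 : (0 : ℝ) ≤ (b : ℝ) ^ m := by positivity
  have h1 : (b : ℝ) ^ m * x ≤ (b : ℝ) ^ m * y := mul_le_mul_of_nonneg_left hxy hb0
  have h2 := Nat.floor_le_floor h1
  set z := ⌊(b : ℝ) ^ m * y⌋₊ with hz
  have h3 : ⌊(b : ℝ) ^ m * x⌋₊ < z := lt_of_le_of_ne h2 h
  have hx0 : 0 ≤ (b : ℝ) ^ m * x := mul_nonneg hb0 hx0
  have h4 : (b : ℝ) ^ m * x < z := (Nat.floor_lt hx0).1 h3
  have h5 : (z : ℝ) ≤ (b : ℝ) ^ m * y := Nat.floor_le (hx0.trans h1)
  have h6 : z ≤ b ^ m := by
    have : (z : ℝ) ≤ ((b ^ m : ℕ) : ℝ) := by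
      push_cast
      calc (z : ℝ) ≤ (b : ℝ) ^ m * y := h5
        _ ≤ (b : ℝ) ^ m * 1 := mul_le_mul_of_nonneg_left hy1.le hb0
        _ = (b : ℝ) ^ m := mul_one _
    exact_mod_cast this
  have h7 := hx z h6
  rw [abs_of_nonpos (by linarith)] at h7
  rw [abs_of_nonpos (by linarith)]
  linarith

/-- the number of initial words -/
theorem words_card (k s : ℕ) (hk : 1 ≤ k) (hs : 1 ≤ s) (m : ℕ) :
    ((((range k).biUnion fun j => (((range m).filter (fun i => sg k s i ≠ j)).powerset).image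
      (fun T => (j, T))).card : ℕ) : ℝ) ≤ 2 * k * (2 : ℝ) ^ ((1 - 1 / (k : ℝ) + 1 / s) * m) := by
  have h1 : (((range k).biUnion fun j => (((range m).filter (fun i => sg k s i ≠ j)).powerset).image
      (fun T => (j, T))).card) ≤
      ∑ j ∈ range k, 2 ^ ((range m).filter (fun i => sg k s i ≠ j)).card := by
    refine Finset.card_biUnion_le.trans (Finset.sum_le_sum fun j _ => ?_)
    refine Finset.card_image_le.trans ?_
    rw [Finset.card_powerset]
  have h2 : ∀ j ∈ range k, (((2 ^ ((range m).filter (fun i => sg k s i ≠ j)).card : ℕ)) : ℝ) ≤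
      2 * (2 : ℝ) ^ ((1 - 1 / (k : ℝ) + 1 / s) * m) := by
    intro j hj
    have h3 := freq k s hk hs j (Finset.mem_range.1 hj) m
    have h4 : ((range m).filter (fun i => sg k s i = j)).card +
        ((range m).filter (fun i => ¬ sg k s i = j)).card = (range m).card :=
      Finset.card_filter_add_card_filter_not _
    rw [Finset.card_range] at h4
    have h5 : (((range m).filter (fun i => sg k s i = j)).card : ℝ) +
        (((range m).filter (fun i => sg k s i ≠ j)).card : ℝ) = m := by exact_mod_cast h4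
    have e1 : (2 : ℝ) * (2 : ℝ) ^ ((1 - 1 / (k : ℝ) + 1 / s) * m) =
        (2 : ℝ) ^ (1 + (1 - 1 / (k : ℝ) + 1 / s) * m) := by
      rw [Real.rpow_add (by norm_num), Real.rpow_one]
    rw [e1]
    push_cast
    rw [← Real.rpow_natCast]
    apply Real.rpow_le_rpow_of_exponent_le (by norm_num)
    have e2 : (1 - 1 / (k : ℝ) + 1 / s) * m = m - m / k + m / s := by ring
    rw [e2]
    linarith
  calc _ ≤ ((∑ j ∈ range k, 2 ^ ((range m).filter (fun i => sg k s i ≠ j)).card : ℕ) : ℝ) := by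
        exact_mod_cast h1
    _ = ∑ j ∈ range k, (((2 ^ ((range m).filter (fun i => sg k s i ≠ j)).card : ℕ)) : ℝ) := by
        push_cast; rfl
    _ ≤ ∑ j ∈ range k, 2 * (2 : ℝ) ^ ((1 - 1 / (k : ℝ) + 1 / s) * m) := Finset.sum_le_sum h2
    _ = 2 * k * (2 : ℝ) ^ ((1 - 1 / (k : ℝ) + 1 / s) * m) := by
        rw [Finset.sum_const, Finset.card_range, nsmul_eq_mul]; ring

theorem partC (h : ℕ → ℝ) (hmono : Monotone h) (hpos : ∀ n, 0 < h n)
    (hsum : Summable (fun n : ℕ => 1 / (((n : ℝ) + 1) * h n))) (k : ℕ) (hk : 1 ≤ k)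
    (θ : ℝ) (hθ : 0 < θ) (η : ℝ) (hη : 0 < η) :
    ∃ (B : Set ℝ) (a : ℝ → ℝ) (R : Set ℝ), Bornology.IsBounded B ∧
      (∀ r ∈ Set.Icc (0 : ℝ) 1, ∀ j : ℕ, j < k → a r + j * r ∈ B) ∧ R ⊆ Set.Icc 0 1 ∧
      volume (Set.Icc (0 : ℝ) 1 \ R) < ENNReal.ofReal η ∧ Reg h R a ∧
      upperMinkowski B ≤ ((1 - 1 / (k : ℝ) + θ : ℝ) : EReal) := by
  classical
  obtain ⟨s, hs⟩ := exists_nat_ge (1 / θ + 1)
  have hs1r : (1 : ℝ) ≤ s := le_trans (by have : 0 < 1 / θ := by positivity
                                          linarith) hs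
  have hs1 : 1 ≤ s := by exact_mod_cast hs1r
  have hsθ : 1 / (s : ℝ) ≤ θ := by
    rw [div_le_iff₀ (by linarith)]
    have : 1 / θ ≤ s := by linarith
    rw [div_le_iff₀ hθ] at this
    linarith
  have hkr : (1 : ℝ) ≤ k := by exact_mod_cast hk
  obtain ⟨b, hb⟩ : ∃ b : ℕ, b = 2 := ⟨2, rfl⟩
  have hb2 : 2 ≤ b := by omega
  have hbr : (b : ℝ) = 2 := by rw [hb]; norm_num
  have hb0 : (0 : ℝ) < b := by rw [hbr]; norm_num
  set σ := sg k s with hσ
  have hσk : ∀ i, σ i < k := sg_lt k s hk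
  have hfac : ∀ (j : ℕ) (i : ℕ) (u : ℝ), j < k → |u| ≤ 1 → |((j : ℝ) - σ i) * u| ≤ k := by
    intro j i u hj hu
    rw [abs_mul]
    have e1 : (σ i : ℝ) ≤ k := by exact_mod_cast (hσk i).le
    have e2 : (j : ℝ) ≤ k := by exact_mod_cast hj.le
    have e3 : |(j : ℝ) - σ i| ≤ k := by
      rw [abs_le]
      have := Nat.cast_nonneg (α := ℝ) j
      have := Nat.cast_nonneg (α := ℝ) (σ i)
      constructor <;> linarith
    calc |(j : ℝ) - σ i| * |u| ≤ k * 1 :=
          mul_le_mul e3 hu (abs_nonneg _) (by linarith)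
      _ = k := mul_one _
  have hdg1 : ∀ (d : ℕ), d < b → |(d : ℝ)| ≤ 1 := by
    intro d hd
    rw [abs_of_nonneg (Nat.cast_nonneg _)]
    have : d ≤ 1 := by omega
    exact_mod_cast this
  have hdd : ∀ (d d' : ℕ), d < b → d' < b → |(d : ℝ) - d'| ≤ 1 := by
    intro d d' hd hd'
    have e1 : (d : ℝ) ≤ 1 := by exact_mod_cast (show d ≤ 1 by omega)
    have e2 : (d' : ℝ) ≤ 1 := by exact_mod_cast (show d' ≤ 1 by omega)
    have := Nat.cast_nonneg (α := ℝ) d
    have := Nat.cast_nonneg (α := ℝ) d'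
    rw [abs_le]
    constructor <;> linarith
  set a : ℝ → ℝ := fun r => ∑' i, (((0 : ℕ) : ℝ) - σ i) * (dg b r i : ℝ) / (b : ℝ) ^ (i + 1) with ha
  have haS : ∀ r, HasSum (fun i => (((0 : ℕ) : ℝ) - σ i) * (dg b r i : ℝ) / (b : ℝ) ^ (i + 1))
      (a r) := by
    intro r
    exact (ser_summable b hb2 (fun i => (((0 : ℕ) : ℝ) - σ i) * (dg b r i : ℝ)) k
      (fun i => hfac 0 i _ (by omega) (hdg1 _ (dg_lt b hb2 r i)))).hasSum
  have haj : ∀ r ∈ Set.Icc (0 : ℝ) 1, ∀ j : ℕ,
      HasSum (fun i => ((j : ℝ) - σ i) * (dg b r i : ℝ) / (b : ℝ) ^ (i + 1)) (a r + j * r) := by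
    intro r hr j
    have h1 := (haS r).add ((dg_sum b hb2 r hr.1 hr.2).mul_left (j : ℝ))
    have e : (fun i => ((j : ℝ) - σ i) * (dg b r i : ℝ) / (b : ℝ) ^ (i + 1)) =
        fun i => (((0 : ℕ) : ℝ) - σ i) * (dg b r i : ℝ) / (b : ℝ) ^ (i + 1) +
          (j : ℝ) * ((dg b r i : ℝ) / (b : ℝ) ^ (i + 1)) := by
      funext i
      push_cast
      ring
    rw [e]
    exact h1
  set B : Set ℝ := {y | ∃ j : ℕ, j < k ∧ ∃ d : ℕ → ℕ, (∀ i, d i < b) ∧
    HasSum (fun i => ((j : ℝ) - σ i) * (d i : ℝ) / (b : ℝ) ^ (i + 1)) y} with hB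
  obtain ⟨K, hK⟩ := pow_unbounded_of_one_lt (2 * (k : ℝ)) (show (1 : ℝ) < 2 by norm_num)
  have hPs := cyc_summable h hmono hpos hsum k s hk hs1 K
  set S : ℝ := ∑' c, 1 / h (P k s c - K) with hS
  have hS0 : 0 ≤ S := tsum_nonneg fun n => by have := hpos (P k s n - K); positivity
  set c0 : ℝ := η / (4 * k * (S + 1)) with hc0
  have hc0p : 0 < c0 := by positivity
  set t : ℕ → ℝ := fun c => c0 * (1 / h (P k s c - K)) with ht
  have htp : ∀ c, 0 < t c := fun c => by have := hpos (P k s c - K); positivity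
  set M : ℕ → ℕ → ℕ := fun c j => P k s c + (j + 1) * (P k s c / s + 1) with hM
  refine ⟨B, a, awayM b k M t, ?_, ?_, fun r hr => hr.1, ?_, ?_, ?_⟩
  · rw [Metric.isBounded_iff_subset_closedBall 0]
    refine ⟨k, ?_⟩
    rintro y ⟨j, hj, d, hd, hy⟩
    have := ser_bound b hb2 (fun i => ((j : ℝ) - σ i) * (d i : ℝ)) k y 0 (by linarith)
      (fun i _ => hfac j i _ hj (hdg1 _ (hd i))) (fun i hi => absurd hi (Nat.not_lt_zero i)) hy
    rw [pow_zero, div_one] at this
    rw [Metric.mem_closedBall, Real.dist_eq, sub_zero]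
    exact this
  · intro r hr j hj
    exact ⟨j, hj, fun i => dg b r i, fun i => dg_lt b hb2 r i, haj r hr j⟩
  · refine awayM_measure b hb2 k M t (fun m => (htp m).le) (hPs.mul_left c0) η ?_
    rw [tsum_mul_left, ← hS, hc0]
    have : 4 * k * (η / (4 * k * (S + 1)) * S) = η * (S / (S + 1)) := by field_simp
    rw [this]
    have h3 : S / (S + 1) < 1 := by rw [div_lt_one (by linarith)]; linarith
    nlinarith
  · refine ⟨2 * k / h 0 + 2 * k / c0, ?_⟩
    have h0p := hpos 0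
    have key : ∀ n : ℕ, ∀ x ∈ awayM b k M t, ∀ y ∈ awayM b k M t, x ≤ y →
        ((2 : ℝ) ^ n)⁻¹ ≤ |a x - a y| →
        |a x - a y| ≤ (2 * k / h 0 + 2 * k / c0) * h n * |x - y| := by
      intro n x hx y hy hxy hn
      have hlt1 : ∀ r ∈ awayM b k M t, r < 1 := by
        intro r hr
        rcases hr.1.2.lt_or_eq with h1 | h1
        · exact h1
        · exfalso
          have h2 := hr.2 0 0 (b ^ (M 0 0)) (by omega) le_rfl
          rw [h1] at h2
          push_cast at h2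
          rw [mul_one, sub_self, abs_zero] at h2
          have := htp 0
          linarith
      have hx1 := hlt1 x hx
      have hy1 := hlt1 y hy
      have hex : ∃ m, dg b x m ≠ dg b y m := by
        by_contra hno
        push Not at hno
        have : a x = a y := by
          simp only [ha, hno]
        rw [this, sub_self, abs_zero] at hn
        have : (0 : ℝ) < ((2 : ℝ) ^ n)⁻¹ := by positivity
        linarith
      set m := Nat.find hex with hm
      have hm1 : dg b x m ≠ dg b y m := Nat.find_spec hex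
      have hm2 : ∀ i < m, dg b x i = dg b y i := fun i hi => by
        have := Nat.find_min hex hi
        push Not at this
        exact this
      obtain ⟨c, j, hj, hsm, hmM, hblk⟩ := block_end k s hk m
      have hMe : M c j = P k s c + (j + 1) * (P k s c / s + 1) := rfl
      rw [← hMe] at hmM hblk
      have hd : HasSum (fun i => (((j : ℝ) - σ i) * ((dg b x i : ℝ) - dg b y i)) /
          (b : ℝ) ^ (i + 1)) (a x + j * x - (a y + j * y)) := by
        have h1 := (haj x hx.1 j).sub (haj y hy.1 j)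
        have e : (fun i => (((j : ℝ) - σ i) * ((dg b x i : ℝ) - dg b y i)) / (b : ℝ) ^ (i + 1)) =
            fun i => ((j : ℝ) - σ i) * (dg b x i : ℝ) / (b : ℝ) ^ (i + 1) -
              ((j : ℝ) - σ i) * (dg b y i : ℝ) / (b : ℝ) ^ (i + 1) := by
          funext i; rw [mul_sub, sub_div]
        rw [e]
        exact h1
      have hbd := ser_bound b hb2 (fun i => ((j : ℝ) - σ i) * ((dg b x i : ℝ) - dg b y i)) k
        _ (M c j) (by linarith)
        (fun i _ => hfac j i _ hj (hdd _ _ (dg_lt b hb2 x i) (dg_lt b hb2 y i)))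
        (fun i hi => by
          by_cases him : i < m
          · rw [hm2 i him, sub_self, mul_zero]
          · rw [hσ, hblk i (by omega) hi, sub_self, zero_mul]) hd
      have hfl : ⌊(b : ℝ) ^ (M c j) * x⌋₊ ≠ ⌊(b : ℝ) ^ (M c j) * y⌋₊ := by
        intro h3
        exact hm1 (dg_eq b hb2 x y hx1 hy1 (M c j) h3 m hmM)
      have hsep := sep_level b x y (t c) (M c j) (fun z hz => hx.2 c j z hj hz) hx.1.1 hxy hy1 hfl
      have hbm : (0 : ℝ) < (b : ℝ) ^ (M c j) := by positivity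
      have hjk : (j : ℝ) ≤ k := by exact_mod_cast hj.le
      have hxy0 : 0 ≤ |x - y| := abs_nonneg _
      have h1 : |a x - a y| ≤ k / (b : ℝ) ^ (M c j) + k * |x - y| := by
        have e1 : a x - a y = (a x + j * x - (a y + j * y)) - j * (x - y) := by ring
        calc |a x - a y| = |(a x + j * x - (a y + j * y)) - j * (x - y)| := by rw [← e1]
          _ ≤ |a x + j * x - (a y + j * y)| + |j * (x - y)| := abs_sub _ _
          _ ≤ k / (b : ℝ) ^ (M c j) + k * |x - y| := by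
            refine add_le_add hbd ?_
            rw [abs_mul, abs_of_nonneg (Nat.cast_nonneg j)]
            exact mul_le_mul_of_nonneg_right hjk hxy0
      have hn0 := hpos n
      by_cases hcase : 2 * (k / (b : ℝ) ^ (M c j)) ≤ |a x - a y|
      · have h2 : |a x - a y| ≤ 2 * k * |x - y| := by linarith
        calc |a x - a y| ≤ 2 * k * |x - y| := h2
          _ = 2 * k / h 0 * h 0 * |x - y| := by field_simp
          _ ≤ 2 * k / h 0 * h n * |x - y| := by
            have := hmono (Nat.zero_le n)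
            gcongr
          _ ≤ (2 * k / h 0 + 2 * k / c0) * h n * |x - y| := by
            have : 0 ≤ 2 * (k : ℝ) / c0 := by positivity
            gcongr
            linarith
      · push Not at hcase
        have h3 : M c j < K + n := by
          have e1 : (b : ℝ) ^ (M c j) < 2 * k * 2 ^ n := by
            have e2 := lt_of_le_of_lt hn hcase
            have e3 : (0 : ℝ) < 2 ^ n := by positivity
            rw [inv_lt_iff_one_lt_mul₀ e3] at e2
            have e4 : 2 * (k / (b : ℝ) ^ (M c j)) * 2 ^ n =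
                2 * k * 2 ^ n / (b : ℝ) ^ (M c j) := by ring
            rw [e4, lt_div_iff₀ hbm] at e2
            linarith
          have e5 : (2 : ℝ) ^ (M c j) < 2 ^ (K + n) := by
            calc (2 : ℝ) ^ (M c j) = (b : ℝ) ^ (M c j) := by rw [hbr]
              _ < 2 * k * 2 ^ n := e1
              _ ≤ 2 ^ K * 2 ^ n := mul_le_mul_of_nonneg_right hK.le (by positivity)
              _ = 2 ^ (K + n) := by rw [pow_add]
          exact (pow_lt_pow_iff_right₀ (by norm_num)).1 e5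
        have h4 : P k s c - K ≤ n := by
          have : P k s c ≤ M c j := by rw [hMe]; omega
          omega
        have h5 : h (P k s c - K) ≤ h n := hmono h4
        have hPp := hpos (P k s c - K)
        have h6 : 1 ≤ (b : ℝ) ^ (M c j) * |x - y| * (h n / c0) := by
          have e1 : t c * (h (P k s c - K) / c0) = 1 := by
            simp only [ht]; field_simp
          calc (1 : ℝ) = t c * (h (P k s c - K) / c0) := e1.symm
            _ ≤ (b : ℝ) ^ (M c j) * |x - y| * (h (P k s c - K) / c0) :=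
              mul_le_mul_of_nonneg_right hsep (by positivity)
            _ ≤ (b : ℝ) ^ (M c j) * |x - y| * (h n / c0) := by gcongr
        calc |a x - a y| ≤ 2 * (k / (b : ℝ) ^ (M c j)) := hcase.le
          _ = 2 * (k / (b : ℝ) ^ (M c j)) * 1 := (mul_one _).symm
          _ ≤ 2 * (k / (b : ℝ) ^ (M c j)) * ((b : ℝ) ^ (M c j) * |x - y| * (h n / c0)) :=
            mul_le_mul_of_nonneg_left h6 (by positivity)
          _ = 2 * k / c0 * h n * |x - y| := by field_simp
          _ ≤ (2 * k / h 0 + 2 * k / c0) * h n * |x - y| := by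
            have : 0 ≤ 2 * (k : ℝ) / h 0 := by positivity
            gcongr
            linarith
    intro n x hx y hy hn
    rcases le_total x y with hxy | hxy
    · exact key n x hx y hy hxy hn
    · rw [abs_sub_comm (a x), abs_sub_comm x]
      rw [abs_sub_comm (a x)] at hn
      exact key n y hy x hx hxy hn
  · have hs0 : 0 ≤ 1 - 1 / (k : ℝ) + θ := by
      have : 1 / (k : ℝ) ≤ 1 := by rw [div_le_one (by linarith)]; exact hkr
      linarith
    refine dim_le B b hb2 k (2 * k) _ hs0 (by linarith) (by linarith) ?_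
    intro m δ hδ
    set Pm : Finset (ℕ × Finset ℕ) := (range k).biUnion fun j =>
      (((range m).filter (fun i => sg k s i ≠ j)).powerset).image (fun T => (j, T)) with hPm
    have h3 : coverNum B δ ≤ Fintype.card Pm := by
      refine cover_le B δ (fun φ : Pm => {y | φ.1.1 < k ∧ ∃ d : ℕ → ℕ, (∀ i, d i < b) ∧
        HasSum (fun i => ((φ.1.1 : ℝ) - σ i) * (d i : ℝ) / (b : ℝ) ^ (i + 1)) y ∧
        φ.1.2 = (range m).filter (fun i => σ i ≠ φ.1.1 ∧ d i = 1)}) ?_ ?_
      · rintro φ x ⟨hj, d, hd, hx, hφ⟩ y ⟨_, d', hd', hy, hφ'⟩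
        have hdxy : HasSum (fun i => (((φ.1.1 : ℝ) - σ i) * ((d i : ℝ) - d' i)) /
            (b : ℝ) ^ (i + 1)) (x - y) := by
          have h1 := hx.sub hy
          have e : (fun i => (((φ.1.1 : ℝ) - σ i) * ((d i : ℝ) - d' i)) / (b : ℝ) ^ (i + 1)) =
              fun i => ((φ.1.1 : ℝ) - σ i) * (d i : ℝ) / (b : ℝ) ^ (i + 1) -
                ((φ.1.1 : ℝ) - σ i) * (d' i : ℝ) / (b : ℝ) ^ (i + 1) := by
            funext i; rw [mul_sub, sub_div]
          rw [e]
          exact h1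
        rw [Real.dist_eq]
        refine (ser_bound b hb2 (fun i => ((φ.1.1 : ℝ) - σ i) * ((d i : ℝ) - d' i)) k (x - y) m
          (by linarith) (fun i _ => hfac _ i _ hj (hdd _ _ (hd i) (hd' i))) (fun i hi => ?_)
          hdxy).trans hδ
        by_cases hsi : σ i = φ.1.1
        · rw [hsi, sub_self, zero_mul]
        · have h4 : d i = 1 ↔ d' i = 1 := by
            have e1 : i ∈ φ.1.2 ↔ d i = 1 := by
              rw [hφ, Finset.mem_filter, Finset.mem_range]
              exact ⟨fun h => h.2.2, fun h => ⟨hi, hsi, h⟩⟩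
            have e2 : i ∈ φ.1.2 ↔ d' i = 1 := by
              rw [hφ', Finset.mem_filter, Finset.mem_range]
              exact ⟨fun h => h.2.2, fun h => ⟨hi, hsi, h⟩⟩
            rw [← e1, e2]
          have h5 : d i = d' i := by
            have := hd i
            have := hd' i
            omega
          rw [h5, sub_self, mul_zero]
      · rintro y ⟨j, hj, d, hd, hy⟩
        have hmem : (j, (range m).filter (fun i => σ i ≠ j ∧ d i = 1)) ∈ Pm := by
          rw [hPm, Finset.mem_biUnion]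
          refine ⟨j, Finset.mem_range.2 hj, ?_⟩
          rw [Finset.mem_image]
          refine ⟨_, ?_, rfl⟩
          rw [Finset.mem_powerset]
          intro i hi
          rw [Finset.mem_filter] at hi ⊢
          exact ⟨hi.1, hi.2.1⟩
        exact Set.mem_iUnion.2 ⟨⟨_, hmem⟩, hj, d, hd, hy, rfl⟩
    rw [Fintype.card_coe] at h3
    have h5 : (coverNum B δ : ℝ) ≤ (Pm.card : ℝ) := by exact_mod_cast h3
    refine h5.trans ((words_card k s hk hs1 m).trans ?_)
    rw [hbr]
    refine mul_le_mul_of_nonneg_left ?_ (by linarith)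
    apply Real.rpow_le_rpow_of_exponent_le (by norm_num)
    exact mul_le_mul_of_nonneg_right (by linarith) (Nat.cast_nonneg m)

end Pool.Agent.U999.OD
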