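import Mathlib
import Pool.Agent.U999.OD.Cont

set_option autoImplicit false

namespace Pool.Agent.U999.OD

open Finset Filter Topology MeasureTheory

/-- A monotone choice of points of `R`, one for every dyadic interval of level `M`. -/
theorem select2 (R : Set ℝ) (hR : R.Nonempty) (h01 : ∀ r ∈ R, 0 ≤ r ∧ r < 1) (M : ℕ) :
    ∃ c : ℕ → ℝ, (∀ i, c i ∈ R) ∧ Monotone c ∧
      ∀ i, ∀ r ∈ R, i ≤ ⌊(2 : ℝ) ^ M * r⌋₊ →
        i ≤ ⌊(2 : ℝ) ^ M * c i⌋₊ ∧ ⌊(2 : ℝ) ^ M * c i⌋₊ ≤ ⌊(2 : ℝ) ^ M * r⌋₊ := by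
  classical
  set D : Set ℕ := (fun r : ℝ => ⌊(2 : ℝ) ^ M * r⌋₊) '' R with hD
  have hDne : D.Nonempty := hR.image _
  have hDb : BddAbove D := by
    refine ⟨2 ^ M, ?_⟩
    rintro _ ⟨r, hr, rfl⟩
    have h1 : (2 : ℝ) ^ M * r ≤ ((2 ^ M : ℕ) : ℝ) := by
      push_cast
      have := (h01 r hr).2.le
      have hp : (0 : ℝ) < 2 ^ M := by positivity
      nlinarith
    calc ⌊(2 : ℝ) ^ M * r⌋₊ ≤ ⌊((2 ^ M : ℕ) : ℝ)⌋₊ := Nat.floor_le_floor h1
      _ = 2 ^ M := Nat.floor_natCast _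
  have hx : ∀ d, ∃ x : ℝ, d ∈ D → x ∈ R ∧ ⌊(2 : ℝ) ^ M * x⌋₊ = d := by
    intro d
    by_cases hd : d ∈ D
    · obtain ⟨x, hx, hxd⟩ := hd
      exact ⟨x, fun _ => ⟨hx, hxd⟩⟩
    · exact ⟨0, fun h => (hd h).elim⟩
  choose x hx using hx
  set nxt : ℕ → ℕ := fun i => if h : ∃ d, i ≤ d ∧ d ∈ D then Nat.find h else sSup D with hnxt
  have n1 : ∀ i, nxt i ∈ D := by
    intro i
    simp only [hnxt]
    split_ifs with h
    · exact (Nat.find_spec h).2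
    · exact Nat.sSup_mem hDne hDb
  have n2 : Monotone nxt := by
    intro i j hij
    by_cases h : ∃ d, j ≤ d ∧ d ∈ D
    · have h' : ∃ d, i ≤ d ∧ d ∈ D := by
        obtain ⟨d, h1, h2⟩ := h
        exact ⟨d, hij.trans h1, h2⟩
      simp only [hnxt, dif_pos h, dif_pos h']
      exact Nat.find_min' h' ⟨hij.trans (Nat.find_spec h).1, (Nat.find_spec h).2⟩
    · have e : nxt j = sSup D := by simp only [hnxt, dif_neg h]
      rw [e]
      exact le_csSup hDb (n1 i)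
  have n3 : ∀ i, ∀ r ∈ R, i ≤ ⌊(2 : ℝ) ^ M * r⌋₊ → i ≤ nxt i ∧ nxt i ≤ ⌊(2 : ℝ) ^ M * r⌋₊ := by
    intro i r hr hi
    have h : ∃ d, i ≤ d ∧ d ∈ D := ⟨_, hi, ⟨r, hr, rfl⟩⟩
    simp only [hnxt, dif_pos h]
    exact ⟨(Nat.find_spec h).1, Nat.find_min' h ⟨hi, ⟨r, hr, rfl⟩⟩⟩
  refine ⟨fun i => x (nxt i), fun i => (hx _ (n1 i)).1, ?_, ?_⟩
  · intro i j hij
    rcases (n2 hij).eq_or_lt with h | h
    · simp only [h, le_refl]
    · by_contra hlt
      push Not at hlt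
      have h1 : (2 : ℝ) ^ M * x (nxt j) ≤ 2 ^ M * x (nxt i) := by gcongr
      have h2 := Nat.floor_le_floor h1
      rw [(hx _ (n1 i)).2, (hx _ (n1 j)).2] at h2
      omega
  · intro i r hr hi
    show i ≤ ⌊(2 : ℝ) ^ M * x (nxt i)⌋₊ ∧ ⌊(2 : ℝ) ^ M * x (nxt i)⌋₊ ≤ _
    rw [(hx _ (n1 i)).2]
    exact n3 i r hr hi

theorem in_cell (R : Set ℝ) (c : ℕ → ℝ) (M : ℕ)
    (hsel : ∀ i, ∀ r ∈ R, i ≤ ⌊(2 : ℝ) ^ M * r⌋₊ →
        i ≤ ⌊(2 : ℝ) ^ M * c i⌋₊ ∧ ⌊(2 : ℝ) ^ M * c i⌋₊ ≤ ⌊(2 : ℝ) ^ M * r⌋₊)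
    (n' n : ℕ) (hn' : n' ≤ n) (hn : n ≤ M) (r : ℝ) (hr : r ∈ R) (e β l : ℕ)
    (he : ⌊(2 : ℝ) ^ n * r⌋₊ = e) (hβ : e / 2 ^ (n - n') = β) (hl1 : β * 2 ^ (M - n') ≤ l)
    (hl2 : l ≤ e * 2 ^ (M - n)) : ⌊(2 : ℝ) ^ n' * c l⌋₊ = β := by
  have h1 : l ≤ ⌊(2 : ℝ) ^ M * r⌋₊ := by
    refine hl2.trans ?_
    rw [← he, floor_scale M n hn r]
    exact Nat.div_mul_le_self _ _
  obtain ⟨h2, h3⟩ := hsel l r hr h1
  rw [floor_scale M n' (hn'.trans hn) (c l)]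
  apply le_antisymm
  · calc ⌊(2 : ℝ) ^ M * c l⌋₊ / 2 ^ (M - n') ≤ ⌊(2 : ℝ) ^ M * r⌋₊ / 2 ^ (M - n') :=
        Nat.div_le_div_right h3
      _ = ⌊(2 : ℝ) ^ n' * r⌋₊ := (floor_scale M n' (hn'.trans hn) r).symm
      _ = ⌊(2 : ℝ) ^ n * r⌋₊ / 2 ^ (n - n') := floor_scale n n' hn' r
      _ = β := by rw [he, hβ]
  · rw [Nat.le_div_iff_mul_le (by positivity)]
    exact hl1.trans h2

theorem crossing_step {B : Set ℝ} (hBb : Bornology.IsBounded B) (A : ℕ → ℝ) (hA : ∀ l, A l ∈ B)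
    (m u v : ℕ) (huv : u ≤ v) :
    |A v - A u| ≤ (cells B m).ncard / (2 : ℝ) ^ m +
      ∑ l ∈ Finset.Ico u v,
        if ((2 : ℝ) ^ m)⁻¹ ≤ |A (l + 1) - A l| then |A (l + 1) - A l| else 0 := by
  classical
  have hf := cells_finite hBb m
  rw [Set.ncard_eq_toFinset_card _ hf]
  have hp : (0 : ℝ) < 2 ^ m := by positivity
  have h2 := claim1 (fun l => (2 : ℝ) ^ m * A l) u v huv hf.toFinset (by
    intro l _ _
    rw [Set.Finite.mem_toFinset]
    exact ⟨A l, hA l, rfl⟩)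
  have e1 : ∀ x y : ℝ, |(2 : ℝ) ^ m * x - 2 ^ m * y| = 2 ^ m * |x - y| := by
    intro x y
    rw [← mul_sub, abs_mul, abs_of_pos hp]
  simp only [e1] at h2
  have e2 : ∀ t : ℝ, (1 ≤ (2 : ℝ) ^ m * t) ↔ ((2 : ℝ) ^ m)⁻¹ ≤ t := by
    intro t
    rw [inv_le_iff_one_le_mul₀' hp]
  simp only [e2] at h2
  have e3 : ∑ l ∈ Finset.Ico u v, (if ((2 : ℝ) ^ m)⁻¹ ≤ |A (l + 1) - A l| then
      (2 : ℝ) ^ m * |A (l + 1) - A l| else 0) =
      2 ^ m * ∑ l ∈ Finset.Ico u v, (if ((2 : ℝ) ^ m)⁻¹ ≤ |A (l + 1) - A l| then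
        |A (l + 1) - A l| else 0) := by
    rw [Finset.mul_sum]
    exact Finset.sum_congr rfl fun l _ => by split_ifs <;> simp
  rw [e3] at h2
  have h3 : (2 : ℝ) ^ m * |A v - A u| ≤ 2 ^ m *
      ((hf.toFinset.card / (2 : ℝ) ^ m) +
        ∑ l ∈ Finset.Ico u v, (if ((2 : ℝ) ^ m)⁻¹ ≤ |A (l + 1) - A l| then
          |A (l + 1) - A l| else 0)) := by
    rw [mul_add, mul_div_cancel₀ _ hp.ne']
    exact h2
  exact le_of_mul_le_mul_left h3 hp

theorem sum_Ico_blocks (f : ℕ → ℝ) (q s e : ℕ) (hse : s ≤ e) :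
    ∑ i ∈ Finset.Ico s e, ∑ l ∈ Finset.Ico (i * q) ((i + 1) * q), f l =
      ∑ l ∈ Finset.Ico (s * q) (e * q), f l := by
  induction e, hse using Nat.le_induction with
  | base => simp
  | succ e hse ih =>
    rw [Finset.sum_Ico_succ_top hse, ih, Finset.sum_Ico_consecutive _
      (Nat.mul_le_mul_right _ hse) (Nat.mul_le_mul_right _ (Nat.le_succ e))]

/-- the jumps of a window -/
noncomputable def win (m x : ℕ) (J : ℝ) : ℝ :=
  if ((2 : ℝ) ^ m)⁻¹ ≤ J ∧ J < ((2 : ℝ) ^ x)⁻¹ then J else 0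

theorem win_nonneg (m x : ℕ) (J : ℝ) (hJ : 0 ≤ J) : 0 ≤ win m x J := by
  unfold win; split_ifs <;> simp [hJ]

/-- the estimate for one block -/
theorem block_bound {B : Set ℝ} (hBb : Bornology.IsBounded B) (R : Set ℝ)
    (h01 : ∀ r ∈ R, 0 ≤ r ∧ r < 1) (a : ℝ → ℝ) (h : ℕ → ℝ) (C : ℝ)
    (hC : ∀ n : ℕ, ∀ x ∈ R, ∀ y ∈ R, ((2 : ℝ) ^ n)⁻¹ ≤ |a x - a y| →
      |a x - a y| ≤ C * h n * |x - y|)
    (hB : ∀ r ∈ R, ∀ j : ℕ, j < 2 → a r + j * r ∈ B) (M : ℕ) (c : ℕ → ℝ) (hcR : ∀ i, c i ∈ R)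
    (hsel : ∀ i, ∀ r ∈ R, i ≤ ⌊(2 : ℝ) ^ M * r⌋₊ →
        i ≤ ⌊(2 : ℝ) ^ M * c i⌋₊ ∧ ⌊(2 : ℝ) ^ M * c i⌋₊ ≤ ⌊(2 : ℝ) ^ M * r⌋₊)
    (x n m : ℕ) (hxn : 2 * x ≤ n) (hnM : n ≤ M) (hCh : C * h x ≤ 2 ^ x) (hCh0 : 0 < C * h x)
    (L : Finset ℕ) (hL : ∀ i ∈ L, ∃ r ∈ R, ⌊(2 : ℝ) ^ n * r⌋₊ = i) (β : ℕ) :
    ((L.filter (fun i => i / 2 ^ (n - 2 * x) = β)).card : ℝ) ≤
      1 + 6 * (cells B n).ncard + 2 * (2 ^ n * (((2 ^ (n - 2 * x) : ℕ) : ℝ) *
        ((cells B m).ncard / 2 ^ m) +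
        ∑ l ∈ Finset.Ico (β * 2 ^ (n - 2 * x) * 2 ^ (M - n))
          ((β + 1) * 2 ^ (n - 2 * x) * 2 ^ (M - n)), win m x |a (c (l + 1)) - a (c l)|)) := by
  classical
  set q1 : ℕ := 2 ^ (n - 2 * x) with hq1
  set q2 : ℕ := 2 ^ (M - n) with hq2
  have hq1p : 0 < q1 := by positivity
  have hq2p : 0 < q2 := by positivity
  have hq12 : q1 * q2 = 2 ^ (M - 2 * x) := by
    rw [hq1, hq2, ← pow_add]; congr 1; omega
  set Lb := L.filter (fun i => i / q1 = β) with hLb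
  have hwn : 0 ≤ ∑ l ∈ Finset.Ico (β * q1 * q2) ((β + 1) * q1 * q2),
      win m x |a (c (l + 1)) - a (c l)| :=
    Finset.sum_nonneg fun l _ => win_nonneg _ _ _ (abs_nonneg _)
  rcases Lb.eq_empty_or_nonempty with hem | hne
  · rw [hem, Finset.card_empty]
    push_cast
    positivity
  set e := Lb.max' hne with he
  have heL : e ∈ Lb := Lb.max'_mem hne
  have heL2 := heL
  rw [hLb, Finset.mem_filter] at heL2
  obtain ⟨re, hre, hree⟩ := hL e heL2.1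
  set i0 := β * q1 with hi0
  have hi0e : i0 ≤ e := by
    rw [hi0, ← heL2.2]; exact Nat.div_mul_le_self _ _
  have hee : e < (β + 1) * q1 := by
    rw [← heL2.2]
    have := Nat.lt_mul_div_succ e hq1p
    calc e < q1 * (e / q1 + 1) := this
      _ = _ := mul_comm _ _
  set G : ℕ → ℝ := fun i => 2 ^ n * a (c (i * q2)) + i with hG
  have hp : (0 : ℝ) < 2 ^ n := by positivity
  have hsun := sun G e (e - i0) i0 (by omega)
  set Exc := (Finset.Ico i0 e).filter (fun i : ℕ => ∃ e' : ℕ, i < e' ∧ e' ≤ e ∧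
    G e' - G i < ((e' : ℝ) - i) / 2) with hExc
  have hcell : ∀ l, i0 * q2 ≤ l → l ≤ e * q2 → ⌊(2 : ℝ) ^ (2 * x) * c l⌋₊ = β := by
    intro l h1 h2
    refine in_cell R c M hsel (2 * x) n hxn hnM re hre e β l hree heL2.2 ?_ h2
    calc β * 2 ^ (M - 2 * x) = β * q1 * q2 := by rw [← hq12]; ring
      _ ≤ l := h1
  have hsmall : ∀ l, i0 * q2 ≤ l → l + 1 ≤ e * q2 → |a (c (l + 1)) - a (c l)| < ((2 : ℝ) ^ x)⁻¹ := by
    intro l h1 h2
    by_contra hge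
    push Not at hge
    have h3 := hC x _ (hcR (l + 1)) _ (hcR l) hge
    have e1 := hcell l h1 (by omega)
    have e2 := hcell (l + 1) (by omega) h2
    have hp2 : (0 : ℝ) < 2 ^ (2 * x) := by positivity
    have f1 := Nat.floor_le (mul_nonneg hp2.le (h01 _ (hcR l)).1)
    have f2 := Nat.lt_floor_add_one ((2 : ℝ) ^ (2 * x) * c l)
    have f3 := Nat.floor_le (mul_nonneg hp2.le (h01 _ (hcR (l + 1))).1)
    have f4 := Nat.lt_floor_add_one ((2 : ℝ) ^ (2 * x) * c (l + 1))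
    rw [e1] at f1 f2
    rw [e2] at f3 f4
    have h4 : |c (l + 1) - c l| < ((2 : ℝ) ^ (2 * x))⁻¹ := by
      have e3 : |c (l + 1) - c l| * 2 ^ (2 * x) = |(c (l + 1) - c l) * 2 ^ (2 * x)| := by
        rw [abs_mul, abs_of_pos hp2]
      rw [← one_div, lt_div_iff₀ hp2, e3, abs_lt]
      constructor <;> linarith
    have h5 : C * h x * |c (l + 1) - c l| < ((2 : ℝ) ^ x)⁻¹ := by
      calc C * h x * |c (l + 1) - c l| < C * h x * ((2 : ℝ) ^ (2 * x))⁻¹ :=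
            mul_lt_mul_of_pos_left h4 hCh0
        _ ≤ 2 ^ x * ((2 : ℝ) ^ (2 * x))⁻¹ := mul_le_mul_of_nonneg_right hCh (by positivity)
        _ = ((2 : ℝ) ^ x)⁻¹ := by
            rw [two_mul, pow_add, mul_inv]
            field_simp
    linarith
  have hstep : ∀ i ∈ Finset.Ico i0 e, max 0 (1 - (G (i + 1) - G i)) ≤
      2 ^ n * ((cells B m).ncard / (2 : ℝ) ^ m +
        ∑ l ∈ Finset.Ico (i * q2) ((i + 1) * q2), win m x |a (c (l + 1)) - a (c l)|) := by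
    intro i hi
    rw [Finset.mem_Ico] at hi
    have h1 := crossing_step hBb (fun l => a (c l)) (fun l => by
      simpa using hB _ (hcR l) 0 (by omega)) m (i * q2) ((i + 1) * q2)
      (Nat.mul_le_mul_right _ (Nat.le_succ i))
    have h2 : ∑ l ∈ Finset.Ico (i * q2) ((i + 1) * q2),
        (if ((2 : ℝ) ^ m)⁻¹ ≤ |a (c (l + 1)) - a (c l)| then |a (c (l + 1)) - a (c l)| else 0) =
        ∑ l ∈ Finset.Ico (i * q2) ((i + 1) * q2), win m x |a (c (l + 1)) - a (c l)| := by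
      refine Finset.sum_congr rfl fun l hl => ?_
      rw [Finset.mem_Ico] at hl
      have h3 := hsmall l ((Nat.mul_le_mul_right _ hi.1).trans hl.1)
        ((Nat.succ_le_of_lt hl.2).trans (Nat.mul_le_mul_right _ hi.2))
      unfold win
      by_cases h4 : ((2 : ℝ) ^ m)⁻¹ ≤ |a (c (l + 1)) - a (c l)|
      · rw [if_pos h4, if_pos ⟨h4, h3⟩]
      · rw [if_neg h4, if_neg (fun h5 => h4 h5.1)]
    rw [h2] at h1
    have h5 : max 0 (1 - (G (i + 1) - G i)) ≤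
        2 ^ n * |a (c ((i + 1) * q2)) - a (c (i * q2))| := by
      apply max_le (by positivity)
      have e1 : 1 - (G (i + 1) - G i) =
          -(2 ^ n * (a (c ((i + 1) * q2)) - a (c (i * q2)))) := by
        simp only [hG]; push_cast; ring
      rw [e1]
      have := neg_abs_le (a (c ((i + 1) * q2)) - a (c (i * q2)))
      nlinarith
    exact h5.trans (mul_le_mul_of_nonneg_left h1 hp.le)
  have hExcle : (Exc.card : ℝ) ≤ 2 * (2 ^ n * ((q1 : ℝ) * ((cells B m).ncard / 2 ^ m) +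
      ∑ l ∈ Finset.Ico (β * q1 * q2) ((β + 1) * q1 * q2), win m x |a (c (l + 1)) - a (c l)|)) := by
    refine hsun.trans (mul_le_mul_of_nonneg_left ((Finset.sum_le_sum hstep).trans ?_)
      (by norm_num))
    rw [← Finset.mul_sum, Finset.sum_add_distrib, Finset.sum_const, Nat.card_Ico, nsmul_eq_mul,
      sum_Ico_blocks (fun l => win m x |a (c (l + 1)) - a (c l)|) q2 i0 e hi0e]
    refine mul_le_mul_of_nonneg_left (add_le_add ?_ ?_) hp.le
    · refine mul_le_mul_of_nonneg_right ?_ (by positivity)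
      have : e - i0 ≤ q1 := by
        rw [Nat.succ_mul] at hee
        omega
      exact_mod_cast this
    · refine Finset.sum_le_sum_of_subset_of_nonneg ?_ fun l _ _ => win_nonneg _ _ _ (abs_nonneg _)
      exact Finset.Ico_subset_Ico le_rfl (Nat.mul_le_mul_right _ hee.le)
  set S' := Lb.filter (fun i => i ≠ e ∧ i ∉ Exc) with hS'
  have hmemLb : ∀ i ∈ Lb, i0 ≤ i ∧ i ≤ e := by
    intro i hi
    refine ⟨?_, Lb.le_max' i hi⟩
    rw [hLb, Finset.mem_filter] at hi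
    rw [hi0, ← hi.2]
    exact Nat.div_mul_le_self _ _
  have h1 : Lb.card ≤ S'.card + (Exc.card + 1) := by
    have hsub : Lb ⊆ S' ∪ (Exc ∪ {e}) := by
      intro i hi
      rw [Finset.mem_union, Finset.mem_union, Finset.mem_singleton, hS', Finset.mem_filter]
      by_cases h2 : i = e
      · exact Or.inr (Or.inr h2)
      · by_cases h3 : i ∈ Exc
        · exact Or.inr (Or.inl h3)
        · exact Or.inl ⟨hi, h2, h3⟩
    refine (Finset.card_le_card hsub).trans ((Finset.card_union_le _ _).trans ?_)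
    refine Nat.add_le_add_left ((Finset.card_union_le _ _).trans ?_) _
    simp
  have h2 : S'.card ≤ 2 * (S'.image (fun i => ⌊G i⌋)).card := by
    refine Finset.card_le_mul_card_image S' 2 fun z _ => ?_
    set F := S'.filter (fun i => ⌊G i⌋ = z) with hF
    rcases F.eq_empty_or_nonempty with hFe | hFne
    · rw [hFe]; simp
    · have hmin := F.min'_mem hFne
      set i := F.min' hFne with hi
      have hsub : F ⊆ Finset.Ico i (i + 2) := by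
        intro i' hi'
        rw [Finset.mem_Ico]
        refine ⟨F.min'_le i' hi', ?_⟩
        by_contra hcon
        push Not at hcon
        rw [hF, Finset.mem_filter, hS', Finset.mem_filter] at hmin hi'
        obtain ⟨⟨hiL, hie, hiE⟩, hiz⟩ := hmin
        obtain ⟨⟨hiL', _, _⟩, hiz'⟩ := hi'
        have b1 := hmemLb i hiL
        have b2 := hmemLb i' hiL'
        have hnot : ¬ (G i' - G i < ((i' : ℝ) - i) / 2) := by
          intro h3
          apply hiE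
          rw [hExc, Finset.mem_filter, Finset.mem_Ico]
          exact ⟨⟨b1.1, by omega⟩, i', by omega, b2.2, h3⟩
        push Not at hnot
        have h3 : (i : ℝ) + 2 ≤ i' := by exact_mod_cast hcon
        have h4 := Int.abs_sub_lt_one_of_floor_eq_floor (hiz'.trans hiz.symm)
        rw [abs_lt] at h4
        linarith
      refine (Finset.card_le_card hsub).trans ?_
      rw [Nat.card_Ico]; omega
  have h3 : (S'.image (fun i => ⌊G i⌋)).card ≤ 3 * (cells B n).ncard := by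
    have hr : ∀ i ∈ L, 0 ≤ c (i * q2) ∧ ⌊(2 : ℝ) ^ n * c (i * q2)⌋₊ = i := by
      intro i hi
      refine ⟨(h01 _ (hcR _)).1, ?_⟩
      obtain ⟨r, hr, hri⟩ := hL i hi
      exact in_cell R c M hsel n n le_rfl hnM r hr i i (i * q2) hri (by simp) le_rfl le_rfl
    have h4 := image_le hBb n 2 1 (by omega) L (fun i => a (c (i * q2))) (fun i => c (i * q2)) hr
      (fun i _ => hB _ (hcR _) 1 (by omega))
    refine le_trans ?_ h4
    have e1 : (fun x : ℕ => ⌊(2 : ℝ) ^ n * a (c (x * q2)) + ((1 : ℕ) : ℝ) * x⌋) =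
        fun i => ⌊G i⌋ := by
      funext i; simp only [hG]; rw [Nat.cast_one, one_mul]
    rw [e1]
    refine Finset.card_le_card (Finset.image_subset_image ?_)
    exact (Finset.filter_subset _ _).trans (Finset.filter_subset _ _)
  have h5 : Lb.card ≤ 2 * (3 * (cells B n).ncard) + (Exc.card + 1) := by
    refine h1.trans (Nat.add_le_add_right (h2.trans (Nat.mul_le_mul_left _ h3)) _)
  have h6 : (Lb.card : ℝ) ≤ 2 * (3 * (cells B n).ncard) + (Exc.card + 1) := by exact_mod_cast h5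
  linarith

end Pool.Agent.U999.OD
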