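import Mathlib
import Pool.Agent.U999.OD.PD

set_option autoImplicit false

namespace Pool.Agent.U999.OD

open Finset Filter Topology MeasureTheory

theorem window {B : Set ℝ} (hBb : Bornology.IsBounded B) (R : Set ℝ)
    (h01 : ∀ r ∈ R, 0 ≤ r ∧ r < 1) (a : ℝ → ℝ) (h : ℕ → ℝ) (C : ℝ)
    (hC : ∀ n : ℕ, ∀ x ∈ R, ∀ y ∈ R, ((2 : ℝ) ^ n)⁻¹ ≤ |a x - a y| →
      |a x - a y| ≤ C * h n * |x - y|)
    (hB : ∀ r ∈ R, ∀ j : ℕ, j < 2 → a r + j * r ∈ B) (ρ : ℝ) (hρd : ρ = (volume R).toReal)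
    (hρ : 0 < ρ) (ε : ℝ) (hε : 0 < ε) (hε1 : ε ≤ 1 / 2) (n0 : ℕ)
    (hK : ∀ n, n0 ≤ n → ((cells B n).ncard : ℝ) ≤ 3 * (2 : ℝ) ^ ((1 - ε) * n))
    (Q Q' : ℕ) (hQ : 3 ≤ ε * Q) (hQ' : (Q : ℝ) + 1 ≤ ε * Q')
    (M : ℕ) (c : ℕ → ℝ) (hcR : ∀ i, c i ∈ R)
    (hsel : ∀ i, ∀ r ∈ R, i ≤ ⌊(2 : ℝ) ^ M * r⌋₊ →
        i ≤ ⌊(2 : ℝ) ^ M * c i⌋₊ ∧ ⌊(2 : ℝ) ^ M * c i⌋₊ ≤ ⌊(2 : ℝ) ^ M * r⌋₊)
    (x : ℕ) (hx0 : n0 ≤ x) (hx2 : 76 / ρ ≤ (2 : ℝ) ^ x) (hQM : Q * x ≤ M)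
    (hCh : C * h x ≤ 2 ^ x) (hCh0 : 0 < C * h x) :
    ρ / 4 ≤ ∑ l ∈ range (2 ^ M), win (Q' * x) x |a (c (l + 1)) - a (c l)| := by
  classical
  have hQ6 : (6 : ℝ) ≤ Q := by
    have : (0 : ℝ) ≤ Q := Nat.cast_nonneg Q
    nlinarith
  have hQ2 : 2 ≤ Q := by
    have : (2 : ℝ) ≤ Q := by linarith
    exact_mod_cast this
  have hQQ' : (Q : ℝ) ≤ Q' := by
    have : (0 : ℝ) ≤ Q' := Nat.cast_nonneg Q'
    nlinarith
  have hQQ'n : Q ≤ Q' := by exact_mod_cast hQQ'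
  set n := Q * x with hn
  set m := Q' * x with hm
  have hxn : 2 * x ≤ n := Nat.mul_le_mul_right _ hQ2
  have hxn1 : x ≤ n := by omega
  have hnm : n ≤ m := Nat.mul_le_mul_right _ hQQ'n
  set q1 : ℕ := 2 ^ (n - 2 * x) with hq1
  set q2 : ℕ := 2 ^ (M - n) with hq2
  have hq1p : 0 < q1 := by positivity
  set L : Finset ℕ := (range (2 ^ n)).filter (fun i => ∃ r ∈ R, ⌊(2 : ℝ) ^ n * r⌋₊ = i) with hL
  have hLmem : ∀ r ∈ R, ⌊(2 : ℝ) ^ n * r⌋₊ ∈ L := by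
    intro r hr
    rw [hL, Finset.mem_filter, Finset.mem_range]
    refine ⟨?_, r, hr, rfl⟩
    have h1 : (2 : ℝ) ^ n * r < ((2 ^ n : ℕ) : ℝ) := by
      push_cast
      have := (h01 r hr).2
      have hp : (0 : ℝ) < 2 ^ n := by positivity
      nlinarith
    exact (Nat.floor_lt (mul_nonneg (by positivity) (h01 r hr).1)).2 h1
  have hLc := many R h01 n L hLmem
  rw [← hρd] at hLc
  have e1 : 2 ^ n = 2 ^ (2 * x) * q1 := by rw [hq1, ← pow_add]; congr 1; omega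
  have hfib : L.card = ∑ β ∈ range (2 ^ (2 * x)), (L.filter (fun i => i / q1 = β)).card := by
    refine Finset.card_eq_sum_card_fiberwise ?_
    intro i hi
    rw [Finset.mem_coe, hL, Finset.mem_filter, Finset.mem_range, e1] at hi
    rw [Finset.mem_coe, Finset.mem_range, Nat.div_lt_iff_lt_mul hq1p]
    exact hi.1
  have hLr : (L.card : ℝ) = ∑ β ∈ range (2 ^ (2 * x)),
      ((L.filter (fun i => i / q1 = β)).card : ℝ) := by exact_mod_cast hfib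
  have hblk : ∀ β ∈ range (2 ^ (2 * x)), ((L.filter (fun i => i / q1 = β)).card : ℝ) ≤
      1 + 6 * (cells B n).ncard + 2 * (2 ^ n * ((q1 : ℝ) * ((cells B m).ncard / 2 ^ m) +
        ∑ l ∈ Finset.Ico (β * (q1 * q2)) ((β + 1) * (q1 * q2)),
          win m x |a (c (l + 1)) - a (c l)|)) := by
    intro β _
    have := block_bound hBb R h01 a h C hC hB M c hcR hsel x n m hxn hQM hCh hCh0 L
      (fun i hi => by
        rw [hL, Finset.mem_filter] at hi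
        exact hi.2) β
    rw [mul_assoc β, mul_assoc (β + 1)] at this
    exact this
  have hsum := Finset.sum_le_sum hblk
  rw [← hLr, Finset.sum_add_distrib, Finset.sum_const, Finset.card_range, nsmul_eq_mul,
    ← Finset.mul_sum, ← Finset.mul_sum, Finset.sum_add_distrib, Finset.sum_const,
    Finset.card_range, nsmul_eq_mul] at hsum
  have hW : ∑ β ∈ range (2 ^ (2 * x)), ∑ l ∈ Finset.Ico (β * (q1 * q2)) ((β + 1) * (q1 * q2)),
      win m x |a (c (l + 1)) - a (c l)| =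
      ∑ l ∈ range (2 ^ M), win m x |a (c (l + 1)) - a (c l)| := by
    have h2 := sum_Ico_blocks (fun l => win m x |a (c (l + 1)) - a (c l)|) (q1 * q2) 0
      (2 ^ (2 * x)) (Nat.zero_le _)
    have e2 : 2 ^ (2 * x) * (q1 * q2) = 2 ^ M := by
      rw [← mul_assoc, ← e1, hq2, ← pow_add]; congr 1; omega
    rw [e2, zero_mul, ← Finset.range_eq_Ico, ← Finset.range_eq_Ico] at h2
    exact h2
  rw [hW] at hsum
  set Wd := ∑ l ∈ range (2 ^ M), win m x |a (c (l + 1)) - a (c l)| with hWd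
  have hX : (0 : ℝ) < (2 : ℝ) ^ x := by positivity
  have hN : (0 : ℝ) < (2 : ℝ) ^ n := by positivity
  have e1r : (2 : ℝ) ^ n = ((2 ^ (2 * x) : ℕ) : ℝ) * q1 := by exact_mod_cast e1
  have hKn := hK n (hx0.trans hxn1)
  have hKm := hK m (hx0.trans (hxn1.trans hnm))
  have hnr : (n : ℝ) = Q * x := by rw [hn]; push_cast; ring
  have hmr : (m : ℝ) = Q' * x := by rw [hm]; push_cast; ring
  have hxr : (0 : ℝ) ≤ x := Nat.cast_nonneg x
  have hεn : 3 * (x : ℝ) ≤ ε * n := by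
    rw [hnr]; nlinarith
  have hεm : (n : ℝ) + x ≤ ε * m := by
    rw [hmr, hnr]; nlinarith
  -- the first error term
  have ha : ((2 ^ (2 * x) : ℕ) : ℝ) * (1 + 6 * (cells B n).ncard) ≤ ρ / 4 * 2 ^ n := by
    have f1 : (1 : ℝ) ≤ (2 : ℝ) ^ ((1 - ε) * (n : ℝ)) := by
      apply Real.one_le_rpow (by norm_num)
      have : 0 ≤ 1 - ε := by linarith
      positivity
    have f2 : 1 + 6 * ((cells B n).ncard : ℝ) ≤ 19 * (2 : ℝ) ^ ((1 - ε) * (n : ℝ)) := by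
      linarith
    have f3 : ((2 ^ (2 * x) : ℕ) : ℝ) * (2 : ℝ) ^ ((1 - ε) * (n : ℝ)) ≤ 2 ^ n / 2 ^ x := by
      push_cast
      rw [← Real.rpow_natCast 2 (2 * x), ← Real.rpow_natCast 2 n, ← Real.rpow_natCast 2 x,
        ← Real.rpow_add (by norm_num), ← Real.rpow_sub (by norm_num)]
      apply Real.rpow_le_rpow_of_exponent_le (by norm_num)
      push_cast
      nlinarith
    have f4 : 19 * ((2 : ℝ) ^ n / 2 ^ x) ≤ ρ / 4 * 2 ^ n := by
      rw [mul_div_assoc', div_le_iff₀ hX]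
      rw [div_le_iff₀ hρ] at hx2
      nlinarith
    calc ((2 ^ (2 * x) : ℕ) : ℝ) * (1 + 6 * (cells B n).ncard)
        ≤ ((2 ^ (2 * x) : ℕ) : ℝ) * (19 * (2 : ℝ) ^ ((1 - ε) * (n : ℝ))) :=
          mul_le_mul_of_nonneg_left f2 (by positivity)
      _ = 19 * (((2 ^ (2 * x) : ℕ) : ℝ) * (2 : ℝ) ^ ((1 - ε) * (n : ℝ))) := by ring
      _ ≤ 19 * (2 ^ n / 2 ^ x) := mul_le_mul_of_nonneg_left f3 (by norm_num)
      _ ≤ _ := f4
  -- the second error term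
  have hb : ((2 ^ (2 * x) : ℕ) : ℝ) * ((q1 : ℝ) * ((cells B m).ncard / 2 ^ m)) ≤ ρ / 8 := by
    have f1 : ((cells B m).ncard : ℝ) / 2 ^ m ≤ 3 * (2 : ℝ) ^ ((1 - ε) * (m : ℝ) - m) := by
      rw [div_le_iff₀ (by positivity)]
      calc ((cells B m).ncard : ℝ) ≤ 3 * (2 : ℝ) ^ ((1 - ε) * (m : ℝ)) := hKm
        _ = 3 * (2 : ℝ) ^ ((1 - ε) * (m : ℝ) - m) * 2 ^ m := by
          rw [← Real.rpow_natCast 2 m, mul_assoc, ← Real.rpow_add (by norm_num)]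
          congr 2; ring
    have f2 : (2 : ℝ) ^ n * (2 : ℝ) ^ ((1 - ε) * (m : ℝ) - m) ≤ 1 / 2 ^ x := by
      rw [← Real.rpow_natCast 2 n, ← Real.rpow_natCast 2 x, one_div,
        ← Real.rpow_neg (by norm_num), ← Real.rpow_add (by norm_num)]
      apply Real.rpow_le_rpow_of_exponent_le (by norm_num)
      nlinarith
    have f3 : 1 / (2 : ℝ) ^ x ≤ ρ / 76 := by
      rw [div_le_iff₀ hX]
      rw [div_le_iff₀ hρ] at hx2
      linarith
    calc ((2 ^ (2 * x) : ℕ) : ℝ) * ((q1 : ℝ) * ((cells B m).ncard / 2 ^ m))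
        = 2 ^ n * ((cells B m).ncard / 2 ^ m) := by rw [e1r]; ring
      _ ≤ 2 ^ n * (3 * (2 : ℝ) ^ ((1 - ε) * (m : ℝ) - m)) := mul_le_mul_of_nonneg_left f1 hN.le
      _ = 3 * (2 ^ n * (2 : ℝ) ^ ((1 - ε) * (m : ℝ) - m)) := by ring
      _ ≤ 3 * (1 / 2 ^ x) := mul_le_mul_of_nonneg_left f2 (by norm_num)
      _ ≤ 3 * (ρ / 76) := mul_le_mul_of_nonneg_left f3 (by norm_num)
      _ ≤ ρ / 8 := by linarith
  have hfin : ρ * 2 ^ n ≤ ρ / 4 * 2 ^ n + 2 * (2 ^ n * (ρ / 8 + Wd)) := by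
    refine hLc.trans (hsum.trans (add_le_add ha ?_))
    refine mul_le_mul_of_nonneg_left (mul_le_mul_of_nonneg_left ?_ hN.le) (by norm_num)
    linarith
  have hfin2 : ρ / 4 * 2 ^ n ≤ Wd * 2 ^ n := by nlinarith
  exact le_of_mul_le_mul_right hfin2 hN

theorem one_window (J V : ℝ) (hV : 0 ≤ V) (H : ℕ → ℝ) (xs : ℕ → ℕ) (hxs : Monotone xs)
    (hJ : ∀ s, ((2 : ℝ) ^ xs (s + 1))⁻¹ ≤ J → H s * J ≤ V) (s0 s1 : ℕ) :
    ∑ s ∈ Finset.Ico s0 s1, H s * win (xs (s + 1)) (xs s) J ≤ V := by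
  by_cases hex : ∃ s ∈ Finset.Ico s0 s1, ((2 : ℝ) ^ xs (s + 1))⁻¹ ≤ J ∧ J < ((2 : ℝ) ^ xs s)⁻¹
  · obtain ⟨s, hs, h1, h2⟩ := hex
    rw [Finset.sum_eq_single_of_mem s hs]
    · unfold win
      rw [if_pos ⟨h1, h2⟩]
      exact hJ s h1
    · intro s' _ hne
      unfold win
      rw [if_neg, mul_zero]
      rintro ⟨h3, h4⟩
      rcases lt_or_gt_of_ne hne with hlt | hlt
      · have h5 : xs (s' + 1) ≤ xs s := hxs hlt
        have h6 : ((2 : ℝ) ^ xs s)⁻¹ ≤ ((2 : ℝ) ^ xs (s' + 1))⁻¹ :=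
          inv_anti₀ (by positivity) (pow_le_pow_right₀ (by norm_num) h5)
        linarith
      · have h5 : xs (s + 1) ≤ xs s' := hxs hlt
        have h6 : ((2 : ℝ) ^ xs s')⁻¹ ≤ ((2 : ℝ) ^ xs (s + 1))⁻¹ :=
          inv_anti₀ (by positivity) (pow_le_pow_right₀ (by norm_num) h5)
        linarith
  · push Not at hex
    rw [Finset.sum_eq_zero]
    · exact hV
    · intro s hs
      unfold win
      rw [if_neg, mul_zero]
      rintro ⟨h3, h4⟩
      have := hex s hs h3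
      linarith

theorem condense (h : ℕ → ℝ) (hmono : Monotone h) (hpos : ∀ n, 0 < h n) (Λ : ℕ) (hΛ : 2 ≤ Λ)
    (hs : Summable (fun s => 1 / h (Λ ^ (s + 1)))) :
    Summable (fun n : ℕ => 1 / (((n : ℝ) + 1) * h n)) := by
  have hs' : Summable (fun s => 1 / h (Λ ^ s)) := by
    rw [← summable_nat_add_iff 1]
    exact hs
  have hΛr : (2 : ℝ) ≤ Λ := by exact_mod_cast hΛ
  have hf0 : ∀ n : ℕ, 0 ≤ 1 / (((n : ℝ) + 1) * h n) := fun n => by
    have := hpos n; positivity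
  have h1 : ∀ s, ∑ n ∈ Finset.Ico (Λ ^ s) (Λ ^ (s + 1)), 1 / (((n : ℝ) + 1) * h n) ≤
      Λ * (1 / h (Λ ^ s)) := by
    intro s
    have hp := hpos (Λ ^ s)
    have hL0 : (0 : ℝ) < (Λ : ℝ) ^ s := by positivity
    have e1 : ∑ n ∈ Finset.Ico (Λ ^ s) (Λ ^ (s + 1)), 1 / (((n : ℝ) + 1) * h n) ≤
        ∑ n ∈ Finset.Ico (Λ ^ s) (Λ ^ (s + 1)), 1 / ((Λ : ℝ) ^ s * h (Λ ^ s)) := by
      refine Finset.sum_le_sum fun n hn => ?_
      rw [Finset.mem_Ico] at hn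
      apply one_div_le_one_div_of_le (by positivity)
      have e2 : (Λ : ℝ) ^ s ≤ n := by exact_mod_cast hn.1
      have e3 := hmono hn.1
      calc (Λ : ℝ) ^ s * h (Λ ^ s) ≤ ((n : ℝ) + 1) * h (Λ ^ s) :=
            mul_le_mul_of_nonneg_right (by linarith) hp.le
        _ ≤ ((n : ℝ) + 1) * h n := mul_le_mul_of_nonneg_left e3 (by positivity)
    refine e1.trans ?_
    rw [Finset.sum_const, Nat.card_Ico, nsmul_eq_mul]
    have e4 : ((Λ ^ (s + 1) - Λ ^ s : ℕ) : ℝ) ≤ (Λ : ℝ) ^ (s + 1) := by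
      have : ((Λ ^ (s + 1) - Λ ^ s : ℕ) : ℝ) ≤ ((Λ ^ (s + 1) : ℕ) : ℝ) := by
        exact_mod_cast Nat.sub_le _ _
      refine this.trans (le_of_eq ?_)
      push_cast; rfl
    calc ((Λ ^ (s + 1) - Λ ^ s : ℕ) : ℝ) * (1 / ((Λ : ℝ) ^ s * h (Λ ^ s)))
        ≤ (Λ : ℝ) ^ (s + 1) * (1 / ((Λ : ℝ) ^ s * h (Λ ^ s))) :=
          mul_le_mul_of_nonneg_right e4 (by positivity)
      _ = Λ * (1 / h (Λ ^ s)) := by rw [pow_succ]; field_simp
  have h2 : ∀ N, ∑ s ∈ range N, ∑ n ∈ Finset.Ico (Λ ^ s) (Λ ^ (s + 1)), 1 / (((n : ℝ) + 1) * h n) =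
      ∑ n ∈ Finset.Ico 1 (Λ ^ N), 1 / (((n : ℝ) + 1) * h n) := by
    intro N
    induction N with
    | zero => simp
    | succ N ih =>
      rw [Finset.sum_range_succ, ih, Finset.sum_Ico_consecutive _ (Nat.one_le_pow _ _ (by omega))
        (Nat.pow_le_pow_right (by omega) (Nat.le_succ N))]
  refine summable_of_sum_range_le
    (c := 1 / h 0 + Λ * ∑' s, 1 / h (Λ ^ s)) hf0 fun N => ?_
  have h3 : N < Λ ^ N := Nat.lt_pow_self (by omega)
  calc ∑ n ∈ range N, 1 / (((n : ℝ) + 1) * h n)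
      ≤ ∑ n ∈ range (Λ ^ N), 1 / (((n : ℝ) + 1) * h n) :=
        Finset.sum_le_sum_of_subset_of_nonneg (Finset.range_subset_range.2 h3.le)
          fun n _ _ => hf0 n
    _ = 1 / h 0 + ∑ n ∈ Finset.Ico 1 (Λ ^ N), 1 / (((n : ℝ) + 1) * h n) := by
        rw [Finset.range_eq_Ico, Finset.sum_eq_sum_Ico_succ_bot (by omega)]
        simp
    _ = 1 / h 0 + ∑ s ∈ range N, ∑ n ∈ Finset.Ico (Λ ^ s) (Λ ^ (s + 1)),
          1 / (((n : ℝ) + 1) * h n) := by rw [h2]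
    _ ≤ 1 / h 0 + ∑ s ∈ range N, Λ * (1 / h (Λ ^ s)) :=
        add_le_add_right (Finset.sum_le_sum fun s _ => h1 s) _
    _ = 1 / h 0 + Λ * ∑ s ∈ range N, 1 / h (Λ ^ s) := by rw [← Finset.mul_sum]
    _ ≤ _ := by
        refine add_le_add_right (mul_le_mul_of_nonneg_left ?_ (by positivity)) _
        exact hs'.sum_le_tsum _ fun s _ => by have := hpos (Λ ^ s); positivity

theorem partD (h : ℕ → ℝ) (hmono : Monotone h) (hpos : ∀ n, 0 < h n)
    (hdiv : ¬ Summable (fun n : ℕ => 1 / (((n : ℝ) + 1) * h n))) (R : Set ℝ)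
    (hR : R ⊆ Set.Icc 0 1) (hvol : volume R ≠ 0)
    (a : ℝ → ℝ) (hreg : Reg h R a) (B : Set ℝ) (hBb : Bornology.IsBounded B)
    (hB : ∀ r ∈ R, ∀ j : ℕ, j < 2 → a r + j * r ∈ B) :
    ((1 : ℝ) : EReal) ≤ upperMinkowski B := by
  classical
  by_contra hlt
  rw [not_le] at hlt
  obtain ⟨v, hv1, hv2⟩ := EReal.lt_iff_exists_real_btwn.1 hlt
  rw [EReal.coe_lt_coe_iff] at hv2
  set v' : ℝ := max v (1 / 2) with hv'
  have hv'1 : v' < 1 := max_lt hv2 (by norm_num)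
  have hv'2 : 1 / 2 ≤ v' := le_max_right _ _
  have hv'3 : upperMinkowski B < (v' : EReal) :=
    lt_of_lt_of_le hv1 (EReal.coe_le_coe_iff.2 (le_max_left _ _))
  set ε : ℝ := 1 - v' with hεdef
  have hε : 0 < ε := by rw [hεdef]; linarith
  have hε1 : ε ≤ 1 / 2 := by rw [hεdef]; linarith
  have hvε : v' = 1 - ε := by rw [hεdef]; ring
  rw [hvε] at hv'3
  obtain ⟨n0, hn0⟩ := small_cover hv'3
  have hK : ∀ n, n0 ≤ n → ((cells B n).ncard : ℝ) ≤ 3 * (2 : ℝ) ^ ((1 - ε) * n) := by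
    intro n hn
    have h1 : ((cells B n).ncard : ℝ) ≤ ((3 * coverNum B ((2 : ℝ) ^ n)⁻¹ : ℕ) : ℝ) := by
      exact_mod_cast cells_le_coverNum hBb n
    push_cast at h1
    have := hn0 n hn
    linarith
  set R' : Set ℝ := R ∩ Set.Ico 0 1 with hR'
  have h01 : ∀ r ∈ R', 0 ≤ r ∧ r < 1 := fun r hr => hr.2
  have hvol' : volume R' ≠ 0 := by
    intro h0
    apply hvol
    have hsub : R ⊆ R' ∪ {1} := by
      intro r hr
      rcases (hR hr).2.lt_or_eq with h1 | h1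
      · exact Or.inl ⟨hr, (hR hr).1, h1⟩
      · exact Or.inr h1
    refine measure_mono_null hsub (measure_union_null h0 Real.volume_singleton)
  have hfin : volume R' ≠ ⊤ := by
    have : volume R' ≤ volume (Set.Ico (0 : ℝ) 1) := measure_mono Set.inter_subset_right
    refine ne_top_of_le_ne_top ?_ this
    rw [Real.volume_Ico]
    exact ENNReal.ofReal_ne_top
  have hne : R'.Nonempty := by
    by_contra h0
    rw [Set.not_nonempty_iff_eq_empty] at h0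
    rw [h0] at hvol'
    simp at hvol'
  obtain ⟨ρ, hρd⟩ : ∃ ρ : ℝ, ρ = (volume R').toReal := ⟨_, rfl⟩
  have hρ : 0 < ρ := by rw [hρd]; exact ENNReal.toReal_pos hvol' hfin
  obtain ⟨C, hC⟩ := hreg
  set C1 : ℝ := |C| + 1 with hC1
  have hC1p : 0 < C1 := by have := abs_nonneg C; linarith
  have hCC : C ≤ C1 := by have := le_abs_self C; linarith
  have hCR : ∀ n : ℕ, ∀ x ∈ R', ∀ y ∈ R', ((2 : ℝ) ^ n)⁻¹ ≤ |a x - a y| →
      |a x - a y| ≤ C1 * h n * |x - y| := by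
    intro n x hx y hy hxy
    refine (hC n x hx.1 y hy.1 hxy).trans ?_
    have := hpos n
    gcongr
  obtain ⟨Q, hQ⟩ := exists_nat_ge (3 / ε)
  rw [div_le_iff₀ hε] at hQ
  obtain ⟨Q', hQ'⟩ := exists_nat_ge (((Q : ℝ) + 1) / ε)
  rw [div_le_iff₀ hε] at hQ'
  have hQ2 : (3 : ℝ) ≤ ε * Q := by linarith
  have hQ2' : (Q : ℝ) + 1 ≤ ε * Q' := by linarith
  have hQ'2 : 2 ≤ Q' := by
    have h1 : (0 : ℝ) ≤ Q := Nat.cast_nonneg Q
    have h2 : (0 : ℝ) ≤ Q' := Nat.cast_nonneg Q'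
    have : (2 : ℝ) ≤ Q' := by nlinarith
    exact_mod_cast this
  apply hdiv
  apply condense h hmono hpos Q' hQ'2
  obtain ⟨s0, hs0⟩ := pow_unbounded_of_one_lt (76 / ρ) (show (1 : ℝ) < 2 by norm_num)
  set s0' := max s0 n0 with hs0'
  have hpw : ∀ s, s ≤ Q' ^ s := fun s => (Nat.lt_pow_self (by omega)).le
  have hmono' : Monotone (fun s : ℕ => Q' ^ s) := fun s t hst =>
    Nat.pow_le_pow_right (by omega) hst
  have hmain : ∀ s1, ∑ s ∈ Finset.Ico s0' s1, 1 / h (Q' ^ (s + 1)) ≤ 4 / ρ * C1 + C1 * 2 := by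
    intro s1
    obtain ⟨c, hcR, hcm, hsel⟩ := select2 R' hne h01 (Q * Q' ^ s1)
    set M := Q * Q' ^ s1 with hM
    set J : ℕ → ℝ := fun l => |a (c (l + 1)) - a (c l)| with hJ
    have hlam : ∀ l, 0 ≤ c (l + 1) - c l := fun l => sub_nonneg.2 (hcm (Nat.le_succ l))
    have h1 : ∀ s ∈ Finset.Ico s0' s1, 1 / h (Q' ^ (s + 1)) ≤
        4 / ρ * ((1 / h (Q' ^ (s + 1))) * ∑ l ∈ range (2 ^ M), win (Q' ^ (s + 1)) (Q' ^ s) (J l)) +
          C1 * (1 / 2) ^ s := by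
      intro s hs
      rw [Finset.mem_Ico] at hs
      have hs1 : s0 ≤ s := (le_max_left _ _).trans hs.1
      have hs2 : n0 ≤ s := (le_max_right _ _).trans hs.1
      have hH : 0 ≤ 1 / h (Q' ^ (s + 1)) := by have := hpos (Q' ^ (s + 1)); positivity
      have hWn : 0 ≤ ∑ l ∈ range (2 ^ M), win (Q' ^ (s + 1)) (Q' ^ s) (J l) :=
        Finset.sum_nonneg fun l _ => win_nonneg _ _ _ (abs_nonneg _)
      by_cases hgood : C1 * h (Q' ^ s) ≤ 2 ^ (Q' ^ s)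
      · have h2 := window hBb R' h01 a h C1 hCR (fun r hr => hB r hr.1) ρ hρd hρ ε hε hε1 n0 hK
          Q Q' hQ2 hQ2' M c hcR hsel (Q' ^ s) (hs2.trans (hpw s))
          (hs0.le.trans (pow_le_pow_right₀ (by norm_num) (hs1.trans (hpw s))))
          (Nat.mul_le_mul_left _ (hmono' hs.2.le)) hgood (mul_pos hC1p (hpos _))
        have e1 : Q' * Q' ^ s = Q' ^ (s + 1) := by rw [pow_succ]; ring
        rw [e1] at h2
        have h3 : 1 ≤ 4 / ρ * ∑ l ∈ range (2 ^ M), win (Q' ^ (s + 1)) (Q' ^ s) (J l) := by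
          have : (1 : ℝ) = 4 / ρ * (ρ / 4) := by field_simp
          rw [this]
          exact mul_le_mul_of_nonneg_left h2 (by positivity)
        have h4 : 0 ≤ C1 * (1 / 2) ^ s := by positivity
        nlinarith
      · push Not at hgood
        have hp := hpos (Q' ^ s)
        have h3 : 1 / h (Q' ^ (s + 1)) ≤ C1 * (1 / 2) ^ s := by
          calc 1 / h (Q' ^ (s + 1)) ≤ 1 / h (Q' ^ s) :=
                one_div_le_one_div_of_le hp (hmono (hmono' (Nat.le_succ s)))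
            _ ≤ C1 / 2 ^ (Q' ^ s) := by
                rw [div_le_div_iff₀ hp (by positivity)]
                linarith
            _ ≤ C1 / 2 ^ s := by
                have : (2 : ℝ) ^ s ≤ 2 ^ (Q' ^ s) := pow_le_pow_right₀ (by norm_num) (hpw s)
                exact div_le_div_of_nonneg_left hC1p.le (by positivity) this
            _ = C1 * (1 / 2) ^ s := by rw [one_div_pow]; ring
        have h4 : 0 ≤ 4 / ρ * ((1 / h (Q' ^ (s + 1))) *
            ∑ l ∈ range (2 ^ M), win (Q' ^ (s + 1)) (Q' ^ s) (J l)) := by positivity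
        linarith
    refine (Finset.sum_le_sum h1).trans ?_
    rw [Finset.sum_add_distrib, ← Finset.mul_sum, ← Finset.mul_sum]
    refine add_le_add (mul_le_mul_of_nonneg_left ?_ (by positivity))
      (mul_le_mul_of_nonneg_left ?_ hC1p.le)
    · have e2 : ∑ s ∈ Finset.Ico s0' s1, (1 / h (Q' ^ (s + 1))) *
          ∑ l ∈ range (2 ^ M), win (Q' ^ (s + 1)) (Q' ^ s) (J l) =
          ∑ l ∈ range (2 ^ M), ∑ s ∈ Finset.Ico s0' s1, (1 / h (Q' ^ (s + 1))) *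
            win (Q' ^ (s + 1)) (Q' ^ s) (J l) := by
        simp only [Finset.mul_sum]
        rw [Finset.sum_comm]
      rw [e2]
      have h5 : ∀ l ∈ range (2 ^ M), ∑ s ∈ Finset.Ico s0' s1, (1 / h (Q' ^ (s + 1))) *
            win (Q' ^ (s + 1)) (Q' ^ s) (J l) ≤ C1 * (c (l + 1) - c l) := by
        intro l _
        refine one_window (J l) (C1 * (c (l + 1) - c l)) (mul_nonneg hC1p.le (hlam l))
          (fun s => 1 / h (Q' ^ (s + 1))) (fun s => Q' ^ s) hmono' (fun s hs => ?_) s0' s1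
        have h6 := hCR (Q' ^ (s + 1)) _ (hcR (l + 1)) _ (hcR l) hs
        rw [abs_of_nonneg (hlam l)] at h6
        have hp := hpos (Q' ^ (s + 1))
        show 1 / h (Q' ^ (s + 1)) * J l ≤ C1 * (c (l + 1) - c l)
        rw [one_div_mul_eq_div, div_le_iff₀ hp]
        calc J l ≤ C1 * h (Q' ^ (s + 1)) * (c (l + 1) - c l) := h6
          _ = C1 * (c (l + 1) - c l) * h (Q' ^ (s + 1)) := by ring
      refine (Finset.sum_le_sum h5).trans ?_
      rw [← Finset.mul_sum, Finset.sum_range_sub]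
      have h7 := (h01 _ (hcR (2 ^ M))).2
      have h8 := (h01 _ (hcR 0)).1
      nlinarith
    · calc ∑ s ∈ Finset.Ico s0' s1, (1 / 2 : ℝ) ^ s ≤ ∑' s : ℕ, (1 / 2 : ℝ) ^ s :=
          summable_geometric_two.sum_le_tsum _ fun s _ => by positivity
        _ = 2 := tsum_geometric_two
  have hs : Summable (fun i => 1 / h (Q' ^ (s0' + i + 1))) := by
    refine summable_of_sum_range_le (c := 4 / ρ * C1 + C1 * 2) (fun i => by
      have := hpos (Q' ^ (s0' + i + 1)); positivity) fun n => ?_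
    have h1 := hmain (s0' + n)
    rw [Finset.sum_Ico_eq_sum_range] at h1
    have e2 : s0' + n - s0' = n := by omega
    rw [e2] at h1
    exact h1
  have hs' : Summable (fun i => 1 / h (Q' ^ (i + s0' + 1))) := by
    refine hs.congr fun i => ?_
    rw [add_comm s0' i]
  exact (summable_nat_add_iff (f := fun s => 1 / h (Q' ^ (s + 1))) s0').1 hs'

end Pool.Agent.U999.OD
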