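import Mathlib
import Pool.Agent.U999.OD.PB
import Pool.Agent.U999.OD.PC
import Pool.Agent.U999.OD.PE

set_option autoImplicit false

namespace Pool.Agent.U999.OD

open Finset Filter Topology MeasureTheory

/-- `B` contains a `k`-term progression with every common difference in `[0,1]`. -/
def HasProg (k : ℕ) (B : Set ℝ) : Prop :=
  ∀ r ∈ Set.Icc (0 : ℝ) 1, ∃ a : ℝ, ∀ j : ℕ, j < k → a + j * r ∈ B

/-- the infimum of the dimensions -/
noncomputable def fM (k : ℕ) : EReal :=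
  ⨅ (B : Set ℝ) (_ : Bornology.IsBounded B) (_ : HasProg k B), upperMinkowski B

/-- progressions with regular first terms -/
def HasRegProg (h : ℕ → ℝ) (η : ℝ) (k : ℕ) (B : Set ℝ) : Prop :=
  ∃ (a : ℝ → ℝ) (R : Set ℝ), R ⊆ Set.Icc 0 1 ∧
    volume (Set.Icc (0 : ℝ) 1 \ R) < ENNReal.ofReal η ∧ Reg h R a ∧
    ∀ r ∈ Set.Icc (0 : ℝ) 1, ∀ j : ℕ, j < k → a r + j * r ∈ B

/-- the infimum of the dimensions for regular first terms -/
noncomputable def fReg (h : ℕ → ℝ) (η : ℝ) (k : ℕ) : EReal :=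
  ⨅ (B : Set ℝ) (_ : Bornology.IsBounded B) (_ : HasRegProg h η k B), upperMinkowski B

theorem le_fReg (h : ℕ → ℝ) (η : ℝ) (k : ℕ) (x : EReal)
    (hx : ∀ B, Bornology.IsBounded B → HasRegProg h η k B → x ≤ upperMinkowski B) :
    x ≤ fReg h η k :=
  le_iInf fun B => le_iInf fun hb => le_iInf fun hp => hx B hb hp

theorem fReg_le (h : ℕ → ℝ) (η : ℝ) (k : ℕ) (B : Set ℝ) (hb : Bornology.IsBounded B)
    (hp : HasRegProg h η k B) : fReg h η k ≤ upperMinkowski B :=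
  (iInf_le _ B).trans ((iInf_le _ hb).trans (iInf_le _ hp))

theorem fM_le (k : ℕ) (B : Set ℝ) (hb : Bornology.IsBounded B)
    (hp : HasProg k B) : fM k ≤ upperMinkowski B :=
  (iInf_le _ B).trans ((iInf_le _ hb).trans (iInf_le _ hp))

theorem vol_ne (η : ℝ) (hη : η ≤ 1) (R : Set ℝ)
    (hR : volume (Set.Icc (0 : ℝ) 1 \ R) < ENNReal.ofReal η) : volume R ≠ 0 := by
  intro h0
  have h1 : volume (Set.Icc (0 : ℝ) 1) ≤ volume (Set.Icc (0 : ℝ) 1 \ R) + volume R := by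
    refine (measure_mono ?_).trans (measure_union_le _ _)
    intro x hx
    by_cases h : x ∈ R
    · exact Or.inr h
    · exact Or.inl ⟨hx, h⟩
  rw [h0, add_zero, Real.volume_Icc, sub_zero] at h1
  have h2 := lt_of_le_of_lt h1 hR
  have h3 : ENNReal.ofReal η ≤ ENNReal.ofReal 1 := ENNReal.ofReal_le_ofReal hη
  exact absurd h2 (not_lt.2 h3)

theorem fM_le_fReg (h : ℕ → ℝ) (η : ℝ) (k : ℕ) : fM k ≤ fReg h η k := by
  refine le_fReg h η k _ fun B hb hp => fM_le k B hb ?_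
  obtain ⟨a, R, _, _, _, h4⟩ := hp
  exact fun r hr => ⟨a r, h4 r hr⟩

theorem conv (h : ℕ → ℝ) (hmono : Monotone h) (hpos : ∀ n, 0 < h n)
    (hsum : Summable (fun n => 1 / h n)) (η : ℝ) (hη : 0 < η) (k : ℕ) (hk : 1 ≤ k) :
    fReg h η k = fM k := by
  apply le_antisymm _ (fM_le_fReg h η k)
  refine le_iInf fun B0 => le_iInf fun hb => le_iInf fun hp => ?_
  rw [← EReal.le_of_forall_lt_iff_le]
  intro s hs
  choose! a0 ha0 using hp
  obtain ⟨B, a, R, h1, h2, h3, h4, h5, h6⟩ :=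
    partB h hmono hpos hsum k hk B0 hb a0 ha0 s hs η hη
  exact (fReg_le h η k B h1 ⟨a, R, h3, h4, h5, h2⟩).trans h6

theorem mid_le (h : ℕ → ℝ) (hmono : Monotone h) (hpos : ∀ n, 0 < h n)
    (hsum : Summable (fun n : ℕ => 1 / (((n : ℝ) + 1) * h n))) (η : ℝ) (hη : 0 < η) (k : ℕ)
    (hk : 1 ≤ k) : fReg h η k ≤ ((1 - 1 / (k : ℝ) : ℝ) : EReal) := by
  rw [← EReal.le_of_forall_lt_iff_le]
  intro s hs
  rw [EReal.coe_lt_coe_iff] at hs
  obtain ⟨B, a, R, h1, h2, h3, h4, h5, h6⟩ :=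
    partC h hmono hpos hsum k hk (s - (1 - 1 / (k : ℝ))) (by linarith) η hη
  refine (fReg_le h η k B h1 ⟨a, R, h3, h4, h5, h2⟩).trans (h6.trans (le_of_eq ?_))
  congr 1
  ring

theorem icc_dim (k : ℕ) : upperMinkowski (Set.Icc (0 : ℝ) k) ≤ ((1 : ℝ) : EReal) := by
  refine dim_le (Set.Icc (0 : ℝ) k) 2 le_rfl 1 ((k : ℝ) + 1) 1 zero_le_one one_pos (by positivity) ?_
  intro m δ hδ
  have h1 : coverNum (Set.Icc (0 : ℝ) k) δ ≤ Fintype.card (Fin (k * 2 ^ m + 1)) := by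
    refine cover_le _ δ (fun i : Fin (k * 2 ^ m + 1) =>
      {y : ℝ | 0 ≤ y ∧ ⌊(2 : ℝ) ^ m * y⌋₊ = i}) ?_ ?_
    · rintro i x ⟨hx0, hx⟩ y ⟨hy0, hy⟩
      have hp : (0 : ℝ) < 2 ^ m := by positivity
      have f1 := Nat.floor_le (mul_nonneg hp.le hx0)
      have f2 := Nat.lt_floor_add_one ((2 : ℝ) ^ m * x)
      have f3 := Nat.floor_le (mul_nonneg hp.le hy0)
      have f4 := Nat.lt_floor_add_one ((2 : ℝ) ^ m * y)
      rw [hx] at f1 f2
      rw [hy] at f3 f4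
      refine le_trans ?_ hδ
      rw [Real.dist_eq]
      push_cast
      rw [le_div_iff₀ hp]
      have e3 : |x - y| * 2 ^ m = |(x - y) * 2 ^ m| := by
        rw [abs_mul, abs_of_pos hp]
      rw [e3, abs_le]
      constructor <;> linarith
    · intro y hy
      rw [Set.mem_iUnion]
      have h2 : ⌊(2 : ℝ) ^ m * y⌋₊ < k * 2 ^ m + 1 := by
        have hp : (0 : ℝ) < 2 ^ m := by positivity
        rw [Nat.floor_lt (mul_nonneg hp.le hy.1)]
        push_cast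
        have := mul_le_mul_of_nonneg_left hy.2 hp.le
        linarith
      exact ⟨⟨_, h2⟩, hy.1, rfl⟩
  rw [Fintype.card_fin] at h1
  have h2 : (coverNum (Set.Icc (0 : ℝ) k) δ : ℝ) ≤ ((k * 2 ^ m + 1 : ℕ) : ℝ) := by exact_mod_cast h1
  refine h2.trans ?_
  rw [one_mul, Real.rpow_natCast]
  push_cast
  have : (1 : ℝ) ≤ 2 ^ m := one_le_pow₀ (by norm_num)
  nlinarith

theorem top_le (h : ℕ → ℝ) (η : ℝ) (hη : 0 < η) (k : ℕ) :
    fReg h η k ≤ ((1 : ℝ) : EReal) := by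
  refine (fReg_le h η k (Set.Icc (0 : ℝ) k) (Metric.isBounded_Icc 0 (k : ℝ)) ?_).trans (icc_dim k)
  refine ⟨fun _ => 0, Set.Icc 0 1, le_rfl, ?_, ⟨0, fun n x _ y _ hxy => ?_⟩, fun r hr j hj => ?_⟩
  · rw [Set.sdiff_self, measure_empty]
    exact ENNReal.ofReal_pos.2 hη
  · simp only [sub_self, abs_zero] at hxy ⊢
    have : (0 : ℝ) < ((2 : ℝ) ^ n)⁻¹ := by positivity
    linarith
  · have h1 : (j : ℝ) ≤ k := by exact_mod_cast hj.le
    have h2 : (0 : ℝ) ≤ j := Nat.cast_nonneg j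
    constructor
    · have := mul_nonneg h2 hr.1
      linarith
    · have := mul_le_mul h1 hr.2 hr.1 (by positivity)
      linarith

theorem main (h : ℕ → ℝ) (hmono : Monotone h) (hpos : ∀ n, 0 < h n) :
    (∀ η : ℝ, 0 < η → η ≤ 1 → ∀ k : ℕ, 1 ≤ k →
      (¬ Summable (fun n : ℕ => 1 / (((n : ℝ) + 1) * h n)) → 2 ≤ k → fReg h η k = ((1 : ℝ) : EReal)) ∧
      (Summable (fun n : ℕ => 1 / (((n : ℝ) + 1) * h n)) → ¬ Summable (fun n => 1 / h n) →
        fReg h η k = ((1 - 1 / (k : ℝ) : ℝ) : EReal)) ∧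
      (Summable (fun n => 1 / h n) → fReg h η k = fM k)) ∧
    (∀ (R : Set ℝ) (a : ℝ → ℝ) (B : Set ℝ) (k : ℕ), R ⊆ Set.Icc 0 1 → volume R ≠ 0 → Reg h R a →
      Bornology.IsBounded B → (∀ r ∈ R, ∀ j : ℕ, j < k → a r + j * r ∈ B) →
      (¬ Summable (fun n : ℕ => 1 / (((n : ℝ) + 1) * h n)) → 2 ≤ k →
        ((1 : ℝ) : EReal) ≤ upperMinkowski B) ∧
      (¬ Summable (fun n => 1 / h n) → 1 ≤ k →
        ((1 - 1 / (k : ℝ) : ℝ) : EReal) ≤ upperMinkowski B)) := by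
  have hlow : ∀ (R : Set ℝ) (a : ℝ → ℝ) (B : Set ℝ) (k : ℕ), R ⊆ Set.Icc 0 1 → volume R ≠ 0 →
      Reg h R a → Bornology.IsBounded B → (∀ r ∈ R, ∀ j : ℕ, j < k → a r + j * r ∈ B) →
      (¬ Summable (fun n : ℕ => 1 / (((n : ℝ) + 1) * h n)) → 2 ≤ k →
        ((1 : ℝ) : EReal) ≤ upperMinkowski B) ∧
      (¬ Summable (fun n => 1 / h n) → 1 ≤ k →
        ((1 - 1 / (k : ℝ) : ℝ) : EReal) ≤ upperMinkowski B) := by
    intro R a B k hR hvol hreg hBb hB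
    constructor
    · intro hdiv hk
      exact partD h hmono hpos hdiv R hR hvol a hreg B hBb
        (fun r hr j hj => hB r hr j (by omega))
    · intro hdiv hk
      exact partA k hk h hmono hpos hdiv R hR hvol a hreg B hBb hB
  refine ⟨fun η hη hη1 k hk => ⟨?_, ?_, ?_⟩, hlow⟩
  · intro hdiv hk2
    apply le_antisymm (top_le h η hη k)
    refine le_fReg h η k _ fun B hb hp => ?_
    obtain ⟨a, R, h1, h2, h3, h4⟩ := hp
    exact (hlow R a B k h1 (vol_ne η hη1 R h2) h3 hb (fun r hr => h4 r (h1 hr))).1 hdiv hk2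
  · intro hsum hdiv
    apply le_antisymm (mid_le h hmono hpos hsum η hη k hk)
    refine le_fReg h η k _ fun B hb hp => ?_
    obtain ⟨a, R, h1, h2, h3, h4⟩ := hp
    exact (hlow R a B k h1 (vol_ne η hη1 R h2) h3 hb (fun r hr => h4 r (h1 hr))).2 hdiv hk
  · intro hsum
    exact conv h hmono hpos hsum η hη k hk

end Pool.Agent.U999.OD
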