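import Mathlib
import Pool.Agent.U999.OD.PE

set_option autoImplicit false

namespace Pool.Agent.U999.OD

open Finset Filter Topology MeasureTheory

/-- the sums of at most `2 ^ n` increments of `a` on `R` are at most `C W n` -/
def HasVar (W : ℕ → ℝ) (R : Set ℝ) (a : ℝ → ℝ) : Prop :=
  ∃ C : ℝ, ∀ (n N : ℕ) (x : ℕ → ℝ), N ≤ 2 ^ n → Monotone x → (∀ i, x i ∈ R) →
    ∑ i ∈ range N, |a (x (i + 1)) - a (x i)| ≤ C * W n

theorem lowA (k : ℕ) (hk : 1 ≤ k) (W : ℕ → ℝ) (hpos : ∀ n, 0 < W n)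
    (R : Set ℝ) (hR : R ⊆ Set.Icc 0 1) (hvol : volume R ≠ 0)
    (a : ℝ → ℝ) (hreg : HasVar W R a) (B : Set ℝ) (hBb : Bornology.IsBounded B)
    (hB : ∀ r ∈ R, ∀ j : ℕ, j < k → a r + j * r ∈ B)
    (hlt : upperMinkowski B < ((1 - 1 / (k : ℝ) : ℝ) : EReal)) :
    ∃ c : ℝ, 0 < c ∧ ∃ n1 : ℕ, ∀ n, n1 ≤ n → c * n ≤ W n := by
  classical
  obtain ⟨v, hv1, hv2⟩ := EReal.lt_iff_exists_real_btwn.1 hlt
  rw [EReal.coe_lt_coe_iff] at hv2
  set u : ℝ := 1 - 1 / (k : ℝ) with hu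
  set ε : ℝ := u - v with hεdef
  have hε : 0 < ε := by rw [hεdef]; linarith
  have hv : v = u - ε := by rw [hεdef]; ring
  rw [hv] at hv1
  have hu1 : u ≤ 1 := by
    rw [hu]
    have : 0 ≤ 1 / (k : ℝ) := by positivity
    linarith
  obtain ⟨p, hp, hcore⟩ := core k hk ε hε
  obtain ⟨n0, hn0⟩ := small_cover hv1
  have hK : ∀ n, n0 ≤ n → ((cells B n).ncard : ℝ) ≤ 3 * (2 : ℝ) ^ ((u - ε) * n) := by
    intro n hn
    have h1 : ((cells B n).ncard : ℝ) ≤ ((3 * coverNum B ((2 : ℝ) ^ n)⁻¹ : ℕ) : ℝ) := by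
      exact_mod_cast cells_le_coverNum hBb n
    push_cast at h1
    have := hn0 n hn
    linarith
  set R' : Set ℝ := R ∩ Set.Ico 0 1 with hR'
  have h01 : ∀ r ∈ R', 0 ≤ r ∧ r < 1 := fun r hr => hr.2
  have hvol' : volume R' ≠ 0 := by
    intro h0
    apply hvol
    have hsub : R ⊆ R' ∪ {1} := by
      intro r hr
      rcases (hR hr).2.lt_or_eq with h1 | h1
      · exact Or.inl ⟨hr, (hR hr).1, h1⟩
      · exact Or.inr h1
    refine measure_mono_null hsub (measure_union_null h0 Real.volume_singleton)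
  have hfin : volume R' ≠ ⊤ := by
    have : volume R' ≤ volume (Set.Ico (0 : ℝ) 1) := measure_mono Set.inter_subset_right
    refine ne_top_of_le_ne_top ?_ this
    rw [Real.volume_Ico]
    exact ENNReal.ofReal_ne_top
  have hne : R'.Nonempty := by
    by_contra h0
    rw [Set.not_nonempty_iff_eq_empty] at h0
    rw [h0] at hvol'
    simp at hvol'
  set ρ : ℝ := (volume R').toReal with hρdef
  have hρ : 0 < ρ := ENNReal.toReal_pos hvol' hfin
  obtain ⟨c, κ, hc, hκ, T₀, hT₀⟩ := hcore ρ hρ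
  obtain ⟨T1, hT1⟩ := large_T p k hp u ε κ hε hκ
  obtain ⟨q, hq⟩ := exists_nat_ge ((p : ℝ) / ε + 1)
  have hq1 : (1 : ℝ) ≤ q := le_trans (by have : 0 ≤ (p : ℝ) / ε := by positivity
                                         linarith) hq
  have hq1' : 1 ≤ q := by exact_mod_cast hq1
  have hpq : (p : ℝ) ≤ ε * q := by
    have : (p : ℝ) / ε ≤ q := by linarith
    rw [div_le_iff₀ hε] at this
    linarith
  -- the variation at level `p T` is large
  have key : ∀ T, T₀ ≤ T → T1 ≤ T → n0 ≤ T → ∀ M, p * T ≤ M → ∀ s : ℕ → ℝ, (∀ i, s i ∈ R') →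
      (∀ n, n ≤ M → ∀ r ∈ R',
        ⌊(2 : ℝ) ^ n * s (⌊(2 : ℝ) ^ n * r⌋₊ * 2 ^ (M - n))⌋₊ = ⌊(2 : ℝ) ^ n * r⌋₊) →
      c * T < ∑ i ∈ range (2 ^ (p * T)),
        |a (s ((i + 1) * 2 ^ (M - p * T))) - a (s (i * 2 ^ (M - p * T)))| := by
    intro T hTa hTb hTc M hM s hs hsel
    by_contra hle
    rw [not_lt] at hle
    set n := p * T with hn
    set g : ℕ → ℝ := fun i => (2 : ℝ) ^ n * a (s (i * 2 ^ (M - n))) with hg
    set L : Finset ℕ := (range (2 ^ n)).filter (fun i => ∃ r ∈ R', ⌊(2 : ℝ) ^ n * r⌋₊ = i) with hL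
    have hpow : (2 ^ p) ^ T = 2 ^ n := by rw [hn, pow_mul]
    have hLmem : ∀ r ∈ R', ⌊(2 : ℝ) ^ n * r⌋₊ ∈ L := by
      intro r hr
      rw [hL, Finset.mem_filter, Finset.mem_range]
      refine ⟨?_, r, hr, rfl⟩
      have h1 : (2 : ℝ) ^ n * r < ((2 ^ n : ℕ) : ℝ) := by
        push_cast
        have := (h01 r hr).2
        have hp : (0 : ℝ) < 2 ^ n := by positivity
        nlinarith
      exact (Nat.floor_lt (mul_nonneg (by positivity) (h01 r hr).1)).2 h1
    have hLc := many R' h01 n L hLmem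
    have hVar : Var g (2 ^ n) ≤ c * T * ((2 ^ n : ℕ) : ℝ) := by
      have e1 : Var g (2 ^ n) = 2 ^ n * ∑ i ∈ range (2 ^ n),
          |a (s ((i + 1) * 2 ^ (M - n))) - a (s (i * 2 ^ (M - n)))| := by
        unfold Var
        rw [Finset.mul_sum]
        refine Finset.sum_congr rfl fun i _ => ?_
        simp only [hg]
        rw [← mul_sub, abs_mul, abs_of_pos (show (0 : ℝ) < 2 ^ n by positivity)]
      rw [e1]
      push_cast
      have hp : (0 : ℝ) < 2 ^ n := by positivity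
      nlinarith
    have hcr := hT₀ T hTa g L (by rw [hpow]; exact Finset.filter_subset _ _)
      (by rw [hpow]; push_cast; exact hLc) (by rw [hpow]; exact hVar)
    obtain ⟨j, hj, hcard⟩ := hcr
    have hr : ∀ i ∈ L, 0 ≤ s (i * 2 ^ (M - n)) ∧ ⌊(2 : ℝ) ^ n * s (i * 2 ^ (M - n))⌋₊ = i := by
      intro i hi
      rw [hL, Finset.mem_filter] at hi
      obtain ⟨_, r, hrR, hri⟩ := hi
      refine ⟨(h01 _ (hs _)).1, ?_⟩
      have := hsel n hM r hrR
      rw [hri] at this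
      exact this
    have him := image_le hBb n k j hj L (fun i => a (s (i * 2 ^ (M - n))))
      (fun i => s (i * 2 ^ (M - n))) hr (fun i _ => hB _ (hs _).1 j hj)
    have him' : ((L.image (fun x : ℕ => ⌊g x + (j : ℝ) * x⌋)).card : ℝ) ≤
        ((k : ℝ) + 1) * (cells B n).ncard := by
      have h8 : ((L.image (fun x : ℕ => ⌊g x + (j : ℝ) * x⌋)).card : ℝ) ≤
          (((k + 1) * (cells B n).ncard : ℕ) : ℝ) := Nat.cast_le.2 him
      rwa [Nat.cast_mul, Nat.cast_add, Nat.cast_one] at h8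
    have hn0' : n0 ≤ n := hTc.trans (by rw [hn]; exact Nat.le_mul_of_pos_left _ hp)
    have h5 := hK n hn0'
    have h6 := hT1 T hTb
    have h7 : ((k : ℝ) + 1) * (cells B n).ncard ≤ 3 * ((k : ℝ) + 1) *
        (2 : ℝ) ^ ((u - ε) * (n : ℝ)) := by
      have : (0 : ℝ) ≤ (k : ℝ) + 1 := by positivity
      nlinarith
    linarith
  obtain ⟨C, hC⟩ := hreg
  refine ⟨c / (2 * p * (|C| + 1)), by
    have : (0 : ℝ) < p := by exact_mod_cast (show 0 < p by omega)
    positivity, 2 * p * (T₀ + T1 + n0 + 1), fun n hn => ?_⟩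
  set T := n / p with hT
  have hpp : (0 : ℝ) < p := by exact_mod_cast (show 0 < p by omega)
  have hTn : p * T ≤ n := Nat.mul_div_le n p
  have hTn2 : n < p * (T + 1) := Nat.lt_mul_div_succ n (show 0 < p by omega)
  have hTbig : T₀ + T1 + n0 + 1 ≤ T := by
    rw [hT, Nat.le_div_iff_mul_le (by omega)]
    calc (T₀ + T1 + n0 + 1) * p ≤ 2 * p * (T₀ + T1 + n0 + 1) := by
          have : (T₀ + T1 + n0 + 1) * p = p * (T₀ + T1 + n0 + 1) := by ring
          rw [this, mul_assoc 2]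
          omega
      _ ≤ n := hn
  obtain ⟨s, hsR, hsm, hsel⟩ := select R' hne h01 (p * T)
  have k1 := key T (by omega) (by omega) (by omega) (p * T) le_rfl s hsR hsel
  simp only [Nat.sub_self, pow_zero, mul_one] at k1
  have k2 := hC n (2 ^ (p * T)) s (Nat.pow_le_pow_right (by norm_num) hTn) hsm
    (fun i => (hsR i).1)
  have k3 : C * W n ≤ (|C| + 1) * W n := by
    have := le_abs_self C
    have := hpos n
    nlinarith
  have k4 : (n : ℝ) ≤ 2 * p * T := by
    have h1 : n ≤ 2 * p * T := by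
      have : p * (T + 1) ≤ 2 * p * T := by
        have : p * (T + 1) = p * T + p * 1 := by ring
        have h2 : p * 1 ≤ p * T := Nat.mul_le_mul_left _ (by omega)
        have h3 : 2 * p * T = p * T + p * T := by ring
        omega
      omega
    exact_mod_cast h1
  have hCp : 0 < |C| + 1 := by positivity
  have k5 : c / (2 * p * (|C| + 1)) * n ≤ c * T / (|C| + 1) := by
    calc c / (2 * p * (|C| + 1)) * n ≤ c / (2 * p * (|C| + 1)) * (2 * p * T) :=
          mul_le_mul_of_nonneg_left k4 (by positivity)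
      _ = c * T / (|C| + 1) := by field_simp
  refine k5.trans ?_
  rw [div_le_iff₀ hCp]
  linarith

end Pool.Agent.U999.OD
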