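import Mathlib
import Pool.Agent.U999.OD.V1

set_option autoImplicit false

namespace Pool.Agent.U999.OD

open Finset Filter Topology MeasureTheory

/-- the excess of the variation over the increment -/
noncomputable def ex (F : ℕ → ℝ) (s e : ℕ) : ℝ :=
  ∑ i ∈ Finset.Ico s e, |F (i + 1) - F i| - |F e - F s|

theorem up_count (F φ : ℕ → ℝ) (s e : ℕ) (hse : s ≤ e) (h0 : 0 ≤ F e - F s)
    (hφ : ∀ i j, |φ i - φ j| = |(F i + (i : ℝ) / 2) - (F j + (j : ℝ) / 2)|) (L : Finset ℕ)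
    (hL : L ⊆ Finset.Ico s e) :
    (L.card : ℝ) - 2 * ex F s e ≤ 4 * ((L.image fun i => ⌊φ i⌋).card : ℝ) := by
  classical
  set u : ℕ → ℝ := fun i => 2 * F i + i with hu
  have h1 := sun u e (e - s) s (by omega)
  set bad := (Finset.Ico s e).filter
    (fun i => ∃ e', i < e' ∧ e' ≤ e ∧ u e' - u i < ((e' : ℝ) - i) / 2) with hbad
  have h2 : ∑ i ∈ Finset.Ico s e, max 0 (1 - (u (i + 1) - u i)) = ex F s e := by
    have e1 : ∀ i ∈ Finset.Ico s e, max 0 (1 - (u (i + 1) - u i)) =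
        |F (i + 1) - F i| - (F (i + 1) - F i) := by
      intro i _
      have e2 : 1 - (u (i + 1) - u i) = -(2 * (F (i + 1) - F i)) := by
        simp only [hu]; push_cast; ring
      rw [e2]
      rcases le_total 0 (F (i + 1) - F i) with h | h
      · rw [max_eq_left (by linarith), abs_of_nonneg h, sub_self]
      · rw [max_eq_right (by linarith), abs_of_nonpos h]; ring
    rw [Finset.sum_congr rfl e1, Finset.sum_sub_distrib, Finset.sum_Ico_sub _ hse]
    unfold ex
    rw [abs_of_nonneg h0]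
  rw [h2] at h1
  set good := L.filter (fun i => i ∉ bad) with hgood
  have h3 : (L.card : ℝ) ≤ good.card + bad.card := by
    have : L ⊆ good ∪ bad := by
      intro i hi
      rw [Finset.mem_union, hgood, Finset.mem_filter]
      by_cases h : i ∈ bad
      · exact Or.inr h
      · exact Or.inl ⟨hi, h⟩
    have h4 := (Finset.card_le_card this).trans (Finset.card_union_le _ _)
    exact_mod_cast h4
  have h5 : good.card ≤ 4 * (L.image fun i => ⌊φ i⌋).card := by
    refine Finset.card_le_mul_card_image_of_maps_to (f := fun i => ⌊φ i⌋)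
      (fun i hi => Finset.mem_image_of_mem (fun i => ⌊φ i⌋) (Finset.mem_filter.1 hi).1) 4 ?_
    intro z _
    by_cases hne : (good.filter fun i => ⌊φ i⌋ = z).Nonempty
    · set i0 := (good.filter fun i => ⌊φ i⌋ = z).min' hne with hi0
      have hi0m := Finset.min'_mem _ hne
      rw [← hi0, Finset.mem_filter] at hi0m
      have hsub : (good.filter fun i => ⌊φ i⌋ = z) ⊆ Finset.Ico i0 (i0 + 4) := by
        intro i hi
        have hle := Finset.min'_le _ i hi
        rw [← hi0] at hle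
        rw [Finset.mem_filter] at hi
        rw [Finset.mem_Ico]
        refine ⟨hle, ?_⟩
        by_contra hcon
        push Not at hcon
        have hi0g := (Finset.mem_filter.1 hi0m.1)
        have hig := (Finset.mem_filter.1 hi.1)
        have hiI := Finset.mem_Ico.1 (hL hig.1)
        have h6 : ¬ (u i - u i0 < ((i : ℝ) - i0) / 2) := by
          intro hlt
          apply hi0g.2
          rw [hbad, Finset.mem_filter]
          exact ⟨hL hi0g.1, i, by omega, hiI.2.le, hlt⟩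
        push Not at h6
        have h7 : |φ i - φ i0| < 1 := by
          have := Int.abs_sub_lt_one_of_floor_eq_floor (hi.2.trans hi0m.2.symm)
          exact this
        rw [hφ] at h7
        have h8 := (abs_lt.1 h7).2
        have h9 : ((i0 : ℝ) + 4) ≤ i := by exact_mod_cast hcon
        simp only [hu] at h6
        linarith
      refine (Finset.card_le_card hsub).trans ?_
      rw [Nat.card_Ico]
      omega
    · rw [Finset.not_nonempty_iff_eq_empty] at hne
      rw [hne]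
      simp
  have h6 : (good.card : ℝ) ≤ 4 * ((L.image fun i => ⌊φ i⌋).card : ℝ) := by exact_mod_cast h5
  linarith

/-- the telescoping of the variations along the scales -/
theorem ex_sum (F : ℕ → ℝ) (Q m : ℕ) :
    ∑ β ∈ range m, ex F (β * Q) ((β + 1) * Q) =
      ∑ i ∈ range (m * Q), |F (i + 1) - F i| - ∑ β ∈ range m, |F ((β + 1) * Q) - F (β * Q)| := by
  unfold ex
  rw [Finset.sum_sub_distrib]
  congr 1
  have := sum_Ico_blocks (fun i => |F (i + 1) - F i|) Q 0 m (Nat.zero_le _)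
  rw [Nat.zero_mul, ← Finset.range_eq_Ico, ← Finset.range_eq_Ico] at this
  exact this

theorem exists_block (F : ℕ → ℝ) (n' n : ℕ) (hn : n' ≤ n) (L : Finset ℕ) (hL : L ⊆ range (2 ^ n)) :
    ∃ β < 2 ^ n', (L.card : ℝ) - 2 * (∑ i ∈ range (2 ^ n), |F (i + 1) - F i| -
        ∑ β ∈ range (2 ^ n'), |F ((β + 1) * 2 ^ (n - n')) - F (β * 2 ^ (n - n'))|) ≤
      2 ^ n' * (((L.filter fun i => i / 2 ^ (n - n') = β).card : ℝ) -
        2 * ex F (β * 2 ^ (n - n')) ((β + 1) * 2 ^ (n - n'))) := by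
  classical
  set Q := 2 ^ (n - n') with hQ
  have hQ0 : 0 < Q := by positivity
  have hmQ : 2 ^ n' * Q = 2 ^ n := by rw [hQ, ← pow_add]; congr 1; omega
  have h1 := ex_sum F Q (2 ^ n')
  rw [hmQ] at h1
  have h2 : (L.card : ℝ) = ∑ β ∈ range (2 ^ n'), ((L.filter fun i => i / Q = β).card : ℝ) := by
    have := Finset.card_eq_sum_card_fiberwise (f := fun i => i / Q) (s := L) (t := range (2 ^ n'))
      (by
        intro i hi
        rw [Finset.mem_coe, Finset.mem_range]
        rw [Nat.div_lt_iff_lt_mul hQ0, hmQ]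
        exact Finset.mem_range.1 (hL hi))
    exact_mod_cast this
  by_contra hcon
  push Not at hcon
  rw [← h1] at hcon
  have h3 : ∑ β ∈ range (2 ^ n'), ((2 : ℝ) ^ n' * (((L.filter fun i => i / Q = β).card : ℝ) -
      2 * ex F (β * Q) ((β + 1) * Q))) < ∑ β ∈ range (2 ^ n'), ((L.card : ℝ) -
        2 * ∑ β ∈ range (2 ^ n'), ex F (β * Q) ((β + 1) * Q)) := by
    refine Finset.sum_lt_sum_of_nonempty ?_ fun β hβ => hcon β (Finset.mem_range.1 hβ)
    exact ⟨0, Finset.mem_range.2 (by positivity)⟩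
  rw [← Finset.mul_sum, Finset.sum_sub_distrib, ← h2, ← Finset.mul_sum, Finset.sum_const,
    Finset.card_range, nsmul_eq_mul] at h3
  push_cast at h3
  exact lt_irrefl _ h3

/-- one window -/
theorem one_win {B : Set ℝ} (hBb : Bornology.IsBounded B) (n' n : ℕ) (hn : n' ≤ n) (L : Finset ℕ)
    (hL : L ⊆ range (2 ^ n)) (A r : ℕ → ℝ) (hr : ∀ i ∈ L, 0 ≤ r i ∧ ⌊(2 : ℝ) ^ n * r i⌋₊ = i)
    (hB : ∀ i ∈ L, ∀ j : ℕ, j < 2 → A i + j * r i ∈ B) (ρ : ℝ) (hρ : ρ * 2 ^ n ≤ L.card) :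
    (2 : ℝ) ^ (n - n') * (ρ - 2 * (∑ i ∈ range (2 ^ n), |(A (i + 1) + (i + 1 : ℕ) / 2 ^ (n + 1)) -
        (A i + (i : ℕ) / 2 ^ (n + 1))| -
        ∑ β ∈ range (2 ^ n'), |(A ((β + 1) * 2 ^ (n - n')) +
          ((β + 1) * 2 ^ (n - n') : ℕ) / 2 ^ (n + 1)) -
          (A (β * 2 ^ (n - n')) + (β * 2 ^ (n - n') : ℕ) / 2 ^ (n + 1))|)) ≤
      12 * ((cells B n).ncard : ℝ) := by
  classical
  have hp : (0 : ℝ) < 2 ^ n := by positivity
  set F : ℕ → ℝ := fun i => 2 ^ n * (A i + (i : ℕ) / 2 ^ (n + 1)) with hF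
  obtain ⟨β, _, hβ⟩ := exists_block F n' n hn L hL
  set Q := 2 ^ (n - n') with hQ
  have hFd : ∀ i j, |F i - F j| = 2 ^ n * |(A i + (i : ℕ) / 2 ^ (n + 1)) -
      (A j + (j : ℕ) / 2 ^ (n + 1))| := by
    intro i j
    simp only [hF]
    rw [← mul_sub, abs_mul, abs_of_pos hp]
  simp only [hFd] at hβ
  rw [← Finset.mul_sum, ← Finset.mul_sum, ← mul_sub] at hβ
  set V : ℝ := ∑ i ∈ range (2 ^ n), |(A (i + 1) + (i + 1 : ℕ) / 2 ^ (n + 1)) -
        (A i + (i : ℕ) / 2 ^ (n + 1))| -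
        ∑ β ∈ range (2 ^ n'), |(A ((β + 1) * Q) + ((β + 1) * Q : ℕ) / 2 ^ (n + 1)) -
          (A (β * Q) + (β * Q : ℕ) / 2 ^ (n + 1))| with hV
  set L' := L.filter fun i => i / Q = β with hL'
  have hQ0 : 0 < Q := by positivity
  have hL'sub : L' ⊆ Finset.Ico (β * Q) ((β + 1) * Q) := by
    intro i hi
    have h1 := (Finset.mem_filter.1 hi).2
    rw [Finset.mem_Ico]
    constructor
    · exact (Nat.le_div_iff_mul_le hQ0).1 h1.ge
    · rw [← Nat.div_lt_iff_lt_mul hQ0]; omega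
  have hse : β * Q ≤ (β + 1) * Q := Nat.mul_le_mul_right _ (Nat.le_succ _)
  have hcell : ∀ j : ℕ, j < 2 → ((L'.image fun x : ℕ => ⌊(2 : ℝ) ^ n * A x + (j : ℝ) * x⌋).card : ℝ) ≤
      3 * (cells B n).ncard := by
    intro j hj
    have h1 := image_le hBb n 2 j hj L' A r (fun i hi => hr i (Finset.mem_filter.1 hi).1)
      (fun i hi => hB i (Finset.mem_filter.1 hi).1 j hj)
    have h2 : ((L'.image fun x : ℕ => ⌊(2 : ℝ) ^ n * A x + (j : ℝ) * x⌋).card : ℝ) ≤
        (((2 + 1) * (cells B n).ncard : ℕ) : ℝ) := by exact_mod_cast h1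
    rw [Nat.cast_mul] at h2
    norm_num at h2
    exact h2
  have hFG : ∀ i : ℕ, F i + (i : ℝ) / 2 = (2 : ℝ) ^ n * A i + (1 : ℕ) * i := by
    intro i
    simp only [hF]
    rw [pow_succ]
    field_simp
    push_cast
    ring
  have hFG' : ∀ i : ℕ, -F i + (i : ℝ) / 2 = -((2 : ℝ) ^ n * A i + (0 : ℕ) * i) := by
    intro i
    simp only [hF]
    rw [pow_succ]
    field_simp
    push_cast
    ring
  have hmain : (L'.card : ℝ) - 2 * ex F (β * Q) ((β + 1) * Q) ≤ 12 * ((cells B n).ncard : ℝ) := by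
    rcases le_total 0 (F ((β + 1) * Q) - F (β * Q)) with h | h
    · have h1 := up_count F (fun x : ℕ => (2 : ℝ) ^ n * A x + ((1 : ℕ) : ℝ) * x) _ _ hse h
        (fun i j => by rw [hFG, hFG]) L' hL'sub
      have h2 := hcell 1 (by norm_num)
      linarith
    · have h1 := up_count (fun i => -F i) (fun x : ℕ => (2 : ℝ) ^ n * A x + ((0 : ℕ) : ℝ) * x) _ _ hse
        (by linarith) (fun i j => by rw [hFG', hFG', ← abs_neg]; congr 1; ring) L' hL'sub
      have h2 := hcell 0 (by norm_num)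
      have h3 : ex (fun i => -F i) (β * Q) ((β + 1) * Q) = ex F (β * Q) ((β + 1) * Q) := by
        unfold ex
        have e1 : ∀ x y : ℝ, |-x - -y| = |x - y| := fun x y => by
          rw [← abs_neg]; congr 1; ring
        simp only [e1]
      rw [h3] at h1
      linarith
  have h2n : (2 : ℝ) ^ n = 2 ^ n' * (Q : ℝ) := by
    rw [hQ]; push_cast; rw [← pow_add]; congr 1; omega
  have hn'0 : (0 : ℝ) < 2 ^ n' := by positivity
  have h4 : (2 : ℝ) ^ n' * ((Q : ℝ) * (ρ - 2 * V)) ≤ 2 ^ n' * (12 * ((cells B n).ncard : ℝ)) := by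
    calc (2 : ℝ) ^ n' * ((Q : ℝ) * (ρ - 2 * V)) = ρ * 2 ^ n - 2 * (2 ^ n * V) := by rw [h2n]; ring
      _ ≤ L.card - 2 * (2 ^ n * V) := by linarith
      _ ≤ 2 ^ n' * ((L'.card : ℝ) - 2 * ex F (β * Q) ((β + 1) * Q)) := hβ
      _ ≤ _ := mul_le_mul_of_nonneg_left hmain hn'0.le
  have h5 := le_of_mul_le_mul_left h4 hn'0
  have hQr : (Q : ℝ) = 2 ^ (n - n') := by rw [hQ]; push_cast; rfl
  rw [hQr] at h5
  exact h5

end Pool.Agent.U999.OD
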