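import Mathlib
import Pool.Agent.U999.OD.V2

set_option autoImplicit false

namespace Pool.Agent.U999.OD

open Finset Filter Topology MeasureTheory

/-- the variation of `G` along the multiples of `2 ^ (M - m)` -/
noncomputable def VV (G : ℕ → ℝ) (M m : ℕ) : ℝ :=
  ∑ i ∈ range (2 ^ m), |G ((i + 1) * 2 ^ (M - m)) - G (i * 2 ^ (M - m))|

theorem VV_nonneg (G : ℕ → ℝ) (M m : ℕ) : 0 ≤ VV G M m :=
  Finset.sum_nonneg fun _ _ => abs_nonneg _

theorem lowB (W : ℕ → ℝ) (hpos : ∀ n, 0 < W n)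
    (R : Set ℝ) (hR : R ⊆ Set.Icc 0 1) (hvol : volume R ≠ 0)
    (a : ℝ → ℝ) (hreg : HasVar W R a) (B : Set ℝ) (hBb : Bornology.IsBounded B)
    (hB : ∀ r ∈ R, ∀ j : ℕ, j < 2 → a r + j * r ∈ B)
    (hlt : upperMinkowski B < ((1 : ℝ) : EReal)) :
    ∃ c : ℝ, 0 < c ∧ ∃ n1 : ℕ, ∀ n, n1 ≤ n → c * Real.log n ≤ W n := by
  classical
  obtain ⟨v, hv1, hv2⟩ := EReal.lt_iff_exists_real_btwn.1 hlt
  rw [EReal.coe_lt_coe_iff] at hv2
  set v' : ℝ := max v (1 / 2) with hv'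
  have hv'1 : v' < 1 := max_lt hv2 (by norm_num)
  have hv'v : upperMinkowski B < (v' : EReal) :=
    lt_of_lt_of_le hv1 (EReal.coe_le_coe_iff.2 (le_max_left _ _))
  set ε : ℝ := 1 - v' with hεdef
  have hε : 0 < ε := by rw [hεdef]; linarith
  obtain ⟨n0, hn0⟩ := small_cover hv'v
  have hK : ∀ n, n0 ≤ n → ((cells B n).ncard : ℝ) ≤ 3 * (2 : ℝ) ^ ((1 - ε) * n) := by
    intro n hn
    have h1 : ((cells B n).ncard : ℝ) ≤ ((3 * coverNum B ((2 : ℝ) ^ n)⁻¹ : ℕ) : ℝ) := by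
      exact_mod_cast cells_le_coverNum hBb n
    push_cast at h1
    have h2 := hn0 n hn
    have h3 : 1 - ε = v' := by rw [hεdef]; ring
    rw [h3]
    linarith
  set R' : Set ℝ := R ∩ Set.Ico 0 1 with hR'
  have h01 : ∀ r ∈ R', 0 ≤ r ∧ r < 1 := fun r hr => hr.2
  have hvol' : volume R' ≠ 0 := by
    intro h0
    apply hvol
    have hsub : R ⊆ R' ∪ {1} := by
      intro r hr
      rcases (hR hr).2.lt_or_eq with h1 | h1
      · exact Or.inl ⟨hr, (hR hr).1, h1⟩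
      · exact Or.inr h1
    refine measure_mono_null hsub (measure_union_null h0 Real.volume_singleton)
  have hfin : volume R' ≠ ⊤ := by
    have : volume R' ≤ volume (Set.Ico (0 : ℝ) 1) := measure_mono Set.inter_subset_right
    refine ne_top_of_le_ne_top ?_ this
    rw [Real.volume_Ico]
    exact ENNReal.ofReal_ne_top
  have hne : R'.Nonempty := by
    by_contra h0
    rw [Set.not_nonempty_iff_eq_empty] at h0
    rw [h0] at hvol'
    simp at hvol'
  set ρ : ℝ := (volume R').toReal with hρdef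
  have hρ : 0 < ρ := ENNReal.toReal_pos hvol' hfin
  obtain ⟨Λ, hΛ⟩ := exists_nat_ge (2 / ε + 2)
  have hΛ2r : (2 : ℝ) ≤ Λ := le_trans (by have : 0 < 2 / ε := by positivity
                                          linarith) hΛ
  have hΛ2 : 2 ≤ Λ := by exact_mod_cast hΛ2r
  have hΛε : 2 ≤ ε * Λ := by
    have : 2 / ε ≤ Λ := by linarith
    rw [div_le_iff₀ hε] at this
    linarith
  -- the level from which on every window is rough
  obtain ⟨n2, hn2⟩ : ∃ n2 : ℕ, ∀ n : ℕ, n2 ≤ n → 36 * (2 : ℝ) ^ (-(ε / 2 * n)) ≤ ρ / 2 := by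
    have hb : (1 : ℝ) < (2 : ℝ) ^ (ε / 2) := Real.one_lt_rpow (by norm_num) (by positivity)
    have h1 := (tendsto_pow_atTop_atTop_of_one_lt hb).eventually_ge_atTop (72 / ρ)
    obtain ⟨n2, hn2⟩ := eventually_atTop.1 h1
    refine ⟨n2, fun n hn => ?_⟩
    have h2 := hn2 n hn
    rw [Real.rpow_neg (by norm_num)]
    have h3 : ((2 : ℝ) ^ (ε / 2)) ^ n = (2 : ℝ) ^ (ε / 2 * n) := by
      rw [← Real.rpow_natCast, ← Real.rpow_mul (by norm_num)]
    rw [h3] at h2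
    have h4 : (0 : ℝ) < (2 : ℝ) ^ (ε / 2 * (n : ℝ)) := by positivity
    rw [div_le_iff₀ hρ] at h2
    rw [← div_eq_mul_inv, div_le_iff₀ h4]
    linarith
  set s0 := n0 + n2 with hs0
  have hself : ∀ s : ℕ, s ≤ Λ ^ s := fun s => (Nat.lt_pow_self (by omega)).le
  -- all windows are rough
  have key : ∀ S : ℕ, ∀ c : ℕ → ℝ, (∀ i, c i ∈ R') →
      (∀ n, n ≤ Λ ^ S → ∀ r ∈ R',
        ⌊(2 : ℝ) ^ n * c (⌊(2 : ℝ) ^ n * r⌋₊ * 2 ^ (Λ ^ S - n))⌋₊ = ⌊(2 : ℝ) ^ n * r⌋₊) →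
      ∀ s, s0 ≤ s → s < S →
      ρ / 4 ≤ VV (fun l => a (c l) + (l : ℝ) / 2 ^ (Λ ^ S + 1)) (Λ ^ S) (Λ ^ (s + 1)) -
        VV (fun l => a (c l) + (l : ℝ) / 2 ^ (Λ ^ S + 1)) (Λ ^ S) (Λ ^ s) := by
    intro S c hc hsel s hs hsS
    set M := Λ ^ S with hM
    set n := Λ ^ (s + 1) with hn
    set n' := Λ ^ s with hn'
    have hnM : n ≤ M := Nat.pow_le_pow_right (by omega) hsS
    have hn'n : n' ≤ n := Nat.pow_le_pow_right (by omega) (Nat.le_succ s)
    set L : Finset ℕ := (range (2 ^ n)).filter (fun i => ∃ r ∈ R', ⌊(2 : ℝ) ^ n * r⌋₊ = i) with hL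
    have hLmem : ∀ r ∈ R', ⌊(2 : ℝ) ^ n * r⌋₊ ∈ L := by
      intro r hr
      rw [hL, Finset.mem_filter, Finset.mem_range]
      refine ⟨?_, r, hr, rfl⟩
      have h1 : (2 : ℝ) ^ n * r < ((2 ^ n : ℕ) : ℝ) := by
        push_cast
        have := (h01 r hr).2
        have hp : (0 : ℝ) < 2 ^ n := by positivity
        nlinarith
      exact (Nat.floor_lt (mul_nonneg (by positivity) (h01 r hr).1)).2 h1
    have hLc := many R' h01 n L hLmem
    have hr : ∀ i ∈ L, 0 ≤ c (i * 2 ^ (M - n)) ∧ ⌊(2 : ℝ) ^ n * c (i * 2 ^ (M - n))⌋₊ = i := by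
      intro i hi
      rw [hL, Finset.mem_filter] at hi
      obtain ⟨_, r, hrR, hri⟩ := hi
      refine ⟨(h01 _ (hc _)).1, ?_⟩
      have := hsel n hnM r hrR
      rw [hri] at this
      exact this
    have h1 := one_win hBb n' n hn'n L (Finset.filter_subset _ _) (fun i => a (c (i * 2 ^ (M - n))))
      (fun i => c (i * 2 ^ (M - n))) hr (fun i _ j hj => hB _ (hc _).1 j hj) ρ hLc
    have hdiv : ∀ m, m ≤ M → ∀ i : ℕ, ((i * 2 ^ (M - m) : ℕ) : ℝ) / 2 ^ (M + 1) = i / 2 ^ (m + 1) := by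
      intro m hm i
      have : (2 : ℝ) ^ (M + 1) = 2 ^ (M - m) * 2 ^ (m + 1) := by rw [← pow_add]; congr 1; omega
      rw [this]
      push_cast
      field_simp
    have e1 : ∑ i ∈ range (2 ^ n), |(a (c ((i + 1) * 2 ^ (M - n))) + ((i + 1 : ℕ) : ℝ) / 2 ^ (n + 1)) -
        (a (c (i * 2 ^ (M - n))) + ((i : ℕ) : ℝ) / 2 ^ (n + 1))| =
        VV (fun l => a (c l) + (l : ℝ) / 2 ^ (M + 1)) M n := by
      unfold VV
      refine Finset.sum_congr rfl fun i _ => ?_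
      simp only [hdiv n hnM]
    have e2 : ∑ β ∈ range (2 ^ n'), |(a (c ((β + 1) * 2 ^ (n - n') * 2 ^ (M - n))) +
          (((β + 1) * 2 ^ (n - n') : ℕ) : ℝ) / 2 ^ (n + 1)) -
          (a (c (β * 2 ^ (n - n') * 2 ^ (M - n))) + ((β * 2 ^ (n - n') : ℕ) : ℝ) / 2 ^ (n + 1))| =
        VV (fun l => a (c l) + (l : ℝ) / 2 ^ (M + 1)) M n' := by
      unfold VV
      have e3 : ∀ i : ℕ, i * 2 ^ (n - n') * 2 ^ (M - n) = i * 2 ^ (M - n') := by
        intro i
        rw [mul_assoc, ← pow_add]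
        congr 2
        omega
      have e4 : ∀ i : ℕ, ((i * 2 ^ (n - n') : ℕ) : ℝ) / 2 ^ (n + 1) =
          ((i * 2 ^ (M - n') : ℕ) : ℝ) / 2 ^ (M + 1) := by
        intro i
        rw [← hdiv n hnM, e3]
      refine Finset.sum_congr rfl fun i _ => ?_
      simp only [e3, e4]
    rw [e1, e2] at h1
    set inc := VV (fun l => a (c l) + (l : ℝ) / 2 ^ (M + 1)) M n -
      VV (fun l => a (c l) + (l : ℝ) / 2 ^ (M + 1)) M n' with hinc
    have hn0' : n0 ≤ n := by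
      have := hself (s + 1)
      rw [← hn] at this
      omega
    have hn2' : n2 ≤ n := by
      have := hself (s + 1)
      rw [← hn] at this
      omega
    have h2 := hK n hn0'
    have h3 := hn2 n hn2'
    have h4 : (2 : ℝ) ^ (n - n') * (ρ - 2 * inc) ≤ 36 * (2 : ℝ) ^ ((1 - ε) * n) := by linarith
    have h5 : (36 : ℝ) * (2 : ℝ) ^ ((1 - ε) * n) ≤ (2 : ℝ) ^ (n - n') * (ρ / 2) := by
      have e5 : (2 : ℝ) ^ ((1 - ε) * (n : ℝ)) ≤ (2 : ℝ) ^ (n - n') * (2 : ℝ) ^ (-(ε / 2 * n)) := by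
        rw [← Real.rpow_natCast 2 (n - n'), ← Real.rpow_add (by norm_num)]
        apply Real.rpow_le_rpow_of_exponent_le (by norm_num)
        rw [Nat.cast_sub hn'n]
        have e6 : (n : ℝ) = Λ * n' := by
          rw [hn, hn']; push_cast; rw [pow_succ]; ring
        have e7 : (0 : ℝ) ≤ n' := Nat.cast_nonneg _
        rw [e6]
        nlinarith
      have hp2 : (0 : ℝ) < (2 : ℝ) ^ (n - n') := by positivity
      calc (36 : ℝ) * (2 : ℝ) ^ ((1 - ε) * (n : ℝ)) ≤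
            36 * ((2 : ℝ) ^ (n - n') * (2 : ℝ) ^ (-(ε / 2 * n))) :=
            mul_le_mul_of_nonneg_left e5 (by norm_num)
        _ = (2 : ℝ) ^ (n - n') * (36 * (2 : ℝ) ^ (-(ε / 2 * n))) := by ring
        _ ≤ (2 : ℝ) ^ (n - n') * (ρ / 2) := mul_le_mul_of_nonneg_left h3 hp2.le
    have h6 := le_of_mul_le_mul_left (h4.trans h5) (show (0 : ℝ) < (2 : ℝ) ^ (n - n') by positivity)
    linarith
  obtain ⟨C, hC⟩ := hreg
  -- the sum over the windows
  have hsum : ∀ S : ℕ, s0 ≤ S → ∀ n : ℕ, Λ ^ S ≤ n →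
      ((S : ℝ) - s0) * (ρ / 4) ≤ (|C| + 1) * W n + 1 / 2 := by
    intro S hS n hn
    obtain ⟨c, hcR, hcm, hsel⟩ := select R' hne h01 (Λ ^ S)
    have hkey := key S c hcR hsel
    set G : ℕ → ℝ := fun l => a (c l) + (l : ℝ) / 2 ^ (Λ ^ S + 1) with hG
    have h1 : ∀ s ∈ Finset.Ico s0 S, ρ / 4 ≤ VV G (Λ ^ S) (Λ ^ (s + 1)) - VV G (Λ ^ S) (Λ ^ s) := by
      intro s hs
      rw [Finset.mem_Ico] at hs
      exact hkey s hs.1 hs.2
    have h2 := Finset.sum_le_sum h1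
    rw [Finset.sum_const, Nat.card_Ico, nsmul_eq_mul,
      Finset.sum_Ico_sub (fun s => VV G (Λ ^ S) (Λ ^ s)) hS, Nat.cast_sub hS] at h2
    have h3 := VV_nonneg G (Λ ^ S) (Λ ^ s0)
    have h4 : VV G (Λ ^ S) (Λ ^ S) ≤ C * W n + 1 / 2 := by
      unfold VV
      simp only [Nat.sub_self, pow_zero, mul_one]
      have h5 := hC n (2 ^ (Λ ^ S)) c (Nat.pow_le_pow_right (by norm_num) hn) hcm
        (fun i => (hcR i).1)
      have h6 : ∀ i ∈ range (2 ^ (Λ ^ S)), |G (i + 1) - G i| ≤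
          |a (c (i + 1)) - a (c i)| + 1 / 2 ^ (Λ ^ S + 1) := by
        intro i _
        have e1 : G (i + 1) - G i = (a (c (i + 1)) - a (c i)) + 1 / 2 ^ (Λ ^ S + 1) := by
          simp only [hG]; push_cast; ring
        rw [e1]
        refine (abs_add_le _ _).trans ?_
        rw [abs_of_pos (show (0 : ℝ) < 1 / 2 ^ (Λ ^ S + 1) by positivity)]
      refine (Finset.sum_le_sum h6).trans ?_
      rw [Finset.sum_add_distrib, Finset.sum_const, Finset.card_range, nsmul_eq_mul]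
      have e2 : ((2 ^ (Λ ^ S) : ℕ) : ℝ) * (1 / 2 ^ (Λ ^ S + 1)) = 1 / 2 := by
        push_cast
        rw [pow_succ]
        field_simp
      rw [e2]
      linarith
    have h7 : C * W n ≤ (|C| + 1) * W n := by
      have := le_abs_self C
      have := hpos n
      nlinarith
    linarith
  have hlogΛ : 0 < Real.log Λ := Real.log_pos (by linarith)
  have hCp : 0 < |C| + 1 := by positivity
  refine ⟨ρ / (8 * Real.log Λ * (|C| + 1)), by positivity, ?_⟩
  have htend : Tendsto (fun n : ℕ => Real.log (n : ℝ)) atTop atTop :=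
    Real.tendsto_log_atTop.comp tendsto_natCast_atTop_atTop
  obtain ⟨n3, hn3⟩ := eventually_atTop.1 (htend.eventually_ge_atTop
    ((((1 : ℝ) + s0) * (ρ / 4) + 1 / 2) * (8 * Real.log Λ / ρ)))
  refine ⟨max n3 (Λ ^ s0 + 1), fun n hn => ?_⟩
  have hn3' := hn3 n ((le_max_left _ _).trans hn)
  have hnΛ : Λ ^ s0 + 1 ≤ n := (le_max_right _ _).trans hn
  set S := Nat.log Λ n with hS
  have hS1 : Λ ^ S ≤ n := Nat.pow_log_le_self Λ (by omega)
  have hS2 : n < Λ ^ (S + 1) := Nat.lt_pow_succ_log_self (by omega) n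
  have hS0 : s0 ≤ S := by
    by_contra hcon
    push Not at hcon
    have : Λ ^ (S + 1) ≤ Λ ^ s0 := Nat.pow_le_pow_right (by omega) hcon
    omega
  have h1 := hsum S hS0 n hS1
  have hn0r : (0 : ℝ) < n := by exact_mod_cast (show 0 < n by omega)
  have h2 : Real.log n ≤ ((S : ℝ) + 1) * Real.log Λ := by
    have h3 : (n : ℝ) ≤ (Λ : ℝ) ^ (S + 1) := by exact_mod_cast hS2.le
    have h4 := Real.log_le_log hn0r h3
    rw [Real.log_pow] at h4
    push_cast at h4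
    exact h4
  have h5 : Real.log n / Real.log Λ ≤ (S : ℝ) + 1 := by
    rw [div_le_iff₀ hlogΛ]; exact h2
  have h6 : ((1 : ℝ) + s0) * (ρ / 4) + 1 / 2 ≤ ρ / (8 * Real.log Λ) * Real.log n := by
    have h7 : (((1 : ℝ) + s0) * (ρ / 4) + 1 / 2) * (8 * Real.log Λ / ρ) * (ρ / (8 * Real.log Λ)) =
        ((1 : ℝ) + s0) * (ρ / 4) + 1 / 2 := by field_simp
    have h8 := mul_le_mul_of_nonneg_right hn3' (show 0 ≤ ρ / (8 * Real.log Λ) by positivity)
    rw [h7] at h8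
    linarith
  have h9 : ρ / (8 * Real.log Λ) * Real.log n = (Real.log n / Real.log Λ) * (ρ / 8) := by
    field_simp
  have h10 : (Real.log n / Real.log Λ) * (ρ / 4) ≤ ((S : ℝ) + 1) * (ρ / 4) :=
    mul_le_mul_of_nonneg_right h5 (by positivity)
  have h11 : ρ / (8 * Real.log Λ * (|C| + 1)) * Real.log n =
      (ρ / (8 * Real.log Λ) * Real.log n) / (|C| + 1) := by field_simp
  rw [h11, div_le_iff₀ hCp]
  have h12 : (Real.log n / Real.log Λ) * (ρ / 4) = 2 * (ρ / (8 * Real.log Λ) * Real.log n) := by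
    rw [h9]; ring
  rw [h12] at h10
  nlinarith

end Pool.Agent.U999.OD
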