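import Mathlib
import Pool.Agent.U999.OD.V3
import Pool.Agent.U999.OD.PB
import Pool.Agent.U999.OD.PC

set_option autoImplicit false

namespace Pool.Agent.U999.OD

open Finset Filter Topology MeasureTheory

theorem ser_tail (b : ℕ) (hb : 2 ≤ b) (f : ℕ → ℝ) (W y : ℝ) (hW : 0 ≤ W) (hf : ∀ i, |f i| ≤ W)
    (hy : HasSum (fun i => f i / (b : ℝ) ^ (i + 1)) y) (n : ℕ) :
    |y - ∑ i ∈ range n, f i / (b : ℝ) ^ (i + 1)| ≤ W / (b : ℝ) ^ n := by
  have h1 : HasSum (fun i => (if i < n then f i / (b : ℝ) ^ (i + 1) else 0))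
      (∑ i ∈ range n, (if i < n then f i / (b : ℝ) ^ (i + 1) else 0)) := by
    apply hasSum_sum_of_ne_finset_zero
    intro i hi
    rw [Finset.mem_range] at hi
    rw [if_neg hi]
  have h2 : ∑ i ∈ range n, (if i < n then f i / (b : ℝ) ^ (i + 1) else 0) =
      ∑ i ∈ range n, f i / (b : ℝ) ^ (i + 1) :=
    Finset.sum_congr rfl fun i hi => by rw [if_pos (Finset.mem_range.1 hi)]
  rw [h2] at h1
  refine ser_bound b hb (fun i => if i < n then 0 else f i) W _ n hW ?_ ?_ ?_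
  · intro i hi
    rw [if_neg (by omega)]
    exact hf i
  · intro i hi
    rw [if_pos hi]
  · have h3 := hy.sub h1
    have e : (fun i => (if i < n then 0 else f i) / (b : ℝ) ^ (i + 1)) =
        fun i => f i / (b : ℝ) ^ (i + 1) - (if i < n then f i / (b : ℝ) ^ (i + 1) else 0) := by
      funext i
      split_ifs <;> simp
    rw [e]
    exact h3

/-- the number of changes of the floor along a monotone sequence -/
theorem chg (b m N : ℕ) (x : ℕ → ℝ) (hx : Monotone x) (h01 : ∀ i, x i ∈ Set.Icc (0 : ℝ) 1) :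
    (((range N).filter fun i => ⌊(b : ℝ) ^ m * x i⌋₊ ≠ ⌊(b : ℝ) ^ m * x (i + 1)⌋₊).card : ℝ) ≤
      (b : ℝ) ^ m := by
  classical
  have hp : (0 : ℝ) ≤ (b : ℝ) ^ m := by positivity
  have hmono : ∀ i, ⌊(b : ℝ) ^ m * x i⌋₊ ≤ ⌊(b : ℝ) ^ m * x (i + 1)⌋₊ := fun i =>
    Nat.floor_le_floor (mul_le_mul_of_nonneg_left (hx (Nat.le_succ i)) hp)
  have h1 : (((range N).filter fun i => ⌊(b : ℝ) ^ m * x i⌋₊ ≠ ⌊(b : ℝ) ^ m * x (i + 1)⌋₊).card : ℝ) ≤
      ∑ i ∈ range N, ((⌊(b : ℝ) ^ m * x (i + 1)⌋₊ : ℝ) - ⌊(b : ℝ) ^ m * x i⌋₊) := by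
    rw [Finset.card_filter]
    push_cast
    refine Finset.sum_le_sum fun i _ => ?_
    split_ifs with h
    · have h2 := lt_of_le_of_ne (hmono i) h
      have h3 : ((⌊(b : ℝ) ^ m * x i⌋₊ : ℝ) + 1) ≤ ⌊(b : ℝ) ^ m * x (i + 1)⌋₊ := by exact_mod_cast h2
      linarith
    · have h3 : (⌊(b : ℝ) ^ m * x i⌋₊ : ℝ) ≤ ⌊(b : ℝ) ^ m * x (i + 1)⌋₊ := by exact_mod_cast hmono i
      linarith
  refine h1.trans ?_
  rw [Finset.sum_range_sub (fun i => ((⌊(b : ℝ) ^ m * x i⌋₊ : ℕ) : ℝ))]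
  have h4 : ((⌊(b : ℝ) ^ m * x N⌋₊ : ℕ) : ℝ) ≤ (b : ℝ) ^ m * x N :=
    Nat.floor_le (mul_nonneg hp (h01 N).1)
  have h5 : (b : ℝ) ^ m * x N ≤ (b : ℝ) ^ m * 1 := mul_le_mul_of_nonneg_left (h01 N).2 hp
  have h6 : (0 : ℝ) ≤ ((⌊(b : ℝ) ^ m * x 0⌋₊ : ℕ) : ℝ) := Nat.cast_nonneg _
  linarith

/-- equal floors give equal digits, also at `1` -/
theorem dg_same (b : ℕ) (hb : 2 ≤ b) (x y : ℝ) (hx : x ∈ Set.Icc (0 : ℝ) 1)
    (hy : y ∈ Set.Icc (0 : ℝ) 1) (i : ℕ)
    (h : ⌊(b : ℝ) ^ (i + 1) * x⌋₊ = ⌊(b : ℝ) ^ (i + 1) * y⌋₊) : dg b x i = dg b y i := by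
  have hb0 : (0 : ℝ) < b := by exact_mod_cast (show 0 < b by omega)
  have hone : ∀ z : ℝ, z ∈ Set.Icc (0 : ℝ) 1 → (z < 1 ↔ ⌊(b : ℝ) ^ (i + 1) * z⌋₊ < b ^ (i + 1)) := by
    intro z hz
    rw [Nat.floor_lt (mul_nonneg (by positivity) hz.1)]
    push_cast
    have hp : (0 : ℝ) < (b : ℝ) ^ (i + 1) := by positivity
    constructor
    · intro h1
      nlinarith
    · intro h1
      by_contra hcon
      push Not at hcon
      nlinarith
  have h1 : (x < 1) ↔ (y < 1) := by rw [hone x hx, hone y hy, h]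
  unfold dg
  by_cases hx1 : x < 1
  · rw [if_pos hx1, if_pos (h1.1 hx1), h]
  · rw [if_neg hx1, if_neg (fun hy1 => hx1 (h1.2 hy1))]

/-- the variation of a digit function with bounded digit maps -/
theorem var_dig (b : ℕ) (hb : 2 ≤ b) (α : ℕ → ℝ) (W : ℝ) (hW : 0 ≤ W) (hα : ∀ v < b, |α v| ≤ W)
    (a : ℝ → ℝ) (ha : ∀ r, HasSum (fun i => α (dg b r i) / (b : ℝ) ^ (i + 1)) (a r))
    (n N : ℕ) (x : ℕ → ℝ) (hN : N ≤ 2 ^ n) (hx : Monotone x) (h01 : ∀ i, x i ∈ Set.Icc (0 : ℝ) 1) :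
    ∑ l ∈ range N, |a (x (l + 1)) - a (x l)| ≤ 2 * W + 2 * W * n := by
  classical
  have hb' : (2 : ℝ) ≤ b := by exact_mod_cast hb
  have hb0 : (0 : ℝ) < b := by linarith
  have hd : ∀ l, |a (x (l + 1)) - a (x l)| ≤ (∑ i ∈ range n,
      |α (dg b (x (l + 1)) i) - α (dg b (x l) i)| / (b : ℝ) ^ (i + 1)) + 2 * W / (b : ℝ) ^ n := by
    intro l
    have h1 : HasSum (fun i => (α (dg b (x (l + 1)) i) - α (dg b (x l) i)) / (b : ℝ) ^ (i + 1))
        (a (x (l + 1)) - a (x l)) := by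
      have h0 := (ha (x (l + 1))).sub (ha (x l))
      have e : (fun i => (α (dg b (x (l + 1)) i) - α (dg b (x l) i)) / (b : ℝ) ^ (i + 1)) =
          fun i => α (dg b (x (l + 1)) i) / (b : ℝ) ^ (i + 1) -
            α (dg b (x l) i) / (b : ℝ) ^ (i + 1) := by
        funext i; rw [sub_div]
      rw [e]
      exact h0
    have hbd : ∀ i, |α (dg b (x (l + 1)) i) - α (dg b (x l) i)| ≤ 2 * W := fun i => by
      have e1 := hα _ (dg_lt b hb (x (l + 1)) i)
      have e2 := hα _ (dg_lt b hb (x l) i)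
      refine (abs_sub _ _).trans ?_
      linarith
    have h2 := ser_tail b hb _ (2 * W) _ (by linarith) hbd h1 n
    have h3 : |∑ i ∈ range n, (α (dg b (x (l + 1)) i) - α (dg b (x l) i)) / (b : ℝ) ^ (i + 1)| ≤
        ∑ i ∈ range n, |α (dg b (x (l + 1)) i) - α (dg b (x l) i)| / (b : ℝ) ^ (i + 1) := by
      refine (Finset.abs_sum_le_sum_abs _ _).trans (le_of_eq ?_)
      refine Finset.sum_congr rfl fun i _ => ?_
      rw [abs_div, abs_of_pos (show (0 : ℝ) < (b : ℝ) ^ (i + 1) by positivity)]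
    have h4 : a (x (l + 1)) - a (x l) = (a (x (l + 1)) - a (x l) -
        ∑ i ∈ range n, (α (dg b (x (l + 1)) i) - α (dg b (x l) i)) / (b : ℝ) ^ (i + 1)) +
        ∑ i ∈ range n, (α (dg b (x (l + 1)) i) - α (dg b (x l) i)) / (b : ℝ) ^ (i + 1) := by ring
    rw [h4]
    refine (abs_add_le _ _).trans ?_
    linarith
  refine (Finset.sum_le_sum fun l _ => hd l).trans ?_
  rw [Finset.sum_add_distrib, Finset.sum_comm, Finset.sum_const, Finset.card_range, nsmul_eq_mul]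
  have h5 : ∀ i ∈ range n, ∑ l ∈ range N,
      |α (dg b (x (l + 1)) i) - α (dg b (x l) i)| / (b : ℝ) ^ (i + 1) ≤ 2 * W := by
    intro i _
    have hp : (0 : ℝ) < (b : ℝ) ^ (i + 1) := by positivity
    have h6 : ∀ l ∈ range N, |α (dg b (x (l + 1)) i) - α (dg b (x l) i)| / (b : ℝ) ^ (i + 1) ≤
        (if ⌊(b : ℝ) ^ (i + 1) * x l⌋₊ ≠ ⌊(b : ℝ) ^ (i + 1) * x (l + 1)⌋₊ then (1 : ℝ) else 0) *
          (2 * W / (b : ℝ) ^ (i + 1)) := by
      intro l _
      split_ifs with h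
      · rw [one_mul]
        refine div_le_div_of_nonneg_right ?_ hp.le
        have e1 := hα _ (dg_lt b hb (x (l + 1)) i)
        have e2 := hα _ (dg_lt b hb (x l) i)
        refine (abs_sub _ _).trans ?_
        linarith
      · push Not at h
        rw [dg_same b hb _ _ (h01 l) (h01 (l + 1)) i h]
        simp
    refine (Finset.sum_le_sum h6).trans ?_
    rw [← Finset.sum_mul]
    have h7 := chg b (i + 1) N x hx h01
    have h8 : (∑ l ∈ range N, (if ⌊(b : ℝ) ^ (i + 1) * x l⌋₊ ≠ ⌊(b : ℝ) ^ (i + 1) * x (l + 1)⌋₊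
        then (1 : ℝ) else 0)) ≤ (b : ℝ) ^ (i + 1) := by
      rw [Finset.card_filter, Nat.cast_sum] at h7
      refine le_trans (le_of_eq ?_) h7
      refine Finset.sum_congr rfl fun l _ => ?_
      split_ifs <;> simp
    calc _ ≤ (b : ℝ) ^ (i + 1) * (2 * W / (b : ℝ) ^ (i + 1)) :=
          mul_le_mul_of_nonneg_right h8 (by positivity)
      _ = 2 * W := by field_simp
  have h9 := Finset.sum_le_sum h5
  rw [Finset.sum_const, Finset.card_range, nsmul_eq_mul] at h9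
  have h10 : (N : ℝ) * (2 * W / (b : ℝ) ^ n) ≤ 2 * W := by
    have e1 : (N : ℝ) ≤ (b : ℝ) ^ n := by
      calc (N : ℝ) ≤ (2 : ℝ) ^ n := by exact_mod_cast hN
        _ ≤ (b : ℝ) ^ n := pow_le_pow_left₀ (by norm_num) hb' n
    calc (N : ℝ) * (2 * W / (b : ℝ) ^ n) ≤ (b : ℝ) ^ n * (2 * W / (b : ℝ) ^ n) :=
          mul_le_mul_of_nonneg_right e1 (by positivity)
      _ = 2 * W := by field_simp
  linarith

/-- partial sums of the expansion -/
noncomputable def DD (b m : ℕ) (r : ℝ) : ℝ := ∑ i ∈ range m, (dg b r i : ℝ) / (b : ℝ) ^ (i + 1)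

theorem DD_mono (b : ℕ) (hb : 2 ≤ b) (m : ℕ) (x y : ℝ) (hxy : x ≤ y) (hx : 0 ≤ x) :
    DD b m x ≤ DD b m y := by
  have hb0 : (0 : ℝ) < b := by exact_mod_cast (show 0 < b by omega)
  by_cases hy : y < 1
  · unfold DD
    rw [dg_psum b hb x (by linarith), dg_psum b hb y hy]
    refine div_le_div_of_nonneg_right ?_ (by positivity)
    have h1 := Nat.floor_le_floor (mul_le_mul_of_nonneg_left hxy
      (show (0 : ℝ) ≤ (b : ℝ) ^ m by positivity))
    exact_mod_cast h1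
  · unfold DD
    refine Finset.sum_le_sum fun i _ => ?_
    refine div_le_div_of_nonneg_right ?_ (by positivity)
    have h1 : dg b y i = b - 1 := by unfold dg; rw [if_neg hy]
    have h2 := dg_lt b hb x i
    rw [h1]
    exact_mod_cast (show dg b x i ≤ b - 1 by omega)

theorem DD_bd (b : ℕ) (hb : 2 ≤ b) (m : ℕ) (r : ℝ) : 0 ≤ DD b m r ∧ DD b m r ≤ 1 := by
  have hb' : (2 : ℝ) ≤ b := by exact_mod_cast hb
  have hb0 : (0 : ℝ) < b := by linarith
  constructor
  · exact Finset.sum_nonneg fun i _ => by positivity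
  · have h1 : DD b m r ≤ ∑ i ∈ range m, ((b : ℝ) - 1) / (b : ℝ) ^ (i + 1) := by
      refine Finset.sum_le_sum fun i _ => ?_
      refine div_le_div_of_nonneg_right ?_ (by positivity)
      have h2 := dg_lt b hb r i
      have h3 : ((dg b r i : ℝ) + 1) ≤ b := by exact_mod_cast h2
      linarith
    refine h1.trans ?_
    have h2 : ∀ m : ℕ, ∑ i ∈ range m, ((b : ℝ) - 1) / (b : ℝ) ^ (i + 1) = 1 - 1 / (b : ℝ) ^ m := by
      intro m
      induction m with
      | zero => simp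
      | succ m ih =>
        rw [Finset.sum_range_succ, ih, pow_succ]
        field_simp
        ring
    rw [h2]
    have : 0 < 1 / (b : ℝ) ^ m := by positivity
    linarith

theorem DD_var (b : ℕ) (hb : 2 ≤ b) (m N : ℕ) (x : ℕ → ℝ) (hx : Monotone x)
    (h01 : ∀ i, x i ∈ Set.Icc (0 : ℝ) 1) :
    ∑ l ∈ range N, |DD b m (x (l + 1)) - DD b m (x l)| ≤ 1 := by
  have h1 : ∀ l ∈ range N, |DD b m (x (l + 1)) - DD b m (x l)| =
      DD b m (x (l + 1)) - DD b m (x l) := by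
    intro l _
    rw [abs_of_nonneg]
    have := DD_mono b hb m (x l) (x (l + 1)) (hx (Nat.le_succ l)) (h01 l).1
    linarith
  rw [Finset.sum_congr rfl h1, Finset.sum_range_sub (fun l => DD b m (x l))]
  have h2 := (DD_bd b hb m (x N)).2
  have h3 := (DD_bd b hb m (x 0)).1
  linarith

/-- the variation of a digit function with slowly changing slopes -/
theorem var_slope (b : ℕ) (hb : 2 ≤ b) (σ : ℕ → ℕ) (k : ℕ) (hσ : ∀ i, σ i < k) (E : ℝ)
    (hE : 0 ≤ E) (hfac : ∀ (i d : ℕ), d < b → |(0 - (σ i : ℝ)) * d| ≤ E)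
    (a : ℝ → ℝ)
    (ha : ∀ r, HasSum (fun i => (0 - (σ i : ℝ)) * (dg b r i : ℝ) / (b : ℝ) ^ (i + 1)) (a r))
    (n N : ℕ) (x : ℕ → ℝ) (hN : N ≤ 2 ^ n) (hx : Monotone x) (h01 : ∀ i, x i ∈ Set.Icc (0 : ℝ) 1) :
    ∑ l ∈ range N, |a (x (l + 1)) - a (x l)| ≤
      k + 2 * E + k * (((range n).filter fun i => σ (i + 1) ≠ σ i).card : ℝ) := by
  classical
  have hb' : (2 : ℝ) ≤ b := by exact_mod_cast hb
  have hb0 : (0 : ℝ) < b := by linarith
  have habel : ∀ (n : ℕ) (r : ℝ), ∑ i ∈ range n, (0 - (σ i : ℝ)) * (dg b r i : ℝ) / (b : ℝ) ^ (i + 1) =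
      -(σ n : ℝ) * DD b n r + ∑ i ∈ range n, ((σ (i + 1) : ℝ) - σ i) * DD b (i + 1) r := by
    intro n r
    induction n with
    | zero => simp [DD]
    | succ n ih =>
      rw [Finset.sum_range_succ, ih, Finset.sum_range_succ]
      have h1 : DD b (n + 1) r = DD b n r + (dg b r n : ℝ) / (b : ℝ) ^ (n + 1) := by
        unfold DD; rw [Finset.sum_range_succ]
      rw [h1]
      ring
  have hd : ∀ l, |a (x (l + 1)) - a (x l)| ≤ (k : ℝ) * |DD b n (x (l + 1)) - DD b n (x l)| +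
      (∑ i ∈ range n, (if σ (i + 1) ≠ σ i then (k : ℝ) else 0) *
        |DD b (i + 1) (x (l + 1)) - DD b (i + 1) (x l)|) + 2 * E / (b : ℝ) ^ n := by
    intro l
    have t1 := ser_tail b hb (fun i => (0 - (σ i : ℝ)) * (dg b (x (l + 1)) i : ℝ)) E _ hE
      (fun i => hfac i _ (dg_lt b hb _ i)) (ha (x (l + 1))) n
    have t2 := ser_tail b hb (fun i => (0 - (σ i : ℝ)) * (dg b (x l) i : ℝ)) E _ hE
      (fun i => hfac i _ (dg_lt b hb _ i)) (ha (x l)) n
    rw [habel] at t1 t2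
    have e1 : a (x (l + 1)) - a (x l) =
        (a (x (l + 1)) - (-(σ n : ℝ) * DD b n (x (l + 1)) +
          ∑ i ∈ range n, ((σ (i + 1) : ℝ) - σ i) * DD b (i + 1) (x (l + 1)))) -
        (a (x l) - (-(σ n : ℝ) * DD b n (x l) +
          ∑ i ∈ range n, ((σ (i + 1) : ℝ) - σ i) * DD b (i + 1) (x l))) +
        (-(σ n : ℝ) * (DD b n (x (l + 1)) - DD b n (x l)) +
          ∑ i ∈ range n, ((σ (i + 1) : ℝ) - σ i) *
            (DD b (i + 1) (x (l + 1)) - DD b (i + 1) (x l))) := by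
      simp only [mul_sub, Finset.sum_sub_distrib]
      ring
    rw [e1]
    refine (abs_add_le _ _).trans ?_
    have e2 := abs_sub (a (x (l + 1)) - (-(σ n : ℝ) * DD b n (x (l + 1)) +
          ∑ i ∈ range n, ((σ (i + 1) : ℝ) - σ i) * DD b (i + 1) (x (l + 1))))
        (a (x l) - (-(σ n : ℝ) * DD b n (x l) +
          ∑ i ∈ range n, ((σ (i + 1) : ℝ) - σ i) * DD b (i + 1) (x l)))
    have e3 : |(-(σ n : ℝ) * (DD b n (x (l + 1)) - DD b n (x l)) +
          ∑ i ∈ range n, ((σ (i + 1) : ℝ) - σ i) *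
            (DD b (i + 1) (x (l + 1)) - DD b (i + 1) (x l)))| ≤
        (k : ℝ) * |DD b n (x (l + 1)) - DD b n (x l)| +
      (∑ i ∈ range n, (if σ (i + 1) ≠ σ i then (k : ℝ) else 0) *
        |DD b (i + 1) (x (l + 1)) - DD b (i + 1) (x l)|) := by
      refine (abs_add_le _ _).trans (add_le_add ?_ ?_)
      · rw [abs_mul, abs_neg, abs_of_nonneg (Nat.cast_nonneg _)]
        refine mul_le_mul_of_nonneg_right ?_ (abs_nonneg _)
        exact_mod_cast (hσ n).le
      · refine (Finset.abs_sum_le_sum_abs _ _).trans (Finset.sum_le_sum fun i _ => ?_)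
        rw [abs_mul]
        refine mul_le_mul_of_nonneg_right ?_ (abs_nonneg _)
        split_ifs with h
        · have e4 : (σ (i + 1) : ℝ) ≤ k := by exact_mod_cast (hσ (i + 1)).le
          have e5 : (σ i : ℝ) ≤ k := by exact_mod_cast (hσ i).le
          have e6 := Nat.cast_nonneg (α := ℝ) (σ (i + 1))
          have e7 := Nat.cast_nonneg (α := ℝ) (σ i)
          rw [abs_le]
          constructor <;> linarith
        · push Not at h
          rw [h, sub_self, abs_zero]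
    have e8 : 2 * E / (b : ℝ) ^ n = E / (b : ℝ) ^ n + E / (b : ℝ) ^ n := by ring
    rw [e8]
    linarith
  refine (Finset.sum_le_sum fun l _ => hd l).trans ?_
  rw [Finset.sum_add_distrib, Finset.sum_add_distrib, ← Finset.mul_sum, Finset.sum_comm,
    Finset.sum_const, Finset.card_range, nsmul_eq_mul]
  have h1 := DD_var b hb n N x hx h01
  have h2 : ∑ i ∈ range n, ∑ l ∈ range N, (if σ (i + 1) ≠ σ i then (k : ℝ) else 0) *
        |DD b (i + 1) (x (l + 1)) - DD b (i + 1) (x l)| ≤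
      k * (((range n).filter fun i => σ (i + 1) ≠ σ i).card : ℝ) := by
    have h3 : ∀ i ∈ range n, ∑ l ∈ range N, (if σ (i + 1) ≠ σ i then (k : ℝ) else 0) *
        |DD b (i + 1) (x (l + 1)) - DD b (i + 1) (x l)| ≤
        k * (if σ (i + 1) ≠ σ i then (1 : ℝ) else 0) := by
      intro i _
      rw [← Finset.mul_sum]
      have h4 := DD_var b hb (i + 1) N x hx h01
      have hk0 : (0 : ℝ) ≤ k := Nat.cast_nonneg k
      split_ifs with h
      · rw [mul_one]
        nlinarith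
      · rw [zero_mul, mul_zero]
    refine (Finset.sum_le_sum h3).trans (le_of_eq ?_)
    rw [← Finset.mul_sum, Finset.card_filter]
    push_cast
    rfl
  have hk0 : (0 : ℝ) ≤ k := Nat.cast_nonneg k
  have h10 : (N : ℝ) * (2 * E / (b : ℝ) ^ n) ≤ 2 * E := by
    have e1 : (N : ℝ) ≤ (b : ℝ) ^ n := by
      calc (N : ℝ) ≤ (2 : ℝ) ^ n := by exact_mod_cast hN
        _ ≤ (b : ℝ) ^ n := pow_le_pow_left₀ (by norm_num) hb' n
    calc (N : ℝ) * (2 * E / (b : ℝ) ^ n) ≤ (b : ℝ) ^ n * (2 * E / (b : ℝ) ^ n) :=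
          mul_le_mul_of_nonneg_right e1 (by positivity)
      _ = 2 * E := by field_simp
  have h11 : (k : ℝ) * ∑ l ∈ range N, |DD b n (x (l + 1)) - DD b n (x l)| ≤ k := by nlinarith
  linarith

/-- the number of changes of the slope -/
theorem chg_count (k s : ℕ) (hk : 1 ≤ k) (hs : 1 ≤ s) (n : ℕ) :
    (((range n).filter fun i => sg k s (i + 1) ≠ sg k s i).card : ℝ) ≤
      k * (2 + Real.log n / Real.log (1 + 1 / (s : ℝ))) := by
  classical
  have hsr : (1 : ℝ) ≤ s := by exact_mod_cast hs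
  have hkr : (1 : ℝ) ≤ k := by exact_mod_cast hk
  have hgrow : ∀ c : ℕ, (1 + 1 / (s : ℝ)) ^ c ≤ P k s (c + 1) := by
    intro c
    induction c with
    | zero =>
      have : P k s (0 + 1) = k := by simp [P]
      rw [this, pow_zero]
      exact hkr
    | succ c ih =>
      have e1 : P k s (c + 1 + 1) = P k s (c + 1) + k * (P k s (c + 1) / s + 1) := rfl
      have e2 : (P k s (c + 1) : ℝ) / s ≤ ((P k s (c + 1) / s + 1 : ℕ) : ℝ) := by
        rw [div_le_iff₀ (by linarith)]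
        have h3 : P k s (c + 1) < s * (P k s (c + 1) / s + 1) := Nat.lt_mul_div_succ _ (by omega)
        have h4 : (P k s (c + 1) : ℝ) ≤ ((s * (P k s (c + 1) / s + 1) : ℕ) : ℝ) := by
          exact_mod_cast h3.le
        rw [Nat.cast_mul] at h4
        linarith
      rw [e1, pow_succ]
      rw [Nat.cast_add, Nat.cast_mul]
      have e3 : (0 : ℝ) ≤ ((P k s (c + 1) / s + 1 : ℕ) : ℝ) := Nat.cast_nonneg _
      have e4 : (1 + 1 / (s : ℝ)) ^ c * (1 + 1 / (s : ℝ)) ≤ P k s (c + 1) * (1 + 1 / (s : ℝ)) :=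
        mul_le_mul_of_nonneg_right ih (by positivity)
      have e5 : (P k s (c + 1) : ℝ) * (1 + 1 / (s : ℝ)) = P k s (c + 1) + P k s (c + 1) / s := by ring
      nlinarith
  have hlog : 0 < Real.log (1 + 1 / (s : ℝ)) := Real.log_pos (by
    have : 0 < 1 / (s : ℝ) := by positivity
    linarith)
  set C : ℕ := ⌊Real.log n / Real.log (1 + 1 / (s : ℝ))⌋₊ + 1 with hC
  have hcount : ∀ c, P k s c ≤ n → c ≤ C := by
    intro c hc
    rcases Nat.eq_zero_or_pos c with h0 | h0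
    · omega
    · obtain ⟨c', rfl⟩ : ∃ c', c = c' + 1 := ⟨c - 1, by omega⟩
      have h1 := hgrow c'
      have h2 : (1 + 1 / (s : ℝ)) ^ c' ≤ n := h1.trans (by exact_mod_cast hc)
      have h3 := Real.log_le_log (by positivity) h2
      rw [Real.log_pow] at h3
      have h4 : (c' : ℝ) ≤ Real.log n / Real.log (1 + 1 / (s : ℝ)) := by
        rw [le_div_iff₀ hlog]; exact h3
      have h5 := Nat.le_floor h4
      omega
  have hsub : ((range n).filter fun i => sg k s (i + 1) ≠ sg k s i) ⊆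
      ((range (C + 1)) ×ˢ (range k)).image
        (fun u => P k s u.1 + (u.2 + 1) * (P k s u.1 / s + 1) - 1) := by
    intro i hi
    rw [Finset.mem_filter, Finset.mem_range] at hi
    obtain ⟨c, j, hj, h1, h2, h3⟩ := block_end k s hk i
    have h4 : i + 1 = P k s c + (j + 1) * (P k s c / s + 1) := by
      by_contra hne
      have h5 := h3 (i + 1) (by omega) (by omega)
      exact hi.2 (h5.trans h1.symm)
    have h5 : P k s c ≤ n := by omega
    rw [Finset.mem_image]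
    refine ⟨(c, j), ?_, ?_⟩
    · rw [Finset.mem_product, Finset.mem_range, Finset.mem_range]
      exact ⟨Nat.lt_succ_of_le (hcount c h5), hj⟩
    · simp only
      omega
  have h1 := (Finset.card_le_card hsub).trans Finset.card_image_le
  rw [Finset.card_product, Finset.card_range, Finset.card_range] at h1
  have h2 : (((range n).filter fun i => sg k s (i + 1) ≠ sg k s i).card : ℝ) ≤
      (((C + 1) * k : ℕ) : ℝ) := by exact_mod_cast h1
  refine h2.trans ?_
  rw [Nat.cast_mul, Nat.cast_add, Nat.cast_one, hC, Nat.cast_add, Nat.cast_one]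
  have hln : 0 ≤ Real.log (n : ℝ) := Real.log_natCast_nonneg n
  have h3 := Nat.floor_le (show 0 ≤ Real.log n / Real.log (1 + 1 / (s : ℝ)) by positivity)
  have h4 : (0 : ℝ) ≤ k := by linarith
  nlinarith

/-- absorbing the constants -/
theorem absorb (W : ℕ → ℝ) (hpos : ∀ n, 0 < W n) (f : ℕ → ℝ) (hf0 : ∀ n, 0 ≤ f n) (n2 : ℕ)
    (hf1 : ∀ n, n2 ≤ n → 1 ≤ f n) (c : ℝ) (hc : 0 < c) (n1 : ℕ) (h : ∀ n, n1 ≤ n → c * f n ≤ W n)
    (K1 K2 : ℝ) (h1 : 0 ≤ K1) (h2 : 0 ≤ K2) : ∃ C : ℝ, ∀ n, K1 + K2 * f n ≤ C * W n := by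
  classical
  refine ⟨∑ n ∈ range (max n1 n2), (K1 + K2 * f n) / W n + (K1 + K2) / c, fun n => ?_⟩
  have hterm : ∀ n, 0 ≤ (K1 + K2 * f n) / W n := fun n => by
    have := hpos n
    have := hf0 n
    positivity
  have hsum0 : 0 ≤ ∑ n ∈ range (max n1 n2), (K1 + K2 * f n) / W n :=
    Finset.sum_nonneg fun n _ => hterm n
  have hWn := hpos n
  by_cases hn : n < max n1 n2
  · have h3 := Finset.single_le_sum (f := fun n => (K1 + K2 * f n) / W n) (fun n _ => hterm n)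
      (Finset.mem_range.2 hn)
    have h4 : (K1 + K2 * f n) / W n * W n = K1 + K2 * f n := div_mul_cancel₀ _ hWn.ne'
    rw [← h4]
    refine mul_le_mul_of_nonneg_right ?_ hWn.le
    have : 0 ≤ (K1 + K2) / c := by positivity
    have h5 : (fun n => (K1 + K2 * f n) / W n) n = (K1 + K2 * f n) / W n := rfl
    linarith
  · push Not at hn
    have h3 := h n ((le_max_left _ _).trans hn)
    have h4 := hf1 n ((le_max_right _ _).trans hn)
    have h5 : K1 + K2 * f n ≤ (K1 + K2) * f n := by nlinarith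
    have h6 : (K1 + K2) * f n ≤ (K1 + K2) / c * W n := by
      calc (K1 + K2) * f n = (K1 + K2) / c * (c * f n) := by field_simp
        _ ≤ (K1 + K2) / c * W n := mul_le_mul_of_nonneg_left h3 (by positivity)
    have h7 : 0 ≤ (∑ n ∈ range (max n1 n2), (K1 + K2 * f n) / W n) * W n :=
      mul_nonneg hsum0 hWn.le
    rw [add_mul]
    linarith

end Pool.Agent.U999.OD
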