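import Mathlib
import Pool.Agent.U999.OD.V4
import Pool.Agent.U999.OD.Asm

set_option autoImplicit false

namespace Pool.Agent.U999.OD

open Finset Filter Topology MeasureTheory

theorem partC2 (W : ℕ → ℝ) (hpos : ∀ n, 0 < W n) (c1 : ℝ) (hc1 : 0 < c1) (n1 : ℕ)
    (hW : ∀ n, n1 ≤ n → c1 * Real.log n ≤ W n) (k : ℕ) (hk : 1 ≤ k) (θ : ℝ) (hθ : 0 < θ) :
    ∃ (B : Set ℝ) (a : ℝ → ℝ), Bornology.IsBounded B ∧
      (∀ r ∈ Set.Icc (0 : ℝ) 1, ∀ j : ℕ, j < k → a r + j * r ∈ B) ∧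
      HasVar W (Set.Icc 0 1) a ∧
      upperMinkowski B ≤ ((1 - 1 / (k : ℝ) + θ : ℝ) : EReal) := by
  classical
  obtain ⟨s, hs⟩ := exists_nat_ge (1 / θ + 1)
  have hs1r : (1 : ℝ) ≤ s := le_trans (by have : 0 < 1 / θ := by positivity
                                          linarith) hs
  have hs1 : 1 ≤ s := by exact_mod_cast hs1r
  have hsθ : 1 / (s : ℝ) ≤ θ := by
    rw [div_le_iff₀ (by linarith)]
    have : 1 / θ ≤ s := by linarith
    rw [div_le_iff₀ hθ] at this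
    linarith
  have hkr : (1 : ℝ) ≤ k := by exact_mod_cast hk
  obtain ⟨b, hb⟩ : ∃ b : ℕ, b = 2 := ⟨2, rfl⟩
  have hb2 : 2 ≤ b := by omega
  have hbr : (b : ℝ) = 2 := by rw [hb]; norm_num
  have hb0 : (0 : ℝ) < b := by rw [hbr]; norm_num
  set σ := sg k s with hσ
  have hσk : ∀ i, σ i < k := sg_lt k s hk
  have hfac : ∀ (j : ℕ) (i : ℕ) (u : ℝ), j < k → |u| ≤ 1 → |((j : ℝ) - σ i) * u| ≤ k := by
    intro j i u hj hu
    rw [abs_mul]
    have e1 : (σ i : ℝ) ≤ k := by exact_mod_cast (hσk i).le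
    have e2 : (j : ℝ) ≤ k := by exact_mod_cast hj.le
    have e3 : |(j : ℝ) - σ i| ≤ k := by
      rw [abs_le]
      have := Nat.cast_nonneg (α := ℝ) j
      have := Nat.cast_nonneg (α := ℝ) (σ i)
      constructor <;> linarith
    calc |(j : ℝ) - σ i| * |u| ≤ k * 1 :=
          mul_le_mul e3 hu (abs_nonneg _) (by linarith)
      _ = k := mul_one _
  have hdg1 : ∀ (d : ℕ), d < b → |(d : ℝ)| ≤ 1 := by
    intro d hd
    rw [abs_of_nonneg (Nat.cast_nonneg _)]
    have : d ≤ 1 := by omega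
    exact_mod_cast this
  have hdd : ∀ (d d' : ℕ), d < b → d' < b → |(d : ℝ) - d'| ≤ 1 := by
    intro d d' hd hd'
    have e1 : (d : ℝ) ≤ 1 := by exact_mod_cast (show d ≤ 1 by omega)
    have e2 : (d' : ℝ) ≤ 1 := by exact_mod_cast (show d' ≤ 1 by omega)
    have := Nat.cast_nonneg (α := ℝ) d
    have := Nat.cast_nonneg (α := ℝ) d'
    rw [abs_le]
    constructor <;> linarith
  set a : ℝ → ℝ := fun r => ∑' i, (((0 : ℕ) : ℝ) - σ i) * (dg b r i : ℝ) / (b : ℝ) ^ (i + 1) with ha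
  have haS : ∀ r, HasSum (fun i => (((0 : ℕ) : ℝ) - σ i) * (dg b r i : ℝ) / (b : ℝ) ^ (i + 1))
      (a r) := by
    intro r
    exact (ser_summable b hb2 (fun i => (((0 : ℕ) : ℝ) - σ i) * (dg b r i : ℝ)) k
      (fun i => hfac 0 i _ (by omega) (hdg1 _ (dg_lt b hb2 r i)))).hasSum
  have haj : ∀ r ∈ Set.Icc (0 : ℝ) 1, ∀ j : ℕ,
      HasSum (fun i => ((j : ℝ) - σ i) * (dg b r i : ℝ) / (b : ℝ) ^ (i + 1)) (a r + j * r) := by
    intro r hr j
    have h1 := (haS r).add ((dg_sum b hb2 r hr.1 hr.2).mul_left (j : ℝ))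
    have e : (fun i => ((j : ℝ) - σ i) * (dg b r i : ℝ) / (b : ℝ) ^ (i + 1)) =
        fun i => (((0 : ℕ) : ℝ) - σ i) * (dg b r i : ℝ) / (b : ℝ) ^ (i + 1) +
          (j : ℝ) * ((dg b r i : ℝ) / (b : ℝ) ^ (i + 1)) := by
      funext i
      push_cast
      ring
    rw [e]
    exact h1
  set B : Set ℝ := {y | ∃ j : ℕ, j < k ∧ ∃ d : ℕ → ℕ, (∀ i, d i < b) ∧
    HasSum (fun i => ((j : ℝ) - σ i) * (d i : ℝ) / (b : ℝ) ^ (i + 1)) y} with hB
  refine ⟨B, a, ?_, ?_, ?_, ?_⟩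
  · rw [Metric.isBounded_iff_subset_closedBall 0]
    refine ⟨k, ?_⟩
    rintro y ⟨j, hj, d, hd, hy⟩
    have := ser_bound b hb2 (fun i => ((j : ℝ) - σ i) * (d i : ℝ)) k y 0 (by linarith)
      (fun i _ => hfac j i _ hj (hdg1 _ (hd i))) (fun i hi => absurd hi (Nat.not_lt_zero i)) hy
    rw [pow_zero, div_one] at this
    rw [Metric.mem_closedBall, Real.dist_eq, sub_zero]
    exact this
  · intro r hr j hj
    exact ⟨j, hj, fun i => dg b r i, fun i => dg_lt b hb2 r i, haj r hr j⟩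
  · have hlogs : 0 < Real.log (1 + 1 / (s : ℝ)) := Real.log_pos (by
      have : 0 < 1 / (s : ℝ) := by positivity
      linarith)
    obtain ⟨C, hC⟩ := absorb W hpos (fun n => Real.log n) (fun n => Real.log_natCast_nonneg n) 3
      (fun n hn => by
        rw [Real.le_log_iff_exp_le (by exact_mod_cast (show 0 < n by omega))]
        have h1 := Real.exp_one_lt_d9
        have h2 : (3 : ℝ) ≤ n := by exact_mod_cast hn
        linarith) c1 hc1 n1 hW (k + 2 * k + k * (k * 2)) (k * (k * (1 / Real.log (1 + 1 / (s : ℝ)))))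
      (by positivity) (by positivity)
    refine ⟨C, fun n N x hN hx h01 => ?_⟩
    have h1 := var_slope b hb2 σ k hσk k (by linarith)
      (fun i d hd => by simpa using hfac 0 i (d : ℝ) (by omega) (hdg1 d hd)) a
      (fun r => by simpa using haS r) n N x hN hx h01
    have h2 := chg_count k s hk hs1 n
    have h3 := hC n
    have h4 : (k : ℝ) * (((range n).filter fun i => σ (i + 1) ≠ σ i).card : ℝ) ≤
        k * (k * (2 + Real.log n / Real.log (1 + 1 / (s : ℝ)))) :=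
      mul_le_mul_of_nonneg_left h2 (by linarith)
    have h5 : (k : ℝ) * (k * (2 + Real.log n / Real.log (1 + 1 / (s : ℝ)))) =
        k * (k * 2) + k * (k * (1 / Real.log (1 + 1 / (s : ℝ)))) * Real.log n := by ring
    linarith
  · have hs0 : 0 ≤ 1 - 1 / (k : ℝ) + θ := by
      have : 1 / (k : ℝ) ≤ 1 := by rw [div_le_one (by linarith)]; exact hkr
      linarith
    refine dim_le B b hb2 k (2 * k) _ hs0 (by linarith) (by linarith) ?_
    intro m δ hδ
    set Pm : Finset (ℕ × Finset ℕ) := (range k).biUnion fun j =>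
      (((range m).filter (fun i => sg k s i ≠ j)).powerset).image (fun T => (j, T)) with hPm
    have h3 : coverNum B δ ≤ Fintype.card Pm := by
      refine cover_le B δ (fun φ : Pm => {y | φ.1.1 < k ∧ ∃ d : ℕ → ℕ, (∀ i, d i < b) ∧
        HasSum (fun i => ((φ.1.1 : ℝ) - σ i) * (d i : ℝ) / (b : ℝ) ^ (i + 1)) y ∧
        φ.1.2 = (range m).filter (fun i => σ i ≠ φ.1.1 ∧ d i = 1)}) ?_ ?_
      · rintro φ x ⟨hj, d, hd, hx, hφ⟩ y ⟨_, d', hd', hy, hφ'⟩
        have hdxy : HasSum (fun i => (((φ.1.1 : ℝ) - σ i) * ((d i : ℝ) - d' i)) /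
            (b : ℝ) ^ (i + 1)) (x - y) := by
          have h1 := hx.sub hy
          have e : (fun i => (((φ.1.1 : ℝ) - σ i) * ((d i : ℝ) - d' i)) / (b : ℝ) ^ (i + 1)) =
              fun i => ((φ.1.1 : ℝ) - σ i) * (d i : ℝ) / (b : ℝ) ^ (i + 1) -
                ((φ.1.1 : ℝ) - σ i) * (d' i : ℝ) / (b : ℝ) ^ (i + 1) := by
            funext i; rw [mul_sub, sub_div]
          rw [e]
          exact h1
        rw [Real.dist_eq]
        refine (ser_bound b hb2 (fun i => ((φ.1.1 : ℝ) - σ i) * ((d i : ℝ) - d' i)) k (x - y) m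
          (by linarith) (fun i _ => hfac _ i _ hj (hdd _ _ (hd i) (hd' i))) (fun i hi => ?_)
          hdxy).trans hδ
        by_cases hsi : σ i = φ.1.1
        · rw [hsi, sub_self, zero_mul]
        · have h4 : d i = 1 ↔ d' i = 1 := by
            have e1 : i ∈ φ.1.2 ↔ d i = 1 := by
              rw [hφ, Finset.mem_filter, Finset.mem_range]
              exact ⟨fun h => h.2.2, fun h => ⟨hi, hsi, h⟩⟩
            have e2 : i ∈ φ.1.2 ↔ d' i = 1 := by
              rw [hφ', Finset.mem_filter, Finset.mem_range]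
              exact ⟨fun h => h.2.2, fun h => ⟨hi, hsi, h⟩⟩
            rw [← e1, e2]
          have h5 : d i = d' i := by
            have := hd i
            have := hd' i
            omega
          rw [h5, sub_self, mul_zero]
      · rintro y ⟨j, hj, d, hd, hy⟩
        have hmem : (j, (range m).filter (fun i => σ i ≠ j ∧ d i = 1)) ∈ Pm := by
          rw [hPm, Finset.mem_biUnion]
          refine ⟨j, Finset.mem_range.2 hj, ?_⟩
          rw [Finset.mem_image]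
          refine ⟨_, ?_, rfl⟩
          rw [Finset.mem_powerset]
          intro i hi
          rw [Finset.mem_filter] at hi ⊢
          exact ⟨hi.1, hi.2.1⟩
        exact Set.mem_iUnion.2 ⟨⟨_, hmem⟩, hj, d, hd, hy, rfl⟩
    rw [Fintype.card_coe] at h3
    have h5 : (coverNum B δ : ℝ) ≤ (Pm.card : ℝ) := by exact_mod_cast h3
    refine h5.trans ((words_card k s hk hs1 m).trans ?_)
    rw [hbr]
    refine mul_le_mul_of_nonneg_left ?_ (by linarith)
    apply Real.rpow_le_rpow_of_exponent_le (by norm_num)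
    exact mul_le_mul_of_nonneg_right (by linarith) (Nat.cast_nonneg m)

theorem partB2 (W : ℕ → ℝ) (hpos : ∀ n, 0 < W n) (c1 : ℝ) (hc1 : 0 < c1) (nW : ℕ)
    (hWl : ∀ n : ℕ, nW ≤ n → c1 * (n : ℝ) ≤ W n) (k : ℕ) (hk : 1 ≤ k) (B0 : Set ℝ)
    (hB0b : Bornology.IsBounded B0) (a0 : ℝ → ℝ)
    (hB0 : ∀ r ∈ Set.Icc (0 : ℝ) 1, ∀ j : ℕ, j < k → a0 r + j * r ∈ B0) (s : ℝ)
    (hs0 : upperMinkowski B0 < (s : EReal)) :
    ∃ (B : Set ℝ) (a : ℝ → ℝ), Bornology.IsBounded B ∧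
      (∀ r ∈ Set.Icc (0 : ℝ) 1, ∀ j : ℕ, j < k → a r + j * r ∈ B) ∧
      HasVar W (Set.Icc 0 1) a ∧
      upperMinkowski B ≤ (s : EReal) := by
  classical
  obtain ⟨s', h1, h2⟩ := EReal.lt_iff_exists_real_btwn.1 hs0
  rw [EReal.coe_lt_coe_iff] at h2
  obtain ⟨n0, hn0⟩ := small_cover h1
  obtain ⟨n1, hn1⟩ := exists_nat_ge (2 / (s - s'))
  set N : ℕ := max (max n0 n1) 2 with hN
  have hN2 : 2 ≤ N := le_max_right _ _
  have hNn0 : n0 ≤ N := (le_max_left _ _).trans (le_max_left _ _)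
  have hNn1 : n1 ≤ N := (le_max_right _ _).trans (le_max_left _ _)
  set b : ℕ := 2 ^ N with hb
  have hb2 : 2 ≤ b := by
    rw [hb]
    calc 2 = 2 ^ 1 := by norm_num
      _ ≤ 2 ^ N := Nat.pow_le_pow_right (by norm_num) (by omega)
  have hbr : (b : ℝ) = 2 ^ N := by rw [hb]; push_cast; rfl
  have hb0 : (0 : ℝ) < b := by rw [hbr]; positivity
  have hf := cells_finite hB0b N
  set A : Finset ℤ := hf.toFinset with hA
  have hAmem : ∀ y ∈ B0, ⌊(2 : ℝ) ^ N * y⌋ ∈ A := by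
    intro y hy
    rw [hA, Set.Finite.mem_toFinset]
    exact ⟨y, hy, rfl⟩
  have hAc : (A.card : ℝ) ≤ (b : ℝ) ^ s := by
    have e1 : (A.card : ℝ) ≤ ((3 * coverNum B0 ((2 : ℝ) ^ N)⁻¹ : ℕ) : ℝ) := by
      have := cells_le_coverNum hB0b N
      rw [Set.ncard_eq_toFinset_card _ hf] at this
      exact_mod_cast this
    push_cast at e1
    have e2 := hn0 N hNn0
    have e3 : (3 : ℝ) ≤ (2 : ℝ) ^ ((s - s') * N) := by
      calc (3 : ℝ) ≤ (2 : ℝ) ^ (2 : ℝ) := by norm_num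
        _ ≤ (2 : ℝ) ^ ((s - s') * N) := by
          apply Real.rpow_le_rpow_of_exponent_le (by norm_num)
          have : 2 / (s - s') ≤ N := hn1.trans (by exact_mod_cast hNn1)
          rw [div_le_iff₀ (by linarith)] at this
          linarith
    have e4 : (b : ℝ) ^ s = (2 : ℝ) ^ ((s - s') * N) * (2 : ℝ) ^ (s' * N) := by
      rw [← Real.rpow_add (by norm_num), hbr, ← Real.rpow_natCast, ← Real.rpow_mul (by norm_num)]
      congr 1; ring
    rw [e4]
    have : (0 : ℝ) < (2 : ℝ) ^ (s' * N) := by positivity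
    nlinarith
  set α : ℕ → ℤ := fun v => ⌊(2 : ℝ) ^ N * a0 ((v : ℝ) / b)⌋ with hα
  have hαA : ∀ v, v < b → ∀ j : ℕ, j < k → α v + (j : ℤ) * v ∈ A := by
    intro v hv j hj
    have hv1 : ((v : ℝ) / b) ∈ Set.Icc (0 : ℝ) 1 := by
      refine ⟨by positivity, ?_⟩
      rw [div_le_one hb0]
      exact_mod_cast hv.le
    have e1 := hAmem _ (hB0 _ hv1 j hj)
    have e2 : (2 : ℝ) ^ N * (a0 ((v : ℝ) / b) + j * ((v : ℝ) / b)) =
        (2 : ℝ) ^ N * a0 ((v : ℝ) / b) + (((j : ℤ) * (v : ℤ) : ℤ) : ℝ) := by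
      rw [hbr]
      push_cast
      field_simp
    rw [e2, Int.floor_add_intCast] at e1
    exact e1
  have hαA0 : ∀ v, v < b → α v ∈ A := by
    intro v hv
    have := hαA v hv 0 (by omega)
    simpa using this
  have hs : 0 ≤ s := by
    by_contra hneg
    push Not at hneg
    have h1 : (1 : ℝ) ≤ A.card := by
      have : 0 < A.card := Finset.card_pos.2 ⟨_, hαA0 0 (by omega)⟩
      exact_mod_cast this
    have h3 : (b : ℝ) ^ s < 1 :=
      Real.rpow_lt_one_of_one_lt_of_neg (by exact_mod_cast (show 1 < b by omega)) hneg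
    linarith
  obtain ⟨W0, hW1, hW⟩ : ∃ W0 : ℝ, 1 ≤ W0 ∧ ∀ e ∈ A, |(e : ℝ)| ≤ W0 := by
    refine ⟨1 + ∑ e ∈ A, |(e : ℝ)|, ?_, ?_⟩
    · have : 0 ≤ ∑ e ∈ A, |(e : ℝ)| := Finset.sum_nonneg fun _ _ => abs_nonneg _
      linarith
    · intro e he
      have := Finset.single_le_sum (f := fun e : ℤ => |(e : ℝ)|) (fun _ _ => abs_nonneg _) he
      linarith
  set a : ℝ → ℝ := fun r => ∑' i, (α (dg b r i) : ℝ) / (b : ℝ) ^ (i + 1) with ha
  have haS : ∀ r, HasSum (fun i => (α (dg b r i) : ℝ) / (b : ℝ) ^ (i + 1)) (a r) := by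
    intro r
    exact (ser_summable b hb2 (fun i => (α (dg b r i) : ℝ)) W0
      (fun i => hW _ (hαA0 _ (dg_lt b hb2 r i)))).hasSum
  set B : Set ℝ := {y | ∃ e : ℕ → ℤ, (∀ i, e i ∈ A) ∧
    HasSum (fun i => (e i : ℝ) / (b : ℝ) ^ (i + 1)) y} with hB
  refine ⟨B, a, ?_, ?_, ?_, ?_⟩
  · rw [Metric.isBounded_iff_subset_closedBall 0]
    refine ⟨W0, ?_⟩
    rintro y ⟨e, he, hy⟩
    have := ser_bound b hb2 (fun i => (e i : ℝ)) W0 y 0 (by linarith) (fun i _ => hW _ (he i))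
      (fun i hi => absurd hi (Nat.not_lt_zero i)) hy
    rw [pow_zero, div_one] at this
    rw [Metric.mem_closedBall, Real.dist_eq, sub_zero]
    exact this
  · intro r hr j hj
    refine ⟨fun i => α (dg b r i) + (j : ℤ) * (dg b r i : ℕ), fun i =>
      hαA _ (dg_lt b hb2 r i) j hj, ?_⟩
    have := (haS r).add ((dg_sum b hb2 r hr.1 hr.2).mul_left (j : ℝ))
    convert this using 2 with i
    push_cast
    ring
  · obtain ⟨C, hC⟩ := absorb W hpos (fun n => (n : ℝ)) (fun n => Nat.cast_nonneg n) 1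
      (fun n hn => by exact_mod_cast hn) c1 hc1 nW hWl (2 * W0) (2 * W0) (by linarith) (by linarith)
    refine ⟨C, fun n N x hN hx h01 => ?_⟩
    have h3 := var_dig b hb2 (fun v => (α v : ℝ)) W0 (by linarith)
      (fun v hv => hW _ (hαA0 v hv)) a haS n N x hN hx h01
    exact h3.trans (hC n)
  · refine dim_le B b hb2 (2 * W0) 1 s hs (by linarith) one_pos ?_
    intro m δ hδ
    have h3 : coverNum B δ ≤ Fintype.card (Fin m → A) := by
      refine cover_le B δ (fun φ : Fin m → A => {y | ∃ e : ℕ → ℤ, (∀ i, e i ∈ A) ∧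
        HasSum (fun i => (e i : ℝ) / (b : ℝ) ^ (i + 1)) y ∧ ∀ i : Fin m, e i = φ i}) ?_ ?_
      · rintro φ x ⟨e, he, hx, hφ⟩ y ⟨e', he', hy, hφ'⟩
        have hd : HasSum (fun i => ((e i : ℝ) - e' i) / (b : ℝ) ^ (i + 1)) (x - y) := by
          have := hx.sub hy
          have e : (fun i => ((e i : ℝ) - e' i) / (b : ℝ) ^ (i + 1)) =
              fun i => (e i : ℝ) / (b : ℝ) ^ (i + 1) - (e' i : ℝ) / (b : ℝ) ^ (i + 1) := by
            funext i; rw [sub_div]
          rw [e]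
          exact this
        rw [Real.dist_eq]
        refine (ser_bound b hb2 (fun i => (e i : ℝ) - e' i) (2 * W0) (x - y) m (by linarith)
          (fun i _ => ?_) (fun i hi => ?_) hd).trans hδ
        · calc |(e i : ℝ) - e' i| ≤ |(e i : ℝ)| + |(e' i : ℝ)| := abs_sub _ _
            _ ≤ 2 * W0 := by have := hW _ (he i); have := hW _ (he' i); linarith
        · have e1 := hφ ⟨i, hi⟩
          have e2 := hφ' ⟨i, hi⟩
          simp only at e1 e2
          rw [e1, e2, sub_self]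
      · rintro y ⟨e, he, hy⟩
        exact Set.mem_iUnion.2 ⟨fun i => ⟨e i, he i⟩, e, he, hy, fun i => rfl⟩
    have h4 : Fintype.card (Fin m → A) = A.card ^ m := by simp
    rw [h4] at h3
    have h5 : (coverNum B δ : ℝ) ≤ (A.card : ℝ) ^ m := by exact_mod_cast h3
    rw [one_mul, Real.rpow_mul hb0.le, Real.rpow_natCast]
    exact h5.trans (pow_le_pow_left₀ (Nat.cast_nonneg _) hAc m)

end Pool.Agent.U999.OD
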