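import Mathlib
import Pool.Agent.U999.OD.V5

set_option autoImplicit false

namespace Pool.Agent.U999.OD

open Finset Filter Topology MeasureTheory

/-- `lim inf W(n) / f(n) = 0` -/
def LimZero (W f : ℕ → ℝ) : Prop := ∀ ε : ℝ, 0 < ε → ∀ m : ℕ, ∃ n : ℕ, m ≤ n ∧ W n ≤ ε * f n

/-- progressions whose first terms have small variation -/
def HasVarProg (W : ℕ → ℝ) (k : ℕ) (B : Set ℝ) : Prop :=
  ∃ a : ℝ → ℝ, HasVar W (Set.Icc 0 1) a ∧
    ∀ r ∈ Set.Icc (0 : ℝ) 1, ∀ j : ℕ, j < k → a r + j * r ∈ B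

/-- the infimum of the dimensions -/
noncomputable def fVar (W : ℕ → ℝ) (k : ℕ) : EReal :=
  ⨅ (B : Set ℝ) (_ : Bornology.IsBounded B) (_ : HasVarProg W k B), upperMinkowski B

theorem le_fVar (W : ℕ → ℝ) (k : ℕ) (x : EReal)
    (hx : ∀ B, Bornology.IsBounded B → HasVarProg W k B → x ≤ upperMinkowski B) :
    x ≤ fVar W k :=
  le_iInf fun B => le_iInf fun hb => le_iInf fun hp => hx B hb hp

theorem fVar_le (W : ℕ → ℝ) (k : ℕ) (B : Set ℝ) (hb : Bornology.IsBounded B)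
    (hp : HasVarProg W k B) : fVar W k ≤ upperMinkowski B :=
  (iInf_le _ B).trans ((iInf_le _ hb).trans (iInf_le _ hp))

theorem not_limZero (W f : ℕ → ℝ) (h : ¬ LimZero W f) :
    ∃ c : ℝ, 0 < c ∧ ∃ n1 : ℕ, ∀ n, n1 ≤ n → c * f n ≤ W n := by
  unfold LimZero at h
  push Not at h
  obtain ⟨c, hc, m, hm⟩ := h
  exact ⟨c, hc, m, fun n hn => (hm n hn).le⟩

theorem low_main (W : ℕ → ℝ) (hpos : ∀ n, 0 < W n) (R : Set ℝ) (a : ℝ → ℝ) (B : Set ℝ) (k : ℕ)
    (hR : R ⊆ Set.Icc 0 1) (hvol : volume R ≠ 0) (hreg : HasVar W R a)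
    (hBb : Bornology.IsBounded B) (hB : ∀ r ∈ R, ∀ j : ℕ, j < k → a r + j * r ∈ B) :
    (LimZero W (fun n => Real.log n) → 2 ≤ k → ((1 : ℝ) : EReal) ≤ upperMinkowski B) ∧
    (LimZero W (fun n => (n : ℝ)) → 1 ≤ k →
      ((1 - 1 / (k : ℝ) : ℝ) : EReal) ≤ upperMinkowski B) := by
  constructor
  · intro hlim hk
    by_contra hlt
    rw [not_le] at hlt
    obtain ⟨c, hc, n1, h1⟩ := lowB W hpos R hR hvol a hreg B hBb
      (fun r hr j hj => hB r hr j (by omega)) hlt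
    obtain ⟨n, hn, h2⟩ := hlim (c / 2) (by positivity) (max n1 3)
    have h3 := h1 n ((le_max_left _ _).trans hn)
    have h4 : 3 ≤ n := (le_max_right _ _).trans hn
    have h5 : 0 < Real.log n := Real.log_pos (by exact_mod_cast (show 1 < n by omega))
    nlinarith
  · intro hlim hk
    by_contra hlt
    rw [not_le] at hlt
    obtain ⟨c, hc, n1, h1⟩ := lowA k hk W hpos R hR hvol a hreg B hBb hB hlt
    obtain ⟨n, hn, h2⟩ := hlim (c / 2) (by positivity) (max n1 1)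
    have h3 := h1 n ((le_max_left _ _).trans hn)
    have h4 : 1 ≤ n := (le_max_right _ _).trans hn
    have h5 : (1 : ℝ) ≤ n := by exact_mod_cast h4
    nlinarith

theorem vol_icc : volume (Set.Icc (0 : ℝ) 1) ≠ 0 := by
  rw [Real.volume_Icc, sub_zero, ENNReal.ofReal_one]
  exact one_ne_zero

theorem main2 (W : ℕ → ℝ) (hpos : ∀ n, 0 < W n) :
    (∀ k : ℕ, 1 ≤ k →
      (LimZero W (fun n => Real.log n) → 2 ≤ k → fVar W k = ((1 : ℝ) : EReal)) ∧
      (¬ LimZero W (fun n => Real.log n) → LimZero W (fun n => (n : ℝ)) →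
        fVar W k = ((1 - 1 / (k : ℝ) : ℝ) : EReal)) ∧
      (¬ LimZero W (fun n => (n : ℝ)) → fVar W k = fM k)) ∧
    (∀ (R : Set ℝ) (a : ℝ → ℝ) (B : Set ℝ) (k : ℕ), R ⊆ Set.Icc 0 1 → volume R ≠ 0 →
      HasVar W R a → Bornology.IsBounded B → (∀ r ∈ R, ∀ j : ℕ, j < k → a r + j * r ∈ B) →
      (LimZero W (fun n => Real.log n) → 2 ≤ k → ((1 : ℝ) : EReal) ≤ upperMinkowski B) ∧
      (LimZero W (fun n => (n : ℝ)) → 1 ≤ k →
        ((1 - 1 / (k : ℝ) : ℝ) : EReal) ≤ upperMinkowski B)) := by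
  refine ⟨fun k hk => ⟨?_, ?_, ?_⟩, fun R a B k hR hvol hreg hBb hB =>
    low_main W hpos R a B k hR hvol hreg hBb hB⟩
  · intro hlim hk2
    apply le_antisymm
    · refine (fVar_le W k (Set.Icc (0 : ℝ) k) (Metric.isBounded_Icc 0 (k : ℝ)) ?_).trans (icc_dim k)
      refine ⟨fun _ => 0, ⟨0, fun n N x _ _ _ => by simp⟩, fun r hr j hj => ?_⟩
      have h1 : (j : ℝ) ≤ k := by exact_mod_cast hj.le
      have h2 : (0 : ℝ) ≤ j := Nat.cast_nonneg j
      constructor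
      · have := mul_nonneg h2 hr.1
        linarith
      · have := mul_le_mul h1 hr.2 hr.1 (by positivity)
        linarith
    · refine le_fVar W k _ fun B hb hp => ?_
      obtain ⟨a, h1, h2⟩ := hp
      exact (low_main W hpos _ a B k le_rfl vol_icc h1 hb h2).1 hlim hk2
  · intro hnl hlim
    obtain ⟨c, hc, n1, h1⟩ := not_limZero W _ hnl
    apply le_antisymm
    · rw [← EReal.le_of_forall_lt_iff_le]
      intro s hs
      rw [EReal.coe_lt_coe_iff] at hs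
      obtain ⟨B, a, h2, h3, h4, h5⟩ :=
        partC2 W hpos c hc n1 h1 k hk (s - (1 - 1 / (k : ℝ))) (by linarith)
      refine (fVar_le W k B h2 ⟨a, h4, h3⟩).trans (h5.trans (le_of_eq ?_))
      congr 1
      ring
    · refine le_fVar W k _ fun B hb hp => ?_
      obtain ⟨a, h2, h3⟩ := hp
      exact (low_main W hpos _ a B k le_rfl vol_icc h2 hb h3).2 hlim hk
  · intro hnl
    obtain ⟨c, hc, n1, h1⟩ := not_limZero W _ hnl
    apply le_antisymm
    · refine le_iInf fun B0 => le_iInf fun hb => le_iInf fun hp => ?_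
      rw [← EReal.le_of_forall_lt_iff_le]
      intro s hs
      choose! a0 ha0 using hp
      obtain ⟨B, a, h2, h3, h4, h5⟩ := partB2 W hpos c hc n1 h1 k hk B0 hb a0 ha0 s hs
      exact (fVar_le W k B h2 ⟨a, h4, h3⟩).trans h5
    · refine le_fVar W k _ fun B hb hp => fM_le k B hb ?_
      obtain ⟨a, _, h4⟩ := hp
      exact fun r hr => ⟨a r, h4 r hr⟩

end Pool.Agent.U999.OD
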