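import Pool.Agent.U999.OD.Tree

set_option autoImplicit false

namespace Pool.Agent.U999.OD

open Finset
open scoped Classical

theorem exc_children (b d q : ℕ) (hd : 0 < d) (F : ℕ → ℝ)
    (h : ((d * b : ℕ) : ℝ) ≤ inc F (d * b) q) :
    (((Finset.Ico (q * b) ((q + 1) * b)).filter
      (fun c => ¬ nonexc F d ((q + 1) * b) c)).card : ℝ) ≤
      2 * Del b (fun x => F x - x) d q / d := by
  have h1 := exc_card b d q hd F h
  set A := (Finset.Ico (q * b) ((q + 1) * b)).filter (fun e => exc F d ((q + 1) * b) e) with hA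
  set B := (Finset.Ico (q * b) ((q + 1) * b)).filter
    (fun e => exc F d ((q + 1) * b) (e + 1)) with hB
  have h2 : (Finset.Ico (q * b) ((q + 1) * b)).filter
      (fun c => ¬ nonexc F d ((q + 1) * b) c) ⊆ A ∪ B := by
    intro c hc
    rw [Finset.mem_filter] at hc
    obtain ⟨hc1, hc2⟩ := hc
    rw [Finset.mem_union, hA, hB, Finset.mem_filter, Finset.mem_filter]
    unfold nonexc at hc2
    by_cases h3 : exc F d ((q + 1) * b) c
    · exact Or.inl ⟨hc1, h3⟩
    · right
      refine ⟨hc1, ?_⟩
      by_contra h4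
      exact hc2 ⟨h3, h4⟩
  have h3 : B.card ≤ A.card := by
    refine Finset.card_le_card_of_injOn (fun c => c + 1) ?_ ?_
    · intro c hc
      rw [hB, Finset.coe_filter] at hc
      obtain ⟨hc1, hc2⟩ := hc
      rw [hA, Finset.coe_filter]
      refine ⟨?_, hc2⟩
      obtain ⟨e, he1, he2, _⟩ := hc2
      have hc3 := Finset.mem_Ico.1 hc1
      exact Finset.mem_Ico.2 ⟨by show q * b ≤ c + 1; omega, by show c + 1 < (q + 1) * b; omega⟩
    · intro c _ c' _ h
      simpa using h
  have h4 := (Finset.card_le_card h2).trans (Finset.card_union_le A B)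
  have h5 : (((Finset.Ico (q * b) ((q + 1) * b)).filter
      (fun c => ¬ nonexc F d ((q + 1) * b) c)).card : ℝ) ≤ A.card + A.card := by
    exact_mod_cast h4.trans (by omega)
  have h6 : 2 * Del b (fun x => F x - x) d q / d = 2 * (Del b (fun x => F x - x) d q / d) := by ring
  rw [h6]
  linarith

theorem steep_count (b : ℕ) (hb : 2 ≤ b) (F : ℕ → ℝ) (T : ℕ) :
    ∑ x ∈ range (b ^ T), ∑ t ∈ range T,
      (if (((b ^ t * b : ℕ) : ℝ) ≤ inc F (b ^ t * b) (x / b ^ t / b) ∧
        ¬ nonexc F (b ^ t) ((x / b ^ t / b + 1) * b) (x / b ^ t)) then (1 : ℝ) else 0) ≤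
      2 * Var (fun x => F x - x) (b ^ T) := by
  have hb0 : 0 < b := by omega
  rw [Finset.sum_comm]
  have h1 := sumDel b (fun x => F x - x) T
  have h2 : ∀ t ∈ range T, ∑ x ∈ range (b ^ T),
      (if (((b ^ t * b : ℕ) : ℝ) ≤ inc F (b ^ t * b) (x / b ^ t / b) ∧
        ¬ nonexc F (b ^ t) ((x / b ^ t / b + 1) * b) (x / b ^ t)) then (1 : ℝ) else 0) ≤
      2 * ∑ q ∈ range (b ^ (T - 1 - t)), Del b (fun x => F x - x) (b ^ t) q := by
    intro t ht
    have ht' := Finset.mem_range.1 ht
    set f : ℕ → ℝ := fun c => (if (((b ^ t * b : ℕ) : ℝ) ≤ inc F (b ^ t * b) (c / b) ∧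
        ¬ nonexc F (b ^ t) ((c / b + 1) * b) c) then (1 : ℝ) else 0) with hf
    have e1 : b ^ T = b ^ (T - t) * b ^ t := by rw [← pow_add]; congr 1; omega
    have e2 : b ^ (T - t) = b ^ (T - 1 - t) * b := by rw [← pow_succ]; congr 1; omega
    have hdt : 0 < b ^ t := by positivity
    have hdr : (0 : ℝ) < ((b ^ t : ℕ) : ℝ) := by exact_mod_cast hdt
    rw [e1]
    have h3 := leaf_sum f (b ^ (T - t)) (b ^ t) hdt
    simp only [hf] at h3
    rw [h3, e2, sum_blocks, Finset.mul_sum, Finset.mul_sum]
    refine Finset.sum_le_sum fun q _ => ?_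
    have h4 : ∀ i ∈ range b, (if (((b ^ t * b : ℕ) : ℝ) ≤ inc F (b ^ t * b) ((q * b + i) / b) ∧
        ¬ nonexc F (b ^ t) (((q * b + i) / b + 1) * b) (q * b + i)) then (1 : ℝ) else 0) =
        (if (((b ^ t * b : ℕ) : ℝ) ≤ inc F (b ^ t * b) q ∧
        ¬ nonexc F (b ^ t) ((q + 1) * b) (q * b + i)) then (1 : ℝ) else 0) := by
      intro i hi
      have hi' := Finset.mem_range.1 hi
      have : (q * b + i) / b = q := by
        rw [mul_comm, Nat.mul_add_div hb0, Nat.div_eq_of_lt hi', add_zero]
      rw [this]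
    rw [Finset.sum_congr rfl h4]
    have hD0 := Del_nonneg b (fun x => F x - x) (b ^ t) q
    by_cases hs : ((b ^ t * b : ℕ) : ℝ) ≤ inc F (b ^ t * b) q
    · have h5 := exc_children b (b ^ t) q hdt F hs
      have h6 : ∑ i ∈ range b, (if (((b ^ t * b : ℕ) : ℝ) ≤ inc F (b ^ t * b) q ∧
        ¬ nonexc F (b ^ t) ((q + 1) * b) (q * b + i)) then (1 : ℝ) else 0) =
        (((Finset.Ico (q * b) ((q + 1) * b)).filter
          (fun c => ¬ nonexc F (b ^ t) ((q + 1) * b) c)).card : ℝ) := by
        rw [Finset.card_filter, Finset.sum_Ico_eq_sum_range]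
        have e0 : (q + 1) * b - q * b = b := by
          rw [Nat.succ_mul]; omega
        rw [e0]
        push_cast
        refine Finset.sum_congr rfl fun i _ => ?_
        have hs2 : (b : ℝ) ^ t * b ≤ inc F (b ^ t * b) q := by
          have := hs; push_cast at this; exact this
        simp only [hs2, true_and]
      rw [h6]
      calc ((b ^ t : ℕ) : ℝ) * _ ≤ ((b ^ t : ℕ) : ℝ) *
          (2 * Del b (fun x => F x - x) (b ^ t) q / ((b ^ t : ℕ) : ℝ)) :=
            mul_le_mul_of_nonneg_left h5 hdr.le
        _ = 2 * Del b (fun x => F x - x) (b ^ t) q := by field_simp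
    · have h6 : ∀ i ∈ range b, (if (((b ^ t * b : ℕ) : ℝ) ≤ inc F (b ^ t * b) q ∧
        ¬ nonexc F (b ^ t) ((q + 1) * b) (q * b + i)) then (1 : ℝ) else 0) = 0 := by
        intro i _
        rw [if_neg]
        exact fun h => hs h.1
      rw [Finset.sum_congr rfl h6]
      simp only [Finset.sum_const_zero, mul_zero]
      positivity
  refine (Finset.sum_le_sum h2).trans ?_
  rw [← Finset.mul_sum]
  linarith

theorem sep (b : ℕ) (hb : 2 ≤ b) (F : ℕ → ℝ) (t q x y : ℕ)
    (hx : S b F t x ≤ (b : ℝ) ^ t) (hy : S b F t y ≤ (b : ℝ) ^ t)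
    (hyq : y / b ^ t < (q + 1) * b)
    (hlt : x / b ^ t < y / b ^ t)
    (nx : nonexc F (b ^ t) ((q + 1) * b) (x / b ^ t))
    (ny : nonexc F (b ^ t) ((q + 1) * b) (y / b ^ t)) (hxy : |F x - F y| < 1) :
    y / b ^ t ≤ x / b ^ t + 6 := by
  have hb0 : 0 < b := by omega
  have hbr : (1 : ℝ) ≤ b := by exact_mod_cast hb0
  have hd1 : (1 : ℝ) ≤ (b : ℝ) ^ t := one_le_pow₀ hbr
  have ux := upper b hb0 F t x
  have ly := lower b hb0 F t y
  set c := x / b ^ t with hc
  set c' := y / b ^ t with hc'
  have key : ∀ e, ¬ exc F (b ^ t) ((q + 1) * b) e → ∀ e' : ℕ, e < e' → e' ≤ (q + 1) * b →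
      ((e' : ℝ) - e) * (b : ℝ) ^ t / 2 ≤ F (e' * b ^ t) - F (e * b ^ t) := by
    intro e he e' h1 h2
    by_contra h3
    push Not at h3
    apply he
    refine ⟨e', h1, h2, ?_⟩
    push_cast
    exact h3
  have k1 := key c nx.1 (c + 1) (by omega) (by omega)
  have k2 := key c' ny.1 (c' + 1) (by omega) (by omega)
  push_cast at k1 k2
  have m1 : max (F (c * b ^ t)) (F ((c + 1) * b ^ t)) = F ((c + 1) * b ^ t) := by
    apply max_eq_right; nlinarith
  have m2 : min (F (c' * b ^ t)) (F ((c' + 1) * b ^ t)) = F (c' * b ^ t) := by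
    apply min_eq_left; nlinarith
  rw [m1] at ux
  rw [m2] at ly
  have hab := abs_lt.1 hxy
  by_contra hcon
  push Not at hcon
  have k3 := key (c + 1) nx.2 c' (by omega) (by omega)
  have h7 : (c : ℝ) + 7 ≤ c' := by exact_mod_cast hcon
  push_cast at k3
  nlinarith

/-- leaves of a block in a given cell with prescribed possible bad levels -/
noncomputable def cellset (b : ℕ) (F : ℕ → ℝ) (z : ℤ) (Bd : Finset ℕ) (t q : ℕ) : Finset ℕ :=
  (Finset.Ico (q * b ^ t) ((q + 1) * b ^ t)).filter
    (fun x => ⌊F x⌋ = z ∧ ∀ s, s < t → s ∉ Bd → good b F s x)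

theorem enc (b : ℕ) (hb : 2 ≤ b) (F : ℕ → ℝ) (z : ℤ) (Bd : Finset ℕ) :
    ∀ t q, (cellset b F z Bd t q).card ≤ ∏ s ∈ range t, (if s ∈ Bd then b else 8) := by
  have hb0 : 0 < b := by omega
  intro t
  induction t with
  | zero =>
    intro q
    refine (Finset.card_filter_le _ _).trans ?_
    simp
  | succ t ih =>
    intro q
    have hdt : 0 < b ^ t := by positivity
    set X := cellset b F z Bd (t + 1) q with hX
    set K := X.image (fun x => x / b ^ t) with hK
    have hKI : ∀ c ∈ K, q * b ≤ c ∧ c < (q + 1) * b := by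
      intro c hc
      rw [hK, Finset.mem_image] at hc
      obtain ⟨x, hx, rfl⟩ := hc
      rw [hX, cellset, Finset.mem_filter, Finset.mem_Ico] at hx
      obtain ⟨⟨h1, h2⟩, _⟩ := hx
      constructor
      · rw [Nat.le_div_iff_mul_le hdt]
        calc q * b * b ^ t = q * b ^ (t + 1) := by ring
          _ ≤ x := h1
      · rw [Nat.div_lt_iff_lt_mul hdt]
        calc x < (q + 1) * b ^ (t + 1) := h2
          _ = (q + 1) * b * b ^ t := by ring
    have hsub : X ⊆ K.biUnion (fun c => cellset b F z Bd t c) := by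
      intro x hx
      rw [Finset.mem_biUnion]
      refine ⟨x / b ^ t, Finset.mem_image_of_mem _ hx, ?_⟩
      rw [hX, cellset, Finset.mem_filter, Finset.mem_Ico] at hx
      rw [cellset, Finset.mem_filter, Finset.mem_Ico]
      refine ⟨⟨Nat.div_mul_le_self _ _, ?_⟩, hx.2.1, fun s hs hs' => hx.2.2 s (by omega) hs'⟩
      rw [mul_comm]
      exact Nat.lt_mul_div_succ x hdt
    have h1 : X.card ≤ K.card * ∏ s ∈ range t, (if s ∈ Bd then b else 8) := by
      refine (Finset.card_le_card hsub).trans (Finset.card_biUnion_le.trans ?_)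
      rw [← smul_eq_mul, ← Finset.sum_const]
      exact Finset.sum_le_sum fun c _ => ih c
    have h2 : K.card ≤ (if t ∈ Bd then b else 8) := by
      split_ifs with htB
      · have : K ⊆ Finset.Ico (q * b) ((q + 1) * b) := fun c hc => Finset.mem_Ico.2 (hKI c hc)
        refine (Finset.card_le_card this).trans ?_
        rw [Nat.card_Ico, Nat.succ_mul]
        omega
      · rcases K.eq_empty_or_nonempty with hKe | hKne
        · rw [hKe]; simp
        · have hmin := K.min'_mem hKne
          set m := K.min' hKne with hm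
          have hsub2 : K ⊆ Finset.Ico m (m + 7) := by
            intro c hc
            rw [Finset.mem_Ico]
            refine ⟨K.min'_le c hc, ?_⟩
            rcases (K.min'_le c hc).lt_or_eq with hlt | heq
            · have hcI := hKI c hc
              have hmI := hKI m hmin
              rw [hK, Finset.mem_image] at hmin hc
              obtain ⟨x, hx, hxm⟩ := hmin
              obtain ⟨y, hy, hyc⟩ := hc
              rw [hX, cellset, Finset.mem_filter] at hx hy
              have gx := hx.2.2 t (by omega) htB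
              have gy := hy.2.2 t (by omega) htB
              have hfl : |F x - F y| < 1 := Int.abs_sub_lt_one_of_floor_eq_floor
                (hx.2.1.trans hy.2.1.symm)
              have hqx : x / b ^ t / b = q := by
                rw [hxm]
                exact Nat.div_eq_of_lt_le (by linarith [hmI.1]) (by linarith [hmI.2])
              have hqy : y / b ^ t / b = q := by
                rw [hyc]
                exact Nat.div_eq_of_lt_le (by linarith [hcI.1]) (by linarith [hcI.2])
              unfold good at gx gy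
              rw [hqx] at gx
              rw [hqy] at gy
              have hlt' : x / b ^ t < y / b ^ t := by rw [hxm, hyc]; exact hlt
              have hyq : y / b ^ t < (q + 1) * b := by rw [hyc]; exact hcI.2
              have : y / b ^ t ≤ x / b ^ t + 6 := by
                by_cases hpos : 0 ≤ inc F (b ^ t * b) q
                · rw [if_pos hpos] at gx gy
                  exact sep b hb F t q x y gx.1 gy.1 hyq hlt' gx.2 gy.2 hfl
                · rw [if_neg hpos] at gx gy
                  refine sep b hb (fun y => - F y) t q x y ?_ ?_ hyq hlt' gx.2 gy.2 ?_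
                  · rw [S_neg]; exact gx.1
                  · rw [S_neg]; exact gy.1
                  · have : (-F x - -F y) = -(F x - F y) := by ring
                    rw [this, abs_neg]; exact hfl
              rw [hxm, hyc] at this
              omega
            · omega
          refine (Finset.card_le_card hsub2).trans ?_
          rw [Nat.card_Ico]
          omega
    rw [Finset.prod_range_succ, mul_comm]
    exact h1.trans (Nat.mul_le_mul_right _ h2)

theorem cells_lower (b : ℕ) (hb : 2 ≤ b) (F : ℕ → ℝ) (T m : ℕ) (L : Finset ℕ)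
    (hL : L ⊆ range (b ^ T))
    (h : ∀ x ∈ L, ((range T).filter (fun t => ¬ good b F t x)).card ≤ m) :
    L.card ≤ (L.image (fun x => ⌊F x⌋)).card * (2 ^ T * (8 ^ T * b ^ m)) := by
  have hb0 : 0 < b := by omega
  set P := ((range T).powerset).filter (fun B => B.card ≤ m) with hP
  have hsub : L ⊆ (L.image (fun x => ⌊F x⌋)).biUnion
      (fun z => P.biUnion (fun B => cellset b F z B T 0)) := by
    intro x hx
    rw [Finset.mem_biUnion]
    refine ⟨⌊F x⌋, Finset.mem_image_of_mem _ hx, ?_⟩
    rw [Finset.mem_biUnion]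
    refine ⟨(range T).filter (fun t => ¬ good b F t x), ?_, ?_⟩
    · rw [hP, Finset.mem_filter, Finset.mem_powerset]
      exact ⟨Finset.filter_subset _ _, h x hx⟩
    · rw [cellset, Finset.mem_filter, Finset.mem_Ico]
      refine ⟨⟨by simp, ?_⟩, rfl, ?_⟩
      · have := Finset.mem_range.1 (hL hx)
        simpa using this
      · intro s hs hs'
        rw [Finset.mem_filter, Finset.mem_range] at hs'
        by_contra hg
        exact hs' ⟨hs, hg⟩
  refine (Finset.card_le_card hsub).trans (Finset.card_biUnion_le.trans ?_)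
  rw [← smul_eq_mul, ← Finset.sum_const]
  refine Finset.sum_le_sum fun z _ => ?_
  refine Finset.card_biUnion_le.trans ?_
  have h1 : ∀ B ∈ P, (cellset b F z B T 0).card ≤ 8 ^ T * b ^ m := by
    intro B hB
    rw [hP, Finset.mem_filter, Finset.mem_powerset] at hB
    refine (enc b hb F z B T 0).trans ?_
    have h2 : ∏ s ∈ range T, (if s ∈ B then b else 8) ≤
        ∏ s ∈ range T, (8 * (if s ∈ B then b else 1)) := by
      refine Finset.prod_le_prod' fun s _ => ?_
      split_ifs <;> omega
    refine h2.trans ?_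
    rw [Finset.prod_mul_distrib, Finset.prod_const, Finset.card_range]
    refine Nat.mul_le_mul_left _ ?_
    rw [Finset.prod_ite, Finset.prod_const, Finset.prod_const_one, mul_one]
    refine Nat.pow_le_pow_right hb0 ?_
    refine le_trans (Finset.card_le_card ?_) hB.2
    intro s hs
    exact (Finset.mem_filter.1 hs).2
  refine (Finset.sum_le_sum h1).trans ?_
  rw [Finset.sum_const, smul_eq_mul]
  refine Nat.mul_le_mul_right _ ?_
  refine (Finset.card_filter_le _ _).trans ?_
  rw [Finset.card_powerset, Finset.card_range]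

end Pool.Agent.U999.OD
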