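import Mathlib

set_option autoImplicit false

namespace Pool.Agent.U999.OD

open Finset
open scoped Classical

/-- A path passes through its `i`-th point. -/
theorem path (u : ℕ → ℝ) (n i : ℕ) (hi : i ≤ n) :
    |u i - u 0| + |u n - u i| ≤ ∑ l ∈ range n, |u (l + 1) - u l| := by
  obtain ⟨m, rfl⟩ := Nat.exists_eq_add_of_le hi
  have h1 : ∀ (v : ℕ → ℝ) (m : ℕ), |v m - v 0| ≤ ∑ l ∈ range m, |v (l + 1) - v l| := by
    intro v m
    rw [← Finset.sum_range_sub]
    exact Finset.abs_sum_le_sum_abs _ _
  rw [Finset.sum_range_add]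
  have h2 := h1 u i
  have h3 := h1 (fun l => u (i + l)) m
  simp only [add_zero] at h3
  have h4 : ∀ l, i + (l + 1) = i + l + 1 := fun l => by ring
  simp only [h4] at h3
  linarith

/-- excess of a path over its endpoints -/
theorem path_le (u : ℕ → ℝ) (n i : ℕ) (hi : i ≤ n) :
    u i ≤ max (u 0) (u n) + (∑ l ∈ range n, |u (l + 1) - u l| - |u n - u 0|) := by
  have h := path u n i hi
  have h1 : |u n - u 0| ≤ |u i - u 0| + |u n - u i| := by
    have : u n - u 0 = (u i - u 0) + (u n - u i) := by ring
    rw [this]; exact abs_add_le _ _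
  rcases le_total (u i) (max (u 0) (u n)) with h2 | h2
  · linarith
  · have h3 : u 0 ≤ u i := (le_max_left _ _).trans h2
    have h4 : u n ≤ u i := (le_max_right _ _).trans h2
    rw [abs_of_nonneg (by linarith : 0 ≤ u i - u 0), abs_sub_comm (u n) (u i),
      abs_of_nonneg (by linarith : 0 ≤ u i - u n)] at h
    rcases le_total (u 0) (u n) with h5 | h5
    · rw [max_eq_right h5, abs_of_nonneg (by linarith : 0 ≤ u n - u 0)]
      linarith
    · rw [max_eq_left h5, abs_of_nonpos (by linarith : u n - u 0 ≤ 0)]
      linarith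

/-- The one-sided maximal inequality (rising sun lemma) for sequences. -/
theorem sun (u : ℕ → ℝ) (n : ℕ) : ∀ k s, s + k = n →
    (((Finset.Ico s n).filter
      (fun i => ∃ e, i < e ∧ e ≤ n ∧ u e - u i < ((e : ℝ) - i) / 2)).card : ℝ) ≤
      2 * ∑ i ∈ Finset.Ico s n, max 0 (1 - (u (i + 1) - u i)) := by
  intro k
  induction k using Nat.strong_induction_on with
  | _ k ih =>
    intro s hs
    by_cases hk : k = 0
    · subst hk
      have : s = n := by omega
      subst this
      simp
    · have hsn : s < n := by omega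
      by_cases hex : ∃ e, s < e ∧ e ≤ n ∧ u e - u s < ((e : ℝ) - s) / 2
      · obtain ⟨e, he1, he2, he3⟩ := hex
        have ih' := ih (n - e) (by omega) e (by omega)
        have hsplit : Finset.Ico s n = Finset.Ico s e ∪ Finset.Ico e n :=
          (Finset.Ico_union_Ico_eq_Ico he1.le he2).symm
        have hdis : Disjoint (Finset.Ico s e) (Finset.Ico e n) :=
          Finset.Ico_disjoint_Ico_consecutive s e n
        rw [hsplit, Finset.sum_union hdis, Finset.filter_union]
        have hc1 : (((Finset.Ico s e).filter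
            (fun i => ∃ e, i < e ∧ e ≤ n ∧ u e - u i < ((e : ℝ) - i) / 2)).card : ℝ) ≤
            (e : ℝ) - s := by
          have h1 : ((Finset.Ico s e).filter
            (fun i => ∃ e, i < e ∧ e ≤ n ∧ u e - u i < ((e : ℝ) - i) / 2)).card ≤ e - s := by
            refine (Finset.card_filter_le _ _).trans ?_
            simp
          have h2 : ((e - s : ℕ) : ℝ) = (e : ℝ) - s := by
            rw [Nat.cast_sub he1.le]
          rw [← h2]
          exact_mod_cast h1
        have hc2 : ((e : ℝ) - s) / 2 ≤ ∑ i ∈ Finset.Ico s e, max 0 (1 - (u (i + 1) - u i)) := by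
          have h1 : ∑ i ∈ Finset.Ico s e, (1 - (u (i + 1) - u i)) = (e : ℝ) - s - (u e - u s) := by
            rw [Finset.sum_sub_distrib, Finset.sum_Ico_sub u he1.le]
            simp only [Finset.sum_const, Nat.card_Ico, nsmul_eq_mul, mul_one]
            rw [Nat.cast_sub he1.le]
          have h2 : ∑ i ∈ Finset.Ico s e, (1 - (u (i + 1) - u i)) ≤
              ∑ i ∈ Finset.Ico s e, max 0 (1 - (u (i + 1) - u i)) :=
            Finset.sum_le_sum fun i _ => le_max_right _ _
          linarith
        have hc3 := Finset.card_union_le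
          ((Finset.Ico s e).filter
            (fun i => ∃ e, i < e ∧ e ≤ n ∧ u e - u i < ((e : ℝ) - i) / 2))
          ((Finset.Ico e n).filter
            (fun i => ∃ e, i < e ∧ e ≤ n ∧ u e - u i < ((e : ℝ) - i) / 2))
        have hc4 : ((((Finset.Ico s e).filter
            (fun i => ∃ e, i < e ∧ e ≤ n ∧ u e - u i < ((e : ℝ) - i) / 2)) ∪
          ((Finset.Ico e n).filter
            (fun i => ∃ e, i < e ∧ e ≤ n ∧ u e - u i < ((e : ℝ) - i) / 2))).card : ℝ) ≤
            (((Finset.Ico s e).filter
            (fun i => ∃ e, i < e ∧ e ≤ n ∧ u e - u i < ((e : ℝ) - i) / 2)).card : ℝ) +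
            (((Finset.Ico e n).filter
            (fun i => ∃ e, i < e ∧ e ≤ n ∧ u e - u i < ((e : ℝ) - i) / 2)).card : ℝ) := by
          exact_mod_cast hc3
        linarith
      · have ih' := ih (k - 1) (by omega) (s + 1) (by omega)
        have hI : Finset.Ico s n = insert s (Finset.Ico (s + 1) n) :=
          (Finset.insert_Ico_succ_left_eq_Ico hsn).symm
        rw [hI, Finset.filter_insert, if_neg hex, Finset.sum_insert (by simp)]
        have : 0 ≤ max 0 (1 - (u (s + 1) - u s)) := le_max_left _ _
        linarith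

/-- a sum over `range (m * b)` by blocks -/
theorem sum_blocks {M : Type*} [AddCommMonoid M] (f : ℕ → M) (b m : ℕ) :
    ∑ x ∈ range (m * b), f x = ∑ q ∈ range m, ∑ i ∈ range b, f (q * b + i) := by
  induction m with
  | zero => simp
  | succ m ih => rw [Nat.succ_mul, Finset.sum_range_add, ih, Finset.sum_range_succ]

end Pool.Agent.U999.OD
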