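import Pool.Agent.U999.OD.Sun

set_option autoImplicit false

namespace Pool.Agent.U999.OD

open Finset
open scoped Classical

/-- increment of `F` over the `q`-th block of length `d` -/
noncomputable def inc (F : ℕ → ℝ) (d q : ℕ) : ℝ := F ((q + 1) * d) - F (q * d)

/-- excess of the variation of `F` at the level `d` over the level `d * b`, in the `q`-th block -/
noncomputable def Del (b : ℕ) (F : ℕ → ℝ) (d q : ℕ) : ℝ :=
  ∑ i ∈ range b, |inc F d (q * b + i)| - |inc F (d * b) q|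

/-- total overshoot of `x` below level `t` -/
noncomputable def S (b : ℕ) (F : ℕ → ℝ) (t x : ℕ) : ℝ :=
  ∑ s ∈ range t, Del b F (b ^ s) (x / b ^ s / b)

/-- total variation on `{0, …, n}` -/
noncomputable def Var (F : ℕ → ℝ) (n : ℕ) : ℝ := ∑ x ∈ range n, |F (x + 1) - F x|

/-- the point `e * d` starts a block of small average growth -/
def exc (F : ℕ → ℝ) (d E e : ℕ) : Prop :=
  ∃ e' : ℕ, e < e' ∧ e' ≤ E ∧ F (e' * d) - F (e * d) < ((e' : ℝ) - e) * d / 2

def nonexc (F : ℕ → ℝ) (d E c : ℕ) : Prop := ¬ exc F d E c ∧ ¬ exc F d E (c + 1)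

/-- `F` is well behaved at level `t` near the leaf `x` -/
def good (b : ℕ) (F : ℕ → ℝ) (t x : ℕ) : Prop :=
  S b F t x ≤ (b : ℝ) ^ t ∧
    (if 0 ≤ inc F (b ^ t * b) (x / b ^ t / b) then
      nonexc F (b ^ t) ((x / b ^ t / b + 1) * b) (x / b ^ t)
    else nonexc (fun y => - F y) (b ^ t) ((x / b ^ t / b + 1) * b) (x / b ^ t))

theorem inc_sum (F : ℕ → ℝ) (b d q : ℕ) :
    ∑ i ∈ range b, inc F d (q * b + i) = inc F (d * b) q := by
  have h : ∀ i ∈ range b, inc F d (q * b + i) =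
      (fun i => F ((q * b + i) * d)) (i + 1) - (fun i => F ((q * b + i) * d)) i := by
    intro i _
    simp only [inc]
    rfl
  have h2 := Finset.sum_range_sub (fun i => F ((q * b + i) * d)) b
  rw [Finset.sum_congr rfl h]
  refine h2.trans ?_
  have e1 : (q * b + b) * d = (q + 1) * (d * b) := by ring
  have e2 : (q * b + 0) * d = q * (d * b) := by ring
  simp only [inc, e1, e2]

theorem Del_nonneg (b : ℕ) (F : ℕ → ℝ) (d q : ℕ) : 0 ≤ Del b F d q := by
  unfold Del
  rw [← inc_sum F b d q, sub_nonneg]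
  exact Finset.abs_sum_le_sum_abs _ _

theorem S_nonneg (b : ℕ) (F : ℕ → ℝ) (t x : ℕ) : 0 ≤ S b F t x :=
  Finset.sum_nonneg fun _ _ => Del_nonneg _ _ _ _

theorem inc_neg (F : ℕ → ℝ) (d q : ℕ) : inc (fun y => - F y) d q = - inc F d q := by
  simp only [inc]; ring

theorem Del_neg (b : ℕ) (F : ℕ → ℝ) (d q : ℕ) :
    Del b (fun y => - F y) d q = Del b F d q := by
  simp only [Del, inc_neg, abs_neg]

theorem S_neg (b : ℕ) (F : ℕ → ℝ) (t x : ℕ) : S b (fun y => - F y) t x = S b F t x := by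
  simp only [S, Del_neg]

theorem child (b : ℕ) (F : ℕ → ℝ) (d q i : ℕ) (hi : i ≤ b) :
    F ((q * b + i) * d) ≤ max (F (q * (d * b))) (F ((q + 1) * (d * b))) + Del b F d q := by
  have h := path_le (fun i => F ((q * b + i) * d)) b i hi
  have e1 : (q * b + b) * d = (q + 1) * (d * b) := by ring
  have e2 : (q * b + 0) * d = q * (d * b) := by ring
  simp only [e1, e2] at h
  exact h

theorem upper (b : ℕ) (hb : 0 < b) (F : ℕ → ℝ) (t x : ℕ) :
    F x ≤ max (F (x / b ^ t * b ^ t)) (F ((x / b ^ t + 1) * b ^ t)) + S b F t x := by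
  induction t with
  | zero => simp [S]
  | succ t ih =>
    have hS : S b F (t + 1) x = S b F t x + Del b F (b ^ t) (x / b ^ t / b) := by
      simp only [S, Finset.sum_range_succ]
    have hx : x / b ^ (t + 1) = x / b ^ t / b := by
      rw [pow_succ, Nat.div_div_eq_div_mul]
    rw [hS, hx, pow_succ]
    set c := x / b ^ t with hc
    have hcd : c = c / b * b + c % b := by
      rw [mul_comm]; exact (Nat.div_add_mod c b).symm
    have hmod : c % b < b := Nat.mod_lt _ hb
    have h1 := child b F (b ^ t) (c / b) (c % b) hmod.le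
    have h2 := child b F (b ^ t) (c / b) (c % b + 1) hmod
    rw [← hcd] at h1
    rw [← add_assoc, ← hcd] at h2
    have h3 := max_le h1 h2
    linarith

theorem lower (b : ℕ) (hb : 0 < b) (F : ℕ → ℝ) (t x : ℕ) :
    min (F (x / b ^ t * b ^ t)) (F ((x / b ^ t + 1) * b ^ t)) - S b F t x ≤ F x := by
  have h := upper b hb (fun y => - F y) t x
  rw [S_neg, max_neg_neg] at h
  linarith

theorem leaf_sum (f : ℕ → ℝ) (m D : ℕ) (hD : 0 < D) :
    ∑ x ∈ range (m * D), f (x / D) = D * ∑ q ∈ range m, f q := by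
  rw [sum_blocks, Finset.mul_sum]
  refine Finset.sum_congr rfl fun q _ => ?_
  have : ∀ i ∈ range D, f ((q * D + i) / D) = f q := by
    intro i hi
    have hi' := Finset.mem_range.1 hi
    congr 1
    rw [mul_comm, Nat.mul_add_div hD, Nat.div_eq_of_lt hi', add_zero]
  rw [Finset.sum_congr rfl this, Finset.sum_const, Finset.card_range, nsmul_eq_mul]

theorem sumDel_eq (b : ℕ) (F : ℕ → ℝ) (T t : ℕ) (ht : t < T) :
    ∑ q ∈ range (b ^ (T - 1 - t)), Del b F (b ^ t) q =
      ∑ q ∈ range (b ^ (T - t)), |inc F (b ^ t) q| -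
        ∑ q ∈ range (b ^ (T - (t + 1))), |inc F (b ^ (t + 1)) q| := by
  have e1 : b ^ (T - t) = b ^ (T - 1 - t) * b := by
    rw [← pow_succ]; congr 1; omega
  have e2 : T - (t + 1) = T - 1 - t := by omega
  rw [e1, e2, sum_blocks, ← Finset.sum_sub_distrib]
  refine Finset.sum_congr rfl fun q _ => ?_
  simp only [Del, pow_succ]

theorem sumDel (b : ℕ) (F : ℕ → ℝ) (T : ℕ) :
    ∑ t ∈ range T, ∑ q ∈ range (b ^ (T - 1 - t)), Del b F (b ^ t) q ≤ Var F (b ^ T) := by
  have h : ∀ t ∈ range T, ∑ q ∈ range (b ^ (T - 1 - t)), Del b F (b ^ t) q =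
      (fun t => ∑ q ∈ range (b ^ (T - t)), |inc F (b ^ t) q|) t -
        (fun t => ∑ q ∈ range (b ^ (T - t)), |inc F (b ^ t) q|) (t + 1) := by
    intro t ht
    exact sumDel_eq b F T t (Finset.mem_range.1 ht)
  rw [Finset.sum_congr rfl h, Finset.sum_range_sub']
  have h0 : (0 : ℝ) ≤ ∑ q ∈ range (b ^ (T - T)), |inc F (b ^ T) q| :=
    Finset.sum_nonneg fun _ _ => abs_nonneg _
  have h1 : ∑ q ∈ range (b ^ (T - 0)), |inc F (b ^ 0) q| = Var F (b ^ T) := by
    simp [Var, inc]
  simp only at *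
  linarith

/-- the auxiliary induction for the overshoot -/
theorem geo (b : ℕ) (hb : 2 ≤ b) (a : ℕ → ℝ) (ha : ∀ t, 0 ≤ a t) (T : ℕ) :
    ∑ t ∈ range T, (∑ s ∈ range t, a s * (b : ℝ) ^ (s + 1)) / (b : ℝ) ^ t +
      2 * (∑ s ∈ range T, a s * (b : ℝ) ^ (s + 1)) / (b : ℝ) ^ T ≤ 2 * ∑ s ∈ range T, a s := by
  have hb' : (2 : ℝ) ≤ b := by exact_mod_cast hb
  induction T with
  | zero => simp
  | succ T ih =>
    rw [Finset.sum_range_succ, Finset.sum_range_succ (fun s => a s * (b : ℝ) ^ (s + 1)),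
      Finset.sum_range_succ a]
    set E := ∑ s ∈ range T, a s * (b : ℝ) ^ (s + 1) with hE
    have hE0 : 0 ≤ E := Finset.sum_nonneg fun s _ => mul_nonneg (ha s) (by positivity)
    have hbT : (0 : ℝ) < (b : ℝ) ^ T := by positivity
    have h1 : 2 * (E + a T * (b : ℝ) ^ (T + 1)) / (b : ℝ) ^ (T + 1) =
        (2 / b) * (E / (b : ℝ) ^ T) + 2 * a T := by
      field_simp
      try ring
    have h2 : (2 / (b : ℝ)) * (E / (b : ℝ) ^ T) ≤ E / (b : ℝ) ^ T := by
      have : 2 / (b : ℝ) ≤ 1 := by rw [div_le_one (by linarith)]; exact hb'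
      have h3 : 0 ≤ E / (b : ℝ) ^ T := by positivity
      nlinarith
    have h4 : 2 * E / (b : ℝ) ^ T = 2 * (E / (b : ℝ) ^ T) := by ring
    rw [h4] at ih
    rw [h1]
    linarith

theorem over_count (b : ℕ) (hb : 2 ≤ b) (F : ℕ → ℝ) (T : ℕ) :
    ∑ x ∈ range (b ^ T), ∑ t ∈ range T,
      (if (b : ℝ) ^ t < S b F t x then (1 : ℝ) else 0) ≤ 2 * Var F (b ^ T) := by
  have hb0 : 0 < b := by omega
  have hbr : (0 : ℝ) < b := by exact_mod_cast hb0
  have h1 : ∀ x t, (if (b : ℝ) ^ t < S b F t x then (1 : ℝ) else 0) ≤ S b F t x / (b : ℝ) ^ t := by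
    intro x t
    have hp : (0 : ℝ) < (b : ℝ) ^ t := by positivity
    split_ifs with h
    · rw [le_div_iff₀ hp, one_mul]; exact h.le
    · exact div_nonneg (S_nonneg _ _ _ _) hp.le
  have h2 : ∑ x ∈ range (b ^ T), ∑ t ∈ range T,
      (if (b : ℝ) ^ t < S b F t x then (1 : ℝ) else 0) ≤
      ∑ t ∈ range T, ∑ x ∈ range (b ^ T), S b F t x / (b : ℝ) ^ t := by
    rw [Finset.sum_comm]
    exact Finset.sum_le_sum fun t _ => Finset.sum_le_sum fun x _ => h1 x t
  refine h2.trans ?_
  set A : ℕ → ℝ := fun t => ∑ q ∈ range (b ^ (T - 1 - t)), Del b F (b ^ t) q with hA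
  have h3 : ∀ t ∈ range T, ∑ x ∈ range (b ^ T), S b F t x / (b : ℝ) ^ t =
      (∑ s ∈ range t, A s * (b : ℝ) ^ (s + 1)) / (b : ℝ) ^ t := by
    intro t ht
    rw [← Finset.sum_div]
    congr 1
    simp only [S]
    rw [Finset.sum_comm]
    refine Finset.sum_congr rfl fun s hs => ?_
    have hs' : s < T := (Finset.mem_range.1 hs).trans (Finset.mem_range.1 ht)
    have e : b ^ T = b ^ (T - 1 - s) * b ^ (s + 1) := by
      rw [← pow_add]; congr 1; omega
    have e2 : ∀ x, x / b ^ s / b = x / b ^ (s + 1) := fun x => by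
      rw [pow_succ, Nat.div_div_eq_div_mul]
    simp only [e2]
    rw [e, leaf_sum (fun q => Del b F (b ^ s) q) _ _ (by positivity), hA]
    push_cast
    ring
  rw [Finset.sum_congr rfl h3]
  have hA0 : ∀ t, 0 ≤ A t := fun t => Finset.sum_nonneg fun _ _ => Del_nonneg _ _ _ _
  have h4 := geo b hb A hA0 T
  have h5 : 0 ≤ 2 * (∑ s ∈ range T, A s * (b : ℝ) ^ (s + 1)) / (b : ℝ) ^ T := by
    have : 0 ≤ ∑ s ∈ range T, A s * (b : ℝ) ^ (s + 1) :=
      Finset.sum_nonneg fun s _ => mul_nonneg (hA0 s) (by positivity)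
    positivity
  have h6 := sumDel b F T
  have h7 : ∑ s ∈ range T, A s ≤ Var F (b ^ T) := h6
  linarith

theorem exc_card (b d q : ℕ) (hd : 0 < d) (F : ℕ → ℝ) (h : ((d * b : ℕ) : ℝ) ≤ inc F (d * b) q) :
    (((Finset.Ico (q * b) ((q + 1) * b)).filter (fun e => exc F d ((q + 1) * b) e)).card : ℝ) ≤
      Del b (fun x => F x - x) d q / d := by
  have hd' : (0 : ℝ) < d := by exact_mod_cast hd
  have h1 := sun (fun e => F (e * d) / d) ((q + 1) * b) b (q * b) (by ring)
  have h2 : (Finset.Ico (q * b) ((q + 1) * b)).filter (fun e => exc F d ((q + 1) * b) e) =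
      (Finset.Ico (q * b) ((q + 1) * b)).filter
      (fun i => ∃ e, i < e ∧ e ≤ (q + 1) * b ∧ F (e * d) / d - F (i * d) / d <
        ((e : ℝ) - i) / 2) := by
    refine Finset.filter_congr fun i _ => ?_
    unfold exc
    refine exists_congr fun e => and_congr_right fun _ => and_congr_right fun _ => ?_
    rw [← sub_div, div_lt_iff₀ hd']
    constructor <;> intro h <;> linarith
  rw [h2]
  refine h1.trans ?_
  rw [Finset.sum_Ico_eq_sum_range]
  have e0 : (q + 1) * b - q * b = b := by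
    rw [Nat.succ_mul]; omega
  rw [e0]
  set y : ℕ → ℝ := fun i => inc F d (q * b + i) / d with hy
  have h3 : ∀ i ∈ range b, max 0 (1 - (F ((q * b + i + 1) * d) / d - F ((q * b + i) * d) / d)) =
      (|y i - 1| - (y i - 1)) / 2 := by
    intro i _
    have : F ((q * b + i + 1) * d) / d - F ((q * b + i) * d) / d = y i := by
      simp only [hy, inc]; ring
    rw [this]
    rcases le_total (y i) 1 with h4 | h4
    · rw [max_eq_right (by linarith), abs_of_nonpos (by linarith)]; ring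
    · rw [max_eq_left (by linarith), abs_of_nonneg (by linarith)]; ring
  rw [Finset.sum_congr rfl h3, ← Finset.sum_div, Finset.sum_sub_distrib]
  have h5 : ∑ i ∈ range b, (y i - 1) = (inc F (d * b) q - ((d * b : ℕ) : ℝ)) / d := by
    rw [Finset.sum_sub_distrib, hy, ← Finset.sum_div, inc_sum]
    simp only [Finset.sum_const, Finset.card_range, nsmul_eq_mul, mul_one]
    push_cast
    field_simp
  have h6 : Del b (fun x => F x - x) d q / d =
      ∑ i ∈ range b, |y i - 1| - |∑ i ∈ range b, (y i - 1)| := by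
    rw [h5]
    simp only [Del]
    rw [sub_div, Finset.sum_div]
    congr 1
    · refine Finset.sum_congr rfl fun i _ => ?_
      have e3 : ∀ z : ℝ, |z| / d = |z / d| := fun z => by rw [abs_div, abs_of_pos hd']
      rw [e3]
      congr 1
      simp only [inc, hy]
      push_cast
      field_simp
      ring
    · have e3 : ∀ z : ℝ, |z| / d = |z / d| := fun z => by rw [abs_div, abs_of_pos hd']
      rw [e3]
      congr 2
      simp only [inc]
      push_cast
      ring
  have h7 : 0 ≤ ∑ i ∈ range b, (y i - 1) := by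
    rw [h5]; exact div_nonneg (by linarith) hd'.le
  rw [h6, abs_of_nonneg h7]
  linarith

end Pool.Agent.U999.OD
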